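import Pool.Agent.Lib.MP_07b2d0_nt.Fh.ADefs

/-!
Alternating polynomials of small degree; slices of polynomials.
-/

set_option autoImplicit false

namespace Pool.Agent.Lib.MP_07b2d0_nt.Fh

variable {L : Type} [Field L] {g : ℕ}

theorem aalt_coeff (P : MvPolynomial (Fin g) L) (π : Equiv.Perm (Fin g))
    (ha : MvPolynomial.rename π P = ((Equiv.Perm.sign π : ℤ) : MvPolynomial (Fin g) L) * P)
    (m : Fin g →₀ ℕ) :
    P.coeff (m.mapDomain π) = ((Equiv.Perm.sign π : ℤ) : L) * P.coeff m := by
  have h := MvPolynomial.coeff_rename_mapDomain π π.injective P m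
  rw [ha, ← map_intCast (MvPolynomial.C : L →+* MvPolynomial (Fin g) L),
    MvPolynomial.coeff_C_mul] at h
  rw [← h, ← mul_assoc, ← Int.cast_mul, ← Units.val_mul, Int.units_mul_self]
  simp

/-- An alternating polynomial of degree less than `g` in each variable is a multiple of the
Vandermonde determinant. -/
theorem alt_eq_vdm [CharZero L] (P : MvPolynomial (Fin g) L)
    (ha : ∀ π : Equiv.Perm (Fin g),
      MvPolynomial.rename π P = ((Equiv.Perm.sign π : ℤ) : MvPolynomial (Fin g) L) * P)
    (hd : ∀ m ∈ P.support, ∀ i, m i < g) :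
    ∃ lam : L, P = MvPolynomial.C lam * vdm MvPolynomial.X := by
  classical
  let m₀ : Fin g →₀ ℕ := Finsupp.equivFunOnFinite.symm fun i => (i : ℕ)
  have h0 : ∀ (π : Equiv.Perm (Fin g)) i, m₀.mapDomain π (π i) = i := fun π i => by
    rw [Finsupp.mapDomain_apply π.injective]
    rfl
  have hinj : ∀ σ π : Equiv.Perm (Fin g), m₀.mapDomain σ = m₀.mapDomain π → σ = π := by
    intro σ π h
    refine Equiv.ext fun i => ?_
    have h1 := h0 π (π.symm (σ i))
    rw [π.apply_symm_apply, ← h, h0] at h1
    rw [← π.apply_symm_apply (σ i), ← Fin.ext h1]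
  have hv : vdm (MvPolynomial.X : Fin g → MvPolynomial (Fin g) L) =
      ∑ σ : Equiv.Perm (Fin g),
        MvPolynomial.monomial (m₀.mapDomain σ) ((Equiv.Perm.sign σ : ℤ) : L) := by
    rw [vdm, Matrix.det_apply']
    refine Finset.sum_congr rfl fun σ _ => ?_
    rw [← MvPolynomial.rename_monomial, MvPolynomial.monomial_eq, map_mul, Finsupp.prod_fintype _ _
      (by simp), map_prod]
    simp [Matrix.vandermonde_apply, m₀]
  refine ⟨P.coeff m₀, MvPolynomial.ext _ _ fun m => ?_⟩
  rw [MvPolynomial.coeff_C_mul, hv, MvPolynomial.coeff_sum]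
  by_cases hm : ∃ π : Equiv.Perm (Fin g), m₀.mapDomain π = m
  · obtain ⟨π, rfl⟩ := hm
    rw [aalt_coeff P π (ha π), Finset.sum_eq_single π, MvPolynomial.coeff_monomial, if_pos rfl,
      mul_comm]
    · intro σ _ hσ
      rw [MvPolynomial.coeff_monomial, if_neg fun h => hσ (hinj _ _ h)]
    · simp
  · rw [Finset.sum_eq_zero fun σ _ => by
      rw [MvPolynomial.coeff_monomial, if_neg fun h => hm ⟨σ, h⟩], mul_zero]
    by_contra hc
    have hlt := hd m (MvPolynomial.mem_support_iff.2 hc)
    have hi : Function.Injective fun i => (⟨m i, hlt i⟩ : Fin g) := by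
      intro i j hij
      by_contra hne
      have hij : m i = m j := congrArg Fin.val hij
      have h1 := aalt_coeff P (Equiv.swap i j) (ha _) m
      have h2 : m.mapDomain (Equiv.swap i j) = m := by
        ext l
        rw [← (Equiv.swap i j).apply_symm_apply l,
          Finsupp.mapDomain_apply (Equiv.swap i j).injective, Equiv.apply_symm_apply,
          Equiv.symm_swap]
        exact Equiv.apply_swap_eq_self hij l
      rw [h2, Equiv.Perm.sign_swap hne] at h1
      have h3 : (2 : L) * P.coeff m = 0 := by
        simp only [Units.val_neg, Units.val_one, Int.cast_neg, Int.cast_one] at h1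
        linear_combination h1
      exact hc ((mul_eq_zero.1 h3).resolve_left two_ne_zero)
    let e := Equiv.ofBijective _ (Finite.injective_iff_bijective.1 hi)
    refine hm ⟨e.symm, Finsupp.ext fun l => ?_⟩
    have h1 := h0 e.symm (e l)
    rw [e.symm_apply_apply] at h1
    exact h1

/-- A polynomial in the `x l` as a polynomial in `x k`. -/
theorem exists_slice {E ι : Type} [Field E] [Algebra L E] {x : ι → E}
    (hx : AlgebraicIndependent L x) (k : ι) (K : IntermediateField L E)
    (hK : ∀ l, l ≠ k → x l ∈ K) (P : MvPolynomial ι L) :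
    ∃ A : Polynomial K, Polynomial.aeval (x k) A = MvPolynomial.aeval x P ∧
      ∀ m ∈ P.support, A.coeff (m k) ≠ 0 := by
  classical
  let y : ι → K := fun l => if h : l = k then 1 else ⟨x l, hK l h⟩
  let u : (ι →₀ ℕ) → K := fun m => algebraMap L K (P.coeff m) * m.prod fun l n => y l ^ n
  have hu : ∀ m, algebraMap K E (u m) * x k ^ m k =
      MvPolynomial.aeval x (MvPolynomial.monomial m (P.coeff m)) := fun m => by
    have h1 : x k ^ m k = m.prod fun l n => if l = k then x l ^ n else 1 := by
      rw [Finsupp.prod_ite_eq']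
      split_ifs with h
      · rfl
      · rw [Finsupp.notMem_support_iff.1 h, pow_zero]
    rw [MvPolynomial.aeval_monomial, map_mul, ← IsScalarTower.algebraMap_apply, mul_assoc, h1,
      map_finsuppProd, ← Finsupp.prod_mul]
    refine congrArg _ (Finsupp.prod_congr fun l _ => ?_)
    by_cases h : l = k
    · simp [y, h]
    · simp [y, h]
  refine ⟨∑ m ∈ P.support, Polynomial.monomial (m k) (u m), ?_, fun m hm h => ?_⟩
  · conv_rhs => rw [P.as_sum]
    rw [map_sum, map_sum]
    exact Finset.sum_congr rfl fun m _ => by rw [Polynomial.aeval_monomial, hu]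
  · have h1 : MvPolynomial.aeval x (∑ n ∈ P.support with n k = m k,
        MvPolynomial.monomial n (P.coeff n)) = 0 := by
      rw [Polynomial.finsetSum_coeff] at h
      simp only [Polynomial.coeff_monomial] at h
      rw [← Finset.sum_filter] at h
      have h2 := congrArg (fun a => algebraMap K E a * x k ^ m k) h
      simp only [map_zero, zero_mul, map_sum, Finset.sum_mul] at h2
      rw [map_sum, ← h2]
      exact Finset.sum_congr rfl fun n hn => by rw [← hu, (Finset.mem_filter.1 hn).2]
    have h3 := congrArg (MvPolynomial.coeff m) (hx.eq_zero_of_aeval_eq_zero _ h1)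
    rw [MvPolynomial.coeff_sum, Finset.sum_eq_single_of_mem m] at h3
    · exact MvPolynomial.mem_support_iff.1 hm (by simpa using h3)
    · exact Finset.mem_filter.2 ⟨hm, rfl⟩
    · intro n _ hn
      rw [MvPolynomial.coeff_monomial, if_neg hn]

end Pool.Agent.Lib.MP_07b2d0_nt.Fh
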