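import Pool.Agent.Lib.MP_07b2d0_nt.Fh.ADefs

/-!
Extension of homomorphisms into algebraically closed fields.
-/

set_option autoImplicit false

namespace Pool.Agent.Lib.MP_07b2d0_nt.Fh

theorem ext_integral {A B Ω : Type} [CommRing A] [CommRing B] [IsDomain B] [Algebra A B]
    [FaithfulSMul A B] [Algebra.IsIntegral A B] [Field Ω] [IsAlgClosed Ω] (φ : A →+* Ω) :
    ∃ P : B →+* Ω, ∀ a, P (algebraMap A B a) = φ a := by
  have : (RingHom.ker φ).IsPrime := RingHom.ker_isPrime φ
  obtain ⟨Q, hQ, e⟩ := Ideal.exists_ideal_over_prime_of_isIntegral_of_isDomain (S := B)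
    (RingHom.ker φ) (by
      rw [(RingHom.injective_iff_ker_eq_bot _).1 (FaithfulSMul.algebraMap_injective A B)]
      exact bot_le)
  let ψ : A ⧸ Q.comap (algebraMap A B) →+* Ω :=
    Ideal.Quotient.lift _ φ fun a ha => by rwa [e] at ha
  have hψ : Function.Injective ψ := by
    rw [injective_iff_map_eq_zero]
    intro x hx
    obtain ⟨a, rfl⟩ := Ideal.Quotient.mk_surjective x
    rw [Ideal.Quotient.eq_zero_iff_mem, e]
    exact hx
  let : Algebra (A ⧸ Q.comap (algebraMap A B)) Ω := ψ.toAlgebra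
  have : Module.IsTorsionFree (A ⧸ Q.comap (algebraMap A B)) Ω :=
    Module.isTorsionFree_iff_algebraMap_injective.2 hψ
  have : Module.IsTorsionFree (A ⧸ Q.comap (algebraMap A B)) (B ⧸ Q) :=
    Module.isTorsionFree_iff_algebraMap_injective.2 Ideal.algebraMap_quotient_injective
  have : Algebra.IsIntegral (A ⧸ Q.comap (algebraMap A B)) (B ⧸ Q) := Algebra.IsIntegral.quotient
  let f : (B ⧸ Q) →ₐ[A ⧸ Q.comap (algebraMap A B)] Ω := IsAlgClosed.lift
  exact ⟨f.toRingHom.comp (Ideal.Quotient.mk Q), fun a => f.commutes (Ideal.Quotient.mk _ a)⟩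

theorem ext_finiteType {A R : Type} [CommRing A] [IsDomain A] [CommRing R] [IsDomain R]
    [Algebra A R] [FaithfulSMul A R] [Algebra.FiniteType A R] [Algebra.IsAlgebraic A R] :
    ∃ d : A, d ≠ 0 ∧ ∀ (Ω : Type) [Field Ω] [IsAlgClosed Ω] (φ : A →+* Ω), φ d ≠ 0 →
      ∃ P : R →+* Ω, ∀ a, P (algebraMap A R a) = φ a := by
  obtain ⟨s, hs⟩ := Algebra.FiniteType.out (R := A) (A := R)
  obtain ⟨d, hd, hi⟩ := Algebra.IsAlgebraic.exists_integral_multiples A s
  refine ⟨d, hd, fun Ω _ _ φ hφ => ?_⟩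
  let B := integralClosure A R
  have key : ∀ r : R, ∃ n : ℕ, ∃ b : B, (b : R) = algebraMap A R d ^ n * r := by
    intro r
    have hr : r ∈ Algebra.adjoin A (s : Set R) := hs ▸ Algebra.mem_top
    induction hr using Algebra.adjoin_induction with
    | mem x hx => exact ⟨1, ⟨d • x, hi x hx⟩, by rw [pow_one, ← Algebra.smul_def]⟩
    | algebraMap a => exact ⟨0, algebraMap A B a, by simp⟩
    | add x y _ _ hx hy =>
      obtain ⟨n, b, e⟩ := hx
      obtain ⟨m, c, f⟩ := hy
      refine ⟨n + m, algebraMap A B d ^ m * b + algebraMap A B d ^ n * c, ?_⟩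
      push_cast
      rw [e, f]
      ring
    | mul x y _ _ hx hy =>
      obtain ⟨n, b, e⟩ := hx
      obtain ⟨m, c, f⟩ := hy
      refine ⟨n + m, b * c, ?_⟩
      push_cast
      rw [e, f]
      ring
  have : FaithfulSMul A B := (faithfulSMul_iff_algebraMap_injective A B).2 fun x y e =>
    FaithfulSMul.algebraMap_injective A R (congrArg Subtype.val e)
  obtain ⟨ψ, hψ⟩ := ext_integral (B := B) φ
  choose n b hb using key
  have val : ∀ (r : R) (m : ℕ) (c : B), (c : R) = algebraMap A R d ^ m * r →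
      ψ (b r) / φ d ^ n r = ψ c / φ d ^ m := by
    intro r m c e
    rw [div_eq_div_iff (pow_ne_zero _ hφ) (pow_ne_zero _ hφ), ← hψ d, ← map_pow ψ,
      ← map_pow ψ, ← map_mul, ← map_mul]
    refine congrArg ψ (Subtype.ext ?_)
    push_cast
    rw [e, hb]
    ring
  have al : ∀ a, ψ (b (algebraMap A R a)) / φ d ^ n (algebraMap A R a) = φ a := fun a => by
    rw [val _ 0 (algebraMap A B a) (by simp), pow_zero, div_one, hψ]
  refine ⟨{ toFun := fun r => ψ (b r) / φ d ^ n r
            map_one' := by simpa using al 1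
            map_zero' := by simpa using al 0
            map_mul' := fun x y => ?_
            map_add' := fun x y => ?_ }, al⟩
  · rw [val (x * y) (n x + n y) (b x * b y) (by push_cast; rw [hb, hb]; ring), map_mul, pow_add,
      div_mul_div_comm]
  · rw [val (x + y) (n x + n y) (algebraMap A B d ^ n y * b x + algebraMap A B d ^ n x * b y)
      (by push_cast; rw [hb, hb]; ring), map_add, map_mul, map_mul,
      map_pow, map_pow, hψ]
    field_simp
    ring

end Pool.Agent.Lib.MP_07b2d0_nt.Fh
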