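import Pool.Agent.Lib.MP_07b2d0_nt.Fh.ADefs

/-!
Elementary symmetric functions and the Vandermonde determinant.
-/

set_option autoImplicit false

namespace Pool.Agent.Lib.MP_07b2d0_nt.Fh

open Polynomial

variable {R R' : Type} [CommRing R] [CommRing R'] {g : ℕ}

theorem map_vdm (φ : R →+* R') (x : Fin g → R) : φ (vdm x) = vdm fun i => φ (x i) := by
  simp [vdm, Matrix.det_vandermonde]

theorem vdm_ne_zero [IsDomain R] {x : Fin g → R} (hx : Function.Injective x) : vdm x ≠ 0 := by
  exact Matrix.det_vandermonde_ne_zero_iff.2 hx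

theorem map_es (φ : R →+* R') (x : Fin g → R) (n : ℕ) :
    φ (es x n) = es (fun i => φ (x i)) n := by
  simp [es]

theorem es_perm (x : Fin g → R) (π : Equiv.Perm (Fin g)) (n : ℕ) :
    es (fun i => x (π i)) n = es x n := by
  conv_rhs => rw [es, ← Finset.map_univ_equiv π, Finset.powersetCard_map, Finset.sum_map]
  exact Finset.sum_congr rfl fun T _ => (Finset.prod_map T π.toEmbedding x).symm

theorem es_top (x : Fin g → R) : es x g = ∏ i, x i := by
  have := Finset.powersetCard_self (Finset.univ : Finset (Fin g))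
  rw [Finset.card_fin] at this
  rw [es, this, Finset.sum_singleton]

theorem prod_one_sub (x : Fin g → R) (c : R) :
    ∏ k, (1 - c * x k) = 1 + ∑ n : Fin g, (-c) ^ (n.1 + 1) * es x (n.1 + 1) := by
  simp only [sub_eq_add_neg, ← neg_mul]
  rw [Finset.prod_one_add, Finset.sum_powerset, Finset.card_fin, Finset.sum_range_succ', add_comm,
    Fin.sum_univ_eq_sum_range (fun n => (-c) ^ (n + 1) * es x (n + 1))]
  refine congrArg₂ _ (by simp) (Finset.sum_congr rfl fun n _ => ?_)
  rw [es, Finset.mul_sum]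
  refine Finset.sum_congr rfl fun T hT => ?_
  rw [Finset.prod_mul_distrib, Finset.prod_const, (Finset.mem_powersetCard.1 hT).2]

theorem aeval_Fp {m : ℕ} [Algebra R R'] (c : Fin m → R) (z : R') :
    aeval z (Fp c) = z * ∏ i, (1 - algebraMap R R' (c i) * z) := by
  simp [Fp, map_prod]

theorem map_Fp {m : ℕ} (φ : R →+* R') (c : Fin m → R) :
    (Fp c).map φ = Fp fun i => φ (c i) := by
  simp [Fp, Polynomial.map_prod]

theorem coeff_derivative_Fp {m : ℕ} (c : Fin m → R) : (derivative (Fp c)).coeff 0 = 1 := by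
  simp [Fp, coeff_zero_eq_eval_zero, eval_prod]

theorem Qf_es (c : Fin (2 * g) → R) (x : Fin g → R) {l : Fin g} (hl : l.1 + 1 = g) :
    Qf c (fun n => es x (n.1 + 1)) l = 4 ^ g * ∏ k, (Fp c).eval (x k) := by
  simp only [Qf, ← prod_one_sub, hl, es_top, Fp, eval_mul, eval_X, eval_prod, eval_sub, eval_one,
    eval_C, Finset.prod_mul_distrib, mul_assoc]
  rw [Finset.prod_comm]

theorem map_Qf (φ : R →+* R') (c : Fin (2 * g) → R) (t : Fin g → R) (l : Fin g) :
    φ (Qf c t l) = Qf (fun i => φ (c i)) (fun i => φ (t i)) l := by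
  simp [Qf, map_ofNat]

theorem alg_es {E : Type} [Field E] (x : Fin g → E) (i : Fin g) :
    IsAlgebraic (Algebra.adjoin ℤ (Set.range fun n : Fin g => es x (n.1 + 1))) (x i) := by
  by_cases h : x i = 0
  · exact h ▸ isAlgebraic_zero
  let t : Fin g → Algebra.adjoin ℤ (Set.range fun n : Fin g => es x (n.1 + 1)) :=
    fun n => ⟨_, Algebra.subset_adjoin ⟨n, rfl⟩⟩
  refine IsAlgebraic.inv_iff.1 (neg_neg (x i)⁻¹ ▸ IsAlgebraic.neg
    ⟨1 + ∑ n, C (t n) * X ^ (n.1 + 1), fun e => ?_, ?_⟩)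
  · simpa [eval_finsetSum] using congrArg (eval 0) e
  · have h1 := prod_one_sub x (x i)⁻¹
    rw [Finset.prod_eq_zero (Finset.mem_univ i) (by rw [inv_mul_cancel₀ h, sub_self])] at h1
    rw [h1, map_add, map_one, map_sum]
    exact congrArg _ (Finset.sum_congr rfl fun n _ => by
      rw [map_mul, aeval_C, aeval_X_pow, mul_comm]; rfl)

theorem vdm_mob {x x' v : Fin g → R} {μ : R}
    (h : ∀ i j, (x' j - x' i) * (v i * v j) = μ * (x j - x i)) :
    ∃ n : ℕ, vdm x' * ∏ k, v k ^ (g - 1) = μ ^ n * vdm x := by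
  have e : ∏ k, v k ^ (g - 1) = ∏ i, ∏ j ∈ Finset.Ioi i, v i * v j := by
    simp only [Finset.prod_mul_distrib]
    rw [Finset.prod_comm' (t' := Finset.univ) (s' := fun j => Finset.Iio j) (f := fun _ j => v j)
      (by simp), ← Finset.prod_mul_distrib]
    refine Finset.prod_congr rfl fun k _ => ?_
    rw [Finset.prod_const, Finset.prod_const, Fin.card_Ioi, Fin.card_Iio, ← pow_add]
    exact congrArg _ (by omega)
  refine ⟨∑ i : Fin g, (Finset.Ioi i).card, ?_⟩
  rw [e, vdm, vdm, Matrix.det_vandermonde, Matrix.det_vandermonde, ← Finset.prod_mul_distrib,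
    ← Finset.prod_pow_eq_pow_sum, ← Finset.prod_mul_distrib]
  refine Finset.prod_congr rfl fun i _ => ?_
  rw [← Finset.prod_mul_distrib, ← Finset.prod_const, ← Finset.prod_mul_distrib]
  exact Finset.prod_congr rfl fun j _ => h i j

end Pool.Agent.Lib.MP_07b2d0_nt.Fh
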