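import Pool.Agent.Lib.MP_07b2d0_nt.Fh.ANull
import Pool.Agent.Lib.MP_07b2d0_nt.Fh.AExt
import Pool.Agent.Lib.MP_07b2d0_nt.Fh.ASym

/-!
The archimedean lower bound.
-/

set_option autoImplicit false

namespace Pool.Agent.Lib.MP_07b2d0_nt.Fh

open NumberField MeasureTheory

variable {L : Type} [Field L] [NumberField L] {g : ℕ}

theorem exists_points {R : Type} [CommRing R] [IsDomain R] (κ : 𝓞 L →+* R) (hκ : κ.FiniteType)
    {t : Fin g → R} (ht : AlgebraicIndependent ℤ t)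
    (ha : ∀ z : R, IsAlgebraic (Algebra.adjoin ℤ (Set.range t)) z) (σ : L →+* ℂ) :
    ∃ Δ : MvPolynomial (Fin g) ℂ, Δ ≠ 0 ∧ ∀ z : Fin g → ℂ, MvPolynomial.eval z Δ ≠ 0 →
      ∃ P : R →+* ℂ, (∀ a, P (κ a) = σ a) ∧ ∀ i, P (t i) = z i := by
  let := κ.toAlgebra
  have hi : Function.Injective κ := (injective_iff_map_eq_zero κ).2 fun a h0 => by
    by_contra h1
    obtain ⟨n, hn, b, hb⟩ := (Algebra.IsAlgebraic.isAlgebraic (R := ℤ) a).exists_nonzero_dvd
      (mem_nonZeroDivisors_of_ne_zero h1)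
    refine hn (ht.algebraMap_injective ?_)
    rw [map_zero, ← κ.toIntAlgHom.commutes, hb, map_mul]
    exact mul_eq_zero_of_left h0 _
  have : FaithfulSMul (𝓞 L) R := (faithfulSMul_iff_algebraMap_injective _ _).2 hi
  have ht' : AlgebraicIndependent (𝓞 L) t := ht.extendScalars _
  let : Algebra (MvPolynomial (Fin g) (𝓞 L)) R := (MvPolynomial.aeval t).toAlgebra
  have : IsScalarTower (𝓞 L) (MvPolynomial (Fin g) (𝓞 L)) R :=
    .of_algebraMap_eq fun a => ((MvPolynomial.aeval t).commutes a).symm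
  have : FaithfulSMul (MvPolynomial (Fin g) (𝓞 L)) R :=
    (faithfulSMul_iff_algebraMap_injective _ _).2 ht'
  have : Algebra.FiniteType (𝓞 L) R := hκ
  have : Algebra.FiniteType (MvPolynomial (Fin g) (𝓞 L)) R :=
    .of_restrictScalars_finiteType (𝓞 L) _ _
  have : Algebra.IsAlgebraic (MvPolynomial (Fin g) (𝓞 L)) R := ⟨fun z => by
    refine (ha z).ringHom_of_comp_eq ((MvPolynomial.map (Int.castRingHom _)).comp
      ht.aevalEquiv.symm.toRingEquiv) (RingHom.id R) ((MvPolynomial.map_injective _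
        Int.cast_injective).comp ht.aevalEquiv.symm.injective) (RingHom.ext fun a => ?_)
    obtain ⟨p, rfl⟩ := ht.aevalEquiv.surjective a
    exact (congrArg (fun q => MvPolynomial.aeval t (MvPolynomial.map (algebraMap ℤ (𝓞 L)) q))
      (ht.aevalEquiv.symm_apply_apply p)).trans ((MvPolynomial.aeval_map_algebraMap _ t p).trans
        (ht.algebraMap_aevalEquiv p).symm)⟩
  obtain ⟨d, hd, h⟩ := ext_finiteType (A := MvPolynomial (Fin g) (𝓞 L)) (R := R)
  refine ⟨MvPolynomial.map (σ.comp (algebraMap (𝓞 L) L)) d, (map_ne_zero_iff _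
    (MvPolynomial.map_injective _ fun _ _ e => RingOfIntegers.coe_injective (σ.injective e))).2 hd,
    fun z hz => ?_⟩
  obtain ⟨P, hP⟩ := h ℂ (MvPolynomial.eval₂Hom (σ.comp (algebraMap (𝓞 L) L)) z)
    (by rwa [MvPolynomial.eval_map] at hz)
  exact ⟨P, fun a => (congrArg P (MvPolynomial.aeval_C t a).symm).trans
    ((hP _).trans (MvPolynomial.eval₂Hom_C _ _ a)), fun i => (congrArg P
      (MvPolynomial.aeval_X t i).symm).trans ((hP _).trans (MvPolynomial.eval₂Hom_X' _ _ i))⟩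

theorem arch' {R : Type} [CommRing R] [IsDomain R] (κ : 𝓞 L →+* R) (hκ : κ.FiniteType)
    {t : Fin g → R} (ht : AlgebraicIndependent ℤ t)
    (ha : ∀ z : R, IsAlgebraic (Algebra.adjoin ℤ (Set.range t)) z) {c : Fin (2 * g) → 𝓞 L}
    {l : Fin g} {h : R} {lam : 𝓞 L} (he : h ^ 2 * Qf (fun i => κ (c i)) t l = κ lam ^ 2)
    (σ : L →+* ℂ) {M : ℝ} (hM : 1 ≤ M) (hc : ∀ i, ‖σ (c i)‖ ≤ M) :
    ENNReal.ofReal (‖σ lam‖ ^ 2 / (4 ^ g * ((g + 1) * M ^ g) ^ (2 * g))) ≤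
      ∫⁻ z : Fin g → ℂ, ∑' P : {P : R →+* ℂ // (∀ a, P (κ a) = σ a) ∧ ∀ i, P (t i) = z i},
        ‖P.1 h‖ₑ ^ 2 := by
  obtain ⟨Δ, hΔ, H⟩ := exists_points κ hκ ht ha σ
  refine le_lintegral_of_polydisc hΔ fun z hz h0 => ?_
  obtain ⟨P, h1, h2⟩ := H z h0
  refine le_trans ?_ (ENNReal.le_tsum ⟨P, h1, h2⟩)
  have h3 := congrArg (fun a => ‖P a‖) he
  simp only [map_mul, map_pow, map_Qf, h1, h2, norm_mul, norm_pow] at h3
  rw [← ofReal_norm, ← ENNReal.ofReal_pow (norm_nonneg _)]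
  refine ENNReal.ofReal_le_ofReal (div_le_of_le_mul₀ (by positivity) (by positivity) ?_)
  rw [← h3]
  exact mul_le_mul_of_nonneg_left (norm_Qf_le l hM hc hz) (by positivity)

end Pool.Agent.Lib.MP_07b2d0_nt.Fh
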