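import Pool.Agent.Lib.MP_07b2d0_nt.Fh.ANf
import Pool.Agent.Lib.MP_07b2d0_nt.Fh.ASym

/-!
The content argument.
-/

set_option autoImplicit false

namespace Pool.Agent.Lib.MP_07b2d0_nt.Fh

open Polynomial NumberField

variable {O L E : Type} [CommRing O] [Field L] [Field E] [Algebra L E]
  [Algebra O L] [Algebra O E] [IsScalarTower O L E]

theorem Gen.content {ι : Type} [Fintype ι] {f₀ : O[X]} {x y : ι → E}
    (h : Gen (f₀.map (algebraMap O L)) x y) {lam : L}
    (hl : ∀ 𝔭 : Ideal O, 𝔭.IsMaximal → ∃ Q : MvPolynomial ι O,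
      MvPolynomial.map (Ideal.Quotient.mk 𝔭) Q ≠ 0 ∧
        algebraMap L E lam * MvPolynomial.aeval x Q ∈ RR O x y) :
    ∃ r : O, algebraMap O L r = lam := by
  classical
  let J : Ideal O := Submodule.comap (LinearMap.toSpanSingleton O L lam) (1 : Submodule O L)
  have hJ : ∀ r : O, r ∈ J ↔ ∃ a : O, algebraMap O L a = r • lam := fun r => Submodule.mem_one
  have top : J = ⊤ := by
    by_contra hne
    obtain ⟨𝔭, h𝔭, hle⟩ := Ideal.exists_le_maximal J hne
    obtain ⟨Q, hQ, hm⟩ := hl 𝔭 h𝔭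
    obtain ⟨P, hP⟩ := nf (f₀ := f₀) (fun i => by rw [h.eq i, aeval_map_algebraMap]) hm
    have h0 := h.nf_zero (P := fun ε => MvPolynomial.map (algebraMap O L) (P ε) -
      if ε = ∅ then MvPolynomial.C lam * MvPolynomial.map (algebraMap O L) Q else 0) (by
        simp only [map_sub, sub_mul, Finset.sum_sub_distrib, MvPolynomial.aeval_map_algebraMap]
        rw [← hP, Finset.sum_eq_single_of_mem ∅ (Finset.mem_univ _)]
        · rw [if_pos rfl, map_mul, MvPolynomial.aeval_C, MvPolynomial.aeval_map_algebraMap,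
            Finset.prod_empty, mul_one, sub_self]
        · intro ε _ hε
          rw [if_neg hε, map_zero, zero_mul]) ∅
    rw [if_pos rfl, sub_eq_zero] at h0
    refine hQ (MvPolynomial.ext _ _ fun m => ?_)
    rw [MvPolynomial.coeff_map, MvPolynomial.coeff_zero, Ideal.Quotient.eq_zero_iff_mem]
    refine hle ((hJ _).2 ⟨(P ∅).coeff m, ?_⟩)
    have := congrArg (MvPolynomial.coeff m) h0
    rw [MvPolynomial.coeff_map, MvPolynomial.coeff_C_mul, MvPolynomial.coeff_map] at this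
    rw [this, Algebra.smul_def, mul_comm]
  obtain ⟨a, ha⟩ := (hJ 1).1 (top ▸ Submodule.mem_top)
  exact ⟨a, ha.trans (one_smul O lam)⟩

theorem exists_num_den [NumberField L] {τ : L} (hτ : τ ≠ 0) (𝔭 : Ideal (𝓞 L))
    (h𝔭 : 𝔭.IsMaximal) : ∃ a b : 𝓞 L, τ * b = a ∧ b ≠ 0 ∧ (a ∉ 𝔭 ∨ b ∉ 𝔭) := by
  have hb : 𝔭 ≠ ⊥ := Ring.ne_bot_of_isMaximal_of_not_isField h𝔭 (RingOfIntegers.not_isField L)
  have := IsLocalization.AtPrime.isDiscreteValuationRing_of_dedekind_domain (𝓞 L) hb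
    (Localization.AtPrime 𝔭)
  obtain ⟨p, q, hq, rfl⟩ := IsFractionRing.div_surjective (A := 𝓞 L) τ
  have hq' : algebraMap (𝓞 L) L q ≠ 0 :=
    IsFractionRing.to_map_ne_zero_of_mem_nonZeroDivisors hq
  obtain ⟨c, hc⟩ := ValuationRing.cond (algebraMap (𝓞 L) (Localization.AtPrime 𝔭) p)
    (algebraMap (𝓞 L) (Localization.AtPrime 𝔭) q)
  obtain ⟨⟨n, s, hs⟩, e⟩ := IsLocalization.surj 𝔭.primeCompl c
  have s0 : s ≠ 0 := fun e => hs (e ▸ 𝔭.zero_mem)
  have inj := IsLocalization.injective (Localization.AtPrime 𝔭) 𝔭.primeCompl_le_nonZeroDivisors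
  have key : ∀ u v : 𝓞 L, algebraMap (𝓞 L) (Localization.AtPrime 𝔭) u * c =
      algebraMap (𝓞 L) (Localization.AtPrime 𝔭) v → u * n = v * s := fun u v huv => inj (by
    rw [map_mul, map_mul, ← huv, mul_assoc]
    exact congrArg _ e.symm)
  rcases hc with hc | hc
  · have k := key p q hc
    refine ⟨s, n, ?_, ?_, Or.inl hs⟩
    · change _ * algebraMap (𝓞 L) L n = algebraMap (𝓞 L) L s
      rw [div_mul_eq_mul_div, div_eq_iff hq', ← map_mul, ← map_mul, k, mul_comm]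
    · rintro rfl
      exact mul_ne_zero (nonZeroDivisors.ne_zero hq) s0 (k.symm.trans (mul_zero p))
  · refine ⟨n, s, ?_, s0, Or.inr hs⟩
    change _ * algebraMap (𝓞 L) L s = algebraMap (𝓞 L) L n
    rw [div_mul_eq_mul_div, div_eq_iff hq', ← map_mul, ← map_mul, ← key q p hc, mul_comm]

omit [Algebra O L] [Algebra O E] [IsScalarTower O L E] in
theorem map_ne_zero_of_prime {g : ℕ} (𝔭 : Ideal O) [𝔭.IsPrime] {H : O[X]}
    (hH : H.map (Ideal.Quotient.mk 𝔭) ≠ 0) (n : ℕ) :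
    MvPolynomial.map (Ideal.Quotient.mk 𝔭)
      ((∏ i, aeval (MvPolynomial.X i : MvPolynomial (Fin g) O) H) ^ n *
        vdm MvPolynomial.X) ≠ 0 := by
  rw [map_mul, map_pow, map_prod, map_vdm]
  refine mul_ne_zero (pow_ne_zero _ (Finset.prod_ne_zero_iff.2 fun i _ => ?_)) (vdm_ne_zero ?_)
  · have e : MvPolynomial.map (Ideal.Quotient.mk 𝔭)
        (aeval (MvPolynomial.X i : MvPolynomial (Fin g) O) H) =
        aeval (MvPolynomial.X i : MvPolynomial (Fin g) (O ⧸ 𝔭)) (H.map (Ideal.Quotient.mk 𝔭)) := by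
      rw [map_aeval_eq_aeval_map (φ := Ideal.Quotient.mk 𝔭)
        (ψ := MvPolynomial.map (Ideal.Quotient.mk 𝔭)), MvPolynomial.map_X]
      exact RingHom.ext fun a => (MvPolynomial.map_C (σ := Fin g) (Ideal.Quotient.mk 𝔭) a).symm
    rw [e]
    exact fun h0 => hH (transcendental_iff.1 (MvPolynomial.transcendental_X (O ⧸ 𝔭) i) _ h0)
  · simp only [MvPolynomial.map_X]
    exact MvPolynomial.X_injective

end Pool.Agent.Lib.MP_07b2d0_nt.Fh
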