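import Pool.Agent.Lib.MP_07b2d0_nt.Fh.Defs

/-!
Definitions of the algebraic block.
-/

set_option autoImplicit false

namespace Pool.Agent.Lib.MP_07b2d0_nt.Fh

open Polynomial

noncomputable section

/-- The ring generated by the coordinates. -/
abbrev RR (O : Type) [CommRing O] {E ι : Type} [CommRing E] [Algebra O E] (x y : ι → E) :
    Subalgebra O E :=
  Algebra.adjoin O (Set.range x ∪ Set.range y)

/-- The field generated by the points other than the `k`-th one. -/
def kap (L : Type) [Field L] {E ι : Type} [Field E] [Algebra L E] (x y : ι → E) (k : ι) :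
    IntermediateField L E :=
  IntermediateField.adjoin L (x '' {k}ᶜ ∪ y '' {k}ᶜ)

variable {R : Type} [CommRing R] {g : ℕ}

/-- The Vandermonde determinant. -/
def vdm (x : Fin g → R) : R := (Matrix.vandermonde x).det

/-- The elementary symmetric functions. -/
def es (x : Fin g → R) (n : ℕ) : R := ∑ T ∈ Finset.powersetCard n Finset.univ, ∏ i ∈ T, x i

/-- The polynomial `X ∏ (1 - c i X)`. -/
def Fp {m : ℕ} (c : Fin m → R) : R[X] := X * ∏ i, (1 - C (c i) * X)

variable {κ E : Type} [Field κ] [Field E] [Algebra κ E]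

/-- `z` is regular at the point `(0, e)` of the curve with coordinates `(s, w)`. -/
def InW (s w : E) (e : κ) (z : E) : Prop :=
  ∃ A B A' B' : κ[X], A'.eval 0 + B'.eval 0 * e ≠ 0 ∧
    z * (aeval s A' + aeval s B' * w) = aeval s A + aeval s B * w

/-- `E` is the function field of the curve `w ^ 2 = G(s)` with the smooth point `(0, e)`. -/
structure AtInf (s w : E) (G : κ[X]) (e : κ) : Prop where
  eq : w ^ 2 = aeval s G
  ev : G.eval 0 = e ^ 2
  ne : 2 * e ≠ 0
  ind : ∀ A B : κ[X], aeval s A + aeval s B * w = 0 → A = 0 ∧ B = 0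
  top : IntermediateField.adjoin κ {s, w} = ⊤

end

end Pool.Agent.Lib.MP_07b2d0_nt.Fh
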