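import Pool.Agent.Lib.MP_07b2d0_nt.Fh.ANf

/-!
The derivations `2 y_i ∂ / ∂ x_i`.
-/

set_option autoImplicit false

namespace Pool.Agent.Lib.MP_07b2d0_nt.Fh

open Polynomial

variable {L E : Type} [Field L] [Field E] [Algebra L E] {g : ℕ} {f : L[X]} {x y : Fin g → E}

theorem Gen.y_ne {ι : Type} {x y : ι → E} (h : Gen f x y) (i : ι) : y i ≠ 0 := by
  intro e
  exact one_ne_zero ((h.hyp i).one (α := 0) (β := 1) (by simp [e])).2

theorem Gen.exists_D (h : Gen f x y) : ∃ D : Fin g → Derivation L E E, IsD x y D := by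
  suffices H : ∀ i, ∃ D : Derivation L E E, ∀ l, D (x l) = if i = l then 2 * y i else 0 by
    choose D hD using H
    exact ⟨D, hD⟩
  intro i
  have := h.isFrac
  obtain ⟨φ, h1, h2⟩ := Gen.lift_ring (O := L) (L := L) (f₀ := f) (x := x) (y := y)
    (by simpa using h)
    (B := TrivSqZeroExt E E)
    (u := fun l => .inl (x l) + .inr (if i = l then 2 * y i else 0))
    (v := fun l => .inl (y l) + .inr (if i = l then aeval (x i) (derivative f) else 0)) fun l => by
      have e : ∀ p : L[X], aeval (TrivSqZeroExt.inl (x l) : TrivSqZeroExt E E) p =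
          .inl (aeval (x l) p) := fun p => aeval_algebraMap_apply (TrivSqZeroExt E E) (x l) p
      rw [aeval_add_of_sq_eq_zero _ _ _ (by rw [sq, TrivSqZeroExt.inr_mul_inr]), e, e, ← h.eq, sq]
      ext
      · simp [-DualNumber.inr_eq_smul_eps, sq]
      · by_cases hl : i = l
        · subst hl
          simp [-DualNumber.inr_eq_smul_eps]
          ring
        · simp [hl]
  have h3 : ∀ z : RR L x y, (φ z).fst = z := fun ⟨z, hz⟩ => by
    induction hz using Algebra.adjoin_induction with
    | mem z hz =>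
      rcases hz with ⟨l, rfl⟩ | ⟨l, rfl⟩
      · simp [-DualNumber.inr_eq_smul_eps, h1]
      · simp [-DualNumber.inr_eq_smul_eps, h2]
    | algebraMap c => exact congrArg TrivSqZeroExt.fst (φ.commutes c)
    | add a b ha hb e1 e2 =>
      exact (congrArg TrivSqZeroExt.fst (map_add φ ⟨a, ha⟩ ⟨b, hb⟩)).trans (congrArg₂ (· + ·) e1 e2)
    | mul a b ha hb e1 e2 =>
      exact (congrArg TrivSqZeroExt.fst (map_mul φ ⟨a, ha⟩ ⟨b, hb⟩)).trans (congrArg₂ (· * ·) e1 e2)
  let ψ : E →ₐ[L] TrivSqZeroExt E E :=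
    IsLocalization.liftAlgHom (M := nonZeroDivisors (RR L x y)) (f := φ) fun z =>
      TrivSqZeroExt.isUnit_iff_isUnit_fst.2 (by simp [h3])
  have h4 : ∀ z : RR L x y, ψ z = φ z := fun z => IsLocalization.lift_eq _ z
  have h5 : ∀ z, (ψ z).fst = z := fun z => DFunLike.congr_fun
    (IsLocalization.ringHom_ext (nonZeroDivisors (RR L x y))
      (j := ((TrivSqZeroExt.fstHom L E E).comp ψ : E →+* E)) (k := RingHom.id E)
      (RingHom.ext fun z => (congrArg TrivSqZeroExt.fst (h4 z)).trans (h3 z))) z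
  refine ⟨Derivation.mk' (((TrivSqZeroExt.sndHom E E).restrictScalars L).comp ψ.toLinearMap)
    fun a b => ?_, fun l => ?_⟩
  · change (ψ (a * b)).snd = a • (ψ b).snd + b • (ψ a).snd
    rw [map_mul, TrivSqZeroExt.snd_mul, h5, h5, op_smul_eq_smul]
  · change (ψ (x l)).snd = _
    rw [h4 ⟨x l, Algebra.subset_adjoin (.inl ⟨l, rfl⟩)⟩, h1]
    simp [-DualNumber.inr_eq_smul_eps]

theorem Gen.D_y [CharZero L] (h : Gen f x y) {D : Fin g → Derivation L E E} (hD : IsD x y D)
    (i l : Fin g) : D i (y l) = if i = l then aeval (x i) (derivative f) else 0 := by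
  have := charZero_of_injective_algebraMap (algebraMap L E).injective
  have e := congrArg (D i) (h.eq l)
  rw [Derivation.map_aeval, Derivation.leibniz_pow, hD i l] at e
  refine mul_left_cancel₀ (mul_ne_zero (two_ne_zero' E) (h.y_ne l)) ?_
  split_ifs at e ⊢ with hl
  · subst hl
    simp only [Nat.add_one_sub_one, pow_one, smul_eq_mul, nsmul_eq_mul, Nat.cast_ofNat] at e
    linear_combination e
  · simp only [Nat.add_one_sub_one, pow_one, smul_eq_mul, nsmul_eq_mul, Nat.cast_ofNat] at e
    linear_combination e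

/-- The elements that a derivation maps into a subring. -/
theorem der_adjoin {O : Type} [CommRing O] [Algebra O E] (D : Derivation L E E) (W : Subring E)
    (h0 : ∀ c : O, algebraMap O E c ∈ W ∧ D (algebraMap O E c) ∈ W) {G : Set E}
    (hG : ∀ z ∈ G, z ∈ W ∧ D z ∈ W) {z : E} (hz : z ∈ Algebra.adjoin O G) :
    z ∈ W ∧ D z ∈ W := by
  induction hz using Algebra.adjoin_induction with
  | mem z hz => exact hG z hz
  | algebraMap c => exact h0 c
  | add a b _ _ e1 e2 => exact ⟨add_mem e1.1 e2.1, map_add D a b ▸ add_mem e1.2 e2.2⟩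
  | mul a b _ _ e1 e2 =>
    exact ⟨mul_mem e1.1 e2.1, D.leibniz a b ▸ add_mem (mul_mem e1.1 e2.2) (mul_mem e2.1 e1.2)⟩

theorem der_field (D : Derivation L E E) (W : IntermediateField L E) {G : Set E}
    (hG : ∀ z ∈ G, z ∈ W ∧ D z ∈ W) {z : E} (hz : z ∈ IntermediateField.adjoin L G) :
    D z ∈ W := by
  have hW : ∀ z ∈ IntermediateField.adjoin L G, z ∈ W :=
    IntermediateField.adjoin_le_iff.2 fun z hz => (hG z hz).1
  induction hz using IntermediateField.adjoin_induction with
  | mem z hz => exact (hG z hz).2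
  | algebraMap c => exact D.map_algebraMap c ▸ zero_mem _
  | add a b _ _ e1 e2 => exact map_add D a b ▸ add_mem e1 e2
  | inv a ha e => exact D.leibniz_inv a ▸ mul_mem (neg_mem (pow_mem (inv_mem (hW a ha)) 2)) e
  | mul a b ha hb e1 e2 =>
    exact D.leibniz a b ▸ add_mem (mul_mem (hW a ha) e2) (mul_mem (hW b hb) e1)

theorem der_zero (D : Derivation L E E) {G : Set E} (hG : ∀ z ∈ G, D z = 0) {z : E}
    (hz : z ∈ IntermediateField.adjoin L G) : D z = 0 := by
  induction hz using IntermediateField.adjoin_induction with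
  | mem z hz => exact hG z hz
  | algebraMap c => exact D.map_algebraMap c
  | add a b _ _ e1 e2 => rw [map_add, e1, e2, add_zero]
  | inv a _ e => rw [D.leibniz_inv, e, smul_zero]
  | mul a b _ _ e1 e2 => rw [D.leibniz, e1, e2, smul_zero, smul_zero, add_zero]

/-- The automorphisms that permute the points permute the derivations. -/
theorem Gen.exists_perm [CharZero L] (h : Gen f x y) {D : Fin g → Derivation L E E}
    (hD : IsD x y D) (π : Equiv.Perm (Fin g)) :
    ∃ τ : E →ₐ[L] E, (∀ i, τ (x i) = x (π i)) ∧ (∀ i, τ (y i) = y (π i)) ∧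
      ∀ l z, τ (D l z) = D (π l) (τ z) := by
  obtain ⟨s, s0, s1, s2⟩ := h.lift' (RingHom.id L) (x' := x ∘ π) (y' := y ∘ π)
    (h.ind.comp π π.injective) fun i => by simpa using h.eq (π i)
  let τ : E →ₐ[L] E := ⟨s, s0⟩
  have t1 : ∀ i, τ (x i) = x (π i) := s1
  have t2 : ∀ i, τ (y i) = y (π i) := s2
  refine ⟨τ, t1, t2, fun l z => ?_⟩
  have hz : z ∈ IntermediateField.adjoin L (Set.range x ∪ Set.range y) := h.top ▸ trivial
  induction hz using IntermediateField.adjoin_induction with
  | mem z hz =>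
    rcases hz with ⟨i, rfl⟩ | ⟨i, rfl⟩
    · simp only [t1, hD l i, hD (π l) (π i), π.apply_eq_iff_eq, apply_ite τ, map_mul, map_ofNat, t2,
        map_zero]
    · simp only [t2, h.D_y hD, π.apply_eq_iff_eq, apply_ite τ, ← aeval_algHom_apply, t1, map_zero]
  | algebraMap c => simp
  | add a b _ _ e1 e2 => simp only [map_add, e1, e2]
  | inv a _ e => simp only [map_inv₀, Derivation.leibniz_inv, smul_eq_mul, map_mul, map_neg,
      map_pow, e]
  | mul a b _ _ e1 e2 => simp only [map_mul, Derivation.leibniz, smul_eq_mul, map_add, e1, e2]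

end Pool.Agent.Lib.MP_07b2d0_nt.Fh
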