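import Pool.Agent.Lib.MP_07b2d0_nt.Fh.ADefs

/-!
The transcendence degree of the function field of a smooth ring.
-/

set_option autoImplicit false

namespace Pool.Agent.Lib.MP_07b2d0_nt.Fh

variable {F : Type} [Field F] {g : ℕ}

/-- A field that is quasi-finite over `P` is algebraic over `k` if the image of `P` is. -/
theorem adim_alg {P k : Type} [CommRing P] [Field k] [Algebra P F] [Algebra k F]
    [Algebra.QuasiFinite P F] (h : ∀ p : P, IsAlgebraic k (algebraMap P F p)) :
    Algebra.IsAlgebraic k F := by
  let K := algebraicClosure k F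
  let : Algebra P K := ((algebraMap P F).codRestrict K.toSubalgebra.toSubring
    fun p => mem_algebraicClosure_iff.2 (h p)).toAlgebra
  have : IsScalarTower P K F := IsScalarTower.of_algebraMap_eq fun _ => rfl
  have : Algebra.QuasiFinite K F := Algebra.QuasiFinite.of_restrictScalars P K F
  have : Module.Finite K F := Module.Finite.of_quasiFinite
  exact Algebra.IsAlgebraic.trans k K F

theorem dim_of_smooth' {B R : Type} [CommRing B] [CommRing R] [IsDomain R] [Algebra B R]
    [Algebra.IsStandardSmoothOfRelativeDimension g B R] [Algebra R F] [IsFractionRing R F]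
    (hB : ∀ b : B, IsAlgebraic ℤ b) : Dim g F := by
  intro s hs
  have : CharZero F := charZero_of_injective_algebraMap hs.algebraMap_injective
  have : Algebra.IsAlgebraic ℤ ℚ := IsLocalization.isAlgebraic ℚ (nonZeroDivisors ℤ)
  have hq : AlgebraicIndependent ℚ s := hs.extendScalars ℚ
  obtain ⟨φ, hφ⟩ := Algebra.IsStandardSmoothOfRelativeDimension.exists_etale_mvPolynomial g B R
  let : Algebra (MvPolynomial (Fin g) B) R := φ.toRingHom.toAlgebra
  have : Algebra.Etale (MvPolynomial (Fin g) B) R := hφ
  let : Algebra (MvPolynomial (Fin g) B) F := ((algebraMap R F).comp φ.toRingHom).toAlgebra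
  have : IsScalarTower (MvPolynomial (Fin g) B) R F := IsScalarTower.of_algebraMap_eq fun _ => rfl
  have : Algebra.QuasiFinite (MvPolynomial (Fin g) B) F :=
    Algebra.QuasiFinite.trans (MvPolynomial (Fin g) B) R F
  let t : Fin g → F := fun i => algebraMap (MvPolynomial (Fin g) B) F (MvPolynomial.X i)
  have ht : ∀ i, IsAlgebraic (IntermediateField.adjoin ℚ (Set.range t)) (t i) := fun i =>
    isAlgebraic_algebraMap (⟨t i, IntermediateField.subset_adjoin _ _ ⟨i, rfl⟩⟩ :
      IntermediateField.adjoin ℚ (Set.range t))
  have h1 : Algebra.IsAlgebraic (IntermediateField.adjoin ℚ (Set.range t)) F := by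
    refine adim_alg (P := MvPolynomial (Fin g) B) fun p => ?_
    induction p using MvPolynomial.induction_on with
    | C b =>
      exact ((hB b).algHom (((algebraMap (MvPolynomial (Fin g) B) F).comp
        MvPolynomial.C).toIntAlgHom)).extendScalars (RingHom.injective_int _)
    | add p q hp hq => rw [map_add]; exact hp.add hq
    | mul_X p i hp => rw [map_mul]; exact hp.mul (ht i)
  have := IntermediateField.isAlgebraic_adjoin_iff_top.1 h1
  have h2 := hq.cardinalMk_le_trdeg.trans
    ((Algebra.IsAlgebraic.trdeg_le_cardinalMk ℚ (Set.range t)).trans Cardinal.mk_range_le)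
  rw [Cardinal.mk_fin, Cardinal.mk_fin, Nat.cast_le] at h2
  omega

end Pool.Agent.Lib.MP_07b2d0_nt.Fh
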