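import Pool.Agent.Lib.MP_07b2d0_nt.Fh.ARig

/-!
Dominance and the transcendence degree.
-/

set_option autoImplicit false

namespace Pool.Agent.Lib.MP_07b2d0_nt.Fh

open Polynomial NumberField

variable {L E F : Type} [Field L] [Field E] [Field F] [Algebra L E] {g : ℕ}

theorem indep_of_alg {A : Type} [CommRing A] [IsDomain A] [Algebra A E] {x t : Fin g → E}
    (hx : AlgebraicIndependent A x) (ha : ∀ z : E, IsAlgebraic (Algebra.adjoin A (Set.range t)) z) :
    AlgebraicIndependent A t := by
  have : FaithfulSMul A E := (faithfulSMul_iff_algebraMap_injective A E).2 hx.algebraMap_injective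
  have : Algebra.IsAlgebraic (Algebra.adjoin A (Set.range t)) E := ⟨ha⟩
  exact (Algebra.IsAlgebraic.isTranscendenceBasis_of_lift_le_trdeg_of_finite A t
    hx.lift_cardinalMk_le_trdeg).1

theorem dom' [NumberField L] {f : L[X]} {x y : Fin g → E} (h : Gen f x y) {O : Type} [CommRing O]
    [IsDomain O] [Algebra O F] [IsFractionRing O F] (θ : O →+* E) (hr : Rig θ x)
    (hd : Dim g F) : Function.Injective θ := by
  have : CharZero E := charZero_of_injective_algebraMap (algebraMap L E).injective
  have alg : ∀ z : E, IsAlgebraic θ.range z :=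
    h.alg_all (fun c => alg_const c) fun i => hr.isAlgebraic i
  have : Algebra.IsAlgebraic θ.range E := ⟨alg⟩
  have hx : AlgebraicIndependent ℤ x := h.ind.restrictScalars (algebraMap ℤ L).injective_int
  obtain ⟨ι, b, hb⟩ := exists_isTranscendenceBasis' ℤ θ.range
  have le : Cardinal.mk (Fin g) ≤ Cardinal.mk ι := by
    rw [hb.cardinalMk_eq_trdeg, ← add_zero (Algebra.trdeg ℤ θ.range),
      ← trdeg_eq_zero (R := θ.range) (A := E), trdeg_add_eq]
    exact hx.cardinalMk_le_trdeg
  obtain ⟨e⟩ := (Cardinal.le_def _ _).1 le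
  choose t ht using fun i : Fin g => θ.rangeRestrict_surjective (b (e i))
  have h1 : AlgebraicIndependent ℤ (θ.rangeRestrict.toIntAlgHom ∘ t) := by
    rw [show θ.rangeRestrict.toIntAlgHom ∘ t = b ∘ e from funext ht]
    exact hb.1.comp _ e.injective
  have h2 : AlgebraicIndependent ℤ t := .of_comp _ h1
  refine (injective_iff_map_eq_zero θ).2 fun a ha => by_contra fun h0 => ?_
  have h3 : IsAlgebraic (Algebra.adjoin ℤ (Set.range t)) a := by
    by_contra hn
    exact hd _ ((((h2.option_iff_transcendental a).2 hn).comp _ (finSuccEquiv g).injective).map'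
      (f := (algebraMap O F).toIntAlgHom) (IsFractionRing.injective O F))
  obtain ⟨⟨r, hr⟩, r0, c, hc⟩ := h3.exists_nonzero_dvd (mem_nonZeroDivisors_of_ne_zero h0)
  rw [Algebra.adjoin_range_eq_range_aeval] at hr
  obtain ⟨q, rfl⟩ := hr
  have h4 : MvPolynomial.aeval (θ.rangeRestrict.toIntAlgHom ∘ t) q = 0 := by
    have h5 : MvPolynomial.aeval t q = a * c := hc
    rw [Function.comp_def, ← MvPolynomial.comp_aeval_apply, h5, map_mul]
    exact mul_eq_zero_of_left (Subtype.ext ha) _
  obtain rfl := algebraicIndependent_iff.1 h1 q h4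
  exact r0 (Subtype.ext (map_zero _))

end Pool.Agent.Lib.MP_07b2d0_nt.Fh
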