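import Pool.Agent.Lib.MP_07b2d0_nt.Fh.ADefs

/-!
Independence of the monomials in the `y i` over the field of the `x i`.
-/

set_option autoImplicit false

namespace Pool.Agent.Lib.MP_07b2d0_nt.Fh

open Polynomial

section One

variable {κ E : Type} [Field κ] [Field E] [Algebra κ E] {f : κ[X]} {x y : E}

theorem aind_one (hs : f.Separable) (hd : 0 < f.natDegree) (hx : Transcendental κ x)
    (hy : y ^ 2 = aeval x f) {α β : κ[X]} (h : aeval x α + aeval x β * y = 0) :
    α = 0 ∧ β = 0 := by
  have hinj := transcendental_iff_injective.mp hx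
  have e : α ^ 2 = β ^ 2 * f := by
    apply hinj
    simp only [map_pow, map_mul, ← hy]
    rw [eq_neg_of_add_eq_zero_left h]; ring
  have hβ : β = 0 := by
    by_contra hβ
    obtain ⟨γ, rfl⟩ : β ∣ α := (IsIntegrallyClosed.pow_dvd_pow_iff two_ne_zero).mp ⟨f, e⟩
    have e2 : f = γ * γ := by
      apply mul_left_cancel₀ (pow_ne_zero 2 hβ)
      rw [← e]; ring
    have hu := hs.squarefree γ ⟨1, by rw [e2, mul_one]⟩
    have h0 := natDegree_eq_zero_of_isUnit (hu.mul hu)
    rw [← e2] at h0
    omega
  refine ⟨hinj ?_, hβ⟩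
  simpa [hβ] using h

theorem aind_one' (hs : f.Separable) (hd : 0 < f.natDegree) (hx : Transcendental κ x)
    (hy : y ^ 2 = aeval x f) {A B : E} (hA : A ∈ IntermediateField.adjoin κ {x})
    (hB : B ∈ IntermediateField.adjoin κ {x}) (h : A + B * y = 0) : A = 0 ∧ B = 0 := by
  rw [IntermediateField.mem_adjoin_simple_iff] at hA hB
  obtain ⟨a, a', rfl⟩ := hA
  obtain ⟨b, b', rfl⟩ := hB
  by_cases ha : aeval x a' = 0
  · have hy0 : y ≠ 0 := fun h0 =>
      one_ne_zero (aind_one hs hd hx hy (α := 0) (β := 1) (by simp [h0])).2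
    simp only [ha, div_zero, zero_add, mul_eq_zero, hy0, or_false] at h
    simp [ha, h]
  by_cases hb : aeval x b' = 0
  · simp only [hb, div_zero, zero_mul, add_zero] at h
    simp [hb, h]
  have := aind_one hs hd hx hy (α := a * b') (β := b * a') (by
    simp only [map_mul]
    field_simp at h
    linear_combination h)
  have h1 : a = 0 := (mul_eq_zero.mp this.1).resolve_right fun h => hb (by simp [h])
  have h2 : b = 0 := (mul_eq_zero.mp this.2).resolve_right fun h => ha (by simp [h])
  simp [h1, h2]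

theorem Hyp.one (h : Hyp f x y) {α β : κ[X]} (h0 : aeval x α + aeval x β * y = 0) :
    α = 0 ∧ β = 0 :=
  aind_one h.sep h.deg h.trans h.eq h0

theorem Hyp.one' (h : Hyp f x y) {A B : E} (hA : A ∈ IntermediateField.adjoin κ {x})
    (hB : B ∈ IntermediateField.adjoin κ {x}) (h0 : A + B * y = 0) : A = 0 ∧ B = 0 :=
  aind_one' h.sep h.deg h.trans h.eq hA hB h0

end One

variable {L E ι : Type} [Field L] [Field E] [Algebra L E] {f : L[X]} {x y : ι → E}

theorem x_mem_kap {k l : ι} (h : l ≠ k) : x l ∈ kap L x y k :=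
  IntermediateField.subset_adjoin _ _ (Or.inl ⟨l, h, rfl⟩)

theorem y_mem_kap {k l : ι} (h : l ≠ k) : y l ∈ kap L x y k :=
  IntermediateField.subset_adjoin _ _ (Or.inr ⟨l, h, rfl⟩)

theorem aind_trans (hx : AlgebraicIndependent L x) (hy : ∀ i, y i ^ 2 = aeval (x i) f) (k : ι) :
    Transcendental (kap L x y k) (x k) := by
  set K0 := IntermediateField.adjoin L (x '' {k}ᶜ) with hK0
  have h1 : Transcendental K0 (x k) :=
    IntermediateField.transcendental_adjoin_iff.mpr (hx.transcendental_adjoin (by simp))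
  have h3 : kap L x y k ≤ (algebraicClosure K0 E).restrictScalars L := by
    refine IntermediateField.adjoin_le_iff.mpr ?_
    rintro z (⟨l, hl, rfl⟩ | ⟨l, hl, rfl⟩)
    · exact (algebraicClosure K0 E).algebraMap_mem
        (⟨x l, IntermediateField.subset_adjoin _ _ ⟨l, hl, rfl⟩⟩ : K0)
    · have hm : aeval (x l) f ∈ K0 := by
        have : x l ∈ K0.toSubalgebra := IntermediateField.subset_adjoin _ _ ⟨l, hl, rfl⟩
        exact Algebra.adjoin_le (Set.singleton_subset_iff.mpr this) (aeval_mem_adjoin_singleton L _)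
      refine mem_algebraicClosure_iff.mpr (IsAlgebraic.of_pow two_pos ?_)
      rw [hy]
      exact isAlgebraic_algebraMap (⟨_, hm⟩ : K0)
  exact Transcendental.of_tower_top_of_subalgebra_le
    (A := (kap L x y k).toSubalgebra)
    (B := ((algebraicClosure K0 E).restrictScalars L).toSubalgebra) h3 h1.algebraicClosure

theorem aind_x_mem (k l : ι) : x l ∈ IntermediateField.adjoin (kap L x y k) {x k} := by
  by_cases hl : l = k
  · subst hl
    exact IntermediateField.mem_adjoin_simple_self _ _
  · exact IntermediateField.algebraMap_mem _ (⟨x l, x_mem_kap hl⟩ : kap L x y k)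

theorem aind_aux [DecidableEq ι] (hs : f.Separable) (hd : 0 < f.natDegree)
    (hx : AlgebraicIndependent L x) (hy : ∀ i, y i ^ 2 = aeval (x i) f) (T : Finset ι)
    (c : Finset ι → E) (hc : ∀ ε, c ε ∈ IntermediateField.adjoin L (Set.range x))
    (h0 : ∑ ε ∈ T.powerset, c ε * ∏ k ∈ ε, y k = 0) : ∀ ε ∈ T.powerset, c ε = 0 := by
  induction T using Finset.induction_on generalizing c with
  | empty => simpa using h0
  | insert k T hk ih =>
    rw [Finset.sum_powerset_insert hk] at h0
    have hle : IntermediateField.adjoin L (Set.range x) ≤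
        (IntermediateField.adjoin (kap L x y k) {x k}).restrictScalars L := by
      refine IntermediateField.adjoin_le_iff.mpr ?_
      rintro z ⟨l, rfl⟩
      exact aind_x_mem k l
    have hmem : ∀ c' : Finset ι → E, (∀ ε, c' ε ∈ IntermediateField.adjoin L (Set.range x)) →
        ∑ ε ∈ T.powerset, c' ε * ∏ k ∈ ε, y k ∈
          IntermediateField.adjoin (kap L x y k) {x k} := by
      intro c' hc'
      refine sum_mem fun ε hε => mul_mem (hle (hc' ε)) (prod_mem fun l hl => ?_)
      have hl' : l ≠ k := fun e => hk (e ▸ Finset.mem_powerset.mp hε hl)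
      exact IntermediateField.algebraMap_mem _ (⟨y l, y_mem_kap hl'⟩ : kap L x y k)
    have e : ∑ ε ∈ T.powerset, c (insert k ε) * ∏ l ∈ insert k ε, y l =
        (∑ ε ∈ T.powerset, c (insert k ε) * ∏ l ∈ ε, y l) * y k := by
      rw [Finset.sum_mul]
      refine Finset.sum_congr rfl fun ε hε => ?_
      rw [Finset.prod_insert fun hh => hk (Finset.mem_powerset.mp hε hh)]
      ring
    rw [e] at h0
    obtain ⟨h1, h2⟩ := aind_one' (hs.map (f := algebraMap L (kap L x y k)))
      (by rwa [natDegree_map]) (aind_trans hx hy k) (by rw [aeval_map_algebraMap, hy]) (hmem c hc)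
      (hmem (fun ε => c (insert k ε)) fun ε => hc _) h0
    intro ε hε
    rw [Finset.powerset_insert, Finset.mem_union, Finset.mem_image] at hε
    rcases hε with hε | ⟨ε', hε', rfl⟩
    · exact ih c hc h1 ε hε
    · exact ih (fun ε => c (insert k ε)) (fun ε => hc _) h2 ε' hε'

theorem aind_indep [Fintype ι] (hs : f.Separable) (hd : 0 < f.natDegree)
    (hx : AlgebraicIndependent L x) (hy : ∀ i, y i ^ 2 = aeval (x i) f) (c : Finset ι → E)
    (hc : ∀ ε, c ε ∈ IntermediateField.adjoin L (Set.range x))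
    (h0 : ∑ ε, c ε * ∏ k ∈ ε, y k = 0) (ε : Finset ι) : c ε = 0 := by
  classical
  exact aind_aux hs hd hx hy Finset.univ c hc (by rwa [Finset.powerset_univ]) ε (by simp)

theorem Gen.hyp (h : Gen f x y) (k : ι) :
    Hyp (f.map (algebraMap L (kap L x y k))) (x k) (y k) := by
  refine ⟨h.sep.map, by rw [natDegree_map]; exact h.deg, aind_trans h.ind h.eq k,
    by rw [aeval_map_algebraMap, h.eq], ?_⟩
  have : IntermediateField.adjoin L (Set.range x ∪ Set.range y) ≤
      (IntermediateField.adjoin (kap L x y k) {x k, y k}).restrictScalars L := by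
    refine IntermediateField.adjoin_le_iff.mpr ?_
    rintro z (⟨l, rfl⟩ | ⟨l, rfl⟩) <;> by_cases hl : l = k
    · exact IntermediateField.subset_adjoin (kap L x y k) {x k, y k} (by simp [hl])
    · exact (IntermediateField.adjoin (kap L x y k) {x k, y k}).algebraMap_mem ⟨_, x_mem_kap hl⟩
    · exact IntermediateField.subset_adjoin (kap L x y k) {x k, y k} (by simp [hl])
    · exact (IntermediateField.adjoin (kap L x y k) {x k, y k}).algebraMap_mem ⟨_, y_mem_kap hl⟩
  rw [h.top] at this
  exact top_le_iff.mp fun z _ => this trivial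

theorem Gen.indep [Fintype ι] (h : Gen f x y) (c : Finset ι → E)
    (hc : ∀ ε, c ε ∈ IntermediateField.adjoin L (Set.range x))
    (h0 : ∑ ε, c ε * ∏ k ∈ ε, y k = 0) (ε : Finset ι) : c ε = 0 :=
  aind_indep h.sep h.deg h.ind h.eq c hc h0 ε

end Pool.Agent.Lib.MP_07b2d0_nt.Fh
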