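import Pool.Agent.Lib.MP_07b2d0_nt.Fh.AVal
import Pool.Agent.Lib.MP_07b2d0_nt.Fh.AInd

/-!
The two points at infinity of `y ^ 2 = f(x)`, `f` of degree `2 g + 2`.
-/

set_option autoImplicit false

namespace Pool.Agent.Lib.MP_07b2d0_nt.Fh

open Polynomial

variable {L κ E : Type} [Field L] [Field κ] [Field E] [Algebra L E] [Algebra κ E]

section

variable {s w : E} {G : κ[X]} {e : κ}

theorem ainf_mem (s w : E) (e : κ) (A B : κ[X]) : InW s w e (aeval s A + aeval s B * w) :=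
  ⟨A, B, 1, 0, by simp, by simp⟩

theorem ainf_unit (h : AtInf s w G e) {A B : κ[X]} (hAB : A.eval 0 + B.eval 0 * e ≠ 0) :
    aeval s A + aeval s B * w ≠ 0 ∧ InW s w e (aeval s A + aeval s B * w)⁻¹ := by
  have h0 : aeval s A + aeval s B * w ≠ 0 := fun h0 => by
    obtain ⟨rfl, rfl⟩ := h.ind A B h0
    simp at hAB
  exact ⟨h0, 1, 0, A, B, hAB, by rw [inv_mul_cancel₀ h0]; simp⟩

theorem AtInf.stable (h : AtInf s w G e) (D : Derivation L E E)
    (hc : ∀ c : κ, InW s w e (D (algebraMap κ E c))) (hs : InW s w e (D s)) {z : E}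
    (hz : InW s w e z) : InW s w e (D z) := by
  obtain ⟨W, hW⟩ := h.exists_subalgebra
  simp only [← hW] at hc hs hz ⊢
  have hm : ∀ A B : κ[X], aeval s A + aeval s B * w ∈ W := fun A B => (hW _).2 (ainf_mem s w e A B)
  have ha : ∀ A : κ[X], aeval s A ∈ W := fun A => by simpa using hm A 0
  have hw : w ∈ W := by simpa using hm 0 1
  have hs' : s ∈ W := by simpa using ha X
  have hP : ∀ A : κ[X], D (aeval s A) ∈ W := by
    intro A
    induction A using Polynomial.induction_on with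
    | C a => simpa using hc a
    | add p q hp hq => simpa using W.add_mem hp hq
    | monomial n a ih =>
      rw [pow_succ, ← mul_assoc, map_mul, aeval_X, D.leibniz, smul_eq_mul, smul_eq_mul]
      exact W.add_mem (W.mul_mem (ha _) hs) (W.mul_mem hs' ih)
  have hDw : D w ∈ W := by
    obtain ⟨h0, h1⟩ := ainf_unit h (A := 0) (B := 2) (by simpa using h.ne)
    have e2 : aeval s (0 : κ[X]) + aeval s (2 : κ[X]) * w = 2 * w := by
      rw [map_zero, zero_add, map_ofNat]
    rw [e2] at h0 h1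
    have h2 : D w = (2 * w)⁻¹ * D (aeval s G) := by
      rw [← h.eq, sq, D.leibniz, smul_eq_mul, ← two_mul, ← mul_assoc 2, inv_mul_cancel_left₀ h0]
    rw [h2]
    exact W.mul_mem ((hW _).2 h1) (hP G)
  have hQ : ∀ A B : κ[X], D (aeval s A + aeval s B * w) ∈ W := fun A B => by
    rw [map_add, D.leibniz, smul_eq_mul, smul_eq_mul]
    exact W.add_mem (hP A) (W.add_mem (W.mul_mem (ha B) hDw) (W.mul_mem hw (hP B)))
  obtain ⟨A, B, A', B', hne, hA⟩ := (hW z).1 hz
  obtain ⟨h0, h1⟩ := ainf_unit h hne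
  have h2 := congrArg D hA
  rw [D.leibniz, smul_eq_mul, smul_eq_mul] at h2
  have h3 : D z = (aeval s A' + aeval s B' * w)⁻¹ *
      (D (aeval s A + aeval s B * w) - z * D (aeval s A' + aeval s B' * w)) := by
    rw [← h2, add_sub_cancel_left, inv_mul_cancel_left₀ h0]
  rw [h3]
  exact W.mul_mem ((hW _).2 h1) (W.sub_mem (hQ A B) (W.mul_mem hz (hQ A' B')))

theorem ainf_ev (h : AtInf s w G e) {e' : κ} (he : e' ^ 2 = e ^ 2) {z : E} (h1 : InW s w e' z)
    {N : ℕ} {a b : κ[X]} (hz : z * s ^ (N + 1) = aeval s a + aeval s b * w) :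
    a.eval 0 + b.eval 0 * e' = 0 := by
  obtain ⟨A, B, A', B', hne, hA⟩ := h1
  obtain ⟨h2, h3⟩ := h.ind (a * A' + b * B' * G - X ^ (N + 1) * A)
    (a * B' + b * A' - X ^ (N + 1) * B) (by
      simp only [map_sub, map_add, map_mul, map_pow, aeval_X, ← h.eq]
      linear_combination s ^ (N + 1) * hA - (aeval s A' + aeval s B' * w) * hz)
  have h4 := congrArg (eval 0) h2
  have h5 := congrArg (eval 0) h3
  simp only [eval_sub, eval_add, eval_mul, eval_pow, eval_X, zero_pow N.succ_ne_zero, zero_mul,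
    sub_zero, eval_zero, h.ev] at h4 h5
  refine (mul_eq_zero.1 ?_).resolve_right hne
  linear_combination h4 + e' * h5 + b.eval 0 * B'.eval 0 * he

theorem AtInf.dvd (h : AtInf s w G e) {z : E} (h1 : InW s w e z) (h2 : InW s w (-e) z) (N : ℕ)
    {a b : κ[X]} (hz : z * s ^ N = aeval s a + aeval s b * w) : X ^ N ∣ a ∧ X ^ N ∣ b := by
  have hs : s ≠ 0 := fun h0 => X_ne_zero (h.ind X 0 (by simp [h0])).1
  induction N generalizing a b with
  | zero => simp
  | succ N ih =>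
    have h3 := ainf_ev h rfl h1 hz
    have h4 := ainf_ev h (neg_sq e) h2 hz
    have hb : b.eval 0 = 0 :=
      (mul_eq_zero.1 (show 2 * e * b.eval 0 = 0 by linear_combination h3 - h4)).resolve_left h.ne
    rw [hb, zero_mul, add_zero] at h3
    obtain ⟨a, rfl⟩ := X_dvd_iff.2 ((coeff_zero_eq_eval_zero a).trans h3)
    obtain ⟨b, rfl⟩ := X_dvd_iff.2 ((coeff_zero_eq_eval_zero b).trans hb)
    obtain ⟨h5, h6⟩ := ih (a := a) (b := b) (mul_left_cancel₀ hs (by
      simp only [map_mul, aeval_X] at hz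
      linear_combination hz))
    rw [pow_succ']
    exact ⟨mul_dvd_mul_left _ h5, mul_dvd_mul_left _ h6⟩

end

variable {f : κ[X]} {x y : E} {g : ℕ} {e : κ}

theorem ainf_reflect (hx : x ≠ 0) {n : ℕ} {A : κ[X]} (hA : A.natDegree ≤ n) :
    aeval x⁻¹ (reflect n A) = aeval x A * x⁻¹ ^ n := by
  let _ := invertibleOfNonzero hx
  have h := eval₂_reflect_mul_pow (algebraMap κ E) x n A hA
  rw [invOf_eq_inv] at h
  rw [aeval_def, aeval_def, ← h, mul_assoc, ← mul_pow, mul_inv_cancel₀ hx, one_pow, mul_one]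

theorem ainf_ne (h : Hyp f x y) : x ≠ 0 := fun h0 => h.trans (h0 ▸ isAlgebraic_zero)

theorem Hyp.atInf [CharZero κ] (h : Hyp f x y) (hd : f.natDegree = 2 * g + 2)
    (hl : f.leadingCoeff = e ^ 2) : AtInf x⁻¹ (y * x⁻¹ ^ (g + 1)) f.reverse e := by
  have hx := ainf_ne h
  have hf : f ≠ 0 := fun h0 => by simpa [h0] using h.deg
  have he : e ≠ 0 := fun h0 => hf (leadingCoeff_eq_zero.1 (by simp [hl, h0]))
  have ht : Transcendental κ x⁻¹ := fun ha => h.trans (IsAlgebraic.inv_iff.1 ha)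
  refine ⟨?_, ?_, mul_ne_zero two_ne_zero he, fun A B h0 => ?_, ?_⟩
  · rw [reverse, ainf_reflect hx le_rfl, ← h.eq, hd]
    ring
  · rw [← coeff_zero_eq_eval_zero, coeff_zero_reverse, hl]
  · have hm : x⁻¹ ∈ IntermediateField.adjoin κ {x} :=
      inv_mem (IntermediateField.mem_adjoin_simple_self κ x)
    have hP : ∀ P : κ[X], aeval x⁻¹ P ∈ IntermediateField.adjoin κ {x} := fun P =>
      (Algebra.adjoin_le (S := (IntermediateField.adjoin κ {x}).toSubalgebra)
        (Set.singleton_subset_iff.2 hm)) (aeval_mem_adjoin_singleton κ x⁻¹)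
    obtain ⟨h1, h2⟩ := h.one' (hP A) (mul_mem (hP B) (pow_mem hm (g + 1)))
      (by linear_combination h0)
    have h3 := (mul_eq_zero.1 h2).resolve_right (pow_ne_zero _ (inv_ne_zero hx))
    exact ⟨transcendental_iff.1 ht A h1, transcendental_iff.1 ht B h3⟩
  · rw [eq_top_iff, ← h.top, IntermediateField.adjoin_le_iff]
    have h1 : x ∈ IntermediateField.adjoin κ {x⁻¹, y * x⁻¹ ^ (g + 1)} :=
      inv_mem_iff.1 (IntermediateField.subset_adjoin _ _ (Or.inl rfl))
    have h2 : y * x⁻¹ ^ (g + 1) ∈ IntermediateField.adjoin κ {x⁻¹, y * x⁻¹ ^ (g + 1)} :=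
      IntermediateField.subset_adjoin _ _ (Or.inr rfl)
    rintro _ (rfl | rfl)
    · exact h1
    · have h3 := mul_mem h2 (pow_mem h1 (g + 1))
      rwa [mul_assoc, ← mul_pow, inv_mul_cancel₀ hx, one_pow, mul_one] at h3

/-- The valuation rings of the two points at infinity. -/
theorem Hyp.exists_inf [CharZero κ] (h : Hyp f x y) (hg : 0 < g) (hd : f.natDegree = 2 * g + 2)
    (hl : f.leadingCoeff = e ^ 2) :
    ∃ W : Bool → ValuationSubring E, (∀ b c, algebraMap κ E c ∈ W b) ∧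
      (∀ b, y * x⁻¹ ^ (g + 1) ∈ W b) ∧
      (∀ b (D : Derivation L E E), (∀ c, D (algebraMap κ E c) ∈ W b) → D x⁻¹ ∈ W b →
        ∀ z ∈ W b, D z ∈ W b) ∧
      ∀ A B : κ[X], (∀ b, x⁻¹ ^ (g - 1) * (aeval x A + aeval x B * y) ∈ W b) →
        B = 0 ∧ ∀ j, g ≤ j → A.coeff j = 0 := by
  have hx := ainf_ne h
  have hb : ∀ b : Bool, AtInf x⁻¹ (y * x⁻¹ ^ (g + 1)) f.reverse (cond b e (-e)) := fun b =>
    h.atInf hd (by cases b <;> simp [hl])
  choose W hW using fun b => (hb b).exists_val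
  refine ⟨W, fun b c => (hW b _).2 ?_, fun b => (hW b _).2 ?_, fun b D hc hs z hz => ?_,
    fun A B hAB => ?_⟩
  · simpa using ainf_mem x⁻¹ (y * x⁻¹ ^ (g + 1)) (cond b e (-e)) (C c) 0
  · simpa using ainf_mem x⁻¹ (y * x⁻¹ ^ (g + 1)) (cond b e (-e)) 0 1
  · exact (hW b _).2 ((hb b).stable D (fun c => (hW b _).1 (hc c)) ((hW b _).1 hs) ((hW b _).1 hz))
  · obtain ⟨g, rfl⟩ : ∃ g', g = g' + 1 := ⟨g - 1, by omega⟩
    obtain ⟨n, hA, hB⟩ : ∃ n, A.natDegree ≤ n ∧ B.natDegree ≤ n :=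
      ⟨_, le_max_left _ _, le_max_right _ _⟩
    obtain ⟨h1, h2⟩ := (hb true).dvd ((hW true _).1 (hAB true)) ((hW false _).1 (hAB false))
      (n + 2) (a := X ^ (g + 1 + 1) * reflect n A) (b := reflect n B) (by
        rw [map_mul, map_pow, aeval_X, ainf_reflect hx hA, ainf_reflect hx hB, Nat.add_sub_cancel]
        ring)
    rw [X_pow_dvd_iff] at h1 h2
    refine ⟨Polynomial.ext fun j => ?_, fun j hj => ?_⟩
    · rcases le_or_gt j n with h3 | h3
      · have h4 := h2 (n - j) (by omega)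
        rwa [coeff_reflect, revAt_le (Nat.sub_le _ _), Nat.sub_sub_self h3] at h4
      · exact coeff_eq_zero_of_natDegree_lt (hB.trans_lt h3)
    · rcases le_or_gt j n with h3 | h3
      · have h4 := h1 (n - j + (g + 1 + 1)) (by omega)
        rwa [coeff_X_pow_mul, coeff_reflect, revAt_le (Nat.sub_le _ _), Nat.sub_sub_self h3] at h4
      · exact coeff_eq_zero_of_natDegree_lt (hA.trans_lt h3)

end Pool.Agent.Lib.MP_07b2d0_nt.Fh
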