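import Pool.Agent.Lib.MP_07b2d0_nt.Fh.ADefs

/-!
The pairing of forms with derivations.
-/

set_option autoImplicit false

namespace Pool.Agent.Lib.MP_07b2d0_nt.Fh

variable {L E F : Type} [Field L] [Field E] [Field F] [Algebra L E] {g : ℕ} {ι : F →+* E}
  {D : Fin g → Derivation L E E} {p : ⋀[F]^g Ω[F⁄ℤ] →+ E} {S : Set (Subring F)}

theorem exists_pair (ι : F →+* E) (D : Fin g → Derivation L E E) :
    ∃ p : ⋀[F]^g Ω[F⁄ℤ] →+ E, IsPair ι D p := by
  let _ := ι.toAlgebra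
  let d : Fin g → Derivation ℤ F E := fun l => Derivation.mk'
    ((D l).toLinearMap.toAddMonoidHom.comp ι.toAddMonoidHom).toIntLinearMap fun a b => by
      change D l (ι (a * b)) = ι a * D l (ι b) + ι b * D l (ι a)
      rw [map_mul, Derivation.leibniz, smul_eq_mul, smul_eq_mul]
  let m : (Fin g → E) [⋀^Fin g]→ₗ[F] E :=
    { (Matrix.detRowAlternating (n := Fin g) (R := E)).toMultilinearMap.restrictScalars F with
      map_eq_zero_of_eq' := Matrix.detRowAlternating.map_eq_zero_of_eq' }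
  let q := exteriorPower.alternatingMapLinearEquiv
    (m.compLinearMap (LinearMap.pi fun l => (d l).liftKaehlerDifferential))
  refine ⟨q.toAddMonoidHom, fun a α => q.map_smul a α, fun t => ?_⟩
  refine (exteriorPower.alternatingMapLinearEquiv_apply_ιMulti _ _).trans ?_
  refine congrArg Matrix.det (funext₂ fun i l => ?_)
  exact Derivation.liftKaehlerDifferential_comp_D (d l) (t i)

theorem IsPair.scale (hp : IsPair ι D p) (u : Fin g → E) :
    IsPair ι (fun l => u l • D l) ((AddMonoidHom.mulLeft (∏ l, u l)).comp p) := by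
  refine ⟨fun a α => ?_, fun t => ?_⟩
  · change _ * p _ = _ * (_ * p _)
    rw [hp.1, mul_left_comm]
  · change _ * p _ = _
    rw [hp.2, ← Matrix.det_mul_row]
    rfl

theorem apair_ind {T : Subring F} (hT : T ∈ S) {α : ⋀[F]^g Ω[F⁄ℤ]} (hα : α ∈ LamS g S)
    (W : AddSubgroup (⋀[F]^g Ω[F⁄ℤ]))
    (h : ∀ a ∈ T, ∀ t : Fin g → F, (∀ i, t i ∈ T) → a • dw t ∈ W) : α ∈ W := by
  refine (AddSubgroup.closure_le W).2 ?_
    (AddSubgroup.mem_iInf.1 (AddSubgroup.mem_iInf.1 hα T) hT)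
  rintro _ ⟨a, ha, t, ht, rfl⟩
  exact h a ha t ht

theorem IsPair.perm (hp : IsPair ι D p) (τ : E →+* E) (π : Equiv.Perm (Fin g))
    (hτ : ∀ a, τ (ι a) = ι a) (hD : ∀ l z, τ (D l z) = D (π l) (τ z)) {T : Subring F}
    (hT : T ∈ S) {α : ⋀[F]^g Ω[F⁄ℤ]} (hα : α ∈ LamS g S) :
    τ (p α) = ((Equiv.Perm.sign π : ℤ) : E) * p α := by
  refine apair_ind hT hα ((τ.toAddMonoidHom.comp p).eqLocus
    ((AddMonoidHom.mulLeft ((Equiv.Perm.sign π : ℤ) : E)).comp p)) fun a _ t _ => ?_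
  change τ (p _) = _ * p _
  rw [hp.1, hp.2, map_mul, hτ, RingHom.map_det, mul_left_comm, ← Matrix.det_permute']
  refine congrArg (fun M => ι a * Matrix.det M) (funext₂ fun i l => ?_)
  exact (hD _ _).trans (by rw [hτ]; rfl)

theorem IsPair.mem (hp : IsPair ι D p) (W : Subring E) (hD : ∀ l, ∀ z ∈ W, D l z ∈ W)
    {T : Subring F} (hT : T ∈ S) (hW : ∀ a ∈ T, ι a ∈ W) {α : ⋀[F]^g Ω[F⁄ℤ]}
    (hα : α ∈ LamS g S) : p α ∈ W := by
  refine apair_ind hT hα (W.toAddSubgroup.comap p) fun a ha t ht => ?_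
  change p _ ∈ W
  rw [hp.1, hp.2, Matrix.det_apply']
  exact mul_mem (hW a ha) (sum_mem fun σ _ => mul_mem (intCast_mem W _)
    (prod_mem fun i _ => hD _ _ (hW _ (ht _))))

theorem IsPair.mem_of_loc (hp : IsPair ι D p) {O : Type} [CommRing O] [Algebra O E]
    (R : Subalgebra O E) (hD : ∀ l, ∀ z ∈ R, D l z ∈ R)
    (hL : ∀ q : Ideal R, q.IsPrime → Loc ι S (algebraMap R E) q) {α : ⋀[F]^g Ω[F⁄ℤ]}
    (hα : α ∈ LamS g S) : p α ∈ R := by
  let I : Ideal R :=
    { carrier := {s | p α * s ∈ R}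
      add_mem' := fun {a b} ha hb => by
        change p α * (a + b) ∈ R
        rw [mul_add]
        exact add_mem ha hb
      zero_mem' := by simp
      smul_mem' := fun a b hb => by
        change p α * (a * b) ∈ R
        rw [mul_left_comm]
        exact mul_mem a.2 hb }
  by_contra h
  obtain ⟨q, hq, hI⟩ := I.exists_le_maximal fun e => h (by
    have h1 : (1 : R) ∈ I := e ▸ Submodule.mem_top
    simpa [I] using h1)
  have h1 : (1 : R) ∉ q := (Ideal.ne_top_iff_one q).1 hq.ne_top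
  have hm : ∀ {s s' : R}, s ∉ q → s' ∉ q → s * s' ∉ q := fun h h' e =>
    (hq.isPrime.mem_or_mem e).elim h h'
  let W : Subring E :=
    { carrier := {z | ∃ r s : R, s ∉ q ∧ z * s = r}
      mul_mem' := by
        rintro a b ⟨r, s, hs, e⟩ ⟨r', s', hs', e'⟩
        exact ⟨r * r', s * s', hm hs hs', by push_cast; rw [← e, ← e']; ring⟩
      one_mem' := ⟨1, 1, h1, by simp⟩
      add_mem' := by
        rintro a b ⟨r, s, hs, e⟩ ⟨r', s', hs', e'⟩
        exact ⟨r * s' + r' * s, s * s', hm hs hs', by push_cast; rw [← e, ← e']; ring⟩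
      zero_mem' := ⟨0, 1, h1, by simp⟩
      neg_mem' := by
        rintro a ⟨r, s, hs, e⟩
        exact ⟨-r, s, hs, by push_cast; rw [← e]; ring⟩ }
  obtain ⟨T, hT, hW⟩ := hL q hq.isPrime
  obtain ⟨r, s, hs, e⟩ := hp.mem W (by
    rintro l z ⟨r, s, hs, e⟩
    refine ⟨⟨_, hD l _ r.2⟩ * s - r * ⟨_, hD l _ s.2⟩, s * s, hm hs hs, ?_⟩
    push_cast
    rw [← e, Derivation.leibniz, smul_eq_mul, smul_eq_mul]
    ring) hT hW hα
  exact hs (hI (show p α * s ∈ R from e ▸ r.2))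

end Pool.Agent.Lib.MP_07b2d0_nt.Fh
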