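import Pool.Agent.Lib.MP_07b2d0_nt.Fh.ADer
import Pool.Agent.Lib.MP_07b2d0_nt.Fh.APair
import Pool.Agent.Lib.MP_07b2d0_nt.Fh.AInf
import Pool.Agent.Lib.MP_07b2d0_nt.Fh.AAlt
import Pool.Agent.Lib.MP_07b2d0_nt.Fh.ASym

/-!
Regular forms are multiples of the Vandermonde form.
-/

set_option autoImplicit false

namespace Pool.Agent.Lib.MP_07b2d0_nt.Fh

open Polynomial NumberField

variable {L E F : Type} [Field L] [NumberField L] [Field E] [Field F] [Algebra L E] {g : ℕ}
  {f : L[X]} {x y : Fin g → E} {κ : 𝓞 L →+* F} {ι : F →+* E} {S : Set (Subring F)}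
  {D : Fin g → Derivation L E E} {p : ⋀[F]^g Ω[F⁄ℤ] →+ E}

theorem ahol_bound (h : Setup f x y κ ι S) (hg : 0 < g) (hd : f.natDegree = 2 * g + 2) {e : L}
    (hl : f.leadingCoeff = e ^ 2) (hD : IsD x y D) (hp : IsPair ι D p) {α : ⋀[F]^g Ω[F⁄ℤ]}
    (hα : α ∈ LamS g S) (k : Fin g) (A B : (kap L x y k)[X])
    (hAB : p α = aeval (x k) A + aeval (x k) B * y k) :
    B = 0 ∧ ∀ j, g ≤ j → A.coeff j = 0 := by
  have : CharZero (kap L x y k) := charZero_of_injective_algebraMap (algebraMap L _).injective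
  obtain ⟨W, hW0, hWw, hWD, hWb⟩ := (h.gen.hyp k).exists_inf (L := L) hg
    (by rw [natDegree_map]; exact hd) (e := algebraMap L _ e)
    (by rw [leadingCoeff_map, hl, map_pow])
  refine hWb A B fun b => ?_
  obtain ⟨T, hT, hTW⟩ := h.val (W b) fun c => hW0 b (algebraMap L _ c)
  have key := (hp.scale fun l => if l = k then (x k)⁻¹ ^ (g - 1) else 1).mem (W b).toSubring
    (fun l => hWD b _ (fun c => ?_) ?_) hT hTW hα
  · simpa [hAB] using key
  · by_cases hl : l = k
    · have : D l (algebraMap (kap L x y k) E c) = 0 := by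
        refine der_zero _ ?_ c.2
        rintro z (⟨j, hj, rfl⟩ | ⟨j, hj, rfl⟩)
        · rw [hD, if_neg fun e => hj (e.symm.trans hl)]
        · rw [h.gen.D_y hD, if_neg fun e => hj (e.symm.trans hl)]
      rw [Derivation.smul_apply, this, smul_zero]
      exact zero_mem _
    · have : D l (algebraMap (kap L x y k) E c) ∈ kap L x y k := by
        refine der_field _ _ ?_ c.2
        rintro z (⟨j, hj, rfl⟩ | ⟨j, hj, rfl⟩)
        · refine ⟨x_mem_kap hj, ?_⟩
          rw [hD]
          split_ifs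
          · exact mul_mem (ofNat_mem _ 2) (y_mem_kap hl)
          · exact zero_mem _
        · refine ⟨y_mem_kap hj, ?_⟩
          rw [h.gen.D_y hD]
          split_ifs
          · have : x l ∈ (kap L x y k).toSubalgebra := x_mem_kap hl
            exact Algebra.adjoin_le (Set.singleton_subset_iff.mpr this)
              (aeval_mem_adjoin_singleton L _)
          · exact zero_mem _
      rw [Derivation.smul_apply, if_neg hl, one_smul]
      exact hW0 b ⟨_, this⟩
  · rw [Derivation.smul_apply, Derivation.leibniz_inv, hD]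
    by_cases hl : l = k
    · obtain ⟨n, rfl⟩ : ∃ n, g = n + 1 := ⟨g - 1, by omega⟩
      subst hl
      have := neg_mem (add_mem (hWw b) (hWw b))
      convert this using 1
      simp only [if_true, smul_eq_mul, Nat.add_sub_cancel]
      ring
    · simp [hl]

theorem ahol_poly (h : Setup f x y κ ι S) (hg : 0 < g) (hd : f.natDegree = 2 * g + 2) {e : L}
    (hl : f.leadingCoeff = e ^ 2) (hD : IsD x y D) (hp : IsPair ι D p) {α : ⋀[F]^g Ω[F⁄ℤ]}
    (hα : α ∈ LamS g S) : ∃ P : MvPolynomial (Fin g) L, p α = MvPolynomial.aeval x P := by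
  have hx : ∀ i, x i ∈ RR L x y := fun i => Algebra.subset_adjoin (Or.inl ⟨i, rfl⟩)
  have hy : ∀ i, y i ∈ RR L x y := fun i => Algebra.subset_adjoin (Or.inr ⟨i, rfl⟩)
  have hR : p α ∈ RR L x y := by
    refine hp.mem_of_loc _ (fun l z hz => (der_adjoin (D l) (RR L x y).toSubring
      (fun c => ⟨(RR L x y).algebraMap_mem c, by simp⟩) ?_ hz).2)
      (h.reg _ fun i => ⟨hx i, hy i⟩) hα
    rintro z (⟨j, rfl⟩ | ⟨j, rfl⟩)
    · refine ⟨hx j, ?_⟩
      rw [hD]
      split_ifs
      · exact mul_mem (ofNat_mem _ 2) (hy l)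
      · exact zero_mem _
    · refine ⟨hy j, ?_⟩
      rw [h.gen.D_y hD]
      split_ifs
      · exact Algebra.adjoin_le (Set.singleton_subset_iff.mpr (hx l))
          (aeval_mem_adjoin_singleton L _)
      · exact zero_mem _
  obtain ⟨P, hP⟩ := nf h.gen.eq hR
  refine ⟨P ∅, ?_⟩
  rw [hP, Finset.sum_eq_single ∅ (fun ε _ hε => ?_) (by simp), Finset.prod_empty, mul_one]
  obtain ⟨k, hk⟩ := Finset.nonempty_iff_ne_empty.mpr hε
  have mem : ∀ (Q : MvPolynomial (Fin g) L) (η : Finset (Fin g)), k ∉ η →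
      MvPolynomial.aeval x Q * ∏ i ∈ η, y i ∈ (aeval (R := kap L x y k) (x k)).range := by
    intro Q η hη
    obtain ⟨A, hA, -⟩ := exists_slice h.gen.ind k (kap L x y k) (fun l hl => x_mem_kap hl) Q
    refine mul_mem ⟨A, hA⟩ (prod_mem fun i hi => ?_)
    exact Subalgebra.algebraMap_mem _ (⟨y i, y_mem_kap fun e => hη (e ▸ hi)⟩ : kap L x y k)
  obtain ⟨A, hA⟩ : ∑ η with k ∉ η, MvPolynomial.aeval x (P η) * ∏ i ∈ η, y i ∈
      (aeval (R := kap L x y k) (x k)).range :=
    sum_mem fun η hη => mem _ _ (Finset.mem_filter.mp hη).2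
  obtain ⟨B, hB⟩ : ∑ η with k ∈ η, MvPolynomial.aeval x (P η) * ∏ i ∈ η.erase k, y i ∈
      (aeval (R := kap L x y k) (x k)).range :=
    sum_mem fun η _ => mem _ _ (Finset.notMem_erase k η)
  have hB' : aeval (x k) B * y k = ∑ η with k ∈ η, MvPolynomial.aeval x (P η) * ∏ i ∈ η, y i := by
    rw [show aeval (x k) B = _ from hB, Finset.sum_mul]
    refine Finset.sum_congr rfl fun η hη => ?_
    rw [mul_assoc, Finset.prod_erase_mul _ _ (Finset.mem_filter.mp hη).2]
  have hB0 := (ahol_bound h hg hd hl hD hp hα k A B (by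
    rw [hB', show aeval (x k) A = _ from hA, add_comm, Finset.sum_filter_add_sum_filter_not,
      hP])).1
  have := h.gen.nf_zero (P := fun η => if k ∈ η then P η else 0) (by
    rw [hB0, map_zero, zero_mul, Finset.sum_filter] at hB'
    rw [hB']
    refine Finset.sum_congr rfl fun η _ => ?_
    split_ifs <;> simp) ε
  rw [if_pos hk] at this
  simp [this]

theorem Setup.hol (h : Setup f x y κ ι S) (hg : 0 < g) (hd : f.natDegree = 2 * g + 2) {e : L}
    (hl : f.leadingCoeff = e ^ 2) (hD : IsD x y D) (hp : IsPair ι D p) {α : ⋀[F]^g Ω[F⁄ℤ]}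
    (hα : α ∈ LamS g S) : ∃ lam : L, p α = algebraMap L E lam * vdm x := by
  obtain ⟨P, hP⟩ := ahol_poly h hg hd hl hD hp hα
  refine (alt_eq_vdm P (fun π => ?_) fun m hm k => ?_).imp fun lam hlam => ?_
  rotate_left 2
  · rw [hP, hlam, map_mul, MvPolynomial.aeval_C]
    congr 1
    simpa using map_vdm (MvPolynomial.aeval (R := L) x).toRingHom MvPolynomial.X
  · obtain ⟨τ, hx, hy, hτ⟩ := h.gen.exists_perm hD π
    obtain ⟨T, hT, -⟩ := h.val ⊤ fun _ => trivial
    have := hp.perm τ.toRingHom π (h.sym π τ hx hy) hτ hT hα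
    apply h.gen.ind
    rw [MvPolynomial.aeval_rename, map_mul, map_intCast, ← hP, ← this, hP]
    change _ = (τ.comp (MvPolynomial.aeval x)) P
    rw [MvPolynomial.comp_aeval]
    congr 2
    exact funext fun i => (hx i).symm
  · obtain ⟨A, hA, hA'⟩ := exists_slice h.gen.ind k (kap L x y k) (fun l hl => x_mem_kap hl) P
    by_contra hlt
    exact hA' m hm ((ahol_bound h hg hd hl hD hp hα k A 0 (by simp [hA, hP])).2 _
      (not_lt.mp hlt))

end Pool.Agent.Lib.MP_07b2d0_nt.Fh
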