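import Pool.Agent.Lib.MP_07b2d0_nt.Fh.ANf

/-!
Smoothness of a localisation of the coordinate ring.
-/

set_option autoImplicit false

namespace Pool.Agent.Lib.MP_07b2d0_nt.Fh

open Polynomial

variable {O L E ι : Type} [CommRing O] [Field L] [Field E] [Algebra L E] [Fintype ι]
  [Algebra O L] [Algebra O E] [IsScalarTower O L E]

omit [Fintype ι] [Algebra O L] [IsScalarTower O L E] [Field L] [Algebra L E] in
theorem exists_pow_mul_mem {G : Set E} {δ : E} (hδ : δ ∈ Algebra.adjoin O G) (h0 : δ ≠ 0) {z : E}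
    (hz : z ∈ Algebra.adjoin O (insert δ⁻¹ G)) : ∃ n : ℕ, δ ^ n * z ∈ Algebra.adjoin O G := by
  induction hz using Algebra.adjoin_induction with
  | mem a ha =>
    rcases ha with rfl | ha
    · exact ⟨1, by rw [pow_one, mul_inv_cancel₀ h0]; exact one_mem _⟩
    · exact ⟨0, by rw [pow_zero, one_mul]; exact Algebra.subset_adjoin ha⟩
  | algebraMap r => exact ⟨0, by rw [pow_zero, one_mul]; exact Subalgebra.algebraMap_mem _ r⟩
  | add a b _ _ ha hb =>
    obtain ⟨m, hm⟩ := ha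
    obtain ⟨n, hn⟩ := hb
    refine ⟨m + n, ?_⟩
    rw [show δ ^ (m + n) * (a + b) = δ ^ n * (δ ^ m * a) + δ ^ m * (δ ^ n * b) by ring]
    exact add_mem (mul_mem (pow_mem hδ n) hm) (mul_mem (pow_mem hδ m) hn)
  | mul a b _ _ ha hb =>
    obtain ⟨m, hm⟩ := ha
    obtain ⟨n, hn⟩ := hb
    refine ⟨m + n, ?_⟩
    rw [show δ ^ (m + n) * (a * b) = δ ^ m * a * (δ ^ n * b) by ring]
    exact mul_mem hm hn

/-- Lifting by hand along a square zero ideal. -/
theorem Gen.smooth [IsNoetherianRing O] [FaithfulSMul O L] {f₀ : O[X]} {x y : ι → E}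
    (h : Gen (f₀.map (algebraMap O L)) x y) {δ : E} (hδ : δ ∈ RR O x y) (h0 : δ ≠ 0)
    (hd : ∀ i, ∃ γ ∈ RR O x y, δ = aeval (x i) (derivative f₀) * γ) :
    Algebra.Smooth O (Algebra.adjoin O (insert δ⁻¹ (Set.range x ∪ Set.range y))) := by
  set R' := Algebra.adjoin O (insert δ⁻¹ (Set.range x ∪ Set.range y)) with hR'
  have hle : RR O x y ≤ R' := Algebra.adjoin_mono (Set.subset_insert _ _)
  have hi : δ⁻¹ ∈ R' := Algebra.subset_adjoin (Set.mem_insert _ _)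
  have hx : ∀ i, x i ∈ RR O x y := fun i => Algebra.subset_adjoin (Or.inl ⟨i, rfl⟩)
  have hy : ∀ i, y i ∈ RR O x y := fun i => Algebra.subset_adjoin (Or.inr ⟨i, rfl⟩)
  let _ : Algebra (RR O x y) R' := (Subalgebra.inclusion hle).toRingHom.toAlgebra
  have : IsScalarTower O (RR O x y) R' := IsScalarTower.of_algebraMap_eq fun _ => rfl
  have hu : IsUnit (algebraMap (RR O x y) R' ⟨δ, hδ⟩) :=
    IsUnit.of_mul_eq_one ⟨δ⁻¹, hi⟩ (Subtype.ext (mul_inv_cancel₀ h0))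
  have : IsLocalization.Away (⟨δ, hδ⟩ : RR O x y) R' :=
    IsLocalization.Away.mk _ hu (fun z => by
      obtain ⟨n, hn⟩ := exists_pow_mul_mem hδ h0 z.2
      exact ⟨n, ⟨_, hn⟩, Subtype.ext (mul_comm _ _)⟩)
      fun a b e => ⟨0, by rw [Subalgebra.inclusion_injective hle e]⟩
  have : Algebra.FiniteType O R' := (Subalgebra.fg_iff_finiteType _).1
    (Subalgebra.fg_def.2 ⟨_, ((Set.finite_range x).union (Set.finite_range y)).insert _, rfl⟩)
  refine ⟨Algebra.FormallySmooth.of_comp_surjective fun B _ _ I hI φ => ?_,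
    Algebra.FinitePresentation.of_finiteType.1 this⟩
  let φ' : RR O x y →ₐ[O] B ⧸ I := φ.comp (Subalgebra.inclusion hle)
  have hφ : IsUnit (φ' ⟨δ, hδ⟩) := hu.map φ
  have ae : ∀ i (P : O[X]), ((aeval (⟨x i, hx i⟩ : RR O x y) P : RR O x y) : E) = aeval (x i) P :=
    fun i P => (aeval_algHom_apply (RR O x y).val _ P).symm
  choose u hu' using fun i => Ideal.Quotient.mkₐ_surjective O I (φ' ⟨x i, hx i⟩)
  choose v hv using fun i => Ideal.Quotient.mkₐ_surjective O I (φ' ⟨y i, hy i⟩)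
  have ae' : ∀ i (P : O[X]), Ideal.Quotient.mkₐ O I (aeval (u i) P) =
      φ' (aeval (⟨x i, hx i⟩ : RR O x y) P) := fun i P => by
    rw [← aeval_algHom_apply, ← aeval_algHom_apply, hu']
  have key : ∀ i, ∃ w : B, Ideal.Quotient.mkₐ O I w = φ' ⟨x i, hx i⟩ ∧ v i ^ 2 = aeval w f₀ := by
    intro i
    have h1 : v i ^ 2 - aeval (u i) f₀ ∈ I := by
      rw [← Ideal.Quotient.eq_zero_iff_mem, ← Ideal.Quotient.mkₐ_eq_mk O, map_sub, map_pow, hv, ae',
        ← map_pow, ← map_sub, show (⟨y i, hy i⟩ : RR O x y) ^ 2 -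
          aeval (⟨x i, hx i⟩ : RR O x y) f₀ = 0 from Subtype.ext ?_, map_zero]
      rw [AddSubgroupClass.coe_sub, ae, SubmonoidClass.coe_pow, h.eq i, aeval_map_algebraMap,
        sub_self, ZeroMemClass.coe_zero]
    obtain ⟨γ, hγ, e⟩ := hd i
    obtain ⟨d, hd'⟩ : IsUnit (aeval (u i) (derivative f₀)) := by
      rw [← IsNilpotent.isUnit_quotient_mk_iff (I := I) ⟨2, hI⟩, ← Ideal.Quotient.mkₐ_eq_mk O, ae']
      rw [show (⟨δ, hδ⟩ : RR O x y) = aeval (⟨x i, hx i⟩ : RR O x y) (derivative f₀) * ⟨γ, hγ⟩ from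
        Subtype.ext (by rw [MulMemClass.coe_mul, ae]; exact e), map_mul] at hφ
      exact isUnit_of_mul_isUnit_left hφ
    have h2 : (↑d⁻¹ : B) * (v i ^ 2 - aeval (u i) f₀) ∈ I := I.mul_mem_left _ h1
    refine ⟨u i + ↑d⁻¹ * (v i ^ 2 - aeval (u i) f₀), ?_, ?_⟩
    · rw [map_add, hu', Ideal.Quotient.mkₐ_eq_mk, Ideal.Quotient.eq_zero_iff_mem.2 h2, add_zero]
    · rw [aeval_add_of_sq_eq_zero _ _ _ (Ideal.mem_bot.1 (hI ▸ Ideal.pow_mem_pow h2 2)), ← hd',
        Units.mul_inv_cancel_left, add_sub_cancel]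
  choose w hw hw' using key
  obtain ⟨ψ, h1, h2⟩ := h.lift_ring hw'
  have e : (Ideal.Quotient.mkₐ O I).comp ψ = φ' := by
    refine AlgHom.ext_of_eq_adjoin rfl ?_
    rintro _ (⟨i, rfl⟩ | ⟨i, rfl⟩)
    · rw [AlgHom.comp_apply, h1, hw]
    · rw [AlgHom.comp_apply, h2, hv]
  have hψ : IsUnit (ψ ⟨δ, hδ⟩) := by
    rw [← IsNilpotent.isUnit_quotient_mk_iff (I := I) ⟨2, hI⟩]
    rwa [← e] at hφ
  have hM : ∀ z : Submonoid.powers (⟨δ, hδ⟩ : RR O x y), IsUnit (ψ z) := by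
    rintro ⟨_, n, rfl⟩
    rw [map_pow]
    exact hψ.pow n
  refine ⟨IsLocalization.liftAlgHom hM, AlgHom.coe_ringHom_injective
    (IsLocalization.ringHom_ext (Submonoid.powers (⟨δ, hδ⟩ : RR O x y)) ?_)⟩
  ext a
  have h3 := IsLocalization.lift_eq (S := R') (g := (ψ : RR O x y →+* B)) hM a
  exact (congrArg (Ideal.Quotient.mkₐ O I) h3).trans (AlgHom.congr_fun e a)

end Pool.Agent.Lib.MP_07b2d0_nt.Fh
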