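import Pool.Agent.Lib.MP_07b2d0_nt.Fh.ADer
import Pool.Agent.Lib.MP_07b2d0_nt.Fh.APair
import Pool.Agent.Lib.MP_07b2d0_nt.Fh.ASm
import Pool.Agent.Lib.MP_07b2d0_nt.Fh.ACon

/-!
Integrality of the coefficient of a regular form.
-/

set_option autoImplicit false

namespace Pool.Agent.Lib.MP_07b2d0_nt.Fh

open Polynomial NumberField

variable {L E F : Type} [Field L] [NumberField L] [Field E] [Field F] [Algebra L E] {g : ℕ}
  {f : L[X]} {x y x' y' : Fin g → E} {κ : 𝓞 L →+* F} {ι : F →+* E} {S : Set (Subring F)}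
  {D : Fin g → Derivation L E E} {p : ⋀[F]^g Ω[F⁄ℤ] →+ E} {c : Fin (2 * g) → 𝓞 L}

theorem Setup.integral (h : Setup f x y κ ι S)
    (h' : Gen ((Fp c).map (algebraMap (𝓞 L) L)) x' y') {τ : L} (hτ : τ ≠ 0)
    (hxy : ∀ R : Subalgebra L E, (∀ i, x' i ∈ R ∧ y' i ∈ R ∧
      (1 - algebraMap L E τ * x' i)⁻¹ ∈ R) → ∀ i, x i ∈ R ∧ y i ∈ R)
    (hD : IsD x' y' D) (hp : IsPair ι D p) {α : ⋀[F]^g Ω[F⁄ℤ]} (hα : α ∈ LamS g S) {lam : L}
    (hl : p α = algebraMap L E lam * vdm x') : ∃ r : 𝓞 L, algebraMap (𝓞 L) L r = lam := by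
  classical
  refine h'.content fun 𝔭 h𝔭 => ?_
  obtain ⟨a, b, hab, hb, hne⟩ := exists_num_den hτ 𝔭 h𝔭
  have hH : (derivative (Fp c) * (C b - C a * X)).map (Ideal.Quotient.mk 𝔭) ≠ 0 := by
    rw [Polynomial.map_mul]
    refine mul_ne_zero (fun h0 => ?_) fun h0 => hne.elim (fun h1 => h1 ?_) fun h1 => h1 ?_
    · simpa [coeff_derivative_Fp] using congrArg (coeff · 0) h0
    · simpa [coeff_C, Ideal.Quotient.eq_zero_iff_mem] using congrArg (coeff · 1) h0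
    · simpa [Ideal.Quotient.eq_zero_iff_mem] using congrArg (coeff · 0) h0
  have hx : ∀ i, x' i ∈ RR (𝓞 L) x' y' := fun i => Algebra.subset_adjoin (Or.inl ⟨i, rfl⟩)
  have hy : ∀ i, y' i ∈ RR (𝓞 L) x' y' := fun i => Algebra.subset_adjoin (Or.inr ⟨i, rfl⟩)
  have hm : ∀ i (P : (𝓞 L)[X]), aeval (x' i) P ∈ RR (𝓞 L) x' y' := fun i P =>
    Algebra.adjoin_le (Set.singleton_subset_iff.2 (hx i)) (aeval_mem_adjoin_singleton _ _)
  obtain ⟨δ, hδ⟩ : ∃ δ, δ = ∏ i, aeval (x' i) (derivative (Fp c) * (C b - C a * X)) := ⟨_, rfl⟩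
  have h0 : δ ≠ 0 := hδ ▸ Finset.prod_ne_zero_iff.2 fun i _ h0 =>
    (h'.ind.transcendental i).restrictScalars RingOfIntegers.coe_injective
      ⟨_, fun h1 => hH (by rw [h1, Polynomial.map_zero]), h0⟩
  have h1 : δ ∈ RR (𝓞 L) x' y' := hδ ▸ prod_mem fun i _ => hm i _
  have h2 : ∀ i, ∃ γ ∈ RR (𝓞 L) x' y',
      δ = aeval (x' i) (derivative (Fp c)) * (aeval (x' i) (C b - C a * X) * γ) := fun i =>
    ⟨_, prod_mem fun j _ => hm j _, hδ.trans ((Finset.mul_prod_erase _ _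
      (Finset.mem_univ i)).symm.trans (by rw [map_mul, mul_assoc]))⟩
  have hle : RR (𝓞 L) x' y' ≤ Algebra.adjoin (𝓞 L) (insert δ⁻¹ (Set.range x' ∪ Set.range y')) :=
    Algebra.adjoin_mono (Set.subset_insert _ _)
  have hi : δ⁻¹ ∈ Algebra.adjoin (𝓞 L) (insert δ⁻¹ (Set.range x' ∪ Set.range y')) :=
    Algebra.subset_adjoin (Set.mem_insert _ _)
  have hc : ∀ l (W : Subalgebra (𝓞 L) E) (r : 𝓞 L), algebraMap _ E r ∈ W.toSubring ∧
      D l (algebraMap _ E r) ∈ W.toSubring := fun l W r => ⟨W.algebraMap_mem r, by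
    rw [IsScalarTower.algebraMap_apply _ L E, Derivation.map_algebraMap]
    exact zero_mem _⟩
  have hG : ∀ l, ∀ z ∈ Set.range x' ∪ Set.range y', z ∈ RR (𝓞 L) x' y' ∧
      D l z ∈ RR (𝓞 L) x' y' := by
    rintro l _ (⟨i, rfl⟩ | ⟨i, rfl⟩)
    · refine ⟨hx i, ?_⟩
      rw [hD]
      split_ifs
      exacts [mul_mem (ofNat_mem _ 2) (hy l), zero_mem _]
    · refine ⟨hy i, ?_⟩
      rw [h'.D_y hD, derivative_map, aeval_map_algebraMap]
      split_ifs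
      exacts [hm l _, zero_mem _]
  have hD' : ∀ l, D l δ⁻¹ ∈
      Algebra.adjoin (𝓞 L) (insert δ⁻¹ (Set.range x' ∪ Set.range y')) := fun l => by
    rw [Derivation.leibniz_inv]
    exact mul_mem (neg_mem (pow_mem hi 2)) 
      (hle (der_adjoin (D l) _ (hc l (RR (𝓞 L) x' y')) (hG l) h1).2)
  have hu : ∀ i, (1 - algebraMap L E τ * x' i)⁻¹ ∈
      Algebra.adjoin (𝓞 L) (insert δ⁻¹ (Set.range x' ∪ Set.range y')) := fun i => by
    obtain ⟨γ, hγ, e⟩ := h2 i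
    have e' : algebraMap (𝓞 L) E a = algebraMap L E τ * algebraMap (𝓞 L) E b := by
      rw [IsScalarTower.algebraMap_apply _ L E a, IsScalarTower.algebraMap_apply _ L E b,
        ← map_mul]
      exact congrArg _ hab.symm
    rw [map_sub, map_mul, aeval_C, aeval_C, aeval_X, e'] at e
    rw [inv_eq_of_mul_eq_one_right (a := 1 - algebraMap L E τ * x' i) (b := algebraMap (𝓞 L) E b *
      aeval (x' i) (derivative (Fp c)) * γ * δ⁻¹) (by
        rw [← mul_assoc, mul_inv_eq_one₀ h0]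
        linear_combination -e)]
    exact mul_mem (hle (mul_mem (mul_mem (algebraMap_mem _ b) (hm i _)) hγ)) hi
  obtain ⟨n, hn⟩ := exists_pow_mul_mem h1 h0 (hp.mem_of_loc _ (fun l z hz =>
    (der_adjoin (D l) _ (hc l (Algebra.adjoin _ _)) (Set.forall_mem_insert.2 ⟨⟨hi, hD' l⟩,
      fun z hz => ⟨hle (hG l z hz).1, hle (hG l z hz).2⟩⟩) hz).2)
    (h.nmp _ (h'.smooth h1 h0 fun i => (h2 i).elim fun γ hγ => ⟨_, mul_mem (hm i _) hγ.1, hγ.2⟩)
      (hxy _ fun i => ⟨Algebra.subset_adjoin (hle (hx i)), Algebra.subset_adjoin (hle (hy i)),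
        Algebra.subset_adjoin (hu i)⟩)) hα)
  refine ⟨_, map_ne_zero_of_prime 𝔭 hH n, ?_⟩
  rw [map_mul, map_pow, map_prod, mul_left_comm]
  simp only [← aeval_algHom_apply, MvPolynomial.aeval_X]
  rw [← hδ, show MvPolynomial.aeval x' (vdm MvPolynomial.X) = vdm x' from
    (map_vdm (MvPolynomial.aeval (R := 𝓞 L) x').toRingHom MvPolynomial.X).trans
      (congrArg vdm (funext (MvPolynomial.aeval_X x'))), ← hl]
  exact hn

end Pool.Agent.Lib.MP_07b2d0_nt.Fh
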