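import Pool.Agent.Lib.MP_07b2d0_nt.Fh.ASym

/-!
The Jacobian determinant of the elementary symmetric functions.
-/

set_option autoImplicit false

namespace Pool.Agent.Lib.MP_07b2d0_nt.Fh

variable {L E : Type} [Field L] [Field E] [Algebra L E] {g : ℕ}

theorem ajac_zero {x : Fin g → E} (D : Derivation L E E) (T : Finset (Fin g))
    (h : ∀ i ∈ T, D (x i) = 0) : D (∏ i ∈ T, x i) = 0 :=
  Finset.prod_induction x (fun a => D a = 0)
    (fun a b ha hb => by rw [Derivation.leibniz, ha, hb, smul_zero, smul_zero, add_zero])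
    D.map_one_eq_zero h

theorem ajac_es {x : Fin g → E} (D : Derivation L E E) (l : Fin g)
    (h : ∀ k, k ≠ l → D (x k) = 0) (n : ℕ) :
    D (es x (n + 1)) =
      D (x l) * ∑ T ∈ Finset.powersetCard n (Finset.univ.erase l), ∏ i ∈ T, x i := by
  have hl : l ∉ Finset.univ.erase l := Finset.notMem_erase _ _
  have hT : ∀ {m : ℕ} {T : Finset (Fin g)}, T ∈ Finset.powersetCard m (Finset.univ.erase l) →
      l ∉ T := fun hT hm => hl ((Finset.mem_powersetCard.1 hT).1 hm)
  have h0 : ∀ {m : ℕ} {T : Finset (Fin g)}, T ∈ Finset.powersetCard m (Finset.univ.erase l) →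
      D (∏ i ∈ T, x i) = 0 := fun hm =>
    ajac_zero D _ fun i hi => h i fun e => hT hm (e ▸ hi)
  have hd : Disjoint (Finset.powersetCard (n + 1) (Finset.univ.erase l))
      ((Finset.powersetCard n (Finset.univ.erase l)).image (insert l)) := by
    rw [Finset.disjoint_left]
    intro T h1 h2
    obtain ⟨S, -, rfl⟩ := Finset.mem_image.1 h2
    exact hT h1 (Finset.mem_insert_self _ _)
  unfold es
  rw [← Finset.insert_erase (Finset.mem_univ l), Finset.powersetCard_succ_insert hl,
    Finset.erase_insert hl, Finset.sum_union hd, Finset.sum_image, map_add, map_sum, map_sum,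
    Finset.sum_eq_zero fun T hm => h0 hm, zero_add, Finset.mul_sum]
  · refine Finset.sum_congr rfl fun T hm => ?_
    rw [Finset.prod_insert (hT hm), Derivation.leibniz, h0 hm, smul_zero, zero_add, smul_eq_mul,
      mul_comm]
  · intro S hS T hm e
    rw [← Finset.erase_insert (hT hS), e, Finset.erase_insert (hT hm)]

theorem ajac_prod (x : Fin g → E) (l : Fin g) (z : E) :
    ∑ n : Fin g, (-1) ^ n.1 * z ^ n.rev.1 *
        ∑ T ∈ Finset.powersetCard n.1 (Finset.univ.erase l), ∏ i ∈ T, x i =
      ∏ j ∈ Finset.univ.erase l, (z - x j) := by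
  have hc : (Finset.univ.erase l).card + 1 = g := by
    rw [Finset.card_erase_add_one (Finset.mem_univ l), Finset.card_univ, Fintype.card_fin]
  have h1 : ∀ j, z - x j = -1 * x j + z := fun j => by ring
  simp only [h1]
  rw [Finset.prod_add, Finset.sum_powerset, hc, ← Fin.sum_univ_eq_sum_range
    (fun n => ∑ T ∈ Finset.powersetCard n (Finset.univ.erase l),
      (∏ i ∈ T, -1 * x i) * ∏ _i ∈ Finset.univ.erase l \ T, z)]
  refine Finset.sum_congr rfl fun n _ => ?_
  rw [Finset.mul_sum]
  refine Finset.sum_congr rfl fun T hT => ?_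
  obtain ⟨hs, hn⟩ := Finset.mem_powersetCard.1 hT
  rw [Finset.prod_mul_distrib, Finset.prod_const, Finset.prod_const,
    Finset.card_sdiff_of_subset hs, hn, Fin.val_rev,
    show (Finset.univ.erase l).card - n.1 = g - (n.1 + 1) by omega]
  ring

theorem jac_es {x u : Fin g → E} (hx : Function.Injective x) {D : Fin g → Derivation L E E}
    (hD : ∀ l k, D l (x k) = if l = k then u l else 0) :
    (Matrix.of fun (n : Fin g) l => D l (es x (n.1 + 1))).det ^ 2 =
      (∏ l, u l) ^ 2 * vdm x ^ 2 := by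
  have hV : (Matrix.projVandermonde (fun _ => (-1 : E)) x).det = vdm x := by
    rw [Matrix.det_projVandermonde, vdm, Matrix.det_vandermonde]
    exact Finset.prod_congr rfl fun i _ => Finset.prod_congr rfl fun j _ => by ring
  have hM : Matrix.projVandermonde (fun _ => (-1 : E)) x *
      (Matrix.of fun (n : Fin g) l => D l (es x (n.1 + 1))) =
      Matrix.diagonal fun l => u l * ∏ j ∈ {l}ᶜ, (x l - x j) := by
    ext k l
    have h1 : ∀ n, D l (es x (n + 1)) =
        u l * ∑ T ∈ Finset.powersetCard n (Finset.univ.erase l), ∏ i ∈ T, x i := fun n => by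
      rw [ajac_es (D l) l (fun k hk => by rw [hD, if_neg hk.symm]), hD, if_pos rfl]
    have h2 : ∑ n : Fin g, (-1) ^ n.1 * x k ^ n.rev.1 * D l (es x (n.1 + 1)) =
        u l * ∏ j ∈ Finset.univ.erase l, (x k - x j) := by
      rw [← ajac_prod, Finset.mul_sum]
      exact Finset.sum_congr rfl fun n _ => by rw [h1]; ring
    rw [Matrix.mul_apply]
    simp only [Matrix.projVandermonde_apply, Matrix.of_apply]
    rw [h2, Matrix.diagonal_apply]
    split_ifs with h
    · rw [h, Finset.compl_singleton]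
    · rw [Finset.prod_eq_zero (Finset.mem_erase.2 ⟨h, Finset.mem_univ k⟩) (sub_self _), mul_zero]
  have h3 : (∏ l, ∏ j ∈ {l}ᶜ, (x l - x j)) ^ 2 = vdm x ^ 4 := by
    rw [← Finset.prod_prod_Ioi_mul_eq_prod_prod_off_diag fun j i => x i - x j, vdm,
      Matrix.det_vandermonde, ← Finset.prod_pow, ← Finset.prod_pow]
    refine Finset.prod_congr rfl fun i _ => ?_
    rw [← Finset.prod_pow, ← Finset.prod_pow]
    exact Finset.prod_congr rfl fun j _ => by ring
  have h4 := congrArg (fun M => Matrix.det M ^ 2) hM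
  simp only [Matrix.det_mul, hV, Matrix.det_diagonal, Finset.prod_mul_distrib, mul_pow, h3] at h4
  refine mul_left_cancel₀ (pow_ne_zero 2 (vdm_ne_zero hx)) ?_
  rw [h4]
  ring

end Pool.Agent.Lib.MP_07b2d0_nt.Fh
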