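import Pool.Agent.Lib.MP_07b2d0_nt.Fh.ARig
import Pool.Agent.Lib.MP_07b2d0_nt.Fh.ASym

/-!
The change of coordinates.
-/

set_option autoImplicit false

namespace Pool.Agent.Lib.MP_07b2d0_nt.Fh

open Polynomial NumberField

variable {L E : Type} [Field L] [NumberField L] [Field E] [Algebra L E] {g : ℕ} {f : L[X]}
  {e ε τ a₀ a₁ : L} {a : Fin (2 * g) → L} {c : Fin (2 * g) → 𝓞 L}

theorem Mob.distinct (hm : Mob f e ε τ a₀ a₁ a c) (hs : f.Separable) :
    e ≠ 0 ∧ ε ≠ 0 ∧ a₀ ≠ a₁ ∧ (∀ i, a₀ ≠ a i) ∧ (∀ i, a₁ ≠ a i) ∧ Function.Injective a := by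
  have key : ∀ r s, (X - C r) * (X - C s) ∣ f → r ≠ s := fun r s h e =>
    not_isUnit_X_sub_C s (hs.squarefree _ (by rwa [e] at h))
  have h0 : e ≠ 0 := fun h => not_separable_zero (by simpa [hm.fac, h] using hs)
  have h1 : a₀ ≠ a₁ := key _ _ ⟨C (e ^ 2) * ∏ i, (X - C (a i)), by rw [hm.fac]; ring⟩
  have h2 : ∀ i, a₀ ≠ a i ∧ a₁ ≠ a i := fun i => by
    obtain ⟨Q, hQ⟩ := Finset.dvd_prod_of_mem (fun i => X - C (a i)) (Finset.mem_univ i)
    exact ⟨key _ _ ⟨C (e ^ 2) * (X - C a₁) * Q, by rw [hm.fac, hQ]; ring⟩,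
      key _ _ ⟨C (e ^ 2) * (X - C a₀) * Q, by rw [hm.fac, hQ]; ring⟩⟩
  refine ⟨h0, fun h => ?_, h1, fun i => (h2 i).1, fun i => (h2 i).2,
    (hs.of_dvd (Dvd.intro_left _ hm.fac.symm)).injective_of_prod_X_sub_C⟩
  exact mul_ne_zero (mul_ne_zero (mul_ne_zero (pow_ne_zero 2 h0)
    (pow_ne_zero 2 (sub_ne_zero.2 h1))) hm.ne)
    (Finset.prod_ne_zero_iff.2 fun i _ => sub_ne_zero.2 (h2 i).1)
    (by rw [← hm.sq, h, zero_pow two_ne_zero])

theorem Mob.natDegree (hm : Mob f e ε τ a₀ a₁ a c) (hs : f.Separable) :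
    f.natDegree = 2 * g + 2 ∧ f.leadingCoeff = e ^ 2 := by
  have h0 := pow_ne_zero 2 (hm.distinct hs).1
  have m1 := monic_prod_X_sub_C a Finset.univ
  have m2 := (monic_X_sub_C a₁).mul m1
  rw [hm.fac, mul_assoc, mul_assoc, natDegree_C_mul h0,
    ((monic_X_sub_C a₀).mul m2).leadingCoeff_C_mul,
    (monic_X_sub_C a₀).natDegree_mul m2, (monic_X_sub_C a₁).natDegree_mul m1,
    natDegree_finsetProd_X_sub_C_eq_card, natDegree_X_sub_C, natDegree_X_sub_C, Finset.card_univ,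
    Fintype.card_fin]
  exact ⟨by ring, rfl⟩

theorem Mob.sep (hm : Mob f e ε τ a₀ a₁ a c) (hs : f.Separable) :
    ((Fp c).map (algebraMap (𝓞 L) L)).Separable ∧
      0 < ((Fp c).map (algebraMap (𝓞 L) L)).natDegree := by
  obtain ⟨-, -, h1, -, h3, h4⟩ := hm.distinct hs
  have c0 : ∀ i, algebraMap (𝓞 L) L (c i) ≠ 0 := fun i h =>
    mul_ne_zero hm.ne (sub_ne_zero.2 (h3 i)) ((hm.int i).symm.trans (mul_eq_zero_of_left h _))
  have e1 : (Fp c).map (algebraMap (𝓞 L) L) = C (∏ i, -algebraMap (𝓞 L) L (c i)) *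
      ∏ o : Option (Fin (2 * g)), (X - C (o.elim 0 fun i => (algebraMap (𝓞 L) L (c i))⁻¹)) := by
    rw [map_Fp, Fp, Fintype.prod_option, map_prod, mul_left_comm, ← Finset.prod_mul_distrib]
    refine congrArg₂ _ (by simp) (Finset.prod_congr rfl fun i _ => ?_)
    rw [Option.elim_some, mul_sub, ← C_mul, neg_mul, mul_inv_cancel₀ (c0 i), C_neg, C_neg, C_1]
    ring
  have e2 : ((Fp c).map (algebraMap (𝓞 L) L)).Separable := by
    rw [e1]
    refine (separable_prod_X_sub_C_iff.2 ?_).unit_mul (isUnit_C.2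
      (Finset.prod_ne_zero_iff.2 fun i _ => neg_ne_zero.2 (c0 i)).isUnit)
    rintro (_ | i) (_ | j) h
    · rfl
    · exact absurd h.symm (inv_ne_zero (c0 j))
    · exact absurd h (inv_ne_zero (c0 i))
    · refine congrArg some (h4 (by_contra fun n => mul_ne_zero (mul_ne_zero hm.ne
        (sub_ne_zero.2 h1)) (sub_ne_zero.2 n) ?_))
      have h5 : (c i : L) = c j := inv_injective h
      linear_combination (a₀ - a j) * hm.int i - (a₀ - a i) * hm.int j -
        (a₀ - a i) * (a₀ - a j) * h5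
  refine ⟨e2, natDegree_pos_iff_degree_pos.2 (degree_pos_of_root e2.ne_zero (a := 0) ?_)⟩
  simp [Fp]

theorem Mob.eq (hm : Mob f e ε τ a₀ a₁ a c) (hs : f.Separable) {x y x' y' : E}
    (hv : x - algebraMap L E a₁ ≠ 0) (hy : y ^ 2 = aeval x f)
    (hx' : x' * (algebraMap L E τ * (x - algebraMap L E a₁)) = x - algebraMap L E a₀)
    (hy' : y' * (algebraMap L E ε * (x - algebraMap L E a₁) ^ (g + 1)) =
      y * algebraMap L E (a₀ - a₁) ^ (g + 1)) :
    y' ^ 2 = aeval x' ((Fp c).map (algebraMap (𝓞 L) L)) := by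
  have h1 : ∏ i, ((1 - algebraMap L E (c i) * x') * algebraMap L E (a₀ - a i) *
      (x - algebraMap L E a₁)) = ∏ i, ((x - algebraMap L E (a i)) * algebraMap L E (a₀ - a₁)) := by
    refine Finset.prod_congr rfl fun i _ => ?_
    have := congrArg (algebraMap L E) (hm.int i)
    simp only [map_mul, map_sub] at this ⊢
    linear_combination -(x' * (x - algebraMap L E a₁)) * this -
      (algebraMap L E a₁ - algebraMap L E (a i)) * hx'
  have h2 := congrArg (algebraMap L E) hm.sq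
  simp only [Finset.prod_mul_distrib, Finset.prod_const, Finset.card_univ, Fintype.card_fin] at h1
  simp only [map_mul, map_pow, map_prod] at h2
  simp only [hm.fac, map_mul, map_pow, map_prod, map_sub, aeval_C, aeval_X] at hy
  rw [map_Fp, aeval_Fp]
  refine mul_right_cancel₀ (pow_ne_zero 2 (mul_ne_zero ((_root_.map_ne_zero (algebraMap L E)).2
    (hm.distinct hs).2.1) (pow_ne_zero (g + 1) hv))) ?_
  rw [← mul_pow, hy', mul_pow, mul_pow, hy, h2, ← hx']
  linear_combination -(x' * algebraMap L E e ^ 2 * algebraMap L E (a₀ - a₁) ^ 2 *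
    algebraMap L E τ * (x - algebraMap L E a₁) ^ 2) * h1

theorem Mob.gen (hm : Mob f e ε τ a₀ a₁ a c) {x y x' y' : Fin g → E} (h : Gen f x y)
    (hx' : ∀ i, x' i * (algebraMap L E τ * (x i - algebraMap L E a₁)) = x i - algebraMap L E a₀)
    (hy' : ∀ i, y' i * (algebraMap L E ε * (x i - algebraMap L E a₁) ^ (g + 1)) =
      y i * algebraMap L E (a₀ - a₁) ^ (g + 1)) :
    Gen ((Fp c).map (algebraMap (𝓞 L) L)) x' y' := by
  have hA : algebraMap L E (a₀ - a₁) ≠ 0 :=
    (_root_.map_ne_zero _).2 (sub_ne_zero.2 (hm.distinct h.sep).2.2.1)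
  have hv : ∀ i, x i - algebraMap L E a₁ ≠ 0 := fun i e =>
    h.ind.transcendental i (sub_eq_zero.1 e ▸ isAlgebraic_algebraMap a₁)
  have hk : ∀ i, (1 - algebraMap L E τ * x' i) * x i =
      algebraMap L E (a₀ - a₁) + (1 - algebraMap L E τ * x' i) * algebraMap L E a₁ := fun i => by
    rw [map_sub]
    linear_combination -hx' i
  have hw : ∀ i, 1 - algebraMap L E τ * x' i ≠ 0 := fun i e => hA (by simpa [e] using (hk i).symm)
  refine ⟨(hm.sep h.sep).1, (hm.sep h.sep).2, ?_,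
    fun i => hm.eq h.sep (hv i) (h.eq i) (hx' i) (hy' i), ?_⟩
  · have : Algebra.IsAlgebraic (Algebra.adjoin L (Set.range x')) E := by
      have m : ∀ z ∈ Algebra.adjoin L (Set.range x'),
          IsAlgebraic (Algebra.adjoin L (Set.range x')) z := fun z hz =>
        isAlgebraic_algebraMap (⟨z, hz⟩ : Algebra.adjoin L (Set.range x'))
      refine ⟨h.alg_all (fun c => m _ (algebraMap_mem _ c)) fun i => ?_⟩
      have w : 1 - algebraMap L E τ * x' i ∈ Algebra.adjoin L (Set.range x') :=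
        sub_mem (one_mem _) (mul_mem (algebraMap_mem _ _) (Algebra.subset_adjoin ⟨i, rfl⟩))
      exact IsAlgebraic.of_mul (mem_nonZeroDivisors_of_ne_zero (hw i)) (m _ w)
        (m _ (hk i ▸ add_mem (algebraMap_mem _ _) (mul_mem w (algebraMap_mem _ _))))
    exact (Algebra.IsAlgebraic.isTranscendenceBasis_of_lift_le_trdeg_of_finite L x'
      h.ind.lift_cardinalMk_le_trdeg).1
  · rw [eq_top_iff, ← h.top, IntermediateField.adjoin_le_iff]
    have m1 : ∀ i, x i ∈ IntermediateField.adjoin L (Set.range x' ∪ Set.range y') := fun i => by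
      have w : 1 - algebraMap L E τ * x' i ∈
          IntermediateField.adjoin L (Set.range x' ∪ Set.range y') :=
        sub_mem (one_mem _) (mul_mem (algebraMap_mem _ _)
          (IntermediateField.subset_adjoin _ _ (Or.inl ⟨i, rfl⟩)))
      rw [eq_div_of_mul_eq (hw i) ((mul_comm _ _).trans (hk i))]
      exact div_mem (add_mem (algebraMap_mem _ _) (mul_mem w (algebraMap_mem _ _))) w
    rintro _ (⟨i, rfl⟩ | ⟨i, rfl⟩)
    · exact m1 i
    · rw [eq_div_of_mul_eq (pow_ne_zero _ hA) (hy' i).symm]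
      exact div_mem (mul_mem (IntermediateField.subset_adjoin _ _ (Or.inr ⟨i, rfl⟩))
        (mul_mem (algebraMap_mem _ _) (pow_mem (sub_mem (m1 i) (algebraMap_mem _ _)) _)))
        (pow_mem (algebraMap_mem _ _) _)

end Pool.Agent.Lib.MP_07b2d0_nt.Fh
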