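import Pool.Agent.Lib.MP_07b2d0_nt.Fh.ADefs

/-!
The forms of top degree are multiples of one form.
-/

set_option autoImplicit false

namespace Pool.Agent.Lib.MP_07b2d0_nt.Fh

open Polynomial

variable {F : Type} [Field F] [CharZero F] {g : ℕ}

theorem der_eq_zero_of_alg {M : Type} [AddCommGroup M] [Module F M] (D : Derivation ℤ F M)
    {s : Set F} (hs : ∀ a ∈ s, D a = 0) {z : F} (hz : IsAlgebraic (Algebra.adjoin ℤ s) z) :
    D z = 0 := by
  have h0 : ∀ a ∈ Algebra.adjoin ℤ s, D a = 0 := fun a ha => by
    induction ha using Algebra.adjoin_induction with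
    | mem a ha => exact hs a ha
    | algebraMap r => exact D.map_algebraMap r
    | add a b _ _ h1 h2 => rw [map_add, h1, h2, add_zero]
    | mul a b _ _ h1 h2 => rw [D.leibniz, h1, h2, smul_zero, smul_zero, add_zero]
  have h1 : ∀ q : (Algebra.adjoin ℤ s)[X], D (aeval z q) = aeval z (derivative q) • D z := by
    intro q
    induction q using Polynomial.induction_on' with
    | add p q hp hq => rw [map_add, map_add, hp, hq, map_add, map_add, add_smul]
    | monomial n a =>
      rw [derivative_monomial, aeval_monomial, aeval_monomial, D.leibniz, D.leibniz_pow,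
        show D (algebraMap _ F a) = 0 from h0 _ a.2, smul_zero, add_zero, map_mul, map_natCast,
        ← Nat.cast_smul_eq_nsmul F, smul_smul, smul_smul]
  obtain ⟨q, hq0, hq⟩ := hz
  induction hn : q.natDegree using Nat.strong_induction_on generalizing q with
  | _ n ih =>
    have h2 : q.natDegree ≠ 0 := fun e => hq0 (by
      rw [eq_C_of_natDegree_eq_zero e] at hq ⊢
      rw [aeval_C] at hq
      rw [show q.coeff 0 = 0 from Subtype.ext hq, C_0])
    have h3 := h1 q
    rw [hq, map_zero, eq_comm, smul_eq_zero] at h3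
    exact h3.elim (fun e => ih _ (hn ▸ natDegree_derivative_lt h2) _
      (fun e' => h2 (derivative_eq_zero.1 e')) e rfl) id

theorem exists_smul_dw {t : Fin g → F}
    (ha : ∀ z : F, IsAlgebraic (Algebra.adjoin ℤ (Set.range t)) z) (α : ⋀[F]^g Ω[F⁄ℤ]) :
    ∃ h : F, α = h • dw t := by
  let N := Submodule.span F (Set.range fun i => KaehlerDifferential.D ℤ F (t i))
  have hN : N = ⊤ := by
    rw [eq_top_iff, ← KaehlerDifferential.span_range_derivation, Submodule.span_le]
    rintro _ ⟨z, rfl⟩
    refine (Submodule.Quotient.mk_eq_zero N).1 (der_eq_zero_of_alg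
      (N.mkQ.compDer (KaehlerDifferential.D ℤ F)) ?_ (ha z))
    rintro _ ⟨i, rfl⟩
    exact (Submodule.Quotient.mk_eq_zero N).2 (Submodule.subset_span ⟨i, rfl⟩)
  have h1 : α ∈ Submodule.span F {dw t} := by
    refine (Submodule.span_le.2 ?_ : _ ≤ _)
      ((exteriorPower.ιMulti_span_of_span F g _ hN).ge Submodule.mem_top)
    rintro _ ⟨a, h2, rfl⟩
    choose r hr using fun i => h2 ⟨i, rfl⟩
    obtain rfl : a = (fun i => KaehlerDifferential.D ℤ F (t i)) ∘ r := funext fun i => (hr i).symm
    by_cases e : Function.Injective r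
    · have := (exteriorPower.ιMulti F g).map_perm (fun i => KaehlerDifferential.D ℤ F (t i))
        (Equiv.ofBijective r (Finite.injective_iff_bijective.1 e))
      rw [Equiv.coe_ofBijective] at this
      rw [SetLike.mem_coe, this, Units.smul_def]
      exact Submodule.smul_of_tower_mem _ _ (Submodule.mem_span_singleton_self _)
    · rw [SetLike.mem_coe, AlternatingMap.map_eq_zero_of_not_injective _ _ fun h => e h.of_comp]
      exact zero_mem _
  exact (Submodule.mem_span_singleton.1 h1).imp fun _ h => h.symm

end Pool.Agent.Lib.MP_07b2d0_nt.Fh
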