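import Pool.Agent.Lib.MP_07b2d0_nt.Fh.AHol
import Pool.Agent.Lib.MP_07b2d0_nt.Fh.AInt
import Pool.Agent.Lib.MP_07b2d0_nt.Fh.AMob
import Pool.Agent.Lib.MP_07b2d0_nt.Fh.AJac
import Pool.Agent.Lib.MP_07b2d0_nt.Fh.ASpan
import Pool.Agent.Lib.MP_07b2d0_nt.Fh.ADom

/-!
Assembly of the algebraic block.
-/

set_option autoImplicit false

namespace Pool.Agent.Lib.MP_07b2d0_nt.Fh

open Polynomial NumberField

variable {L E F : Type} [Field L] [NumberField L] [Field E] [Field F] [Algebra L E] {g : ℕ}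
  {f : L[X]} {x y : Fin g → E} {κ : 𝓞 L →+* F} {ι : F →+* E} {S : Set (Subring F)}

/-- The change of coordinates makes the coefficients of regular forms integral. -/
theorem amain_mob (h : Setup f x y κ ι S) (hg : 0 < g) {e ε τ a₀ a₁ : L}
    {a : Fin (2 * g) → L} {c : Fin (2 * g) → 𝓞 L} (hm : Mob f e ε τ a₀ a₁ a c) :
    ∃ (x' y' : Fin g → E) (D : Fin g → Derivation L E E) (p : ⋀[F]^g Ω[F⁄ℤ] →+ E),
      Gen ((Fp c).map (algebraMap (𝓞 L) L)) x' y' ∧ Rig ι x' ∧ IsD x' y' D ∧ IsPair ι D p ∧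
      ∀ α ∈ LamS g S, ∃ r : 𝓞 L, p α = algebraMap (𝓞 L) E r * vdm x' := by
  obtain ⟨-, hε, h01, -⟩ := hm.distinct h.gen.sep
  obtain ⟨hd, hl⟩ := hm.natDegree h.gen.sep
  obtain ⟨n, rfl⟩ : ∃ n, g = n + 1 := ⟨g - 1, by omega⟩
  have hv : ∀ i, x i - algebraMap L E a₁ ≠ 0 := fun i e =>
    h.gen.ind.transcendental i (by rw [sub_eq_zero.mp e]; exact isAlgebraic_algebraMap _)
  have hτ : algebraMap L E τ ≠ 0 := (_root_.map_ne_zero _).mpr hm.ne
  have hε' : algebraMap L E ε ≠ 0 := (_root_.map_ne_zero _).mpr hε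
  have h01' : algebraMap L E a₀ - algebraMap L E a₁ ≠ 0 := by
    rw [← map_sub]; exact (_root_.map_ne_zero _).mpr (sub_ne_zero.mpr h01)
  obtain ⟨x', hx'⟩ : ∃ x' : Fin (n + 1) → E, ∀ i, x' i =
    (x i - algebraMap L E a₀) / (algebraMap L E τ * (x i - algebraMap L E a₁)) := ⟨_, fun _ => rfl⟩
  obtain ⟨y', hy'⟩ : ∃ y' : Fin (n + 1) → E, ∀ i, y' i =
    y i * algebraMap L E (a₀ - a₁) ^ (n + 1 + 1) /
      (algebraMap L E ε * (x i - algebraMap L E a₁) ^ (n + 1 + 1)) := ⟨_, fun _ => rfl⟩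
  have h' := hm.gen h.gen (x' := x') (y' := y')
    (fun i => by rw [hx', div_mul_cancel₀ _ (mul_ne_zero hτ (hv i))])
    (fun i => by rw [hy', div_mul_cancel₀ _ (mul_ne_zero hε' (pow_ne_zero _ (hv i)))])
  obtain ⟨D, hD⟩ := h.gen.exists_D
  obtain ⟨p, hp⟩ := exists_pair ι D
  obtain ⟨μ, hμ⟩ : ∃ μ : L, μ = (a₀ - a₁) ^ (n + 1) * τ / ε := ⟨_, rfl⟩
  have hp' := hp.scale fun l => algebraMap L E μ / (x l - algebraMap L E a₁) ^ n
  have hD' : IsD x' y' fun l => (algebraMap L E μ / (x l - algebraMap L E a₁) ^ n) • D l := by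
    intro i l
    have := hv l
    rw [Derivation.smul_apply, hx', Derivation.leibniz_div, Derivation.leibniz, map_sub, map_sub,
      hD, Derivation.map_algebraMap, Derivation.map_algebraMap, Derivation.map_algebraMap]
    split_ifs with hil
    · subst hil
      simp only [hy', hμ, smul_eq_mul, map_div₀, map_mul, map_pow, map_sub]
      field_simp
      ring
    · simp
  refine ⟨x', y', _, _, h', fun Ω _ _ e₁ e₂ he i => ?_, hD', hp', fun α hα => ?_⟩
  · obtain ⟨l, hl⟩ := h.rig Ω e₁ e₂ he i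
    have hc : ∀ b : L, e₂ (algebraMap L E b) = e₁ (algebraMap L E b) := fun b => by
      refine DFunLike.congr_fun (IsFractionRing.ringHom_ext (A := 𝓞 L)
        (f1 := e₂.comp (algebraMap L E)) (f2 := e₁.comp (algebraMap L E)) fun r => ?_) b
      have := DFunLike.congr_fun he (κ r)
      have h1 : ι (κ r) = algebraMap L E (algebraMap (𝓞 L) L r) := DFunLike.congr_fun h.cst r
      rwa [RingHom.comp_apply, RingHom.comp_apply, h1] at this
    exact ⟨l, by simp only [hx', map_div₀, map_mul, map_sub, hl, hc]⟩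
  obtain ⟨lam, hlam⟩ := h.hol hg hd hl hD hp hα
  obtain ⟨m, hmm⟩ := vdm_mob (x := x) (x' := x') (v := fun i => x i - algebraMap L E a₁)
    (μ := algebraMap L E ((a₀ - a₁) / τ)) fun i j => by
      have := hv i
      have := hv j
      simp only [hx', map_div₀, map_sub]
      field_simp
      ring
  have hl' : ((AddMonoidHom.mulLeft (∏ l, algebraMap L E μ / (x l - algebraMap L E a₁) ^ n)).comp
      p) α = algebraMap L E (lam * μ ^ (n + 1) / ((a₀ - a₁) / τ) ^ m) * vdm x' := by
    have h1 : ∏ k, (x k - algebraMap L E a₁) ^ n ≠ 0 :=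
      Finset.prod_ne_zero_iff.mpr fun k _ => pow_ne_zero _ (hv k)
    have h2 : algebraMap L E ((a₀ - a₁) / τ) ≠ 0 :=
      (_root_.map_ne_zero _).mpr (div_ne_zero (sub_ne_zero.mpr h01) hm.ne)
    rw [Nat.add_sub_cancel] at hmm
    rw [AddMonoidHom.comp_apply, AddMonoidHom.coe_mulLeft, hlam, Finset.prod_div_distrib,
      eq_div_of_mul_eq h1 hmm, map_div₀ _ (lam * _), map_mul, map_pow, map_pow]
    simp only [Finset.prod_const, Finset.card_univ, Fintype.card_fin]
    field_simp
  refine (h.integral h' hm.ne (fun R hR i => ?_) hD' hp' hα hl').imp fun r hr => by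
    rw [hl', ← hr, ← IsScalarTower.algebraMap_apply]
  obtain ⟨-, h2, h3⟩ := hR i
  have e1 : x i - algebraMap L E a₁ =
      algebraMap L E (a₀ - a₁) * (1 - algebraMap L E τ * x' i)⁻¹ := by
    have := hv i
    have e : 1 - algebraMap L E τ * x' i =
        (algebraMap L E a₀ - algebraMap L E a₁) / (x i - algebraMap L E a₁) := by
      rw [hx']
      field_simp
      ring
    rw [e, map_sub]
    field_simp
  have h4 : x i - algebraMap L E a₁ ∈ R := e1 ▸ mul_mem (R.algebraMap_mem _) h3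
  refine ⟨by simpa using add_mem h4 (R.algebraMap_mem a₁), ?_⟩
  have e2 : y i = y' i * (algebraMap L E (ε / (a₀ - a₁) ^ (n + 1 + 1)) *
      (x i - algebraMap L E a₁) ^ (n + 1 + 1)) := by
    have := hv i
    simp only [hy', map_div₀, map_pow, map_sub]
    field_simp
  exact e2 ▸ mul_mem h2 (mul_mem (R.algebraMap_mem _) (pow_mem h4 _))

/-- The elementary symmetric functions are a transcendence basis of `F`. -/
theorem amain_t (h : Gen f x y) (hr : Rig ι x) :
    ∃ t : Fin g → F, (∀ n, ι (t n) = es x (n.1 + 1)) ∧ AlgebraicIndependent ℤ t ∧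
      ∀ z : F, IsAlgebraic (Algebra.adjoin ℤ (Set.range t)) z := by
  have : CharZero E := charZero_of_injective_algebraMap (algebraMap L E).injective
  have : CharZero F := ι.charZero
  have hmem : ∀ n : Fin g, es x (n.1 + 1) ∈ ι.range := fun n => by
    refine mem_range_of_fixed ι (h.alg_all (fun c => alg_const c) hr.isAlgebraic)
      fun Ω _ _ e τ he => ?_
    choose l hl using hr Ω e τ he
    have hinj : Function.Injective l := fun i j hij =>
      h.ind.injective (τ.injective (by rw [hl, hl, hij]))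
    rw [map_es, map_es, ← es_perm (fun i => e (x i))
      (Equiv.ofBijective l (Finite.injective_iff_bijective.mp hinj))]
    simp only [hl, Equiv.ofBijective_apply]
  choose t ht using hmem
  have hT : ∀ z : E,
      IsAlgebraic (Algebra.adjoin ℤ (Set.range fun n : Fin g => es x (n.1 + 1))) z :=
    h.alg_all (fun c => alg_const c) (alg_es x)
  have e : (fun n : Fin g => es x (n.1 + 1)) = ι.toIntAlgHom ∘ t := funext fun n => (ht n).symm
  rw [e] at hT
  refine ⟨t, ht, (indep_of_alg (h.ind.restrictScalars (RingHom.injective_int _)) hT).of_comp _,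
    fun z => ?_⟩
  rw [Set.range_comp, ← AlgHom.map_adjoin] at hT
  exact (hT (ι z)).of_ringHom_of_comp_eq (ι.toIntAlgHom.subalgebraMap _).toRingHom ι
    (AlgHom.subalgebraMap_surjective _ _) ι.injective rfl

theorem alg_main' (h : Setup f x y κ ι S) (hg : 0 < g) {e ε τ a₀ a₁ : L}
    {a : Fin (2 * g) → L} {c : Fin (2 * g) → 𝓞 L} (hm : Mob f e ε τ a₀ a₁ a c) :
    Out g κ S c := by
  obtain ⟨x', y', D, p, h', hr, hD, hp, hlam⟩ := amain_mob h hg hm
  obtain ⟨t, ht, hind, halg⟩ := amain_t h' hr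
  have : CharZero E := charZero_of_injective_algebraMap (algebraMap L E).injective
  have : CharZero F := ι.charZero
  have hκ : ∀ r, ι (κ r) = algebraMap (𝓞 L) E r := DFunLike.congr_fun h.cst
  have hV : vdm x' ≠ 0 := vdm_ne_zero h'.ind.injective
  have hinj : Function.Injective (algebraMap (𝓞 L) E) :=
    (algebraMap L E).injective.comp RingOfIntegers.coe_injective
  choose lam hl using fun α : LamS g S => hlam α.1 α.2
  have hQ : ι (Qf (fun i => κ (c i)) t ⟨g - 1, by omega⟩) = (∏ l, 2 * y' l) ^ 2 := by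
    rw [map_Qf, funext ht, Qf_es _ _ (by simp only; omega), Finset.prod_mul_distrib, mul_pow,
      ← Finset.prod_pow, ← Finset.prod_pow]
    congr 1
    · norm_num
    · refine Finset.prod_congr rfl fun k _ => ?_
      rw [h'.eq, aeval_map_algebraMap, aeval_def, eval₂_eq_eval_map, map_Fp]
      simp only [hκ]
  have key : ∀ α : LamS g S, ∃ b : F, α.1 = b • dw t ∧
      b ^ 2 * Qf (fun i => κ (c i)) t ⟨g - 1, by omega⟩ = κ (lam α) ^ 2 := fun α => by
    obtain ⟨b, hb⟩ := exists_smul_dw halg α.1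
    refine ⟨b, hb, ι.injective (mul_right_cancel₀ (pow_ne_zero 2 hV) ?_)⟩
    have h1 := hl α
    rw [hb, hp.1, hp.2] at h1
    simp only [ht] at h1
    rw [map_mul, map_pow, map_pow, hQ, hκ, mul_assoc, ← jac_es h'.ind.injective hD, ← mul_pow, h1,
      mul_pow]
  refine ⟨AddMonoidHom.mk' lam fun α β => hinj (mul_right_cancel₀ hV ?_), t, _,
    (injective_iff_map_eq_zero _).mpr fun α hα => ?_,
    fun r α β hβ => hinj (mul_right_cancel₀ hV ?_), hind, halg, key⟩
  · rw [map_add, add_mul, ← hl, ← hl, ← hl, AddSubgroup.coe_add, map_add]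
  · obtain ⟨b, hb, hb'⟩ := key α
    have h1 := congrArg ι hb'
    rw [show lam α = 0 from hα, map_mul, hQ, map_zero, map_pow, map_pow, map_zero,
      ← mul_pow, zero_pow two_ne_zero, pow_eq_zero_iff two_ne_zero] at h1
    have h2 := (mul_eq_zero.mp h1).resolve_right
      (Finset.prod_ne_zero_iff.mpr fun l _ => mul_ne_zero two_ne_zero (h'.y_ne l))
    exact Subtype.ext (by rw [hb, (map_eq_zero ι).mp h2, zero_smul]; rfl)
  · change algebraMap _ E (lam β) * _ = algebraMap _ E (r * lam α) * _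
    rw [← hl, hβ, hp.1, hκ, hl, map_mul, mul_assoc]

end Pool.Agent.Lib.MP_07b2d0_nt.Fh
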