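import Pool.Agent.Lib.MP_07b2d0_nt.Fh.AInd

/-!
Normal forms in the coordinate ring and its universal property.
-/

set_option autoImplicit false

namespace Pool.Agent.Lib.MP_07b2d0_nt.Fh

open Polynomial

variable {O L E ι : Type} [CommRing O] [Field L] [Field E] [Algebra L E] [Fintype ι]

theorem nf {B : Type} [CommRing B] [Algebra O B] {f₀ : O[X]} {x y : ι → B}
    (hy : ∀ i, y i ^ 2 = aeval (x i) f₀) {z : B} (hz : z ∈ RR O x y) :
    ∃ P : Finset ι → MvPolynomial ι O,
      z = ∑ ε, MvPolynomial.aeval x (P ε) * ∏ i ∈ ε, y i := by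
  classical
  let _ : Algebra (MvPolynomial ι O) B := (MvPolynomial.aeval x).toRingHom.toAlgebra
  have hs : ∀ (P : MvPolynomial ι O) (b : B), P • b = MvPolynomial.aeval x P * b := fun _ _ => rfl
  let M : Submodule (MvPolynomial ι O) B :=
    Submodule.span _ (Set.range fun ε : Finset ι => ∏ i ∈ ε, y i)
  have key : ∀ m ∈ M, z * m ∈ M := by
    induction hz using Algebra.adjoin_induction with
    | mem b hb =>
      rcases hb with ⟨i, rfl⟩ | ⟨i, rfl⟩ <;> intro m hm
      · simpa [hs] using M.smul_mem (MvPolynomial.X i) hm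
      · induction hm using Submodule.span_induction with
        | mem m hm =>
          obtain ⟨ε, rfl⟩ := hm
          by_cases hi : i ∈ ε
          · have := M.smul_mem (aeval (MvPolynomial.X i : MvPolynomial ι O) f₀)
              (Submodule.subset_span ⟨ε.erase i, rfl⟩)
            rw [hs, ← aeval_algHom_apply, MvPolynomial.aeval_X, ← hy, sq, mul_assoc] at this
            rwa [Finset.mul_prod_erase ε y hi] at this
          · exact Submodule.subset_span ⟨insert i ε, Finset.prod_insert hi⟩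
        | zero => simp
        | add a b _ _ ha hb => rw [mul_add]; exact add_mem ha hb
        | smul c a _ ha => rw [mul_smul_comm]; exact M.smul_mem c ha
    | algebraMap c =>
      intro m hm
      simpa [hs] using M.smul_mem (MvPolynomial.C c) hm
    | add a b _ _ ha hb =>
      intro m hm
      rw [add_mul]
      exact add_mem (ha m hm) (hb m hm)
    | mul a b _ _ ha hb =>
      intro m hm
      rw [mul_assoc]
      exact ha _ (hb m hm)
  have h1 := key 1 (Submodule.subset_span ⟨∅, Finset.prod_empty⟩)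
  rw [mul_one] at h1
  obtain ⟨P, hP⟩ := (Submodule.mem_span_range_iff_exists_fun _).mp h1
  exact ⟨P, hP.symm⟩

theorem anf_zero {f : L[X]} {x y : ι → E} (hs : f.Separable) (hd : 0 < f.natDegree)
    (hx : AlgebraicIndependent L x) (hy : ∀ i, y i ^ 2 = aeval (x i) f)
    {P : Finset ι → MvPolynomial ι L}
    (h0 : ∑ ε, MvPolynomial.aeval x (P ε) * ∏ i ∈ ε, y i = 0) (ε : Finset ι) : P ε = 0 := by
  refine hx ((aind_indep hs hd hx hy (fun ε => MvPolynomial.aeval x (P ε)) (fun ε => ?_) h0
    ε).trans (map_zero _).symm)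
  refine IntermediateField.algebra_adjoin_le_adjoin L _ ?_
  rw [Algebra.adjoin_range_eq_range_aeval]
  exact ⟨_, rfl⟩

theorem Gen.nf_zero {f : L[X]} {x y : ι → E} (h : Gen f x y) {P : Finset ι → MvPolynomial ι L}
    (h0 : ∑ ε, MvPolynomial.aeval x (P ε) * ∏ i ∈ ε, y i = 0) (ε : Finset ι) : P ε = 0 :=
  anf_zero h.sep h.deg h.ind h.eq h0 ε

omit [Fintype ι] in
theorem Gen.isFrac {f : L[X]} {x y : ι → E} (h : Gen f x y) : IsFractionRing (RR L x y) E := by
  refine IsFractionRing.of_field _ _ fun z => ?_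
  obtain ⟨r, hr, s, hs, e⟩ := IntermediateField.mem_adjoin_iff_div.mp
    (h.top ▸ IntermediateField.mem_top (x := z))
  exact ⟨⟨r, hr⟩, ⟨s, hs⟩, e⟩

theorem anf_lift [Algebra O L] [Algebra O E] [IsScalarTower O L E] [FaithfulSMul O L]
    {f₀ : O[X]} {x y : ι → E} (h : Gen (f₀.map (algebraMap O L)) x y) {B : Type} [CommRing B]
    [Algebra O B] {u v : ι → B} (hv : ∀ i, v i ^ 2 = aeval (u i) f₀) :
    ∃ φ : RR O x y →ₐ[O] B, (∀ i hi, φ ⟨x i, hi⟩ = u i) ∧ (∀ i hi, φ ⟨y i, hi⟩ = v i) ∧
      ∀ z : RR O x y, ∃ P : Finset ι → MvPolynomial ι O,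
        (z : E) = ∑ ε, MvPolynomial.aeval x (P ε) * ∏ i ∈ ε, y i ∧
        φ z = ∑ ε, MvPolynomial.aeval u (P ε) * ∏ i ∈ ε, v i := by
  let G : Subalgebra O (E × B) := RR O (fun i => (x i, u i)) fun i => (y i, v i)
  have h1 : ∀ z : G, ∃ P : Finset ι → MvPolynomial ι O,
      z.1.1 = ∑ ε, MvPolynomial.aeval x (P ε) * ∏ i ∈ ε, y i ∧
      z.1.2 = ∑ ε, MvPolynomial.aeval u (P ε) * ∏ i ∈ ε, v i := fun z => by
    obtain ⟨P, hP⟩ := nf (f₀ := f₀) (fun i => Prod.ext
      (by
        have := aeval_algHom_apply (AlgHom.fst O E B) (x i, u i) f₀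
        exact ((h.eq i).trans (aeval_map_algebraMap L _ _)).trans this)
      ((hv i).trans (aeval_algHom_apply (AlgHom.snd O E B) (x i, u i) f₀))) z.2
    refine ⟨P, ?_, ?_⟩
    · have := congrArg (AlgHom.fst O E B) hP
      simp only [map_sum, map_mul, map_prod, MvPolynomial.comp_aeval_apply] at this
      exact this
    · have := congrArg (AlgHom.snd O E B) hP
      simp only [map_sum, map_mul, map_prod, MvPolynomial.comp_aeval_apply] at this
      exact this
  have h2 : G.map (AlgHom.fst O E B) = RR O x y := by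
    rw [AlgHom.map_adjoin, Set.image_union, ← Set.range_comp, ← Set.range_comp]
    rfl
  let π : G →ₐ[O] RR O x y :=
    ((AlgHom.fst O E B).comp G.val).codRestrict _ fun z => h2 ▸ ⟨z.1, z.2, rfl⟩
  have h3 : Function.Bijective π := by
    refine ⟨(injective_iff_map_eq_zero _).mpr fun z hz => ?_, fun z => ?_⟩
    · obtain ⟨P, e1, e2⟩ := h1 z
      have e0 : z.1.1 = 0 := congrArg Subtype.val hz
      have e3 : ∀ ε, P ε = 0 := fun ε =>
        MvPolynomial.map_injective _ (FaithfulSMul.algebraMap_injective O L)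
          ((h.nf_zero (P := fun ε => MvPolynomial.map (algebraMap O L) (P ε)) (by
            simp only [MvPolynomial.aeval_map_algebraMap]
            exact e1.symm.trans e0) ε).trans (map_zero _).symm)
      refine Subtype.ext (Prod.ext e0 (e2.trans ?_))
      simp [e3]
    · obtain ⟨w, hw, e⟩ := (h2.ge z.2 : z.1 ∈ G.map (AlgHom.fst O E B))
      exact ⟨⟨w, hw⟩, Subtype.ext e⟩
  let e := AlgEquiv.ofBijective π h3
  have h4 : ∀ w : G, (((AlgHom.snd O E B).comp G.val).comp e.symm.toAlgHom) (π w) = w.1.2 :=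
    fun w => congrArg (fun t : G => t.1.2) (e.symm_apply_apply w)
  refine ⟨((AlgHom.snd O E B).comp G.val).comp e.symm.toAlgHom,
    fun i hi => h4 ⟨(x i, u i), Algebra.subset_adjoin (Or.inl ⟨i, rfl⟩)⟩,
    fun i hi => h4 ⟨(y i, v i), Algebra.subset_adjoin (Or.inr ⟨i, rfl⟩)⟩, fun z => ?_⟩
  obtain ⟨w, rfl⟩ := h3.2 z
  rw [h4]
  exact h1 w

/-- The universal property of the coordinate ring over a subring `O` of `L`. -/
theorem Gen.lift_ring [Algebra O L] [Algebra O E] [IsScalarTower O L E] [FaithfulSMul O L]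
    {f₀ : O[X]} {x y : ι → E} (h : Gen (f₀.map (algebraMap O L)) x y) {B : Type} [CommRing B]
    [Algebra O B] {u v : ι → B} (hv : ∀ i, v i ^ 2 = aeval (u i) f₀) :
    ∃ φ : RR O x y →ₐ[O] B, (∀ i hi, φ ⟨x i, hi⟩ = u i) ∧ ∀ i hi, φ ⟨y i, hi⟩ = v i := by
  obtain ⟨φ, h1, h2, -⟩ := anf_lift h hv
  exact ⟨φ, h1, h2⟩

theorem Gen.lift' {f : L[X]} {x y : ι → E} (h : Gen f x y)
    {L' E' : Type} [Field L'] [Field E'] [Algebra L' E'] (σ : L →+* L') {x' y' : ι → E'}
    (hx : AlgebraicIndependent L' x') (hy : ∀ i, y' i ^ 2 = aeval (x' i) (f.map σ)) :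
    ∃ s : E →+* E', (∀ c, s (algebraMap L E c) = algebraMap L' E' (σ c)) ∧
      (∀ i, s (x i) = x' i) ∧ ∀ i, s (y i) = y' i := by
  let _ : Algebra L L' := σ.toAlgebra
  let _ : Algebra L E' := ((algebraMap L' E').comp σ).toAlgebra
  have : IsScalarTower L L' E' := .of_algebraMap_eq fun _ => rfl
  obtain ⟨φ, h1, h2, h3⟩ := anf_lift (O := L) (L := L) (f₀ := f) (x := x) (y := y)
    (by simpa using h) (u := x') (v := y') fun i => (hy i).trans (aeval_map_algebraMap L' _ _)
  have hφ : Function.Injective φ.toRingHom := (injective_iff_map_eq_zero _).mpr fun z hz => by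
    obtain ⟨P, e1, e2⟩ := h3 z
    have e3 : ∀ ε, P ε = 0 := fun ε => MvPolynomial.map_injective _ σ.injective
      ((anf_zero h.sep.map (by rw [natDegree_map]; exact h.deg) hx hy
        (P := fun ε => MvPolynomial.map (algebraMap L L') (P ε)) (by
          simp only [MvPolynomial.aeval_map_algebraMap]
          exact e2.symm.trans hz) ε).trans (map_zero _).symm)
    refine Subtype.ext (e1.trans ?_)
    simp [e3]
  have := h.isFrac
  have h4 : ∀ z : RR L x y, IsFractionRing.lift hφ (z : E) = φ z := fun z =>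
    IsFractionRing.lift_algebraMap hφ z
  exact ⟨IsFractionRing.lift hφ, fun c => (h4 (algebraMap L _ c)).trans (φ.commutes c),
    fun i => (h4 ⟨x i, Algebra.subset_adjoin (Or.inl ⟨i, rfl⟩)⟩).trans (h1 i _),
    fun i => (h4 ⟨y i, Algebra.subset_adjoin (Or.inr ⟨i, rfl⟩)⟩).trans (h2 i _)⟩

theorem exists_gen' (ι : Type) {f : L[X]} (hs : f.Separable) (hd : 0 < f.natDegree) :
    ∃ (E : Type) (_ : Field E) (_ : Algebra L E) (x y : ι → E), Gen f x y := by
  let Ω := AlgebraicClosure (FractionRing (MvPolynomial ι L))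
  let x : ι → Ω := fun i => algebraMap (MvPolynomial ι L) Ω (MvPolynomial.X i)
  have hx : AlgebraicIndependent L x :=
    (MvPolynomial.algebraicIndependent_X ι L).map' (f := IsScalarTower.toAlgHom L _ Ω)
      ((algebraMap (FractionRing (MvPolynomial ι L)) Ω).injective.comp
        (IsFractionRing.injective (MvPolynomial ι L) _))
  choose y hy using fun i => IsAlgClosed.exists_pow_nat_eq (aeval (x i) f) two_pos
  let E := IntermediateField.adjoin L (Set.range x ∪ Set.range y)
  refine ⟨E, inferInstance, inferInstance,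
    fun i => ⟨x i, IntermediateField.subset_adjoin _ _ (Or.inl ⟨i, rfl⟩)⟩,
    fun i => ⟨y i, IntermediateField.subset_adjoin _ _ (Or.inr ⟨i, rfl⟩)⟩, hs, hd,
    AlgebraicIndependent.of_comp E.val hx, fun i => Subtype.ext ?_, ?_⟩
  · exact (hy i).trans (aeval_algHom_apply E.val ⟨x i, _⟩ f)
  · apply IntermediateField.lift_injective
    rw [IntermediateField.lift_adjoin, IntermediateField.lift_top, Set.image_union,
      ← Set.range_comp, ← Set.range_comp]
    rfl

end Pool.Agent.Lib.MP_07b2d0_nt.Fh
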