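import Pool.Agent.Lib.MP_07b2d0_nt.Fh.ADefs

/-!
The zero set of a nonzero polynomial is a null set; the volume of the polydisc.
-/

set_option autoImplicit false

namespace Pool.Agent.Lib.MP_07b2d0_nt.Fh

open MeasureTheory

theorem ae_eval_ne_zero {g : ℕ} {Δ : MvPolynomial (Fin g) ℂ} (hΔ : Δ ≠ 0) :
    ∀ᵐ z : Fin g → ℂ, MvPolynomial.eval z Δ ≠ 0 := by
  induction g with
  | zero =>
    obtain ⟨c, rfl⟩ := MvPolynomial.C_surjective _ Δ
    exact .of_forall fun z => by simpa using hΔ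
  | succ g ih =>
    have hm : MeasurableSet {p : (Fin g → ℂ) × ℂ | MvPolynomial.eval (Fin.cons p.2 p.1) Δ ≠ 0} :=
      (isOpen_ne_fun ((MvPolynomial.continuous_eval Δ).comp
        (continuous_snd.finCons continuous_fst)) continuous_const).measurableSet
    have h1 := (Measure.ae_prod_iff_ae_ae (μ := volume) (ν := volume) hm).2 (by
      filter_upwards [ih (Polynomial.leadingCoeff_ne_zero.2
        ((map_ne_zero_iff _ (MvPolynomial.finSuccEquiv ℂ g).injective).2 hΔ))] with z hz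
      have : (MvPolynomial.finSuccEquiv ℂ g Δ).map (MvPolynomial.eval z) ≠ 0 := fun h0 =>
        hz (by simpa using congrArg (·.coeff (MvPolynomial.finSuccEquiv ℂ g Δ).natDegree) h0)
      simp only [MvPolynomial.eval_eq_eval_mv_eval']
      exact measure_eq_zero_iff_ae_notMem.1 ((Polynomial.finite_setOfPred_isRoot this).measure_zero _))
    filter_upwards [(Measure.measurePreserving_swap.comp
      (volume_preserving_piFinSuccAbove (fun _ => ℂ) 0)).quasiMeasurePreserving.ae h1] with z hz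
    rwa [← Fin.cons_self_tail z]

theorem one_le_volume_polydisc (g : ℕ) :
    1 ≤ volume (Set.univ.pi fun _ : Fin g => Metric.closedBall (0 : ℂ) 1) := by
  rw [volume_pi_pi]
  refine Finset.one_le_prod' fun i _ => ?_
  rw [Complex.volume_closedBall, ENNReal.ofReal_one, one_pow, one_mul, ENNReal.one_le_coe_iff,
    ← NNReal.coe_le_coe, NNReal.coe_real_pi, NNReal.coe_one]
  linarith [Real.pi_gt_three]

theorem le_lintegral_of_polydisc {g : ℕ} {Δ : MvPolynomial (Fin g) ℂ} (hΔ : Δ ≠ 0) {b : ENNReal}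
    {φ : (Fin g → ℂ) → ENNReal}
    (h : ∀ z : Fin g → ℂ, (∀ i, ‖z i‖ ≤ 1) → MvPolynomial.eval z Δ ≠ 0 → b ≤ φ z) :
    b ≤ ∫⁻ z, φ z := by
  refine (le_mul_of_one_le_right' (one_le_volume_polydisc g)).trans ?_
  rw [← lintegral_indicator_const (MeasurableSet.univ_pi fun _ => measurableSet_closedBall)]
  refine lintegral_mono_ae ?_
  filter_upwards [ae_eval_ne_zero hΔ] with z hz
  exact Set.indicator_apply_le' (fun hp => h z (fun i => mem_closedBall_zero_iff.1
    (hp i trivial)) hz) fun _ => zero_le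

theorem norm_Qf_le {g : ℕ} {c : Fin (2 * g) → ℂ} {z : Fin g → ℂ} (l : Fin g) {M : ℝ} (hM : 1 ≤ M)
    (hc : ∀ i, ‖c i‖ ≤ M) (hz : ∀ i, ‖z i‖ ≤ 1) :
    ‖Qf c z l‖ ≤ 4 ^ g * ((g + 1) * M ^ g) ^ (2 * g) := by
  rw [Qf, norm_mul, norm_mul, norm_pow, norm_prod, Complex.norm_ofNat]
  refine mul_le_mul (mul_le_of_le_one_right (by positivity) (hz l)) ?_ (by positivity)
    (by positivity)
  refine (Finset.prod_le_prod (fun _ _ => norm_nonneg _) (g := fun _ => (g + 1) * M ^ g)
    fun i _ => ?_).trans_eq (by simp)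
  refine (norm_add_le _ _).trans ?_
  rw [add_one_mul, add_comm, norm_one]
  refine add_le_add ((norm_sum_le_of_le _ (n := fun _ => M ^ g) fun n _ => ?_).trans_eq (by simp))
    (one_le_pow₀ hM)
  rw [norm_mul, norm_pow, norm_neg]
  exact (mul_le_of_le_one_right (by positivity) (hz n)).trans
    ((pow_le_pow_left₀ (norm_nonneg _) (hc i) _).trans (pow_le_pow_right₀ hM n.2))

end Pool.Agent.Lib.MP_07b2d0_nt.Fh
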