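import Pool.Agent.Lib.MP_07b2d0_nt.Fh.ADefs

/-!
Consequences of rigidity.
-/

set_option autoImplicit false

namespace Pool.Agent.Lib.MP_07b2d0_nt.Fh

open Polynomial NumberField

variable {L E : Type} [Field L] [Field E] [Algebra L E] {g : ℕ}

theorem ext_algClosed {A Ω : Type} [CommRing A] [IsDomain A] [Algebra A E] [FaithfulSMul A E]
    [Algebra.IsAlgebraic A E] [Field Ω] [IsAlgClosed Ω] (φ : A →+* Ω)
    (hφ : Function.Injective φ) : ∃ τ : E →+* Ω, ∀ a, τ (algebraMap A E a) = φ a := by
  let _ : Algebra A Ω := φ.toAlgebra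
  have : FaithfulSMul A Ω := (faithfulSMul_iff_algebraMap_injective _ _).2 hφ
  let τ : E →ₐ[A] Ω := IsAlgClosed.lift
  exact ⟨τ.toRingHom, τ.commutes⟩

theorem arig_shift {A : Type} [CommRing A] [IsDomain A] [Algebra A E] [FaithfulSMul A E] {z : E}
    (hz : Transcendental A z) (n : ℕ) : ∃ τ : E →+* AlgebraicClosure E,
      (∀ a, τ (algebraMap A E a) = algebraMap E _ (algebraMap A E a)) ∧
      τ z = algebraMap E _ (z + n) := by
  have h0 : AlgebraicIndepOn A id ({z} : Set E) :=
    (algebraicIndependent_singleton_iff (⟨z, rfl⟩ : ({z} : Set E))).2 hz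
  obtain ⟨s, hs, hx⟩ := exists_isTranscendenceBasis_superset h0
  have := hx.isAlgebraic
  let f : MvPolynomial s A ≃ₐ[A] MvPolynomial s A := AlgEquiv.ofAlgHom
    (MvPolynomial.aeval fun i => MvPolynomial.X i + (n : MvPolynomial s A))
    (MvPolynomial.aeval fun i => MvPolynomial.X i - (n : MvPolynomial s A))
    (by ext i : 1; simp) (by ext i : 1; simp)
  let e := (hx.1.aevalEquiv.symm.trans f).trans hx.1.aevalEquiv
  obtain ⟨τ, hτ⟩ := ext_algClosed (E := E) (((algebraMap E (AlgebraicClosure E)).comp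
    (algebraMap (Algebra.adjoin A (Set.range (Subtype.val : s → E))) E)).comp e.toRingEquiv.toRingHom)
    ((algebraMap E _).injective.comp (Subtype.val_injective.comp e.injective))
  refine ⟨τ, fun a => ?_, ?_⟩
  · rw [IsScalarTower.algebraMap_apply A (Algebra.adjoin A (Set.range (Subtype.val : s → E))) E, hτ]
    exact congrArg (fun t => algebraMap E _ (algebraMap _ E t)) (e.commutes a)
  · have h1 := hτ (hx.1.aevalEquiv (MvPolynomial.X ⟨z, hs rfl⟩))
    rw [hx.1.algebraMap_aevalEquiv, MvPolynomial.aeval_X] at h1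
    refine h1.trans ?_
    change algebraMap E _ (algebraMap _ E
      (hx.1.aevalEquiv (f (hx.1.aevalEquiv.symm (hx.1.aevalEquiv _))))) = _
    rw [AlgEquiv.symm_apply_apply, hx.1.algebraMap_aevalEquiv]
    simp [f]

theorem Rig.isAlgebraic [CharZero E] {O : Type} [CommRing O] {θ : O →+* E} {x : Fin g → E}
    (hr : Rig θ x) (i : Fin g) : IsAlgebraic θ.range (x i) := by
  by_contra hz
  refine Set.infinite_of_injective_forall_mem (f := fun n : ℕ => x i + n)
    (fun a b hab => by simpa using hab) (fun n => ?_) (Set.finite_range x)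
  obtain ⟨τ, h1, h2⟩ := arig_shift (A := θ.range) hz n
  obtain ⟨l, hl⟩ := hr _ (algebraMap E (AlgebraicClosure E)) τ
    (RingHom.ext fun o => h1 ⟨θ o, o, rfl⟩) i
  exact ⟨l, (algebraMap E (AlgebraicClosure E)).injective (hl.symm.trans h2)⟩

theorem Gen.alg_all {ι : Type} {f : L[X]} {x y : ι → E} (h : Gen f x y) {A : Type} [CommRing A]
    [IsDomain A] [Algebra A E] (hL : ∀ c : L, IsAlgebraic A (algebraMap L E c))
    (hx : ∀ i, IsAlgebraic A (x i)) (z : E) : IsAlgebraic A z := by
  have hy : ∀ i, IsAlgebraic A (y i) := fun i => by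
    refine IsAlgebraic.of_pow two_pos ?_
    rw [h.eq, aeval_eq_sum_range]
    exact Subalgebra.sum_mem (Subalgebra.algebraicClosure A E) fun n _ => by
      rw [Algebra.smul_def]
      exact (hL _).mul ((hx i).pow n)
  have hz : z ∈ IntermediateField.adjoin L (Set.range x ∪ Set.range y) := h.top ▸ trivial
  induction hz using IntermediateField.adjoin_induction with
  | mem z hz => rcases hz with ⟨i, rfl⟩ | ⟨i, rfl⟩ <;> [exact hx i; exact hy i]
  | algebraMap c => exact hL c
  | add a b _ _ ha hb => exact ha.add hb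
  | inv a _ ha => exact ha.inv
  | mul a b _ _ ha hb => exact ha.mul hb

theorem alg_const [NumberField L] {A : Type} [CommRing A] [Algebra A E] [FaithfulSMul A E]
    (c : L) : IsAlgebraic A (algebraMap L E c) := by
  have : CharZero E := charZero_of_injective_algebraMap (algebraMap L E).injective
  have h1 : IsAlgebraic ℤ c :=
    (IsFractionRing.isAlgebraic_iff ℤ ℚ L).2 (Algebra.IsAlgebraic.isAlgebraic c)
  refine h1.algebraMap.extendScalars fun a b hab => ?_
  have h2 := congrArg (algebraMap A E) hab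
  simpa using h2

theorem mem_range_of_fixed {F : Type} [Field F] [CharZero F] (ι : F →+* E)
    (ha : ∀ z : E, IsAlgebraic ι.range z) {z : E}
    (hz : ∀ (Ω : Type) [Field Ω] [IsAlgClosed Ω] (e τ : E →+* Ω), τ.comp ι = e.comp ι →
      τ z = e z) : z ∈ ι.range := by
  let _ : Algebra F E := ι.toAlgebra
  have : Algebra.IsAlgebraic F E := ⟨fun z =>
    (ha z).of_ringHom_of_comp_eq ι.rangeRestrict (RingHom.id E) ι.rangeRestrict_surjective
      Function.injective_id rfl⟩
  have hi : ∀ z : E, IsIntegral F z := Algebra.IsIntegral.isIntegral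
  refine minpoly.natDegree_eq_one_iff.1 ?_
  rw [← card_rootSet_eq_natDegree (K := AlgebraicClosure E) (Algebra.IsSeparable.isSeparable F z)
    (IsAlgClosed.splits _), Fintype.card_eq_one_iff]
  refine ⟨⟨algebraMap E _ z, (mem_rootSet_of_ne (minpoly.ne_zero (hi z))).2
    (by rw [aeval_algebraMap_apply, minpoly.aeval, map_zero])⟩, fun r => Subtype.ext ?_⟩
  obtain ⟨τ, hτ⟩ := IntermediateField.exists_algHom_of_splits_of_aeval
    (fun s => ⟨hi s, IsAlgClosed.splits _⟩) (aeval_eq_zero_of_mem_rootSet r.2)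
  exact hτ.symm.trans (hz _ (algebraMap E _) τ.toRingHom (RingHom.ext τ.commutes))

end Pool.Agent.Lib.MP_07b2d0_nt.Fh
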