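import Pool.Agent.Lib.MP_07b2d0_nt.Fh.ADefs

/-!
The valuation ring of a smooth point of `w ^ 2 = G(s)` above `s = 0`.
-/

set_option autoImplicit false

namespace Pool.Agent.Lib.MP_07b2d0_nt.Fh

open Polynomial

variable {κ E : Type} [Field κ] [Field E] [Algebra κ E] {s w : E} {G : κ[X]} {e : κ}

theorem AtInf.exists_subalgebra (h : AtInf s w G e) :
    ∃ W : Subalgebra κ E, ∀ z, z ∈ W ↔ InW s w e z := by
  have hv : ∀ A B A' B' : κ[X], A.eval 0 + B.eval 0 * e ≠ 0 → A'.eval 0 + B'.eval 0 * e ≠ 0 →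
      (A * A' + B * B' * G).eval 0 + (A * B' + A' * B).eval 0 * e ≠ 0 := fun A B A' B' h1 h2 h3 =>
    mul_ne_zero h1 h2 (by simp only [eval_add, eval_mul, h.ev] at h3; linear_combination h3)
  refine ⟨{ carrier := {z | InW s w e z}
            mul_mem' := ?_
            add_mem' := ?_
            algebraMap_mem' := fun c => ⟨C c, 0, 1, 0, by simp, by simp⟩ }, fun _ => Iff.rfl⟩
  · rintro a b ⟨A, B, A', B', h1, h2⟩ ⟨P, Q, P', Q', h3, h4⟩
    refine ⟨A * P + B * Q * G, A * Q + P * B, _, _, hv _ _ _ _ h1 h3, ?_⟩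
    simp only [map_add, map_mul, ← h.eq]
    linear_combination b * (aeval s P' + aeval s Q' * w) * h2 + (aeval s A + aeval s B * w) * h4
  · rintro a b ⟨A, B, A', B', h1, h2⟩ ⟨P, Q, P', Q', h3, h4⟩
    refine ⟨A * P' + B * Q' * G + (P * A' + Q * B' * G), A * Q' + P' * B + (P * B' + A' * Q), _, _,
      hv _ _ _ _ h1 h3, ?_⟩
    simp only [map_add, map_mul, ← h.eq]
    linear_combination (aeval s P' + aeval s Q' * w) * h2 + (aeval s A' + aeval s B' * w) * h4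

theorem aval_mem (A B : κ[X]) : InW s w e (aeval s A + aeval s B * w) :=
  ⟨A, B, 1, 0, by simp, by simp⟩

theorem AtInf.aval_inv (h : AtInf s w G e) {A B : κ[X]} (h0 : A.eval 0 + B.eval 0 * e ≠ 0) :
    aeval s A + aeval s B * w ≠ 0 ∧ InW s w e (aeval s A + aeval s B * w)⁻¹ := by
  have h1 : aeval s A + aeval s B * w ≠ 0 := fun h1 => h0 (by simp [h.ind A B h1])
  exact ⟨h1, 1, 0, A, B, h0, by simp [h1]⟩

theorem AtInf.aval_ne (h : AtInf s w G e) {N : κ[X]} (hN : N ≠ 0) : aeval s N ≠ 0 :=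
  fun h1 => hN (h.ind N 0 (by simp [h1])).1

theorem AtInf.unit_or_dvd (h : AtInf s w G e) {z : E} (hz : InW s w e z) :
    (z ≠ 0 ∧ InW s w e z⁻¹) ∨ ∃ z', InW s w e z' ∧ z = s * z' := by
  obtain ⟨A, B, A', B', h1, h2⟩ := hz
  by_cases h0 : A.eval 0 + B.eval 0 * e = 0
  · obtain ⟨W, hW⟩ := h.exists_subalgebra
    obtain ⟨h3, h4⟩ := h.aval_inv h1
    obtain ⟨h5, h6⟩ := h.aval_inv (A := C e) (B := 1) (by simpa [two_mul] using h.ne)
    refine .inr ⟨_, (hW _).1 (mul_mem (add_mem ((hW _).2 (aval_mem A.divX B.divX))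
      (mul_mem ((hW _).2 (aval_mem (C (B.eval 0) * G.divX) 0)) ((hW _).2 h6))) ((hW _).2 h4)), ?_⟩
    have key : ∀ P : κ[X], aeval s P = s * aeval s P.divX + algebraMap κ E (P.eval 0) := fun P => by
      conv_lhs => rw [← X_mul_divX_add P]
      simp [coeff_zero_eq_eval_zero]
    have h7 := congrArg (algebraMap κ E) h0
    have h8 := h.eq
    rw [key G, h.ev] at h8
    rw [key A, key B] at h2
    rw [← mul_assoc, eq_mul_inv_iff_mul_eq₀ h3]
    simp only [map_add, map_mul, map_zero, map_one, map_pow, aeval_C, one_mul] at h5 h7 h8 ⊢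
    field_simp
    linear_combination (algebraMap κ E e + w) * (h2 + h7) + algebraMap κ E (B.eval 0) * h8
  · obtain ⟨h3, -⟩ := h.aval_inv h0
    have h4 : z ≠ 0 := fun h4 => h3 (by rw [← h2, h4, zero_mul])
    exact .inl ⟨h4, A', B', A, B, h0, by rw [← h2, inv_mul_cancel_left₀ h4]⟩

theorem AtInf.aval_norm (h : AtInf s w G e) {A B : κ[X]} (h0 : aeval s A + aeval s B * w ≠ 0) :
    A ^ 2 - B ^ 2 * G ≠ 0 ∧ (aeval s A + aeval s B * w) * (aeval s A + aeval s (-B) * w) =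
      aeval s (A ^ 2 - B ^ 2 * G) := by
  have h1 : (aeval s A + aeval s B * w) * (aeval s A + aeval s (-B) * w) =
      aeval s (A ^ 2 - B ^ 2 * G) := by
    simp only [map_sub, map_mul, map_pow, map_neg, ← h.eq]
    ring
  refine ⟨fun h2 => h0 ?_, h1⟩
  rw [h2, map_zero, mul_eq_zero] at h1
  refine h1.elim id fun h3 => ?_
  simp [(h.ind _ _ h3).1, neg_eq_zero.1 (h.ind _ _ h3).2]

theorem AtInf.exists_frac (h : AtInf s w G e) (z : E) :
    ∃ A B N : κ[X], N ≠ 0 ∧ z * aeval s N = aeval s A + aeval s B * w := by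
  have hz : z ∈ IntermediateField.adjoin κ {s, w} := h.top ▸ IntermediateField.mem_top
  induction hz using IntermediateField.adjoin_induction with
  | mem x hx =>
    rcases hx with rfl | rfl
    exacts [⟨X, 0, 1, one_ne_zero, by simp⟩, ⟨0, 1, 1, one_ne_zero, by simp⟩]
  | algebraMap c => exact ⟨C c, 0, 1, one_ne_zero, by simp⟩
  | add x y _ _ hx hy =>
    obtain ⟨A, B, N, h1, h2⟩ := hx
    obtain ⟨A', B', N', h3, h4⟩ := hy
    refine ⟨A * N' + A' * N, B * N' + B' * N, N * N', mul_ne_zero h1 h3, ?_⟩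
    simp only [map_add, map_mul]
    linear_combination aeval s N' * h2 + aeval s N * h4
  | inv x _ hx =>
    obtain ⟨A, B, N, h1, h2⟩ := hx
    by_cases h0 : x = 0
    · exact ⟨0, 0, 1, one_ne_zero, by simp [h0]⟩
    obtain ⟨h3, h4⟩ := h.aval_norm (h2 ▸ mul_ne_zero h0 (h.aval_ne h1))
    refine ⟨N * A, N * -B, _, h3, ?_⟩
    rw [← h4, ← h2, mul_assoc, inv_mul_cancel_left₀ h0, map_mul, map_mul]
    ring
  | mul x y _ _ hx hy =>
    obtain ⟨A, B, N, h1, h2⟩ := hx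
    obtain ⟨A', B', N', h3, h4⟩ := hy
    refine ⟨A * A' + B * B' * G, A * B' + A' * B, N * N', mul_ne_zero h1 h3, ?_⟩
    simp only [map_add, map_mul, ← h.eq]
    linear_combination y * aeval s N' * h2 + (aeval s A + aeval s B * w) * h4

theorem AtInf.exists_val (h : AtInf s w G e) :
    ∃ W : ValuationSubring E, ∀ z, z ∈ W ↔ InW s w e z := by
  obtain ⟨W, hW⟩ := h.exists_subalgebra
  have s0 : s ≠ 0 := by simpa using h.aval_ne X_ne_zero
  have hs : s ∈ W := (hW _).2 (by simpa using aval_mem (s := s) (w := w) (e := e) X 0)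
  have h1 : ∀ (n : ℕ) (u v c : E), u ∈ W → v ∈ W → c ≠ 0 → c⁻¹ ∈ W → u * v = s ^ n * c →
      ∃ (m : ℕ) (c' : E), c' ≠ 0 ∧ c' ∈ W ∧ c'⁻¹ ∈ W ∧ u = s ^ m * c' := fun n => by
    induction n with
    | zero =>
      intro u v c hu hv c0 hc e
      rw [pow_zero, one_mul] at e
      have u0 : u ≠ 0 := left_ne_zero_of_mul (e ▸ c0)
      exact ⟨0, u, u0, hu, by
        rw [show u⁻¹ = v * c⁻¹ by rw [← e]; field_simp [right_ne_zero_of_mul (e ▸ c0)]]
        exact mul_mem hv hc, by simp⟩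
    | succ n ih =>
      intro u v c hu hv c0 hc e
      rcases h.unit_or_dvd ((hW _).1 hu) with ⟨u0, h2⟩ | ⟨u, h2, rfl⟩
      · exact ⟨0, u, u0, hu, (hW _).2 h2, by simp⟩
      obtain ⟨m, c', h3, h4, h5, rfl⟩ := ih u v c ((hW _).2 h2) hv c0 hc
        (mul_left_cancel₀ s0 (by linear_combination e))
      exact ⟨m + 1, c', h3, h4, h5, by ring⟩
  have h2 : ∀ N : κ[X], N ≠ 0 →
      ∃ (n : ℕ) (c : E), c ≠ 0 ∧ c ∈ W ∧ c⁻¹ ∈ W ∧ aeval s N = s ^ n * c := fun N hN => by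
    obtain ⟨Q, h3, h4⟩ := exists_eq_pow_rootMultiplicity_mul_and_not_dvd N hN 0
    obtain ⟨h5, h6⟩ := h.aval_inv (A := Q) (B := 0) (by simpa using mt dvd_iff_isRoot.2 h4)
    refine ⟨rootMultiplicity 0 N, _, h5, (hW _).2 (aval_mem Q 0), (hW _).2 h6, ?_⟩
    conv_lhs => rw [h3]
    simp
  refine ⟨.ofSubring W.toSubring fun z => ?_, hW⟩
  change z ∈ W ∨ z⁻¹ ∈ W
  by_cases z0 : z = 0
  · exact .inl (z0 ▸ zero_mem W)
  obtain ⟨A, B, N, h3, h4⟩ := h.exists_frac z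
  obtain ⟨h5, h6⟩ := h.aval_norm (h4 ▸ mul_ne_zero z0 (h.aval_ne h3))
  obtain ⟨n, c, c0, -, hc, h7⟩ := h2 _ h5
  obtain ⟨m, a, a0, ha, ha', h8⟩ := h1 n _ _ c ((hW _).2 (aval_mem A B))
    ((hW _).2 (aval_mem A (-B))) c0 hc (h6.trans h7)
  obtain ⟨k, b, b0, hb, hb', h9⟩ := h2 N h3
  rw [h8, h9] at h4
  rcases le_total k m with h | h <;> obtain ⟨j, rfl⟩ := Nat.exists_eq_add_of_le h
  · refine .inl ((?_ : s ^ j * a * b⁻¹ = z) ▸ mul_mem (mul_mem (pow_mem hs j) ha) hb')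
    field_simp
    exact mul_left_cancel₀ (pow_ne_zero k s0) (by linear_combination -h4)
  · refine .inr ((?_ : s ^ j * b * a⁻¹ = z⁻¹) ▸ mul_mem (mul_mem (pow_mem hs j) hb) ha')
    field_simp
    exact mul_left_cancel₀ (pow_ne_zero m s0) (by linear_combination h4)

end Pool.Agent.Lib.MP_07b2d0_nt.Fh
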