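import Pool.Agent.Lib.MP_07b2d0_nt.Fh.AMain
import Pool.Agent.Lib.MP_07b2d0_nt.Fh.AArch
import Pool.Agent.Lib.MP_07b2d0_nt.Fh.ADim

/-!
Interface of the algebraic block.
-/

set_option autoImplicit false

namespace Pool.Agent.Lib.MP_07b2d0_nt.Fh

open Polynomial NumberField MeasureTheory

variable {L E F : Type} [Field L] [Field E] [Field F] [Algebra L E] {g : ℕ}

theorem exists_gen [CharZero L] (ι : Type) [Fintype ι] {f : L[X]} (hs : f.Separable)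
    (hd : 0 < f.natDegree) :
    ∃ (E : Type) (_ : Field E) (_ : Algebra L E) (x y : ι → E), Gen f x y :=
  exists_gen' ι hs hd

theorem Gen.lift [CharZero L] {ι : Type} [Fintype ι] {f : L[X]} {x y : ι → E} (h : Gen f x y)
    {L' E' : Type} [Field L'] [Field E'] [Algebra L' E'] (σ : L →+* L') {x' y' : ι → E'}
    (hx : AlgebraicIndependent L' x') (hy : ∀ i, y' i ^ 2 = aeval (x' i) (f.map σ)) :
    ∃ s : E →+* E', (∀ c, s (algebraMap L E c) = algebraMap L' E' (σ c)) ∧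
      (∀ i, s (x i) = x' i) ∧ ∀ i, s (y i) = y' i :=
  h.lift' σ hx hy

theorem dim_of_smooth {B R : Type} [CommRing B] [CommRing R] [IsDomain R] [Algebra B R]
    [Algebra.IsStandardSmoothOfRelativeDimension g B R] [Algebra R F] [IsFractionRing R F]
    (hB : ∀ b : B, IsAlgebraic ℤ b) : Dim g F :=
  dim_of_smooth' (B := B) (R := R) hB

variable [NumberField L]

theorem dom {f : L[X]} {x y : Fin g → E} (h : Gen f x y) {O : Type} [CommRing O] [IsDomain O]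
    [Algebra O F] [IsFractionRing O F] (θ : O →+* E) (κ : 𝓞 L →+* O)
    (hκ : θ.comp κ = algebraMap (𝓞 L) E) (hr : Rig θ x) (hd : Dim g F) :
    Function.Injective θ :=
  dom' h θ hr hd

theorem alg_main {f : L[X]} {x y : Fin g → E} {κ : 𝓞 L →+* F} {ι : F →+* E}
    {S : Set (Subring F)} (h : Setup f x y κ ι S) (hg : 0 < g) {e ε τ a₀ a₁ : L}
    {a : Fin (2 * g) → L} {c : Fin (2 * g) → 𝓞 L} (hm : Mob f e ε τ a₀ a₁ a c) :
    Out g κ S c :=
  alg_main' h hg hm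

theorem arch {R : Type} [CommRing R] [IsDomain R] (κ : 𝓞 L →+* R) (hκ : κ.FiniteType)
    {t : Fin g → R} (ht : AlgebraicIndependent ℤ t)
    (ha : ∀ z : R, IsAlgebraic (Algebra.adjoin ℤ (Set.range t)) z) {c : Fin (2 * g) → 𝓞 L}
    {l : Fin g} {h : R} {lam : 𝓞 L} (he : h ^ 2 * Qf (fun i => κ (c i)) t l = κ lam ^ 2)
    (σ : L →+* ℂ) {M : ℝ} (hM : 1 ≤ M) (hc : ∀ i, ‖σ (c i)‖ ≤ M) :
    ENNReal.ofReal (‖σ lam‖ ^ 2 / (4 ^ g * ((g + 1) * M ^ g) ^ (2 * g))) ≤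
      ∫⁻ z : Fin g → ℂ, ∑' P : {P : R →+* ℂ // (∀ a, P (κ a) = σ a) ∧ ∀ i, P (t i) = z i},
        ‖P.1 h‖ₑ ^ 2 :=
  arch' κ hκ ht ha he σ hM hc

end Pool.Agent.Lib.MP_07b2d0_nt.Fh
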