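import Pool.Agent.Lib.MP_07b2d0_nt.Fh.Defs
import Pool.Agent.Lib.MP_07b2d0_nt.CR

/-!
The change of coordinates and the size of its coefficients.
-/

set_option autoImplicit false

namespace Pool.Agent.Lib.MP_07b2d0_nt.Fh

open NumberField Height Polynomial

variable {g : ℕ}

/-- One archimedean absolute value is bounded by the height (`NumberField.mulHeight₁_eq`: all
factors are at least one and `1 ≤ mult`; `InfinitePlace.mk σ`, `InfinitePlace.apply`). -/
theorem norm_le_mulHeight {K : Type} [Field K] [NumberField K] (σ : K →+* ℂ) (z : K) :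
    ‖σ z‖ ≤ mulHeight₁ z := by
  classical
  rw [NumberField.mulHeight₁_eq, ← InfinitePlace.apply σ z]
  have h1 : ∀ v : InfinitePlace K, (1 : ℝ) ≤ max (v z) 1 ^ v.mult := fun v =>
    one_le_pow₀ (le_max_right _ _)
  have h2 : (1 : ℝ) ≤ ∏ᶠ v : FinitePlace K, max (v z) 1 :=
    finprod_induction (fun t : ℝ => 1 ≤ t) le_rfl (fun _ _ => one_le_mul_of_one_le_of_one_le)
      fun _ => le_max_right _ _
  have h3 : max (InfinitePlace.mk σ z) 1 ^ (InfinitePlace.mk σ).mult ≤
      ∏ v : InfinitePlace K, max (v z) 1 ^ v.mult := by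
    rw [← Finset.mul_prod_erase Finset.univ _ (Finset.mem_univ (InfinitePlace.mk σ))]
    exact le_mul_of_one_le_right (by positivity) (Finset.one_le_prod fun v _ => h1 v)
  have h4 : max (InfinitePlace.mk σ z) 1 ≤
      max (InfinitePlace.mk σ z) 1 ^ (InfinitePlace.mk σ).mult :=
    le_self_pow₀ (le_max_right _ _) InfinitePlace.mult_pos.ne'
  calc InfinitePlace.mk σ z ≤ ∏ v : InfinitePlace K, max (v z) 1 ^ v.mult :=
        (le_max_left _ _).trans (h4.trans h3)
    _ ≤ _ := le_mul_of_one_le_right (Finset.prod_nonneg fun v _ => zero_le_one.trans (h1 v)) h2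

/-- A common denominator: `m` is the product of the numbers from `exists_nat_le_mulHeight₁`. -/
theorem exists_den {K : Type} [Field K] [NumberField K] {n : ℕ} (γ : Fin n → K) {H : ℕ}
    (h : ∀ i, logHeight₁ (γ i) ≤ H) : ∃ (m : ℕ) (c : Fin n → 𝓞 K), m ≠ 0 ∧
      (∀ i, (c i : K) = m * γ i) ∧ ∀ (σ : K →+* ℂ) i, ‖σ (c i)‖ ≤ Real.exp ((n + 1) * H : ℕ) := by
  classical
  choose d hd0 hd1 hd2 using fun i => exists_nat_le_mulHeight₁ (γ i)
  have hH : ∀ i, mulHeight₁ (γ i) ≤ Real.exp H := fun i => by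
    rw [← Real.exp_log (mulHeight₁_pos (γ i)), ← logHeight₁_eq_log_mulHeight₁]
    exact Real.exp_le_exp.mpr (h i)
  have hint : ∀ i, IsIntegral ℤ (((∏ j, d j : ℕ) : K) * γ i) := fun i => by
    rw [← Finset.prod_erase_mul Finset.univ _ (Finset.mem_univ i), Nat.cast_mul, mul_assoc]
    exact (isIntegral_natCast _).mul (hd2 i)
  refine ⟨∏ j, d j, fun i => ⟨_, hint i⟩, Finset.prod_ne_zero_iff.mpr fun j _ => hd0 j,
    fun i => rfl, fun σ i => ?_⟩
  change ‖σ (((∏ j, d j : ℕ) : K) * γ i)‖ ≤ _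
  rw [map_mul, norm_mul, map_natCast, Complex.norm_natCast, Nat.cast_prod]
  have h1 : ∏ j, (d j : ℝ) ≤ Real.exp H ^ n := by
    simpa using Finset.prod_le_prod (s := Finset.univ) (f := fun j => (d j : ℝ))
      (g := fun _ => Real.exp H) (fun j _ => Nat.cast_nonneg _) fun j _ => (hd1 j).trans (hH j)
  calc _ ≤ Real.exp H ^ n * Real.exp H :=
        mul_le_mul h1 ((norm_le_mulHeight σ _).trans (hH i)) (norm_nonneg _) (by positivity)
    _ = _ := by
        rw [← pow_succ, ← Real.exp_nat_mul]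
        push_cast
        rfl

/-- Adjoin two square roots: `IntermediateField.adjoin K {r, s}` in the algebraic closure,
`NumberField.of_module_finite`. -/
theorem exists_sqrt_ext {K : Type} [Field K] [NumberField K] (p q : K) :
    ∃ (K' : Type) (_ : Field K') (_ : NumberField K') (i : K →+* K') (r s : K'),
      r ^ 2 = i p ∧ s ^ 2 = i q := by
  obtain ⟨r, hr⟩ := IsAlgClosed.exists_pow_nat_eq (algebraMap K (AlgebraicClosure K) p) two_pos
  obtain ⟨s, hs⟩ := IsAlgClosed.exists_pow_nat_eq (algebraMap K (AlgebraicClosure K) q) two_pos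
  let E : IntermediateField K (AlgebraicClosure K) := IntermediateField.adjoin K {r, s}
  have : FiniteDimensional K E :=
    IntermediateField.finiteDimensional_adjoin fun x _ => Algebra.IsIntegral.isIntegral x
  have : NumberField E := NumberField.of_module_finite K E
  exact ⟨E, inferInstance, inferInstance, algebraMap K E,
    ⟨r, IntermediateField.subset_adjoin _ _ (by simp)⟩,
    ⟨s, IntermediateField.subset_adjoin _ _ (by simp)⟩, Subtype.ext hr, Subtype.ext hs⟩

theorem Mob.map {K L : Type} [Field K] [NumberField K] [Field L] [NumberField L] {f : K[X]}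
    {e ε τ a₀ a₁ : K} {a : Fin (2 * g) → K} {c : Fin (2 * g) → 𝓞 K}
    (h : Mob f e ε τ a₀ a₁ a c) (i : K →+* L) :
    Mob (f.map i) (i e) (i ε) (i τ) (i a₀) (i a₁) (fun n => i (a n))
      fun n => RingOfIntegers.mapRingHom i (c n) := by
  refine ⟨?_, (map_ne_zero i).mpr h.ne, fun n => ?_, ?_⟩
  · rw [h.fac]
    simp [Polynomial.map_prod]
  · have := congrArg i (h.int n)
    simpa using this
  · have := congrArg i h.sq
    simpa using this

/-- Put `a₀ = a 0`, `a₁ = a 1`, `a' n = a n.succ.succ` (`Fin.prod_univ_succ`), `z = ⟨0, _⟩`,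
`γ n = cr a 1 n.succ.succ z.succ.succ 0` for `n ≠ z`, which equals
`(a₁ - a' n) (a₀ - a' z) / ((a₀ - a' n) (a₁ - a' z))`; this expression is `1` for `n = z`.  With
`m, c` from `exists_den` put `τ = m (a₀ - a' z) / (a₁ - a' z)`.  Adjoin square roots `e` of `c₀`
and `ε` of `c₀ (a₀ - a₁) ^ 2 τ ∏ (a₀ - a' n)`; map `c` by `RingOfIntegers.mapRingHom`. -/
theorem exists_mob {K : Type} [Field K] [NumberField K] (hg : 0 < g) {c₀ : K}
    {a : Fin (2 * g + 2) → K} (ha : Function.Injective a) {H : ℕ}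
    (h : ∀ p q s t, [p, q, s, t].Nodup → logHeight₁ (cr a p q s t) ≤ H) :
    ∃ (K' : Type) (_ : Field K') (_ : NumberField K') (i : K →+* K') (e ε τ a₀ a₁ : K')
      (a' : Fin (2 * g) → K') (c : Fin (2 * g) → 𝓞 K'),
      Mob ((C c₀ * ∏ n, (X - C (a n)) : K[X]).map i) e ε τ a₀ a₁ a' c ∧
      ∀ (σ : K' →+* ℂ) n, ‖σ (c n)‖ ≤ Real.exp ((2 * g + 1) * H : ℕ) := by
  let z : Fin (2 * g) := ⟨0, by omega⟩
  have h0 : ∀ n : Fin (2 * g), (0 : Fin (2 * g + 2)) ≠ n.succ.succ := fun n =>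
    (Fin.succ_ne_zero _).symm
  have h1 : ∀ n : Fin (2 * g), (1 : Fin (2 * g + 2)) ≠ n.succ.succ := fun n e => by
    rw [← Fin.succ_zero_eq_one] at e
    exact Fin.succ_ne_zero _ (Fin.succ_injective _ e).symm
  have hγ : ∀ n : Fin (2 * g), logHeight₁ (cr a 1 n.succ.succ z.succ.succ 0) ≤ H := fun n => by
    rcases eq_or_ne n z with rfl | hn
    · rw [cr, div_self (mul_ne_zero (sub_ne ha (h1 _)) (sub_ne ha (h0 _).symm)), logHeight₁_one]
      positivity
    · refine h _ _ _ _ (nodup4.mpr ⟨h1 _, h1 _, Fin.zero_ne_one.symm, fun e => hn ?_,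
        (h0 _).symm, (h0 _).symm⟩)
      exact Fin.succ_injective _ (Fin.succ_injective _ e)
  obtain ⟨m, c, hm, hc, hb⟩ := exists_den _ hγ
  obtain ⟨τ, hτ⟩ : ∃ τ : K, τ = m * (a 0 - a z.succ.succ) / (a 1 - a z.succ.succ) := ⟨_, rfl⟩
  obtain ⟨K', _, _, i, e, ε, he, hε⟩ := exists_sqrt_ext c₀
    (c₀ * (a 0 - a 1) ^ 2 * τ * ∏ n : Fin (2 * g), (a 0 - a n.succ.succ))
  refine ⟨K', inferInstance, inferInstance, i, e, ε, i τ, i (a 0), i (a 1),
    fun n => i (a n.succ.succ), fun n => RingOfIntegers.mapRingHom i (c n),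
    ⟨?_, (map_ne_zero i).mpr ?_, fun n => ?_, ?_⟩, fun σ n => hb (σ.comp i) n⟩
  · rw [he, Fin.prod_univ_succ, Fin.prod_univ_succ]
    simp [Polynomial.map_prod, mul_assoc]
  · rw [hτ]
    exact div_ne_zero (mul_ne_zero (Nat.cast_ne_zero.mpr hm) (sub_ne ha (h0 _))) (sub_ne ha (h1 _))
  · rw [RingOfIntegers.mapRingHom_apply, ← map_sub, ← map_sub, ← map_mul, ← map_mul, hc, hτ, cr]
    have e1 := sub_ne ha (h1 z)
    have e2 := sub_ne ha (h0 n).symm
    refine congrArg i ?_
    field_simp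
    ring
  · rw [hε, he]
    simp

end Pool.Agent.Lib.MP_07b2d0_nt.Fh
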