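import Pool.Agent.Lib.MP_07b2d0_nt.Fh.Nos
import Pool.Agent.Lib.MP_07b2d0_nt.KB2

/-!
Inertia groups act trivially on the torsion of the group of divisor classes.
-/

set_option autoImplicit false

namespace Pool.Agent.Lib.MP_07b2d0_nt.Fh

open CategoryTheory AlgebraicGeometry Polynomial WithZero NumberField
open scoped MonObj IntermediateField

section field

variable {Ω F : Type} [Field Ω] [Field F] [Algebra Ω F]

theorem fd_of_trans {x z : F} (hx : Transcendental Ω x) (h : FiniteDimensional Ω⟮x⟯ F)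
    (hz : Transcendental Ω z) : FiniteDimensional Ω⟮z⟯ F := by
  let e := RatFunc.algEquivOfTranscendental x hx
  let : Algebra (RatFunc Ω) F := (Ω⟮x⟯.val.comp e.toAlgHom).toAlgebra
  have : IsScalarTower Ω (RatFunc Ω) F :=
    .of_algebraMap_eq fun c => ((Ω⟮x⟯.val.comp e.toAlgHom).commutes c).symm
  have : FunctionField Ω F := Module.Finite.of_equiv_equiv e.symm.toRingEquiv (RingEquiv.refl F)
    (RingHom.ext fun a => congrArg Subtype.val (e.apply_symm_apply a))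
  exact FunctionField.finiteDimensional_of_adjoin_transcendental hz

/-- A function without zeros is constant. -/
theorem const_of_plc [IsAlgClosed Ω] [CharZero Ω] {x z : F} (hx : Transcendental Ω x)
    (h : FiniteDimensional Ω⟮x⟯ F) (hz : ∀ v : Plc Ω F, 1 ≤ v.1 z) : ∃ c, algebraMap Ω F c = z := by
  by_cases ht : IsAlgebraic Ω z
  · exact minpoly.mem_range_of_degree_eq_one Ω z
      (IsAlgClosed.degree_eq_one_of_irreducible Ω (minpoly.irreducible ht.isIntegral))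
  · let e := Polynomial.algEquivOfTranscendental Ω z ht
    obtain ⟨v, h₁, ⟨π, h₂⟩, h₃⟩ := Ks.exists_place ht (fd_of_trans hx h ht) (Algebra.adjoin Ω {z})
      (Algebra.self_mem_adjoin_singleton Ω z) (fun a ha => isIntegral_algebraMap (x := (⟨a, ha⟩ :
        Algebra.adjoin Ω {z}))) ((aeval 0).comp e.symm.toAlgHom)
    have h₄ := h₃ (e X)
    simp only [AlgHom.comp_apply, AlgEquiv.coe_toAlgHom, e.symm_apply_apply, aeval_X, map_zero,
      sub_zero] at h₄
    refine absurd (hz ⟨v, fun t => ?_, h₁⟩) (not_le.2 (by simpa [e] using h₄))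
    rcases eq_or_ne t 0 with rfl | ht
    · exact ⟨0, map_zero v⟩
    · exact ⟨π ^ (-log t), by rw [map_zpow₀, h₂, ← exp_zsmul]; simp [exp_log ht]⟩

/-- The action of a semilinear automorphism on the places. -/
def Plc.act (σ : Ω ≃+* Ω) (s : F ≃+* F) (h : ∀ c, s (algebraMap Ω F c) = algebraMap Ω F (σ c)) :
    Plc Ω F ≃ Plc Ω F where
  toFun v := ⟨v.1.comap (s.symm : F →+* F), v.2.1.comp s.symm.surjective, fun c => by
    have := v.2.2 (σ.symm c)
    rwa [← s.symm_apply_apply (algebraMap Ω F _), h, σ.apply_symm_apply] at this⟩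
  invFun v := ⟨v.1.comap (s : F →+* F), v.2.1.comp s.surjective,
    fun c => (congrArg v.1 (h c)).trans_le (v.2.2 _)⟩
  left_inv v := Subtype.ext (Valuation.ext fun z => congrArg v.1 (s.symm_apply_apply z))
  right_inv v := Subtype.ext (Valuation.ext fun z => congrArg v.1 (s.apply_symm_apply z))

theorem IsVal.act {Y : Scheme} {p : Spec (.of F) ⟶ Y} {v : Plc Ω F} {P : Spec (.of Ω) ⟶ Y}
    (hv : IsVal p v.1 P) (σ : Ω ≃+* Ω) (s : F ≃+* F)
    (h : ∀ c, s (algebraMap Ω F c) = algebraMap Ω F (σ c)) :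
    IsVal (Spec.map (CommRingCat.ofHom (s : F →+* F)) ≫ p) (Plc.act σ s h v).1
      (Spec.map (CommRingCat.ofHom (σ : Ω →+* Ω)) ≫ P) := by
  obtain ⟨q, r, h₁, rfl, rfl⟩ := hv
  let t : v.1.valuationSubring →+* (Plc.act σ s h v).1.valuationSubring :=
    ((s : F →+* F).comp v.1.valuationSubring.subtype).codRestrict _ fun a =>
      (congrArg v.1 (s.symm_apply_apply a)).trans_le a.2
  let t' : (Plc.act σ s h v).1.valuationSubring →+* v.1.valuationSubring :=
    ((s.symm : F →+* F).comp (Plc.act σ s h v).1.valuationSubring.subtype).codRestrict _ fun a => a.2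
  refine ⟨Spec.map (CommRingCat.ofHom t) ≫ q, (σ : Ω →+* Ω).comp (r.comp t'), fun c hc => ?_, ?_, ?_⟩
  · obtain ⟨c, rfl⟩ := σ.surjective c
    exact congrArg σ ((congrArg r (Subtype.ext (s.symm_apply_eq.2 (h c).symm))).trans
      (h₁ c (v.2.2 c)))
  · rw [← Category.assoc, ← Category.assoc, ← spec_comp, ← spec_comp]
    rfl
  · rw [← Category.assoc, ← Category.assoc, ← spec_comp, ← spec_comp]
    refine congrArg (fun χ => Spec.map (CommRingCat.ofHom χ) ≫ q) (RingHom.ext fun a => ?_)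
    exact congrArg (fun a => σ (r a)) (Subtype.ext (s.symm_apply_apply a))

/-- Two retractions of the valuation ring of a place are equal. -/
theorem res_unique (v : Plc Ω F) {r r' : v.1.valuationSubring →+* Ω}
    (h : ∀ c hc, r ⟨algebraMap Ω F c, hc⟩ = c) (h' : ∀ c hc, r' ⟨algebraMap Ω F c, hc⟩ = c) :
    r = r' := by
  have key : ∀ {r : v.1.valuationSubring →+* Ω}, (∀ c hc, r ⟨algebraMap Ω F c, hc⟩ = c) →
      RingHom.ker r = IsLocalRing.maximalIdeal _ := fun {r} h => IsLocalRing.eq_maximalIdeal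
    (RingHom.ker_isMaximal_of_surjective r fun c => ⟨_, h c (v.2.2 c)⟩)
  ext a
  have : a - ⟨_, v.2.2 (r a)⟩ ∈ RingHom.ker r' := by
    rw [key h', ← key h, RingHom.mem_ker, map_sub, h, sub_self]
  rw [RingHom.mem_ker, map_sub, h', sub_eq_zero] at this
  exact this.symm

variable {B : Type} [CommRing B] {A : Over (Spec (.of B))}

theorem IsVal.unique [IsSeparated A.hom] {φ : B →+* Ω} {p : Spec (.of F) ⟶ A.left}
    (hp : p ≫ A.hom = Spec.map (CommRingCat.ofHom ((algebraMap Ω F).comp φ))) {v : Plc Ω F}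
    {P P' : Spec (.of Ω) ⟶ A.left} (h : IsVal p v.1 P) (h' : IsVal p v.1 P') : P = P' := by
  obtain ⟨q, r, h₁, h₂, rfl⟩ := h
  obtain ⟨q', r', h₁', h₂', rfl⟩ := h'
  let ψ : B →+* v.1.valuationSubring :=
    ((algebraMap Ω F).comp φ).codRestrict _ fun b => v.2.2 (φ b)
  have key : ∀ q : Spec (.of v.1.valuationSubring) ⟶ A.left,
      Spec.map (CommRingCat.ofHom v.1.valuationSubring.subtype) ≫ q = p →
      q ≫ A.hom = Spec.map (CommRingCat.ofHom ψ) := fun q hq =>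
    over_of_inj _ Subtype.val_injective q (by rw [← Category.assoc, hq, hp]; rfl)
  obtain ⟨Q, rfl⟩ := exists_pt q (key q h₂)
  obtain ⟨Q', rfl⟩ := exists_pt q' (key q' h₂')
  rw [vc_unique _ (h₂.trans h₂'.symm), res_unique v h₁ h₁']

end field

variable {B k Ω F : Type} [CommRing B] [Field k] [Field Ω] [IsAlgClosed Ω] [CharZero Ω]
  [Algebra k Ω] [Field F] [Algebra Ω F] {b : B →+* k} {f : k[X]} {A : Over (Spec (.of B))}
  [GrpObj A] [IsCommMonObj A] {j : sp ((algebraMap k (Crv f)).comp b) ⟶ A}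

theorem tate_core [IsSeparated A.hom] (hJ : IsJac b f A j) (ρ : Crv f →+* F)
    (hρ : ∀ c, ρ (algebraMap k _ c) = algebraMap Ω F (algebraMap k Ω c))
    (hx : Transcendental Ω (ρ (AdjoinRoot.of _ X)))
    (ht : IntermediateField.adjoin Ω (Set.range ρ) = ⊤)
    (hf : FiniteDimensional Ω⟮ρ (AdjoinRoot.of _ X)⟯ F) (σ : Ω ≃+* Ω) (s : F ≃+* F)
    (h : ∀ c, s (algebraMap Ω F c) = algebraMap Ω F (σ c)) (hs : ∀ a, s (ρ a) = ρ a)
    (hσ : (σ : Ω →+* Ω).comp ((algebraMap k Ω).comp b) = (algebraMap k Ω).comp b) {m : ℕ}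
    (hm : m ≠ 0) (hP : ∀ P : sp ((algebraMap k Ω).comp b) ⟶ A, P ^ m = 1 → pm A σ hσ P = P)
    {φ : F} (h0 : φ ≠ 0) (hd : Ks.DivBy Ω m φ) : ∃ ψ : F, s φ = φ * ψ ^ m := by
  obtain ⟨val, hv, -, hp⟩ := hJ Ω F ρ hρ hx ht
  have hm' : (m : ℤ) ≠ 0 := Int.natCast_ne_zero.2 hm
  have he : ∀ v, val (Plc.act σ s h v) = pm A σ hσ (val v) := fun v => by
    refine pt_ext (IsVal.unique (φ := (algebraMap k Ω).comp b) ?_ (hv _) ?_)
    · rw [Category.assoc, pt_w, ← spec_comp]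
      exact congrArg (fun χ => Spec.map (CommRingCat.ofHom χ)) (RingHom.ext fun c => hρ (b c))
    · have := (hv v).act σ s h
      rwa [← Category.assoc, ← spec_comp, show (s : F →+* F).comp ρ = ρ from RingHom.ext hs] at this
  obtain ⟨D, h₁, h₂, h₃⟩ := (hp fun v => log (v.1 φ)).1 ⟨φ, h0, fun _ => rfl⟩
  obtain ⟨D', rfl⟩ : ∃ D' : Plc Ω F →₀ ℤ, D = (m : ℤ) • D' :=
    ⟨D.mapRange (· / m) (Int.zero_ediv _), Finsupp.ext fun v => by
      rw [Finsupp.smul_apply, Finsupp.mapRange_apply, smul_eq_mul, Int.mul_ediv_cancel'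
        ((congrFun h₁ v).symm ▸ hd v.1 v.2.2)]⟩
  let dg : (Plc Ω F →₀ ℤ) →+ ℤ := Finsupp.liftAddHom fun _ => AddMonoidHom.id ℤ
  let sm : (Plc Ω F →₀ ℤ) →+ Additive (sp ((algebraMap k Ω).comp b) ⟶ A) :=
    Finsupp.liftAddHom fun v => zmultiplesHom _ (Additive.ofMul (val v))
  have hdg : ∀ D : Plc Ω F →₀ ℤ, (D.sum fun _ n => n) = dg D := fun _ => rfl
  have hsm : ∀ D : Plc Ω F →₀ ℤ, (D.prod fun v n => val v ^ n) = (sm D).toMul := fun _ => rfl
  rw [hdg, map_zsmul, smul_eq_mul, mul_eq_zero, or_iff_right hm'] at h₂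
  rw [hsm, map_zsmul, toMul_zsmul, zpow_natCast] at h₃
  have h₄ : dg (D'.equivMapDomain (Plc.act σ s h)) = dg D' := by
    rw [← hdg, ← hdg, Finsupp.sum_equivMapDomain]
  have h₅ : (sm (D'.equivMapDomain (Plc.act σ s h))).toMul = (sm D').toMul := by
    rw [← hP _ h₃, ← hsm, ← hsm, Finsupp.prod_equivMapDomain, map_finsuppProd]
    simp only [he, map_zpow]
  obtain ⟨ψ, hψ, h₆⟩ := (hp _).2 ⟨D'.equivMapDomain (Plc.act σ s h) - D', rfl,
    by rw [hdg, map_sub, h₄, sub_self], by rw [hsm, map_sub, toMul_sub, h₅, div_self']⟩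
  have h1 : s φ ≠ 0 := (map_ne_zero s).2 h0
  obtain ⟨c, hc⟩ := const_of_plc hx hf (z := s φ / (φ * ψ ^ m)) fun v => by
    have a₁ := congrFun h₁ v
    have a₂ := congrFun h₁ ((Plc.act σ s h).symm v)
    have a₃ := h₆ v
    simp only [Finsupp.smul_apply, smul_eq_mul, Finsupp.sub_apply,
      Finsupp.equivMapDomain_apply] at a₁ a₂ a₃
    change _ = log (v.1 (s φ)) at a₂
    rw [map_div₀, map_mul, map_pow, ← exp_log ((map_ne_zero v.1).2 h1),
      ← exp_log ((map_ne_zero v.1).2 h0), ← exp_log ((map_ne_zero v.1).2 hψ), ← a₁, ← a₂, ← a₃,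
      ← exp_nsmul, ← exp_add, ← exp_sub, ← exp_zero, exp_le_exp, nsmul_eq_mul]
    exact le_of_eq (by ring)
  obtain ⟨c', rfl⟩ := IsAlgClosed.exists_pow_nat_eq c (Nat.pos_of_ne_zero hm)
  exact ⟨ψ * algebraMap Ω F c', by
    rw [mul_pow, ← map_pow, hc, ← mul_assoc, mul_div_cancel₀ _ (mul_ne_zero h0 (pow_ne_zero _ hψ))]⟩

/-- An element of an inertia group fixes the torsion points of invertible order. -/
theorem nos_inertial {k K Ω : Type} [Field k] [NumberField k] [Field K] [Field Ω] [Algebra k Ω]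
    [Algebra K Ω] {N N' m : ℕ} {A : Over (Spec (.of (ON k N)))} [GrpObj A] [IsCommMonObj A]
    [IsProper A.hom] (hN : N ∣ N') (h0 : N' ≠ 0) (hm : ∃ n, m ∣ N' ^ n) {σ : Ω ≃ₐ[K] Ω}
    (hi : Ks.Inertial K Ω N' σ)
    (hσ : (σ.toRingEquiv : Ω →+* Ω).comp ((algebraMap k Ω).comp (algebraMap (ON k N) k)) =
      (algebraMap k Ω).comp (algebraMap (ON k N) k))
    (P : sp ((algebraMap k Ω).comp (algebraMap (ON k N) k)) ⟶ A) (hP : P ^ m = 1) :
    pm A σ.toRingEquiv hσ P = P := by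
  obtain ⟨O, hO, τ, hτ, rfl⟩ := hi
  have : CharZero Ω := charZero_of_injective_algebraMap (algebraMap k Ω).injective
  have hu : IsUnit (N' : O) := .of_mul_eq_one ⟨_, hO⟩
    (Subtype.ext (mul_inv_cancel₀ (G₀ := Ω) (Nat.cast_ne_zero.2 h0)))
  have hB : ∀ c : ON k N, algebraMap k Ω c ∈ O := fun ⟨c, hc⟩ => by
    induction hc using Algebra.adjoin_induction with
    | mem a ha =>
      obtain ⟨d, rfl⟩ := hN
      change algebraMap k Ω a ∈ O
      rw [ha, map_inv₀, map_natCast, show (N : Ω)⁻¹ = ((N * d : ℕ) : Ω)⁻¹ * d by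
        have := Nat.cast_ne_zero (R := Ω).2 (right_ne_zero_of_mul h0)
        push_cast
        field_simp]
      exact mul_mem hO (natCast_mem O d)
    | algebraMap a =>
      obtain ⟨z, hz⟩ := IsIntegrallyClosed.algebraMap_eq_of_integral (R := O) (K := Ω)
        ((a.2.map (algebraMap k Ω).toIntAlgHom).tower_top)
      exact (show (z : Ω) = _ from hz) ▸ z.2
    | add a b _ _ ha hb => exact map_add (algebraMap k Ω) a b ▸ add_mem ha hb
    | mul a b _ _ ha hb => exact map_mul (algebraMap k Ω) a b ▸ mul_mem ha hb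
  obtain ⟨n, hm⟩ := hm
  exact nos O (((algebraMap k Ω).comp (algebraMap (ON k N) k)).codRestrict O hB) _
    (MulSemiringAction.toRingHom _ O τ) (fun _ => rfl)
    (RingHom.ext fun c => Subtype.ext (DFunLike.congr_fun hσ c))
    (fun a => (IsLocalRing.ResidueField.residue_smul _ τ a).trans
      (DFunLike.congr_fun (MonoidHom.mem_ker.1 hτ) _))
    (isUnit_of_dvd_unit (by exact_mod_cast Nat.cast_dvd_cast hm) (hu.pow n)) hσ hP

theorem tate {k K Ω F : Type} [Field k] [NumberField k] [Field K] [Field Ω] [IsAlgClosed Ω]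
    [Algebra k K] [Algebra k Ω] [Algebra K Ω] [IsScalarTower k K Ω] [Field F] [Algebra Ω F]
    [MulSemiringAction (Ω ≃ₐ[K] Ω) F] {N N' ℓ : ℕ} {A : Over (Spec (.of (ON k N)))} [GrpObj A]
    [IsCommMonObj A] [IsProper A.hom] {f : k[X]}
    {j : sp ((algebraMap k (Crv f)).comp (algebraMap (ON k N) k)) ⟶ A}
    (hJ : IsJac (algebraMap (ON k N) k) f A j) (ρ : Crv f →+* F)
    (hρ : ∀ c, ρ (algebraMap k _ c) = algebraMap Ω F (algebraMap k Ω c))
    (ht : IntermediateField.adjoin Ω (Set.range ρ) = ⊤)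
    (hC : Ks.Curve K Ω (ρ (AdjoinRoot.of _ X)))
    (hy : ∀ σ : Ω ≃ₐ[K] Ω, σ • ρ (AdjoinRoot.root _) = ρ (AdjoinRoot.root _))
    (hN : N ∣ N') (hℓ : ℓ ∣ N') (h0 : N' ≠ 0) : Ks.TateUnramified K Ω F ℓ N' := by
  intro σ hi n φ hφ hd
  have : CharZero Ω := charZero_of_injective_algebraMap (algebraMap k Ω).injective
  have hk : ∀ c, σ (algebraMap k Ω c) = algebraMap k Ω c := fun c => by
    rw [IsScalarTower.algebraMap_apply k K Ω, σ.commutes]
  have hs : (MulSemiringAction.toRingHom _ F σ).comp ρ = ρ := crv_ext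
    (fun c => by rw [RingHom.comp_apply, hρ]; exact (hC.1 σ _).trans (congrArg _ (hk c)))
    (hC.2.1 σ) (hy σ)
  exact tate_core hJ ρ hρ hC.2.2.1 ht hC.2.2.2 σ.toRingEquiv (MulSemiringAction.toRingEquiv _ F σ)
    (hC.1 σ) (DFunLike.congr_fun hs) (RingHom.ext fun c => hk _)
    (pow_ne_zero n (ne_zero_of_dvd_ne_zero h0 hℓ))
    (nos_inertial hN h0 ⟨n, pow_dvd_pow_of_dvd hℓ n⟩ hi _) hφ hd

end Pool.Agent.Lib.MP_07b2d0_nt.Fh
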