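import Pool.Agent.Lib.MP_07b2d0_nt.Fh.Fld
import Pool.Agent.Lib.MP_07b2d0_nt.Fh.Tate
import Pool.Agent.Lib.MP_07b2d0_nt.KB1

/-!
The sum of `g` points in general position determines their abscissae.
-/

set_option autoImplicit false

namespace Pool.Agent.Lib.MP_07b2d0_nt.Fh

open CategoryTheory AlgebraicGeometry Polynomial WithZero
open scoped MonObj IntermediateField

section field

variable {Ω F : Type} [Field Ω] [IsAlgClosed Ω] [CharZero Ω] [Field F] [Algebra Ω F]
  {f : Polynomial Ω} {x y : F}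

/-- The conjugate of a place. -/
def Plc.cj (s : F ≃+* F) (h : ∀ c, s (algebraMap Ω F c) = algebraMap Ω F c) (v : Plc Ω F) :
    Plc Ω F := (Plc.act (RingEquiv.refl Ω) s h).symm v

omit [IsAlgClosed Ω] [CharZero Ω] in
theorem Hyp.aeval_ne (h : Hyp f x y) {A : Polynomial Ω} (hA : A ≠ 0) : aeval x A ≠ 0 :=
  fun h0 => h.trans ⟨A, hA, h0⟩

omit [IsAlgClosed Ω] [CharZero Ω] in
theorem Hyp.sub_ne (h : Hyp f x y) (a : Ω) : x - algebraMap Ω F a ≠ 0 := by
  simpa using h.aeval_ne (X_sub_C_ne_zero a)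

theorem Hyp.exists_cen (h : Hyp f x y) {a b : Ω} (hb : b ^ 2 = f.eval a) :
    ∃ v : Plc Ω F, Ks.Cen v.1 x y a b := by
  obtain ⟨v, hv⟩ : ∃ v : Plc Ω F, v.1 (x - algebraMap Ω F a) < 1 := by
    by_contra h0
    obtain ⟨c, hc⟩ := const_of_plc h.trans h.fd fun v => not_lt.1 (not_exists.1 h0 v)
    exact h.sub_ne (c + a) (by rw [map_add, hc, sub_add_cancel, sub_self])
  obtain ⟨c, h₁, h₂⟩ := Ks.Triv.exists_cen v.2.2 two_ne_zero h.eq hv
  obtain rfl | rfl := sq_eq_sq_iff_eq_or_eq_neg.1 (h₁.trans hb.symm)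
  · exact ⟨v, h₂⟩
  · obtain ⟨s, s₁, s₂, s₃⟩ := h.conj
    refine ⟨v.cj s s₁, ?_, ?_⟩
    · change v.1 (s _) < 1
      rwa [map_sub, s₁, s₂]
    · change v.1 (s _) < 1
      rw [map_sub, s₁, s₃, ← Valuation.map_neg, neg_sub', neg_neg, ← map_neg]
      exact h₂.2

/-- A function with poles of order at most those of `x ^ g` is fixed by the conjugation. -/
theorem Hyp.rr {g : ℕ} (h : Hyp f x y) (hd : f.natDegree = 2 * g + 2) (s : F ≃+* F)
    (s₁ : ∀ c, s (algebraMap Ω F c) = algebraMap Ω F c) (s₂ : s x = x) (s₃ : s y = -y) {ψ : F}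
    (hψ : ∀ v : Plc Ω F, v.1 ψ ≤ max 1 (v.1 x) ^ g) : s ψ = ψ := by
  have hs : ∀ a ∈ Ω⟮x⟯, s a = a := fun a ha => by
    obtain ⟨A, B, rfl⟩ := (IntermediateField.mem_adjoin_simple_iff Ω a).1 ha
    have := fun A => aeval_algHom_apply (AlgEquiv.ofRingEquiv s₁) x A
    simp only [AlgEquiv.ofRingEquiv_apply, s₂] at this
    rw [map_div₀, ← this, ← this]
  obtain ⟨α, hα, β, hβ, rfl⟩ := h.dec ψ
  obtain ⟨A, B, ht⟩ := (IntermediateField.mem_adjoin_simple_iff Ω _).1 (add_mem hβ hβ)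
  have he : α + β * y - s (α + β * y) = (β + β) * y := by
    rw [map_add, map_mul, hs α hα, hs β hβ, s₃]
    ring
  by_contra h0
  have h1 : β + β ≠ 0 := fun h1 => h0 (by rw [h1, zero_mul, sub_eq_zero] at he; exact he.symm)
  generalize β + β = t at ht he h1
  have hA : A ≠ 0 := by rintro rfl; simp [ht] at h1
  have hB : B ≠ 0 := by rintro rfl; simp [ht] at h1
  have hx : x ≠ 0 := by simpa using h.sub_ne 0
  have key : ∀ v : Plc Ω F, v.1 t ≤ 1 ∧ v.1 (t * x) ≤ 1 := fun v => by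
    have n : ∀ {z : F}, z ≠ 0 → v.1 z ≠ 0 := fun hz => (map_ne_zero v.1).2 hz
    have h2 : v.1 (t * y) ≤ max 1 (v.1 x) ^ g := by
      have := hψ (v.cj s s₁)
      change v.1 (s _) ≤ max 1 (v.1 (s x)) ^ g at this
      exact he ▸ v.1.map_sub_le (hψ v) (s₂ ▸ this)
    have h3 := congrArg (fun z => log (v.1 z)) h.eq
    rw [map_mul, ← log_le_log (mul_ne_zero (n h1) (n h.y_ne)) (pow_ne_zero _
      (zero_lt_one.trans_le (le_max_left _ _)).ne'), log_mul (n h1) (n h.y_ne), log_pow] at h2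
    simp only [map_pow, log_pow] at h3
    rcases lt_or_ge 1 (v.1 x) with h4 | h4
    · rw [max_eq_right h4.le] at h2
      rw [Ks.Triv.aeval_inf v.2.2 h4 h.sep.ne_zero, log_pow, hd] at h3
      rw [← log_lt_log one_ne_zero (n hx), log_one] at h4
      rw [map_mul, ← log_le_log (n h1) one_ne_zero,
        ← log_le_log (mul_ne_zero (n h1) (n hx)) one_ne_zero, log_mul (n h1) (n hx), log_one]
      simp only [nsmul_eq_mul] at h2 h3
      push_cast at h3
      constructor <;> linarith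
    · suffices v.1 t ≤ 1 from ⟨this, map_mul v.1 t x ▸ mul_le_one' this h4⟩
      by_cases h5 : ∃ τ, v.1 (x - algebraMap Ω F τ) < 1
      · obtain ⟨τ, h5⟩ := h5
        have h6 := congrArg (fun z => log (v.1 z)) ht
        have h7 := rootMultiplicity_le_one_of_separable h.sep τ
        rw [max_eq_left h4, log_one, smul_zero] at h2
        simp only [map_div₀, log_div (n (h.aeval_ne hA)) (n (h.aeval_ne hB))] at h6
        rw [Ks.Triv.aeval_eq_pow v.2.2 h5 hA, Ks.Triv.aeval_eq_pow v.2.2 h5 hB] at h6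
        rw [Ks.Triv.aeval_eq_pow v.2.2 h5 h.sep.ne_zero] at h3
        rw [← log_lt_log (n (h.sub_ne τ)) one_ne_zero, log_one] at h5
        rw [← log_le_log (n h1) one_ne_zero, log_one]
        simp only [log_pow, nsmul_eq_mul, ← sub_mul] at h3 h6
        by_contra h8
        have h9 : (A.rootMultiplicity τ : ℤ) - B.rootMultiplicity τ < 0 := by nlinarith
        have h7' : (f.rootMultiplicity τ : ℤ) ≤ 1 := by exact_mod_cast h7
        push_cast at h3
        nlinarith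
      · rw [ht, map_div₀, Ks.Triv.aeval_eq_one v.2.2 h4 (not_exists.1 h5) hA,
          Ks.Triv.aeval_eq_one v.2.2 h4 (not_exists.1 h5) hB, div_one]
  obtain ⟨c, hc⟩ := const_of_plc h.trans h.fd (z := t⁻¹) fun v => by
    rw [map_inv₀]
    exact (one_le_inv₀ (zero_lt_iff.2 ((map_ne_zero v.1).2 h1))).2 (key v).1
  obtain ⟨c', hc'⟩ := const_of_plc h.trans h.fd (z := (t * x)⁻¹) fun v => by
    rw [map_inv₀]
    exact (one_le_inv₀ (zero_lt_iff.2 ((map_ne_zero v.1).2 (mul_ne_zero h1 hx)))).2 (key v).2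
  exact h.sub_ne (c / c') (by rw [map_div₀, hc, hc']; field_simp; simp)

end field

theorem exp_sum {I : Type} (s : Finset I) (a : I → ℤ) :
    exp (∑ i ∈ s, a i) = ∏ i ∈ s, exp (a i) :=
  Finset.cons_induction rfl (fun i s hi ih => by
    rw [Finset.sum_cons, Finset.prod_cons, exp_add, ih]) s

variable {B k Ω F : Type} [CommRing B] [Field k] [Field Ω] [IsAlgClosed Ω] [CharZero Ω]
  [Algebra k Ω] [Field F] [Algebra Ω F] {b : B →+* k} {f : k[X]} {A : Over (Spec (.of B))}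
  {j : sp ((algebraMap k (Crv f)).comp b) ⟶ A} {x y : F}

/-- The value at a place with a given centre. -/
theorem Hyp.val_eq [IsSeparated A.hom] (h : Hyp (f.map (algebraMap k Ω)) x y) {v : Plc Ω F}
    {P : sp ((algebraMap k Ω).comp b) ⟶ A}
    (hP : IsVal (Spec.map (CommRingCat.ofHom h.rho) ≫ j.left) v.1 P.left) {u w : Ω}
    (hv : Ks.Cen v.1 x y u w) (e : w ^ 2 = f.eval₂ (algebraMap k Ω) u) : P = jp j _ u w e := by
  refine pt_ext (IsVal.unique (φ := (algebraMap k Ω).comp b) ?_ hP ?_)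
  · rw [Category.assoc, pt_w, ← spec_comp]
    exact congrArg (fun χ => Spec.map (CommRingCat.ofHom χ)) (RingHom.ext fun c => h.rho_c (b c))
  obtain ⟨-, r, hr, -⟩ := hP
  have key : ∀ (z : v.1.valuationSubring) (c : Ω), v.1 (z - algebraMap Ω F c) < 1 → r z = c :=
    fun z c hz => by
      have : z - ⟨_, v.2.2 c⟩ ∈ RingHom.ker r := by
        rw [IsLocalRing.eq_maximalIdeal (RingHom.ker_isMaximal_of_surjective r fun c =>
          ⟨_, hr c (v.2.2 c)⟩), Valuation.mem_maximalIdeal_iff]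
        exact hz
      rwa [RingHom.mem_ker, map_sub, hr, sub_eq_zero] at this
  let κ : k →+* v.1.valuationSubring :=
    ((algebraMap Ω F).comp (algebraMap k Ω)).codRestrict _ fun c => v.2.2 _
  let x' : v.1.valuationSubring := ⟨x, Ks.Triv.le_one_of_cen v.2.2 hv.1⟩
  let y' : v.1.valuationSubring := ⟨y, Ks.Triv.le_one_of_cen v.2.2 hv.2⟩
  have e' : y' ^ 2 = f.eval₂ κ x' :=
    Subtype.ext (h.eq'.trans (hom_eval₂ f κ v.1.valuationSubring.subtype x').symm)
  refine ⟨Spec.map (CommRingCat.ofHom (ev κ x' y' e')) ≫ j.left, r, hr, ?_, ?_⟩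
  · rw [← Category.assoc, ← spec_comp, ev_comp κ x' y' e' _ rfl rfl rfl h.eq']
    rfl
  · rw [← Category.assoc, ← spec_comp, ev_comp κ x' y' e' r (RingHom.ext fun c => hr _ _)
      (key _ _ hv.1) (key _ _ hv.2) e, jp_left]

theorem IsJac.uniqJ [CharZero k] [GrpObj A] [IsCommMonObj A] [IsSeparated A.hom]
    (hJ : IsJac b f A j) (hs : f.Separable) {g : ℕ} (hd : f.natDegree = 2 * g + 2) :
    UniqJ j g := by
  classical
  intro Ω _ _ κ u w u' w' e e' hu hw hΦ i₀
  let := κ.toAlgebra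
  have : CharZero Ω := charZero_of_injective_ringHom κ.injective
  have hd' : (f.map (algebraMap k Ω)).natDegree = 2 * g + 2 := (natDegree_map _).trans hd
  obtain ⟨F, _, _, x, y, h⟩ := exists_hyp (hs.map (f := algebraMap k Ω)) (by omega)
  obtain ⟨val, hv, -, hp⟩ := hJ Ω F h.rho h.rho_c (h.rho_x.symm ▸ h.trans) h.rho_top
  choose P hP using fun i => h.exists_cen ((e i).trans (eval_map κ (u i)).symm)
  choose P' hP' using fun i => h.exists_cen ((e' i).trans (eval_map κ (u' i)).symm)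
  let dg : (Plc Ω F →₀ ℤ) →+ ℤ := Finsupp.liftAddHom fun _ => AddMonoidHom.id ℤ
  let sm : (Plc Ω F →₀ ℤ) →+ Additive (sp ((algebraMap k Ω).comp b) ⟶ A) :=
    Finsupp.liftAddHom fun v => zmultiplesHom _ (Additive.ofMul (val v))
  obtain ⟨φ, h0, hφ⟩ := (hp _).2 ⟨∑ i, Finsupp.single (P i) 1 - ∑ i, Finsupp.single (P' i) 1, rfl,
    show dg _ = 0 by
      simp only [map_sub, map_sum, dg, Finsupp.liftAddHom_apply_single, sub_self, AddMonoidHom.id_apply], show (sm _).toMul = 1 by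
      simp only [map_sub, map_sum, sm, Finsupp.liftAddHom_apply_single, zmultiplesHom_apply,
        one_zsmul, toMul_sub, toMul_sum, toMul_ofMul, div_eq_one]
      exact ((Finset.prod_congr rfl fun i _ => h.val_eq (hv _) (hP i) (e i)).trans hΦ).trans
        (Finset.prod_congr rfl fun i _ => h.val_eq (hv _) (hP' i) (e' i)).symm⟩
  simp only [Finsupp.sub_apply, Finsupp.finsetSum_apply] at hφ
  have n : ∀ (P : Fin g → Plc Ω F) v, (0 : ℤ) ≤ ∑ i, Finsupp.single (P i) 1 v := fun P v =>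
    Finset.sum_nonneg fun i _ => by rw [Finsupp.single_apply]; split_ifs <;> simp
  obtain ⟨s, s₁, s₂, s₃⟩ := h.conj
  have hψ := h.rr hd' s s₁ s₂ s₃ (ψ := φ * ∏ l, (x - algebraMap Ω F (u l))) fun v => by
    have : v.1 φ ≤ exp (∑ i, Finsupp.single (P i) 1 v) :=
      le_exp_of_log_le (by have := n P' v; have := hφ v; omega)
    rw [map_mul, map_prod]
    refine (mul_le_mul_left this _).trans ?_
    rw [exp_sum, ← Finset.prod_mul_distrib]
    refine (Finset.prod_le_pow_card _ _ _ fun l _ => ?_).trans_eq (by rw [Finset.card_fin])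
    rw [Finsupp.single_apply]
    split_ifs with hl
    · subst hl
      refine le_trans ?_ (le_max_left _ _)
      rw [← lt_mul_exp_iff_le one_ne_zero, mul_comm]
      exact mul_lt_mul_of_pos_right (hP l).1 exp_pos
    · rw [exp_zero, one_mul]
      exact v.1.map_sub_le (le_max_right _ _) ((v.2.2 _).trans (le_max_left _ _))
  by_contra hn
  have one : ∀ v : Plc Ω F, v.1 (x - algebraMap Ω F (u' i₀)) < 1 →
      v.1 (φ * ∏ l, (x - algebraMap Ω F (u l))) = v.1 φ ∧
        ∑ i, Finsupp.single (P i) (1 : ℤ) v = 0 := fun v hv => by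
    have : ∀ l, ¬ v.1 (x - algebraMap Ω F (u l)) < 1 := fun l hl =>
      hn ⟨l, Ks.Triv.cen_unique v.2.2 hv hl⟩
    refine ⟨?_, Finset.sum_eq_zero fun l _ => Finsupp.single_eq_of_ne ?_⟩
    · rw [map_mul, map_prod, Finset.prod_eq_one fun l _ => le_antisymm (v.1.map_sub_le
        (Ks.Triv.le_one_of_cen v.2.2 hv) (v.2.2 _)) (not_lt.1 (this l)), mul_one]
    · rintro rfl
      exact this l (hP l).1
  have hQ : ((P' i₀).cj s s₁).1 (x - algebraMap Ω F (u' i₀)) < 1 := by
    change (P' i₀).1 (s _) < 1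
    rw [map_sub, s₁, s₂]
    exact (hP' i₀).1
  have h1 : ((P' i₀).cj s s₁).1 φ = (P' i₀).1 φ := by
    rw [← (one _ hQ).1, ← (one _ (hP' i₀).1).1]
    exact congrArg (P' i₀).1 hψ
  have h2 : ∑ i, Finsupp.single (P' i) (1 : ℤ) ((P' i₀).cj s s₁) = 0 :=
    Finset.sum_eq_zero fun i _ => Finsupp.single_eq_of_ne fun hi => by
      obtain rfl := hu (Ks.Triv.cen_unique ((P' i₀).cj s s₁).2.2 hQ (hi ▸ (hP' i).1))
      have h3 := (hP' i₀).2
      rw [← hi] at h3
      change (P' i₀).1 (s _) < 1 at h3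
      rw [map_sub, s₁, s₃, ← Valuation.map_neg, neg_sub', neg_neg, ← map_neg] at h3
      exact hw i₀ (self_eq_neg.1 (Ks.Triv.cen_unique (P' i₀).2.2 (hP' i₀).2 h3))
  have h3 := hφ (P' i₀)
  rw [← h1, ← hφ, h2, (one _ hQ).2, (one _ (hP' i₀).1).2, ← Finset.add_sum_erase _ _
    (Finset.mem_univ i₀), Finsupp.single_eq_same] at h3
  have := Finset.sum_nonneg (s := Finset.univ.erase i₀)
    (f := fun i => Finsupp.single (P' i) (1 : ℤ) (P' i₀)) fun i _ => by
      rw [Finsupp.single_apply]; split_ifs <;> simp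
  omega

end Pool.Agent.Lib.MP_07b2d0_nt.Fh
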