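import Pool.Agent.Lib.MP_07b2d0_nt.Fh.Ner
import Pool.Agent.Lib.MP_07b2d0_nt.Fh.Uniq
import Pool.Agent.Lib.MP_07b2d0_nt.Fh.Num

/-!
From the heights of the cross ratios to the Faltings height.
-/

set_option autoImplicit false

namespace Pool.Agent.Lib.MP_07b2d0_nt.Fh

open CategoryTheory AlgebraicGeometry Polynomial NumberField Height

theorem IsJac.hLe {B k K : Type} [CommRing B] [Field k] [CharZero k] [Field K] [NumberField K]
    {b : B →+* k} {f : k[X]} {A : Over (Spec (.of B))} [GrpObj A] [IsCommMonObj A]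
    [IsProper A.hom] {j : sp ((algebraMap k (Crv f)).comp b) ⟶ A} (hJ : IsJac b f A j) {g : ℕ}
    (hg : 0 < g) (hs : f.Separable) (hd : f.natDegree = 2 * g + 2) (i : k →+* K) {c₀ : K}
    {a : Fin (2 * g + 2) → K} (ha : Function.Injective a)
    (hf : f.map i = C c₀ * ∏ n, (X - C (a n))) {H : ℕ}
    (h : ∀ p q s t, [p, q, s, t].Nodup → logHeight₁ (cr a p q s t) ≤ H) :
    HLe g b A (g + g * g + g * g * ((2 * g + 1) * H)) := by
  obtain ⟨K', _, _, i', e, ε, τ, a₀, a₁, a', c, hm, hc⟩ := exists_mob (c₀ := c₀) hg ha h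
  refine ⟨K', _, inferInstance, i'.comp i, fun L _ _ e' M _ hN => ?_⟩
  have hm' := hm.map e'
  rw [← hf, Polynomial.map_map, Polynomial.map_map] at hm'
  obtain ⟨E, _, _, x, y, hG⟩ := exists_gen (Fin g) (f := f.map (e'.comp (i'.comp i))) hs.map
    (by rw [natDegree_map]; omega)
  obtain ⟨s, hS⟩ := exists_setup (hJ.uniqJ hs hd) (e'.comp (i'.comp i)) hN hG
  exact hF_le hN.smooth (alg_main hS hg hm') fun σ n => hc (σ.comp e') n

end Pool.Agent.Lib.MP_07b2d0_nt.Fh
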