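import Pool.Agent.Lib.MP_07b2d0_nt.Fh.Stmt

/-!
Internal definitions.
-/

set_option autoImplicit false

namespace Pool.Agent.Lib.MP_07b2d0_nt.Fh

open CategoryTheory AlgebraicGeometry Polynomial NumberField
noncomputable section

section Points

open scoped MonObj

variable {B R R' : Type} [CommRing B] [CommRing R] [CommRing R']

/-- The morphism of `B`-schemes given by a homomorphism of `B`-algebras. -/
def spm {φ : B →+* R} {φ' : B →+* R'} (ψ : R →+* R') (h : ψ.comp φ = φ') : sp φ' ⟶ sp φ :=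
  Over.homMk (Spec.map (CommRingCat.ofHom ψ)) (by
    subst h
    exact (Spec.map_comp (CommRingCat.ofHom φ) (CommRingCat.ofHom ψ)).symm)

/-- Functoriality of the group of points. -/
def pm (A : Over (Spec (.of B))) [GrpObj A] [IsCommMonObj A] {φ : B →+* R} {φ' : B →+* R'}
    (ψ : R →+* R') (h : ψ.comp φ = φ') : (sp φ ⟶ A) →* (sp φ' ⟶ A) where
  toFun P := spm ψ h ≫ P
  map_one' := MonObj.comp_one _
  map_mul' P Q := MonObj.comp_mul _ P Q

variable {k : Type} [Field k] {f : k[X]}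

/-- The point `(u, w)` of the curve with values in `R`. -/
def ev (κ : k →+* R) (u w : R) (h : w ^ 2 = f.eval₂ κ u) : Crv f →+* R :=
  AdjoinRoot.lift (eval₂RingHom κ u) w (by simp [h])

theorem ev_x (κ : k →+* R) (u w : R) (h : w ^ 2 = f.eval₂ κ u) :
    ev κ u w h (AdjoinRoot.of _ X) = u := by simp [ev]

theorem ev_y (κ : k →+* R) (u w : R) (h : w ^ 2 = f.eval₂ κ u) :
    ev κ u w h (AdjoinRoot.root _) = w := by simp [ev]

theorem ev_c (κ : k →+* R) (u w : R) (h : w ^ 2 = f.eval₂ κ u) (c : k) :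
    ev κ u w h (algebraMap k _ c) = κ c := by
  rw [IsScalarTower.algebraMap_apply k k[X] (Crv f), AdjoinRoot.algebraMap_eq]
  simp [ev]

/-- The image in `A(R)` of the point `(u, w)`. -/
def jp {b : B →+* k} {A : Over (Spec (.of B))} (j : sp ((algebraMap k (Crv f)).comp b) ⟶ A)
    (κ : k →+* R) (u w : R) (h : w ^ 2 = f.eval₂ κ u) : sp (κ.comp b) ⟶ A :=
  spm (ev κ u w h) (RingHom.ext fun c => ev_c κ u w h (b c)) ≫ j

/-- The sum in `A(R)` of the images of finitely many points. -/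
def Phi {b : B →+* k} {A : Over (Spec (.of B))} [GrpObj A] [IsCommMonObj A]
    (j : sp ((algebraMap k (Crv f)).comp b) ⟶ A) (κ : k →+* R) {g : ℕ} (u w : Fin g → R)
    (h : ∀ i, w i ^ 2 = f.eval₂ κ (u i)) : sp (κ.comp b) ⟶ A :=
  ∏ i, jp j κ (u i) (w i) (h i)

end Points

section Alg

variable {L E F : Type} [Field L] [Field E] [Field F] [Algebra L E]

/-- `E` is the function field of the curve `y ^ 2 = f(x)`. -/
structure Hyp (f : L[X]) (x y : E) : Prop where
  sep : f.Separable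
  deg : 0 < f.natDegree
  trans : Transcendental L x
  eq : y ^ 2 = aeval x f
  top : IntermediateField.adjoin L {x, y} = ⊤

/-- `E` is the function field of a power of the curve `y ^ 2 = f(x)`. -/
structure Gen {ι : Type} (f : L[X]) (x y : ι → E) : Prop where
  sep : f.Separable
  deg : 0 < f.natDegree
  ind : AlgebraicIndependent L x
  eq : ∀ i, y i ^ 2 = aeval (x i) f
  top : IntermediateField.adjoin L (Set.range x ∪ Set.range y) = ⊤

variable {g : ℕ}

/-- The forms that are regular for each ring of the family `S`. -/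
def LamS (g : ℕ) (S : Set (Subring F)) : AddSubgroup (⋀[F]^g Ω[F⁄ℤ]) :=
  ⨅ T ∈ S, AddSubgroup.closure {α | ∃ a ∈ T, ∃ t : Fin g → F, (∀ i, t i ∈ T) ∧ α = a • dw t}

/-- `D i` is the derivation `2 y_i ∂ / ∂ x_i`. -/
def IsD (x y : Fin g → E) (D : Fin g → Derivation L E E) : Prop :=
  ∀ i l, D i (x l) = if i = l then 2 * y i else 0

/-- `p` evaluates the pull-back of a form on the derivations `D`. -/
def IsPair (ι : F →+* E) (D : Fin g → Derivation L E E) (p : ⋀[F]^g Ω[F⁄ℤ] →+ E) : Prop :=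
  (∀ (a : F) α, p (a • α) = ι a * p α) ∧
    ∀ t : Fin g → F, p (dw t) = (Matrix.of fun i l => D l (ι (t i))).det

/-- Some ring of the family `S` maps into the local ring of `R` at `q`. -/
def Loc (ι : F →+* E) (S : Set (Subring F)) {R : Type} [CommRing R] (ρ : R →+* E) (q : Ideal R) :
    Prop :=
  ∃ T ∈ S, ∀ a ∈ T, ∃ r s : R, s ∉ q ∧ ι a * ρ s = ρ r

/-- Embeddings of `E` that agree on the image of `θ` permute the `x i`. -/
def Rig {O : Type} [CommRing O] (θ : O →+* E) (x : Fin g → E) : Prop :=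
  ∀ (Ω : Type) [Field Ω] [IsAlgClosed Ω] (e τ : E →+* Ω), τ.comp θ = e.comp θ →
    ∀ i, ∃ l, τ (x i) = e (x l)

/-- The transcendence degree is at most `g`. -/
def Dim (g : ℕ) (F : Type) [Field F] : Prop := ∀ t : Fin (g + 1) → F, ¬ AlgebraicIndependent ℤ t

/-- The field `F` of functions on the Néron model, its local rings `S`, and its embedding `ι` in
the function field `E` of the `g`-th power of the curve. -/
structure Setup [NumberField L] (f : L[X]) (x y : Fin g → E) (κ : 𝓞 L →+* F) (ι : F →+* E)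
    (S : Set (Subring F)) : Prop where
  gen : Gen f x y
  cst : ι.comp κ = algebraMap (𝓞 L) E
  reg : ∀ R : Subalgebra L E, (∀ i, x i ∈ R ∧ y i ∈ R) → ∀ q : Ideal R, q.IsPrime →
    Loc ι S (algebraMap R E) q
  val : ∀ O : ValuationSubring E, (∀ c : L, algebraMap L E c ∈ O) → ∃ T ∈ S, ∀ a ∈ T, ι a ∈ O
  nmp : ∀ R : Subalgebra (𝓞 L) E, Algebra.Smooth (𝓞 L) R →
    (∀ i, x i ∈ Algebra.adjoin L (R : Set E) ∧ y i ∈ Algebra.adjoin L (R : Set E)) →
    ∀ q : Ideal R, q.IsPrime → Loc ι S (algebraMap R E) q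
  sym : ∀ (π : Equiv.Perm (Fin g)) (τ : E →ₐ[L] E), (∀ i, τ (x i) = x (π i)) →
    (∀ i, τ (y i) = y (π i)) → ∀ a, τ (ι a) = ι a
  rig : Rig ι x
  dim : Dim g F

/-- The product `4 ^ g ∏ F(x i)` for `F = X ∏ (1 - c i X)`, in terms of the elementary symmetric
functions `t` of the `x i`; here `l` is the last index. -/
def Qf {R : Type} [CommRing R] (c : Fin (2 * g) → R) (t : Fin g → R) (l : Fin g) : R :=
  4 ^ g * t l * ∏ i, (1 + ∑ n : Fin g, (-c i) ^ (n.1 + 1) * t n)

/-- The output of the algebraic part. -/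
def Out [NumberField L] (g : ℕ) (κ : 𝓞 L →+* F) (S : Set (Subring F))
    (c : Fin (2 * g) → 𝓞 L) : Prop :=
  ∃ (lam : LamS g S →+ 𝓞 L) (t : Fin g → F) (l : Fin g), Function.Injective lam ∧
    (∀ (a : 𝓞 L) (α β : LamS g S), β.1 = κ a • α.1 → lam β = a * lam α) ∧
    AlgebraicIndependent ℤ t ∧ (∀ z : F, IsAlgebraic (Algebra.adjoin ℤ (Set.range t)) z) ∧
    ∀ α : LamS g S, ∃ h : F, α.1 = h • dw t ∧ h ^ 2 * Qf (fun i => κ (c i)) t l = κ (lam α) ^ 2

/-- The data of the change of coordinates `x = (a₀ - a₁ τ x') / (1 - τ x')`,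
`y = ε y' / (1 - τ x') ^ (g + 1)` to the curve `y' ^ 2 = x' ∏ (1 - c i x')`. -/
structure Mob [NumberField L] (f : L[X]) (e ε τ a₀ a₁ : L) (a : Fin (2 * g) → L)
    (c : Fin (2 * g) → 𝓞 L) : Prop where
  fac : f = C (e ^ 2) * (X - C a₀) * (X - C a₁) * ∏ i, (X - C (a i))
  ne : τ ≠ 0
  int : ∀ i, (c i : L) * (a₀ - a i) = τ * (a₁ - a i)
  sq : ε ^ 2 = e ^ 2 * (a₀ - a₁) ^ 2 * τ * ∏ i, (a₀ - a i)

end Alg

end

end Pool.Agent.Lib.MP_07b2d0_nt.Fh
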