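import Pool.Agent.Lib.MP_07b2d0_nt.Fh.Fld
import Pool.Agent.Lib.MP_07b2d0_nt.KG6
import Pool.Agent.Lib.MP_07b2d0_nt.KU1
import Pool.Agent.Lib.MP_07b2d0_nt.Inf
import Pool.Agent.Lib.MP_07b2d0_nt.PA4

/-!
The effective bounds for the branch points.
-/

set_option autoImplicit false

namespace Pool.Agent.Lib.MP_07b2d0_nt.Fh

open NumberField Height Polynomial Ks

theorem small_of_le {K : Type} [Field K] [NumberField K] {N D : ℕ} (hN : N ≠ 0)
    (h : ∀ p : ℕ, p.Prime → (p : ℤ) ∣ discr K → p ∣ N) (hD : Module.finrank ℚ K ≤ D) :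
    Small K (par N D) (2 * N) := by
  refine (small_par hN h).mono ?_
  have h1 : 0 < N := Nat.pos_of_ne_zero hN
  have h2 : (N ^ Module.finrank ℚ K) ^ Module.finrank ℚ K ≤ (N ^ D) ^ D :=
    (Nat.pow_le_pow_left (Nat.pow_le_pow_right h1 hD) _).trans
      (Nat.pow_le_pow_right (Nat.pow_pos h1) hD)
  unfold par
  omega

theorem pell_bound : ∃ c : ℕ × ℕ → ℕ, Primrec c ∧
    ∀ (N D r : ℕ) (K F : Type) [Field K] [NumberField K] [Field F]
      [Algebra (AlgebraicClosure K) F]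
      [MulSemiringAction (AlgebraicClosure K ≃ₐ[K] AlgebraicClosure K) F] (x y : F)
      (a : Fin r → K) (u w : (AlgebraicClosure K)[X]),
      2 ∣ N → 0 < N → (∀ p : ℕ, p.Prime → (p : ℤ) ∣ discr K → p ∣ N) →
      Module.finrank ℚ K ≤ D → Function.Injective a → Curve K (AlgebraicClosure K) x →
      (∀ σ : AlgebraicClosure K ≃ₐ[K] AlgebraicClosure K, σ • y = y) →
      y ^ 2 = ∏ i, (x - algebraMap (AlgebraicClosure K) F
        (algebraMap K (AlgebraicClosure K) (a i))) → w ≠ 0 →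
      u ^ 2 - (∏ i, ((X : (AlgebraicClosure K)[X]) -
        C (algebraMap K (AlgebraicClosure K) (a i)))) * w ^ 2 = 1 →
      TateUnramified K (AlgebraicClosure K) F 2 N →
      ∀ p q s t, logHeight₁ (cr a p q s t) ≤ c (N, D) := by
  obtain ⟨c, hc, H⟩ := global_pell
  refine ⟨fun z => 2 * c (par z.1 z.2), pr_mul (.const _) (hc.comp pr_par), ?_⟩
  intro N D r K F _ _ _ _ _ x y a u w hN hN0 hd hD ha hC hy he hw hP hT p q s t
  have : Nonempty (Fin r) := ⟨p⟩
  have ha' := (algebraMap K (AlgebraicClosure K)).injective.comp ha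
  have h3 : Even (Fintype.card (Fin r)) := by
    have := pa1_udeg hw hP
    rw [Nat.even_iff]
    omega
  obtain ⟨u, w, hw, hP, h1, j, h2⟩ := pell_colours ha' _ u w rfl hw hP
  have hG : Ks.Gen 2 x y (1 : AlgebraicClosure K)
      (fun i => algebraMap K (AlgebraicClosure K) (a i)) (fun _ => 1) :=
    ⟨Nat.prime_two, hC.2.2.1, hC.2.2.2, by simpa using he, one_ne_zero, ha',
      by simpa using h3.two_dvd⟩
  have key := H K (Fin r) _ (2 * N) a _ (small_of_le hN0.ne' hd hD) ha h3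
    ((local_P (MulSemiringAction.toRingAut _ F) hG hC.1 hC.2.1 hy hN
      (fun A hA σ hσ => hT σ ⟨A, hA, σ, hσ, rfl⟩) hw hP).mono (dvd_mul_left _ _)) h1
    ⟨j, fun h => (by norm_num : (1 : AlgebraicClosure K) ≠ -1) (h.symm.trans h2)⟩
  rw [cr, mul_div_mul_comm]
  refine (logHeight₁_mul_le _ _).trans ?_
  have e1 := key p q p s
  have e2 := key s t q t
  push_cast
  linarith

theorem g2_bound : ∃ c : ℕ × ℕ → ℕ, Primrec c ∧
    ∀ (N D : ℕ) (K F : Type) [Field K] [NumberField K] [Field F]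
      [Algebra (AlgebraicClosure K) F]
      [MulSemiringAction (AlgebraicClosure K ≃ₐ[K] AlgebraicClosure K) F] (x y : F) (c₀ : K)
      (a : Fin 6 → K) (O : Finset (Finset (Fin 6))),
      2 ∣ N → 0 < N → (∀ p : ℕ, p.Prime → (p : ℤ) ∣ discr K → p ∣ N) →
      Module.finrank ℚ K ≤ D → Function.Injective a → c₀ ≠ 0 →
      Curve K (AlgebraicClosure K) x →
      (∀ σ : AlgebraicClosure K ≃ₐ[K] AlgebraicClosure K, σ • y = y) →
      y ^ 2 = algebraMap (AlgebraicClosure K) F (algebraMap K (AlgebraicClosure K) c₀) *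
        ∏ i, (x - algebraMap (AlgebraicClosure K) F (algebraMap K (AlgebraicClosure K) (a i))) →
      TateUnramified K (AlgebraicClosure K) F 2 N →
      O.card = 4 → (∀ T ∈ O, T.card = 3 ∧ 0 ∈ T) →
      (∀ i l, i ≠ l → ∃ T ∈ O, ¬(i ∈ T ↔ l ∈ T)) →
      (∀ v : FinitePlace K, v (N : K) = 1 → ∀ T ∈ O, ∃ i ∈ T, ∃ i' ∈ T, ∃ l ∉ T, ∃ l' ∉ T,
        v (a i - a l) * v (a i' - a l') ≤ v (a i - a i') * v (a l - a l')) →
      ∀ p q s t, [p, q, s, t].Nodup → logHeight₁ (cr a p q s t) ≤ c (N, D) := by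
  refine ⟨fun z => g2C (par z.1 z.2), pr_g2C.comp pr_par, ?_⟩
  intro N D K F _ _ _ _ _ x y c₀ a O hN hN0 hd hD ha h0 hC hy he hT hO hO' hp h p q s t hq
  have hG : Ks.Gen 2 x y (algebraMap K (AlgebraicClosure K) c₀)
      (fun i => algebraMap K (AlgebraicClosure K) (a i)) (fun _ => 1) :=
    ⟨Nat.prime_two, hC.2.2.1, hC.2.2.2, by simpa using he, by simpa using h0,
      (algebraMap K _).injective.comp ha, by simp⟩
  have hL := local_K' hG hC hy hN hT
  refine genus_two (small_of_le hN0.ne' hd hD) (Nat.le_add_left _ _) ha O hO hO'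
    (fun ⟨i, j, hij, H⟩ => ?_) (fun v hv => ?_) p q s t hq
  · obtain ⟨A, hA, H'⟩ := hp i j hij
    exact H' (H A hA)
  · have hv' := fp_eq_one_of_dvd (dvd_mul_left N 2) hv
    refine hyp_of_loc ha (hL v hv').1 (fun i j n l hq => (hL v hv').2 i j n l hq (by simp)
      (by simp) (by simp) (by simp)) O hO fun A hA hS => ?_
    obtain ⟨i, hi, i', hi', j, hj, j', hj', H⟩ := h v hv' A hA
    exact (hS i hi i' hi' j (Finset.mem_compl.mpr hj) j' (Finset.mem_compl.mpr hj')).not_ge H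

/-- Extension of a finite place to a valuation ring. -/
theorem exists_val_of_place {K : Type} [Field K] [NumberField K] (v : FinitePlace K) :
    ∃ V : ValuationSubring (AlgebraicClosure K), ∀ z w : K,
      V.valuation (algebraMap K _ z) ≤ V.valuation (algebraMap K _ w) ↔ v z ≤ v w := by
  obtain ⟨ν, -, hna, hext, -⟩ := exists_loc K v
  obtain ⟨V, hV, -⟩ := exists_valuationSubring (K := K) hna
  refine ⟨V, fun z w => ?_⟩
  rcases eq_or_ne w 0 with rfl | hw
  · simp only [map_zero, le_zero_iff, map_eq_zero]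
    exact ⟨fun h => by simp [h], fun h => by
      by_contra h0
      exact (v.pos_iff.2 h0).not_ge h⟩
  · have h1 : algebraMap K (AlgebraicClosure K) w ≠ 0 := by simpa using hw
    rw [← div_le_one₀ (zero_lt_iff.2 ((Valuation.ne_zero_iff _).2 h1)), ← map_div₀, ← map_div₀,
      V.valuation_le_one_iff, hV, hext, map_div₀, div_le_one (v.pos_iff.2 hw)]

end Pool.Agent.Lib.MP_07b2d0_nt.Fh
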