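import Pool.Agent.Lib.MP_07b2d0_nt.Fh.Spl
import Pool.Agent.Lib.MP_07b2d0_nt.Fh.BrB
import Pool.Agent.Lib.MP_07b2d0_nt.Fh.Old

/-!
Lemmas for the two effective bounds for the Faltings height.
-/

set_option autoImplicit false

namespace Pool.Agent.Lib.MP_07b2d0_nt.Fh

open CategoryTheory AlgebraicGeometry Polynomial NumberField

theorem natDegree_prod_X_sub {W : Type} [Field W] {n : ℕ} {c : W} (hc : c ≠ 0) (a : Fin n → W) :
    (C c * ∏ i, (X - C (a i))).natDegree = n := by
  rw [natDegree_C_mul hc, natDegree_prod_of_monic _ _ fun i _ => monic_X_sub_C _]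
  simp

/-- The roots in an extension come from the splitting field, in the given order. -/
theorem exists_pull {K W : Type} [Field K] [Field W] (e : K →+* W) {f : K[X]} (hs : f.Separable)
    (h : f.Splits) {n : ℕ} {c : W} {a : Fin n → W} (hf : f.map e = C c * ∏ i, (X - C (a i))) :
    ∃ a' : Fin n → K, Function.Injective a' ∧ (∀ i, e (a' i) = a i) ∧
      f = C f.leadingCoeff * ∏ i, (X - C (a' i)) := by
  have h0 : f.map e ≠ 0 := (hs.map (f := e)).ne_zero
  have h1 : ∀ i, ∃ z, e z = a i := fun i => by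
    refine h.mem_range_of_isRoot hs.ne_zero ?_
    rw [hf, IsRoot, eval_mul, eval_prod, Finset.prod_eq_zero (Finset.mem_univ i) (by simp),
      mul_zero]
  choose a' ha' using h1
  have h2 : c = e f.leadingCoeff := by
    rw [← leadingCoeff_map, hf, leadingCoeff_mul, leadingCoeff_C,
      (monic_prod_of_monic _ _ fun i _ => monic_X_sub_C _).leadingCoeff, mul_one]
  have h3 : f = C f.leadingCoeff * ∏ i, (X - C (a' i)) := map_injective e e.injective (by
    rw [hf, h2, Polynomial.map_mul, Polynomial.map_prod]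
    simp [ha'])
  refine ⟨a', ?_, ha', h3⟩
  rw [h3] at hs
  exact separable_prod_X_sub_C_iff.1 hs.of_mul_right

/-- A split separable polynomial is a product over an enumeration of its roots. -/
theorem exists_enum {K : Type} [Field K] {f : K[X]} (hs : f.Separable) (h : f.Splits) {n : ℕ}
    (hd : f.natDegree = n) : ∃ a : Fin n → K, Function.Injective a ∧
      f = C f.leadingCoeff * ∏ i, (X - C (a i)) := by
  subst hd
  have h1 : f.roots.toList.length = f.natDegree := by
    rw [Multiset.length_toList, h.natDegree_eq_card_roots]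
  have h2 : f.map (RingHom.id K) =
      C f.leadingCoeff * ∏ i : Fin f.natDegree, (X - C (f.roots.toList.get (i.cast h1.symm))) := by
    rw [map_id]
    refine h.eq_prod_roots.trans ?_
    congr 1
    rw [← Multiset.prod_map_toList, ← Fin.prod_univ_fun_getElem]
    exact (Fin.prod_congr' (fun i => X - C f.roots.toList[i.1]) h1.symm).symm
  obtain ⟨a, h3, -, h4⟩ := exists_pull _ hs h h2
  exact ⟨a, h3, h4⟩

variable {k : Type} [Field k] [NumberField k] {N g : ℕ} {f : k[X]}
  {A : Over (Spec (.of (ON k N)))} [GrpObj A] [IsCommMonObj A] [IsProper A.hom]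
  {j : sp ((algebraMap k (Crv f)).comp (algebraMap (ON k N) k)) ⟶ A}

theorem IsJac.exists_tate (hJ : IsJac (algebraMap (ON k N) k) f A j) (hN : 0 < N)
    (hs : f.Separable) (hd : 0 < f.natDegree) (K : Type) [Field K] [Algebra k K] {n : ℕ} {c : K}
    {a : Fin n → K} (hf : f.map (algebraMap k K) = C c * ∏ i, (X - C (a i))) :
    ∃ (F : Type) (_ : Field F) (_ : Algebra (AlgebraicClosure K) F)
      (_ : MulSemiringAction (AlgebraicClosure K ≃ₐ[K] AlgebraicClosure K) F) (x y : F),
      Ks.Curve K (AlgebraicClosure K) x ∧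
      (∀ σ : AlgebraicClosure K ≃ₐ[K] AlgebraicClosure K, σ • y = y) ∧
      y ^ 2 = algebraMap (AlgebraicClosure K) F (algebraMap K (AlgebraicClosure K) c) *
        ∏ i, (x - algebraMap (AlgebraicClosure K) F (algebraMap K (AlgebraicClosure K) (a i))) ∧
      Ks.TateUnramified K (AlgebraicClosure K) F 2 (2 * N) := by
  have : CharZero (AlgebraicClosure K) :=
    charZero_of_injective_algebraMap (algebraMap k _).injective
  obtain ⟨F, _, _, x, y, h⟩ := exists_hyp (f := f.map (algebraMap k (AlgebraicClosure K)))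
    hs.map (by rwa [natDegree_map])
  obtain ⟨_, h1, h2⟩ := h.exists_act K
  refine ⟨F, _, _, _, x, y, h1, h2, ?_, tate hJ h.rho h.rho_c h.rho_top (by rwa [h.rho_x])
    (by rwa [h.rho_y]) (dvd_mul_left _ _) (dvd_mul_right _ _) (by omega)⟩
  rw [h.eq, IsScalarTower.algebraMap_eq k K (AlgebraicClosure K), ← Polynomial.map_map, hf]
  simp [Polynomial.map_prod]

/-- The bound for the Faltings height in terms of the bound for the cross ratios. -/
def fin3 (c : ℕ × ℕ → ℕ) (z : ℕ × ℕ × ℕ) : ℕ :=
  z.2.1 + z.2.1 * z.2.1 + z.2.1 * z.2.1 *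
    ((2 * z.2.1 + 1) * c (2 * z.1, (2 * z.2.1 + 2).factorial * z.2.2))

theorem pr_fin3 {c : ℕ × ℕ → ℕ} (hc : Primrec c) : Primrec (fin3 c) := by
  have h : Primrec fun z : ℕ × ℕ × ℕ => z.2.1 := Primrec.fst.comp .snd
  exact pr_add (pr_add h (pr_mul h h)) (pr_mul (pr_mul h h)
    (pr_mul (pr_add (pr_mul (.const _) h) (.const _)) (hc.comp (.pair (pr_mul (.const _) .fst)
      (pr_mul (pr_fact (pr_add (pr_mul (.const _) h) (.const _))) (Primrec.snd.comp .snd))))))

end Pool.Agent.Lib.MP_07b2d0_nt.Fh
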