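import Pool.Agent.Lib.MP_07b2d0_nt.Fh.Alg
import Pool.Agent.Lib.MP_07b2d0_nt.KStmt

/-!
The function field of the curve and the Galois action on it.
-/

set_option autoImplicit false

namespace Pool.Agent.Lib.MP_07b2d0_nt.Fh

open Polynomial
open scoped IntermediateField

section Hyp

variable {Ω F : Type} [Field Ω] [Field F] [Algebra Ω F] {f : Polynomial Ω} {x y : F}

theorem exists_hyp [CharZero Ω] (hs : f.Separable) (hd : 0 < f.natDegree) :
    ∃ (F : Type) (_ : Field F) (_ : Algebra Ω F) (x y : F), Hyp f x y := by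
  obtain ⟨F, _, _, x, y, h⟩ := exists_gen Unit hs hd
  refine ⟨F, _, _, x (), y (), hs, hd, h.ind.transcendental (), h.eq (), ?_⟩
  rw [← h.top, Set.range_unique, Set.range_unique]
  rfl

theorem Hyp.ext (h : Hyp f x y) {F' : Type} [Field F'] {s t : F →+* F'}
    (hc : ∀ c, s (algebraMap Ω F c) = t (algebraMap Ω F c)) (hx : s x = t x) (hy : s y = t y) :
    s = t := by
  ext z
  induction (h.top ▸ IntermediateField.mem_top : z ∈ IntermediateField.adjoin Ω {x, y})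
    using IntermediateField.adjoin_induction with
  | mem a ha => rcases ha with rfl | rfl <;> assumption
  | algebraMap c => exact hc c
  | add a b _ _ ha hb => rw [map_add, map_add, ha, hb]
  | inv a _ ha => rw [map_inv₀, map_inv₀, ha]
  | mul a b _ _ ha hb => rw [map_mul, map_mul, ha, hb]

theorem Hyp.lift [CharZero Ω] (h : Hyp f x y) (σ : Ω →+* Ω) (hσ : f.map σ = f) {y' : F}
    (hy : y' ^ 2 = y ^ 2) : ∃ s : F →+* F,
      (∀ c, s (algebraMap Ω F c) = algebraMap Ω F (σ c)) ∧ s x = x ∧ s y = y' := by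
  have hi : AlgebraicIndependent Ω fun _ : Unit => x :=
    algebraicIndependent_unique_type_iff.2 h.trans
  obtain ⟨s, h₁, h₂, h₃⟩ := Gen.lift (f := f) (x := fun _ : Unit => x) (y := fun _ => y)
    ⟨h.sep, h.deg, hi, fun _ => h.eq, by rw [Set.range_unique, Set.range_unique]; exact h.top⟩ σ
    (y' := fun _ => y') hi fun _ => by rw [hσ, hy, h.eq]
  exact ⟨s, h₁, h₂ (), h₃ ()⟩

theorem Hyp.conj [CharZero Ω] (h : Hyp f x y) : ∃ s : F ≃+* F,
    (∀ c, s (algebraMap Ω F c) = algebraMap Ω F c) ∧ s x = x ∧ s y = -y := by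
  obtain ⟨s, h₁, h₂, h₃⟩ := h.lift (RingHom.id Ω) map_id (neg_sq y)
  have : s.comp s = RingHom.id F := h.ext (fun c => by rw [RingHom.comp_apply, h₁, h₁]; rfl)
    (by rw [RingHom.comp_apply, h₂, h₂]; rfl) (by rw [RingHom.comp_apply, h₃, map_neg, h₃, neg_neg]; rfl)
  exact ⟨RingEquiv.ofRingHom s s this this, h₁, h₂, h₃⟩

theorem Hyp.sq_mem (h : Hyp f x y) : y ^ 2 ∈ Ω⟮x⟯ := h.eq ▸ IntermediateField.algebra_adjoin_le_adjoin
  Ω {x} (aeval_mem_adjoin_singleton Ω x)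

theorem Hyp.isIntegral (h : Hyp f x y) : IsIntegral Ω⟮x⟯ y :=
  IsIntegral.of_pow two_pos (isIntegral_algebraMap (x := (⟨_, h.sq_mem⟩ : Ω⟮x⟯)))

theorem Hyp.top' (h : Hyp f x y) : Ω⟮x⟯⟮y⟯ = ⊤ := IntermediateField.restrictScalars_injective Ω
  ((IntermediateField.adjoin_simple_adjoin_simple Ω x y).trans h.top)

theorem Hyp.fd (h : Hyp f x y) : FiniteDimensional Ω⟮x⟯ F :=
  have := IntermediateField.adjoin.finiteDimensional h.isIntegral
  Module.Finite.equiv ((IntermediateField.equivOfEq h.top').trans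
    IntermediateField.topEquiv).toLinearEquiv

theorem Hyp.dec (h : Hyp f x y) (z : F) : ∃ α ∈ Ω⟮x⟯, ∃ β ∈ Ω⟮x⟯, z = α + β * y := by
  have hz : z ∈ Algebra.adjoin Ω⟮x⟯ {y} := by
    rw [← IntermediateField.adjoin_simple_toSubalgebra_of_isAlgebraic h.isIntegral.isAlgebraic,
      h.top']
    trivial
  induction hz using Algebra.adjoin_induction with
  | mem a ha => exact ⟨0, zero_mem _, 1, one_mem _, by rw [ha, zero_add, one_mul]⟩
  | algebraMap c => exact ⟨c, c.2, 0, zero_mem _, by rw [zero_mul, add_zero]; rfl⟩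
  | add a b _ _ ha hb =>
    obtain ⟨α, h₁, β, h₂, rfl⟩ := ha
    obtain ⟨α', h₃, β', h₄, rfl⟩ := hb
    exact ⟨_, add_mem h₁ h₃, _, add_mem h₂ h₄, by ring⟩
  | mul a b _ _ ha hb =>
    obtain ⟨α, h₁, β, h₂, rfl⟩ := ha
    obtain ⟨α', h₃, β', h₄, rfl⟩ := hb
    exact ⟨_, add_mem (mul_mem h₁ h₃) (mul_mem (mul_mem h₂ h₄) h.sq_mem), _,
      add_mem (mul_mem h₁ h₄) (mul_mem h₂ h₃), by ring⟩

theorem Hyp.y_ne (h : Hyp f x y) : y ≠ 0 := fun h0 => h.trans
  ⟨f, h.sep.ne_zero, by rw [← h.eq, h0, zero_pow two_ne_zero]⟩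

end Hyp

variable {k Ω F : Type} [Field k] [Field Ω] [Algebra k Ω] [Field F] [Algebra Ω F] {f : k[X]}
  {x y : F}

theorem Hyp.eq' (h : Hyp (f.map (algebraMap k Ω)) x y) :
    y ^ 2 = f.eval₂ ((algebraMap Ω F).comp (algebraMap k Ω)) x := by
  rw [h.eq, aeval_def, eval₂_map]

/-- The generic point of the curve. -/
noncomputable def Hyp.rho (h : Hyp (f.map (algebraMap k Ω)) x y) : Crv f →+* F := ev _ x y h.eq'

theorem Hyp.rho_x (h : Hyp (f.map (algebraMap k Ω)) x y) : h.rho (AdjoinRoot.of _ X) = x :=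
  ev_x _ _ _ _

theorem Hyp.rho_y (h : Hyp (f.map (algebraMap k Ω)) x y) : h.rho (AdjoinRoot.root _) = y :=
  ev_y _ _ _ _

theorem Hyp.rho_c (h : Hyp (f.map (algebraMap k Ω)) x y) (c : k) :
    h.rho (algebraMap k _ c) = algebraMap Ω F (algebraMap k Ω c) := ev_c _ _ _ _ c

theorem Hyp.rho_top (h : Hyp (f.map (algebraMap k Ω)) x y) :
    IntermediateField.adjoin Ω (Set.range h.rho) = ⊤ :=
  top_le_iff.1 (h.top.ge.trans (IntermediateField.adjoin.mono _ _ _ (by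
    rintro _ (rfl | rfl)
    exacts [⟨_, h.rho_x⟩, ⟨_, h.rho_y⟩])))

/-- The semilinear action that fixes `x` and `y`. -/
theorem Hyp.exists_act [CharZero Ω] (h : Hyp (f.map (algebraMap k Ω)) x y) (K : Type) [Field K]
    [Algebra k K] [Algebra K Ω] [IsScalarTower k K Ω] :
    ∃ _ : MulSemiringAction (Ω ≃ₐ[K] Ω) F, Ks.Curve K Ω x ∧ ∀ σ : Ω ≃ₐ[K] Ω, σ • y = y := by
  choose s h₁ h₂ h₃ using fun σ : Ω ≃ₐ[K] Ω => h.lift (σ : Ω →+* Ω) (by
    rw [map_map]
    exact congrArg f.map (RingHom.ext fun c => (σ.restrictScalars k).commutes c)) rfl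
  let a : (Ω ≃ₐ[K] Ω) →* (F →+* F) :=
    { toFun := s
      map_one' := h.ext (h₁ 1) (h₂ 1) (h₃ 1)
      map_mul' := fun σ τ => h.ext (fun c => (h₁ _ c).trans ((h₁ σ _).symm.trans
        (congrArg (s σ) (h₁ τ c).symm))) ((h₂ _).trans ((h₂ σ).symm.trans
        (congrArg (s σ) (h₂ τ).symm))) ((h₃ _).trans ((h₃ σ).symm.trans
        (congrArg (s σ) (h₃ τ).symm))) }
  exact ⟨MulSemiringAction.compHom F a, ⟨h₁, h₂, h.trans, h.fd⟩, h₃⟩

end Pool.Agent.Lib.MP_07b2d0_nt.Fh
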