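import Pool.Agent.Lib.MP_07b2d0_nt.Fh.Fin
import Pool.Agent.Lib.MP_07b2d0_nt.KT4

/-!
Three hyperelliptic quotients of a Klein four cover of the line.
-/

set_option autoImplicit false

namespace Pool.Agent.Lib.MP_07b2d0_nt.Fh

open CategoryTheory AlgebraicGeometry Polynomial NumberField Height Ks

theorem locK_congr {K ι : Type} [Field K] [NumberField K] {ℓ N : ℕ} {a : ι → K} {w w' : ι → ℕ}
    (h : LocK ℓ N a w) (hw : ∀ i, w i ≡ w' i [MOD ℓ]) : LocK ℓ N a w' := by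
  have e : ∀ i, ℓ ∣ w' i ↔ ℓ ∣ w i := fun i => ((hw i).dvd_iff dvd_rfl).symm
  refine fun v hv => ⟨fun I J h1 h2 h3 h4 h5 => (h v hv).1 I J h1 (by simpa only [e] using h2)
    h3 h4 ?_, fun i j n l => by simpa only [e] using (h v hv).2 i j n l⟩
  exact ((Nat.ModEq.sum fun i _ => hw i).dvd_iff dvd_rfl).2 h5

theorem locK_zero {K ι : Type} [Field K] [NumberField K] {ℓ N : ℕ} (a : ι → K) :
    LocK ℓ N a fun _ => 0 :=
  fun _ _ => ⟨fun _ _ _ h2 ⟨i, hi⟩ _ _ => ((h2 i).2 (.inl hi) (dvd_zero _)).elim,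
    fun _ _ _ _ _ hi => (hi (dvd_zero _)).elim⟩

/-- The weight that omits the colour `i`. -/
def om {ι : Type} (s : ι → Fin 3) (i : Fin 3) (n : ι) : ℕ := if s n = i then 0 else 1

/-- The three nonzero colours. -/
def gam (i : Fin 3) (j : Fin 2) : ZMod 2 := if i = j.castSucc then 0 else 1

theorem gam_spec : (∀ i, gam i ≠ 0) ∧ (∀ i i' (u : ZMod 2), gam i' = u • gam i → i = i') ∧
    ∀ i i' i'', i' = i'' ∨ i = i' ∨ i = i'' → gam i ≠ gam i' + gam i'' := by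
  decide

theorem klein_bound : ∃ c : ℕ × ℕ → ℕ, Primrec c ∧
    ∀ (N D : ℕ) (K ι : Type) [Field K] [NumberField K] [Fintype ι] (a : ι → K) (s : ι → Fin 3),
      0 < N → (∀ p : ℕ, p.Prime → (p : ℤ) ∣ discr K → p ∣ N) → Module.finrank ℚ K ≤ D →
      Function.Injective a → (∀ i, LocK 2 N a (om s i)) → (∀ i, 2 ∣ ∑ n, om s i n) →
      (∃ p l, s p ≠ s l) →
      (∀ p l, p ≠ l → ∃ n, n ≠ p ∧ n ≠ l ∧ (s p = s l ∨ s n = s p ∨ s n = s l)) →
      ∀ p q r t, [p, q, r, t].Nodup → logHeight₁ (cr a p q r t) ≤ c (N, D) := by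
  obtain ⟨c, hc, H⟩ := global_col
  refine ⟨fun z => c (par z.1 z.2), hc.comp pr_par, ?_⟩
  intro N D K ι _ _ _ a s hN hd hD ha hL hs h2 h3
  have : Fact (Nat.Prime 2) := ⟨Nat.prime_two⟩
  have e : ∀ n, col 2 (fun j : Fin 2 => om s j.castSucc) n = gam (s n) := fun n => by
    funext j
    simp only [col, om, gam]
    split_ifs <;> rfl
  refine H K ι _ (2 * N) 2 2 a (fun j => om s j.castSucc) (small_of_le hN.ne' hd hD)
    (dvd_mul_right _ _) ha (fun n => ?_) (fun t => LocK.mono ?_ (dvd_mul_left _ _)) ?_ ?_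
    fun _ p l hpl => ?_
  · rw [e]
    exact gam_spec.1 _
  · have e2 : ∀ n, wt (fun j : Fin 2 => om s j.castSucc) t n = t 0 * om s 0 n + t 1 * om s 1 n :=
      fun n => by simp [wt]
    rcases Nat.mod_two_eq_zero_or_one (t 0) with h0 | h0 <;>
      rcases Nat.mod_two_eq_zero_or_one (t 1) with h1 | h1
    · exact locK_congr (locK_zero a) fun n => by
        rw [e2, Nat.ModEq, Nat.add_mod, Nat.mul_mod, Nat.mul_mod (t 1), h0, h1]; simp
    · exact locK_congr (hL 1) fun n => by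
        rw [e2, Nat.ModEq, Nat.add_mod, Nat.mul_mod, Nat.mul_mod (t 1), h0, h1]; simp
    · exact locK_congr (hL 0) fun n => by
        rw [e2, Nat.ModEq, Nat.add_mod, Nat.mul_mod, Nat.mul_mod (t 1), h0, h1]; simp
    · exact locK_congr (hL 2) fun n => by
        rw [e2, Nat.ModEq, Nat.add_mod, Nat.mul_mod, Nat.mul_mod (t 1), h0, h1]
        simp only [om]
        generalize s n = i
        revert i
        decide
  · funext j
    simp only [col, Finset.sum_apply, Pi.zero_apply, ← Nat.cast_sum]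
    exact (ZMod.natCast_eq_zero_iff _ _).mpr (hs _)
  · obtain ⟨p, l, h⟩ := h2
    refine ⟨p, l, fun ⟨u, hu⟩ => h ?_⟩
    rw [e, e] at hu
    exact gam_spec.2.1 _ _ u hu
  · obtain ⟨n, h4, h5, h6⟩ := h3 p l hpl
    refine ⟨n, h4, h5, ?_⟩
    rw [e, e, e]
    exact gam_spec.2.2 _ _ _ h6

variable {k : Type} [Field k] [NumberField k] {N g : ℕ} {f : k[X]}
  {A : Over (Spec (.of (ON k N)))} [GrpObj A] [IsCommMonObj A] [IsProper A.hom]
  {j : sp ((algebraMap k (Crv f)).comp (algebraMap (ON k N) k)) ⟶ A}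

theorem IsJac.locK (hJ : IsJac (algebraMap (ON k N) k) f A j) (hN : 0 < N)
    (hs : f.Separable) (hd : f.natDegree = 2 * g + 2) {K ι : Type} [Field K] [NumberField K]
    [Algebra k K] [Fintype ι] {c : K} {a : ι → K} {w : ι → ℕ} (ha : Function.Injective a)
    (hf : f.map (algebraMap k K) = C c * ∏ i, (X - C (a i)) ^ w i) :
    LocK 2 (2 * N) a w ∧ 2 ∣ ∑ i, w i := by
  have : CharZero (AlgebraicClosure K) :=
    charZero_of_injective_algebraMap (algebraMap k _).injective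
  have h0 : c ≠ 0 := fun h => (hs.map (f := algebraMap k K)).ne_zero (by rw [hf, h, C_0, zero_mul])
  have hw : 2 ∣ ∑ i, w i := by
    have h1 := congrArg natDegree hf
    rw [natDegree_map, natDegree_C_mul h0,
      natDegree_prod_of_monic _ _ fun i _ => (monic_X_sub_C _).pow _] at h1
    simp only [natDegree_pow, natDegree_X_sub_C, mul_one] at h1
    omega
  obtain ⟨F, _, _, x, y, h⟩ := exists_hyp (f := f.map (algebraMap k (AlgebraicClosure K)))
    hs.map (by rw [natDegree_map]; omega)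
  obtain ⟨_, h1, h2⟩ := h.exists_act K
  refine ⟨local_K' (y := y) (c := c) ⟨Nat.prime_two, h1.2.2.1, h1.2.2.2, ?_, by simpa using h0,
    (algebraMap K _).injective.comp ha, hw⟩ h1 h2 (dvd_mul_right _ _)
    (tate hJ h.rho h.rho_c h.rho_top (by rwa [h.rho_x])
      (by rwa [h.rho_y]) (dvd_mul_left _ _) (dvd_mul_right _ _) (by omega)), hw⟩
  rw [h.eq, IsScalarTower.algebraMap_eq k K (AlgebraicClosure K), ← Polynomial.map_map, hf]
  simp [Polynomial.map_prod]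

theorem IsJac.root_fix (hJ : IsJac (algebraMap (ON k N) k) f A j) (hN : 0 < N) (hg : 2 ≤ g)
    (hs : f.Separable) (hd : f.natDegree = 2 * g + 2)
    {σ : AlgebraicClosure k ≃ₐ[k] AlgebraicClosure k}
    (hσ : Inertial k (AlgebraicClosure k) (2 * N) σ) {r : AlgebraicClosure k}
    (hr : aeval r f = 0) : σ r = r := by
  have hd' := (natDegree_map (algebraMap k (AlgebraicClosure k))).trans hd
  obtain ⟨F, _, _, x, y, h⟩ := exists_hyp (hs.map (f := algebraMap k (AlgebraicClosure k)))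
    (by omega)
  obtain ⟨_, hC, hy⟩ := h.exists_act k
  have ht := tate hJ h.rho h.rho_c h.rho_top (h.rho_x.symm ▸ hC) (h.rho_y.symm ▸ hy)
    (dvd_mul_left N 2) (dvd_mul_right 2 N) (by omega) σ hσ 1
  exact h.root_fix hg hd' σ.toRingEquiv (MulSemiringAction.toRingHom _ F σ) (hC.1 σ) (hC.2.1 σ)
    ht ((eval_map_algebraMap f _).trans hr)

theorem exists_field_of_fix {M : ℕ} (hk : ∀ p : ℕ, p.Prime → (p : ℤ) ∣ discr k → p ∣ M)
    (hs : f.Separable) (h : ∀ σ, Inertial k (AlgebraicClosure k) M σ →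
      ∀ r : AlgebraicClosure k, aeval r f = 0 → σ r = r) :
    ∃ (K : Type) (_ : Field K) (_ : NumberField K) (_ : Algebra k K),
      Module.finrank ℚ K ≤ f.natDegree.factorial * Module.finrank ℚ k ∧
      (∀ p : ℕ, p.Prime → (p : ℤ) ∣ discr K → p ∣ M) ∧ (f.map (algebraMap k K)).Splits := by
  obtain ⟨K, _, _, hK⟩ : ∃ (K : Type) (_ : Field K) (_ : Algebra k K), f.IsSplittingField k K :=
    ⟨f.SplittingField, _, _, inferInstance⟩
  have := IsSplittingField.finiteDimensional K f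
  have := NumberField.of_module_finite k K
  have := IsGalois.of_separable_splitting_field (E := K) hs
  refine ⟨K, _, inferInstance, _, ?_, unram_of_inertia IsAlgClosed.lift hk fun σ hσ => ?_,
    hK.splits⟩
  · rw [← Module.finrank_mul_finrank ℚ k K, mul_comm]
    exact Nat.mul_le_mul_right _ (finrank_le_factorial hs)
  refine DFunLike.congr_fun (AlgHom.ext_of_adjoin_eq_top hK.adjoin_rootSet
    (φ₁ := σ.toAlgHom.comp IsAlgClosed.lift) (φ₂ := IsAlgClosed.lift) fun r hr => ?_)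
  exact h σ hσ _ ((aeval_algHom_apply IsAlgClosed.lift r f).trans
    (by rw [(mem_rootSet.1 hr).2, map_zero]))

omit [NumberField k] in
theorem fix_of_natDegree_le {Ω : Type} [Field Ω] [Algebra k Ω] (h0 : f ≠ 0)
    (hd : f.natDegree ≤ 1) (σ : Ω ≃ₐ[k] Ω) {r : Ω} (hr : aeval r f = 0) : σ r = r := by
  obtain ⟨z, rfl⟩ := (Splits.of_natDegree_le_one hd).mem_range_of_isRoot (i := algebraMap k Ω) h0
    ((eval_map_algebraMap f _).trans hr)
  exact σ.commutes z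

omit [NumberField k] in
theorem HLe.mono {B : Type} [CommRing B] {b : B →+* k} {A : Over (Spec (.of B))} {H H' : ℕ}
    (h : HLe g b A H) (hH : H ≤ H') : HLe g b A H' := by
  obtain ⟨K, _, _, i, h⟩ := h
  exact ⟨K, _, inferInstance, i, fun L _ _ e M _ hM α h1 h2 =>
    (h L e M hM α h1 h2).trans (by exact_mod_cast hH)⟩

theorem prod_om {M : Type} [CommMonoid M] {β : Fin 3 → Type} [∀ i, Fintype (β i)]
    (Q : ∀ i, β i → M) (i : Fin 3) :
    ∏ n : Σ m, β m, Q n.1 n.2 ^ om Sigma.fst i n = (∏ n, Q (i + 1) n) * ∏ n, Q (i + 2) n := by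
  rw [Fintype.prod_sigma]
  fin_cases i <;> simp [om, Fin.prod_univ_three, mul_comm]

theorem colours {d : Fin 3 → ℕ} (h3 : 3 ≤ ∑ i, d i) (h1 : ∀ i, d i = 1 → d (i + 1) ≠ 1)
    (p l : Σ i, Fin (d i)) :
    ∃ n, n ≠ p ∧ n ≠ l ∧ (p.1 = l.1 ∨ n.1 = p.1 ∨ n.1 = l.1) := by
  have key : ∀ q : Σ i, Fin (d i), d q.1 ≠ 1 → ∃ n, n ≠ q ∧ n.1 = q.1 := fun ⟨i, q⟩ h => by
    have := Fin.nontrivial_iff_two_le.2 (show 2 ≤ d i by have := q.2; simp only at h; omega)
    obtain ⟨n, hn⟩ := exists_ne q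
    exact ⟨⟨i, n⟩, fun h => hn (eq_of_heq (Sigma.mk.inj h).2), rfl⟩
  by_cases h : p.1 = l.1
  · obtain ⟨n, -, hn⟩ := Finset.exists_mem_notMem_of_card_lt_card (s := {p, l}) (t := .univ)
      (Finset.card_le_two.trans_lt (by simpa using Nat.lt_of_succ_le h3))
    rw [Finset.mem_insert, Finset.mem_singleton, not_or] at hn
    exact ⟨n, hn.1, hn.2, .inl h⟩
  by_cases hp : d p.1 = 1
  · obtain ⟨n, h4, h5⟩ := key l fun hl => by
      rcases (by decide : ∀ i i' : Fin 3, i ≠ i' → i' = i + 1 ∨ i = i' + 1) _ _ h with e | e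
      exacts [h1 _ hp (e ▸ hl), h1 _ hl (e ▸ hp)]
    exact ⟨n, fun e => h (e ▸ h5), h4, .inr (.inr h5)⟩
  · obtain ⟨n, h4, h5⟩ := key p hp
    exact ⟨n, h4, fun e => h (e ▸ h5.symm), .inr (.inl h5)⟩

theorem pair_dvd {M : Type} [CommMonoid M] (f : Fin 3 → M) (i : Fin 3) :
    f (i + 1) * f (i + 2) ∣ ∏ n, f n :=
  ⟨f i, by
    rw [Fin.prod_univ_three]
    fin_cases i
    exacts [mul_rotate _ _ _, (mul_rotate _ _ _).symm, rfl]⟩

theorem deg_facts {d g : Fin 3 → ℕ} (he : ∀ i, d (i + 1) + d (i + 2) = 2 * g i + 2)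
    (hm : ∃ m, 2 ≤ g m) : ∑ n, d n = ∑ n, g n + 3 ∧
      (∀ n, d n ≤ 1 ∨ 2 ≤ g (n + 1) ∨ 2 ≤ g (n + 2)) ∧
      ∃ p l : Σ n, Fin (d n), p.1 ≠ l.1 := by
  have e0 : d 1 + d 2 = 2 * g 0 + 2 := he 0
  have e1 : d 2 + d 0 = 2 * g 1 + 2 := he 1
  have e2 : d 0 + d 1 = 2 * g 2 + 2 := he 2
  have hm' : 2 ≤ g 0 ∨ 2 ≤ g 1 ∨ 2 ≤ g 2 := by
    obtain ⟨m, hm⟩ := hm
    fin_cases m
    exacts [.inl hm, .inr (.inl hm), .inr (.inr hm)]
  refine ⟨by rw [Fin.sum_univ_three, Fin.sum_univ_three]; omega, fun n => ?_, ?_⟩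
  · fin_cases n
    · change d 0 ≤ 1 ∨ 2 ≤ g 1 ∨ 2 ≤ g 2
      omega
    · change d 1 ≤ 1 ∨ 2 ≤ g 2 ∨ 2 ≤ g 0
      omega
    · change d 2 ≤ 1 ∨ 2 ≤ g 0 ∨ 2 ≤ g 1
      omega
  by_cases h2 : d 0 = 0
  · exact ⟨⟨1, 0, by omega⟩, ⟨2, 0, by omega⟩, by simp⟩
  by_cases h3 : d 1 = 0
  · exact ⟨⟨0, 0, by omega⟩, ⟨2, 0, by omega⟩, by simp⟩
  · exact ⟨⟨0, 0, by omega⟩, ⟨1, 0, by omega⟩, by simp⟩

theorem exists_enum3 {k K : Type} [Field k] [Field K] (e : k →+* K) {f : Fin 3 → k[X]}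
    (hs : (∏ i, f i).Separable) (h : ((∏ i, f i).map e).Splits) :
    ∃ (a : (Σ m, Fin (f m).natDegree) → K) (c : Fin 3 → K), Function.Injective a ∧
      ∀ i, (f (i + 1) * f (i + 2)).map e = C (c i) * ∏ n, (X - C (a n)) ^ om Sigma.fst i n := by
  have hv := fun i => Finset.dvd_prod_of_mem f (Finset.mem_univ i)
  choose a _ hf using fun n => exists_enum (hs.of_dvd (hv n)).map
    (h.of_dvd (hs.map (f := e)).ne_zero (map_dvd e (hv n))) (natDegree_map e)
  refine ⟨fun n => a n.1 n.2, fun i => ((f (i + 1)).map e).leadingCoeff *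
    ((f (i + 2)).map e).leadingCoeff, ?_, fun i => ?_⟩
  · have h2 := hs.map (f := e)
    rw [Polynomial.map_prod, Finset.prod_congr rfl fun n _ => hf n, Finset.prod_mul_distrib,
      ← Fintype.prod_sigma fun n : Σ m, Fin (f m).natDegree => X - C (a n.1 n.2)] at h2
    exact separable_prod_X_sub_C_iff.1 h2.of_mul_right
  · rw [prod_om fun m n => X - C (a m n), C_mul, mul_mul_mul_comm, ← hf, ← hf, Polynomial.map_mul]

theorem cr_sub {K ι κ : Type} [Field K] [NumberField K] [Fintype ι] [Fintype κ] {a : ι → K}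
    {b : κ → K} {w : ι → ℕ} {c c' : K} (hb : Function.Injective b) (hc : c ≠ 0)
    (h : C c' * ∏ n, (X - C (b n)) = C c * ∏ n, (X - C (a n)) ^ w n) {H : ℝ}
    (key : ∀ p q r t, [p, q, r, t].Nodup → logHeight₁ (cr a p q r t) ≤ H) (p q r t : κ)
    (hn : [p, q, r, t].Nodup) : logHeight₁ (cr b p q r t) ≤ H := by
  have h4 : ∀ t, ∃ n, a n = b t := fun t => by
    have h5 := congrArg (eval (b t)) h
    rw [eval_mul, eval_prod, Finset.prod_eq_zero (Finset.mem_univ t) (by simp), mul_zero, eq_comm,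
      eval_mul, eval_C, mul_eq_zero, eval_prod, Finset.prod_eq_zero_iff] at h5
    obtain ⟨n, -, h5⟩ := h5.resolve_left hc
    rw [eval_pow] at h5
    exact ⟨n, by simpa [sub_eq_zero, eq_comm] using (pow_eq_zero_iff'.1 h5).1⟩
  choose φ hφ using h4
  simpa [cr, hφ] using key (φ p) (φ q) (φ r) (φ t)
    (hn.map (f := φ) fun s t h => hb (by rw [← hφ, ← hφ, h]))

/-- The bound for the Faltings height of a factor. -/
def fin4 (c : ℕ × ℕ → ℕ) (z : ℕ × ℕ × ℕ) : ℕ :=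
  z.2.1 + z.2.1 * z.2.1 + z.2.1 * z.2.1 *
    ((2 * z.2.1 + 1) * c (2 * z.1, (z.2.1 + 3).factorial * z.2.2))

theorem pr_fin4 {c : ℕ × ℕ → ℕ} (hc : Primrec c) : Primrec (fin4 c) := by
  have h : Primrec fun z : ℕ × ℕ × ℕ => z.2.1 := Primrec.fst.comp .snd
  exact pr_add (pr_add h (pr_mul h h)) (pr_mul (pr_mul h h)
    (pr_mul (pr_add (pr_mul (.const _) h) (.const _)) (hc.comp (.pair (pr_mul (.const _) .fst)
      (pr_mul (pr_fact (pr_add h (.const _))) (Primrec.snd.comp .snd))))))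

end Pool.Agent.Lib.MP_07b2d0_nt.Fh
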