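import Pool.Agent.Lib.MP_07b2d0_nt.Fh.Pt
import Pool.Agent.Lib.MP_07b2d0_nt.Fh.Alg

/-!
Local rings of an integral scheme and points with values in subrings of a field.
-/

set_option autoImplicit false
set_option backward.isDefEq.respectTransparency false

namespace Pool.Agent.Lib.MP_07b2d0_nt.Fh

open CategoryTheory Limits AlgebraicGeometry Polynomial NumberField

noncomputable section

/-- The morphism of affine schemes given by a ring map. -/
abbrev sm {R R' : Type} [CommRing R] [CommRing R'] (ψ : R →+* R') : Spec (.of R') ⟶ Spec (.of R) :=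
  Spec.map (CommRingCat.ofHom ψ)

theorem sm_comp {R R' R'' : Type} [CommRing R] [CommRing R'] [CommRing R''] (ψ : R →+* R')
    (ψ' : R' →+* R'') : sm ψ' ≫ sm ψ = sm (ψ'.comp ψ) := (Spec.map_comp _ _).symm

/-- The local rings of an integral scheme inside its function field. -/
def SM (M : Scheme.{0}) [IsIntegral M] : Set (Subring M.functionField) :=
  {T | ∃ m : M, T = (algebraMap (M.presheaf.stalk m) M.functionField).range}

section

variable {M : Scheme.{0}} [IsIntegral M] {E : Type} [Field E] {ι : M.functionField →+* E}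

theorem gp_eq (m : M) : M.fromSpecStalk (genericPoint M) =
    sm (algebraMap (M.presheaf.stalk m) M.functionField) ≫ M.fromSpecStalk m :=
  (Scheme.SpecMap_stalkSpecializes_fromSpecStalk ((genericPoint_spec M).specializes trivial)).symm

theorem ner_lift {m : M} {θ : M.presheaf.stalk m →+* E} (h : Function.Injective θ) :
    ∃ s : M.functionField →+* E,
      sm s ≫ M.fromSpecStalk (genericPoint M) = sm θ ≫ M.fromSpecStalk m :=
  ⟨IsFractionRing.lift h, by
    rw [gp_eq m, ← Category.assoc, sm_comp, IsFractionRing.lift, IsLocalization.lift_comp]⟩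

theorem ner_key {O : Type} [CommRing O] [IsLocalRing O] (ρ : O →+* E) (w : Spec (.of O) ⟶ M)
    (h : sm ρ ≫ w = sm ι ≫ M.fromSpecStalk (genericPoint M)) :
    ∃ T ∈ SM M, ∀ a ∈ T, ∃ o, ι a = ρ o := by
  rw [gp_eq (w (IsLocalRing.closedPoint O)), ← Category.assoc, sm_comp] at h
  conv_lhs at h => rw [← Scheme.Spec_stalkClosedPointTo_fromSpecStalk w, ← Category.assoc]
  have h1 := spec_inj ((sm_comp (Scheme.stalkClosedPointTo w).hom ρ).symm.trans
    ((cancel_mono _).1 h))
  exact ⟨_, ⟨_, rfl⟩, by rintro _ ⟨a, rfl⟩; exact ⟨_, (RingHom.congr_fun h1 a).symm⟩⟩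

theorem ner_loc {R : Type} [CommRing R] {ρ : R →+* E} (hρ : Function.Injective ρ)
    (v : Spec (.of R) ⟶ M) (h : sm ρ ≫ v = sm ι ≫ M.fromSpecStalk (genericPoint M)) (q : Ideal R)
    (hq : q.IsPrime) : Loc ι (SM M) ρ q := by
  have hu : ∀ s : q.primeCompl, IsUnit (ρ s) := fun s => IsUnit.mk0 _ fun e =>
    s.2 ((map_eq_zero_iff _ hρ).1 e ▸ q.zero_mem)
  obtain ⟨T, hT, h1⟩ := ner_key (ι := ι) (IsLocalization.lift (S := Localization.AtPrime q) hu)
    (sm (algebraMap R _) ≫ v) (by rw [← Category.assoc, sm_comp, IsLocalization.lift_comp, h])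
  refine ⟨T, hT, fun a ha => ?_⟩
  obtain ⟨o, ho⟩ := h1 a ha
  obtain ⟨⟨r, s⟩, e⟩ := IsLocalization.surj q.primeCompl o
  refine ⟨r, s, s.2, ?_⟩
  rw [ho, ← IsLocalization.lift_eq (S := Localization.AtPrime q) hu r, ← e, map_mul,
    IsLocalization.lift_eq]

end

theorem stalk_hom {R : CommRingCat.{0}} {M : Scheme.{0}} (s : M ⟶ Spec R) (m : M) :
    M.fromSpecStalk m ≫ s =
      Spec.map ((Scheme.ΓSpecIso R).inv ≫ s.appTop ≫ M.presheaf.germ ⊤ m trivial) := by
  rw [Spec.map_comp, Spec.map_comp, ← Scheme.fromSpecStalk_toSpecΓ, Category.assoc,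
    Category.assoc, ← Scheme.toSpecΓ_naturality_assoc, toSpecΓ_SpecMap_ΓSpecIso_inv,
    Category.comp_id]

variable {L : Type} [Field L]

theorem ner_dim {g : ℕ} (M : Over (Spec (.of (𝓞 L)))) [IsIntegral M.left]
    (h : SmoothOfRelativeDimension g M.hom) : Dim g M.left.functionField := by
  obtain ⟨U, hU, V, hV, hx, e, hf⟩ := h.1 (genericPoint M.left)
  have : Nonempty V := ⟨⟨_, hx⟩⟩
  have : Nonempty U := ⟨⟨_, e hx⟩⟩
  have := functionField_isFractionRing_of_isAffineOpen M.left V hV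
  let _ := (M.hom.appLE U V e).hom.toAlgebra
  have : Algebra.IsStandardSmoothOfRelativeDimension g Γ(Spec (.of (𝓞 L)), U) Γ(M.left, V) := hf
  refine dim_of_smooth (B := Γ(Spec (.of (𝓞 L)), U)) (R := Γ(M.left, V)) fun b => ?_
  let K := (Spec (.of (𝓞 L))).functionField
  let _ : Algebra (𝓞 L) K := instAlgebraCarrierFunctionFieldSpec (.of (𝓞 L))
  have : IsFractionRing (𝓞 L) K := functionField_isFractionRing_of_affine (.of (𝓞 L))
  have : Algebra.IsAlgebraic (𝓞 L) K := IsLocalization.isAlgebraic _ (nonZeroDivisors _)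
  have : Algebra.IsAlgebraic ℤ K := .trans ℤ (𝓞 L) K
  exact (isAlgebraic_algHom_iff (Scheme.germToFunctionField _ U).hom.toIntAlgHom
    (Scheme.germToFunctionField_injective _ U)).1 (this.1 _)

section

variable {B : Type} [CommRing B] {c : B →+* L} {A : Over (Spec (.of B))}
  {M : Over (Spec (.of (𝓞 L)))}
  (e : (Over.pullback (sm (algebraMap (𝓞 L) L))).obj M ≅ (Over.pullback (sm c)).obj A)
  {R R' : Type} [CommRing R] [CommRing R']

/-- A point of `A` with values in an `L`-algebra gives a point of `M`. -/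
def trp (φ : L →+* R) (P : Spec (.of R) ⟶ A.left) (h : P ≫ A.hom = sm (φ.comp c)) :
    Spec (.of R) ⟶ M.left :=
  pullback.lift P (sm φ) (h.trans (sm_comp _ _).symm) ≫ e.inv.left ≫ pullback.fst _ _

theorem trp_w (φ : L →+* R) (P h) :
    trp e φ P h ≫ M.hom = sm (φ.comp (algebraMap (𝓞 L) L)) := by
  have h1 : e.inv.left ≫ pullback.snd _ _ = pullback.snd _ _ := Over.w e.inv
  rw [trp, Category.assoc, Category.assoc, pullback.condition, reassoc_of% h1,
    pullback.lift_snd_assoc, sm_comp]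

theorem trp_map (ψ : R →+* R') {φ : L →+* R} {φ' : L →+* R'} (hφ : ψ.comp φ = φ') {P h P' h'}
    (hP : sm ψ ≫ P = P') : sm ψ ≫ trp e φ P h = trp e φ' P' h' := by
  rw [trp, trp, ← Category.assoc]
  congr 1
  ext
  · rw [Category.assoc, pullback.lift_fst, pullback.lift_fst, hP]
  · rw [Category.assoc, pullback.lift_snd, pullback.lift_snd, sm_comp, hφ]

theorem trp_inj [NumberField L] {ψ ψ' : R →+* R'} {φ : L →+* R} {P h}
    (H : sm ψ ≫ trp e φ P h = sm ψ' ≫ trp e φ P h) :
    ψ.comp φ = ψ'.comp φ ∧ sm ψ ≫ P = sm ψ' ≫ P := by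
  have := IsPreimmersion.of_isLocalization (S := L) (nonZeroDivisors (𝓞 L))
  rw [trp, ← Category.assoc, ← Category.assoc (sm ψ'), cancel_mono] at H
  have h1 := congrArg (· ≫ pullback.fst _ _) H
  have h2 := congrArg (· ≫ pullback.snd _ _) H
  simp only [Category.assoc, pullback.lift_fst, pullback.lift_snd, sm_comp] at h1 h2
  exact ⟨spec_inj h2, h1⟩

end

theorem ner_phi {B k R R' : Type} [CommRing B] [Field k] [CommRing R] [CommRing R'] {f : k[X]}
    {b : B →+* k} {A : Over (Spec (.of B))} [GrpObj A] [IsCommMonObj A]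
    (j : sp ((algebraMap k (Crv f)).comp b) ⟶ A) (ψ : R →+* R') {κ : k →+* R} {κ' : k →+* R'}
    (hκ : ψ.comp κ = κ') {g : ℕ} {u w : Fin g → R} {u' w' : Fin g → R'} (h h')
    (hu : ∀ i, ψ (u i) = u' i) (hw : ∀ i, ψ (w i) = w' i) :
    sm ψ ≫ (Phi j κ u w h).left = (Phi j κ' u' w' h').left :=
  congrArg CommaMorphism.left (pm_Phi j κ u w h ψ hκ hu hw h' (hκ ▸ rfl))

theorem ner_nmp [NumberField L] {M : Over (Spec (.of (𝓞 L)))}
    (h : ∀ Y : Over (Spec (.of (𝓞 L))), Smooth Y.hom → Function.Surjective fun v : Y ⟶ M =>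
      CartesianMonoidalCategory.fst Y (sp (algebraMap (𝓞 L) L)) ≫ v)
    {E : Type} [Field E] [Algebra L E] (R : Subalgebra (𝓞 L) E) [Algebra.Smooth (𝓞 L) R]
    (w : Spec (.of (Algebra.adjoin L (R : Set E))) ⟶ M.left)
    (hw : w ≫ M.hom = sm ((algebraMap L _).comp (algebraMap (𝓞 L) L))) :
    ∃ v : Spec (.of R) ⟶ M.left, sm (algebraMap R E) ≫ v =
      sm (algebraMap (Algebra.adjoin L (R : Set E)) E) ≫ w := by
  let T := Algebra.adjoin L (R : Set E)
  let χ : R →+* T := (algebraMap R E).codRestrict T fun r => Algebra.subset_adjoin r.2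
  let _ := χ.toAlgebra
  have : IsScalarTower (𝓞 L) R T := .of_algebraMap_eq fun _ => rfl
  have h0 : ∀ a : 𝓞 L, a ≠ 0 → algebraMap (𝓞 L) L a ≠ 0 := fun a ha =>
    (map_ne_zero_iff _ (IsFractionRing.injective _ _)).2 ha
  have : IsLocalization (Algebra.algebraMapSubmonoid R (nonZeroDivisors (𝓞 L))) T := by
    refine ⟨⟨?_, fun ⟨z, hz⟩ => ?_, fun {a b} e => ⟨1, congrArg _ (Subtype.ext
      (congrArg (fun t : T => (t : E)) e))⟩⟩⟩
    · rintro ⟨_, a, ha, rfl⟩
      exact (IsUnit.mk0 _ (h0 a (nonZeroDivisors.ne_zero ha))).map (algebraMap L T)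
    · have : ∃ a ∈ nonZeroDivisors (𝓞 L), z * algebraMap _ E a ∈ R := by
        induction hz using Algebra.adjoin_induction with
        | mem x hx => exact ⟨1, one_mem _, by simpa using hx⟩
        | algebraMap r =>
          obtain ⟨⟨a, b⟩, e⟩ := IsLocalization.surj (nonZeroDivisors (𝓞 L)) r
          refine ⟨b, b.2, ?_⟩
          rw [IsScalarTower.algebraMap_apply (𝓞 L) L E, ← map_mul, e]
          exact R.algebraMap_mem a
        | add x y _ _ hx hy =>
          obtain ⟨a, ha, h1⟩ := hx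
          obtain ⟨b, hb, h2⟩ := hy
          refine ⟨a * b, mul_mem ha hb, ?_⟩
          rw [map_mul, add_mul, ← mul_assoc, mul_left_comm y]
          exact add_mem (mul_mem h1 (R.algebraMap_mem b)) (mul_mem (R.algebraMap_mem a) h2)
        | mul x y _ _ hx hy =>
          obtain ⟨a, ha, h1⟩ := hx
          obtain ⟨b, hb, h2⟩ := hy
          refine ⟨a * b, mul_mem ha hb, ?_⟩
          rw [map_mul, mul_mul_mul_comm]
          exact mul_mem h1 h2
      obtain ⟨a, ha, h1⟩ := this
      exact ⟨(⟨_, h1⟩, ⟨_, a, ha, rfl⟩), rfl⟩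
  have hp := isPullback_SpecMap_of_isPushout _ _ _ _ (CommRingCat.isPushout_iff_isPushout.2
    (Algebra.isPushout_of_isLocalization (nonZeroDivisors (𝓞 L)) L R T))
  obtain ⟨v, hv⟩ := h (sp (algebraMap (𝓞 L) R)) (HasRingHomProperty.Spec_iff.2
    (RingHom.smooth_algebraMap.2 inferInstance)) (Over.homMk (hp.isoPullback.inv ≫ w) (by
      rw [Category.assoc, hw, ← sm_comp, hp.isoPullback_inv_snd_assoc]
      exact pullback.condition.symm))
  have h1 : pullback.fst _ _ ≫ v.left = hp.isoPullback.inv ≫ w := congrArg CommaMorphism.left hv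
  refine ⟨v.left, ?_⟩
  rw [← (Iso.eq_inv_comp _).1 h1, hp.isoPullback_hom_fst_assoc, ← Category.assoc, sm_comp]
  rfl

end

end Pool.Agent.Lib.MP_07b2d0_nt.Fh
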