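import Pool.Agent.Lib.MP_07b2d0_nt.Fh.N1

/-!
The function field of the Néron model embeds in the function field of the power of the curve.
-/

set_option autoImplicit false
set_option backward.isDefEq.respectTransparency false

namespace Pool.Agent.Lib.MP_07b2d0_nt.Fh

open CategoryTheory Limits AlgebraicGeometry Polynomial NumberField

variable {g : ℕ} {L : Type} [Field L] [NumberField L] {M : Over (Spec (.of (𝓞 L)))}
  [IsIntegral M.left]

theorem exists_setup {B k : Type} [CommRing B] [Field k] {b : B →+* k} {f : k[X]}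
    {A : Over (Spec (.of B))} [GrpObj A] [IsCommMonObj A] [IsProper A.hom]
    {j : sp ((algebraMap k (Crv f)).comp b) ⟶ A} (hU : UniqJ j g) (i : k →+* L)
    (hN : Neron g (i.comp b) A M) {E : Type} [Field E] [Algebra L E] {x y : Fin g → E}
    (hG : Gen (f.map i) x y) :
    ∃ s : M.left.functionField →+* E, Setup (f.map i) x y (cst M) s (SM M.left) := by
  obtain ⟨e⟩ := hN.gen
  have hE : ∀ l, y l ^ 2 = f.eval₂ ((algebraMap L E).comp i) (x l) := fun l => by
    rw [hG.eq, aeval_def, eval₂_map]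
  let P := Phi j ((algebraMap L E).comp i) x y hE
  let p := trp e (algebraMap L E) P.left (pt_w P)
  let θ := (Scheme.stalkClosedPointTo p).hom
  have hθ : sm θ ≫ M.left.fromSpecStalk _ = p := Scheme.Spec_stalkClosedPointTo_fromSpecStalk p
  have hp : p ≫ M.hom = sm (algebraMap (𝓞 L) E) := trp_w e _ _ _
  have rig : ∀ {O : Type} [CommRing O] (ϑ : O →+* E) (q : Spec (.of O) ⟶ M.left),
      sm ϑ ≫ q = p → Rig ϑ x := fun ϑ q hq Ω _ _ ε τ h => by
    obtain ⟨h1, h2⟩ := trp_inj e (ψ := τ) (ψ' := ε) (φ := algebraMap L E) (P := P.left)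
      (h := pt_w P) (by
        change sm τ ≫ p = sm ε ≫ p
        rw [← hq, ← Category.assoc, ← Category.assoc, sm_comp, sm_comp, h])
    have h3 : ∀ (ϱ : E →+* Ω), ϱ.comp (algebraMap L E) = ε.comp (algebraMap L E) → ∀ l,
        ϱ (y l) ^ 2 = f.eval₂ (ε.comp ((algebraMap L E).comp i)) (ϱ (x l)) := fun ϱ h l => by
      rw [← map_pow, hE, hom_eval₂, ← RingHom.comp_assoc, h, RingHom.comp_assoc]
    refine hU Ω _ _ _ _ _ (h3 ε rfl) (h3 τ h1) (τ.injective.comp hG.ind.injective) (fun l h0 => ?_)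
      (pt_ext ((ner_phi j ε rfl hE _ (fun _ => rfl) fun _ => rfl).symm.trans (h2.symm.trans
        (ner_phi j τ (by rw [← RingHom.comp_assoc, h1]; rfl) hE _ (fun _ => rfl) fun _ => rfl))))
    refine hG.ind.transcendental l ⟨_, hG.sep.ne_zero, ?_⟩
    rw [← hG.eq, (map_eq_zero τ).1 h0, zero_pow two_ne_zero]
  have hd := ner_dim M hN.smooth
  have hi : Function.Injective θ := dom (F := M.left.functionField) hG θ _ (spec_inj
    ((sm_comp _ _).symm.trans ((congrArg (sm θ ≫ ·) (stalk_hom M.hom _).symm).trans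
      (by rw [reassoc_of% hθ, hp])))) (rig θ _ hθ) hd
  obtain ⟨s, hs⟩ := ner_lift hi
  replace hs := hs.trans hθ
  have sub : ∀ R : Subalgebra L E, (∀ l, x l ∈ R ∧ y l ∈ R) → ∃ w : Spec (.of R) ⟶ M.left,
      w ≫ M.hom = sm ((algebraMap L R).comp (algebraMap (𝓞 L) L)) ∧
        sm (algebraMap R E) ≫ w = p := fun R hR => by
    have h : ∀ l, (⟨y l, (hR l).2⟩ : R) ^ 2 = f.eval₂ ((algebraMap L R).comp i) ⟨x l, (hR l).1⟩ :=
      fun l => Subtype.ext ((hE l).trans (hom_eval₂ f ((algebraMap L R).comp i)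
        (algebraMap R E) ⟨x l, (hR l).1⟩).symm)
    exact ⟨trp e (algebraMap L R) _ (pt_w (Phi j _ _ _ h)), trp_w e _ _ _,
      trp_map e _ rfl (ner_phi j _ rfl h hE (fun _ => rfl) fun _ => rfl)⟩
  refine ⟨s, hG, spec_inj ((sm_comp _ _).symm.trans ((congrArg (sm s ≫ ·)
    (stalk_hom M.hom _).symm).trans (by rw [reassoc_of% hs, hp]))), fun R hR q hq => ?_,
    fun O hO => ?_, fun R _ hR q hq => ?_, fun π τ hx hy a => ?_, rig s _ hs, hd⟩
  · obtain ⟨w, -, hw⟩ := sub R hR
    exact ner_loc Subtype.val_injective w (hw.trans hs.symm) q hq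
  · obtain ⟨Q, hQ⟩ := vc_exists O (((algebraMap L E).codRestrict O hO).comp (i.comp b)) P
    obtain ⟨T, hT, h⟩ := ner_key O.subtype (trp e _ _ (pt_w Q))
      ((trp_map e _ rfl (congrArg CommaMorphism.left hQ)).trans hs.symm)
    exact ⟨T, hT, fun a ha => (h a ha).elim fun o ho => ho ▸ o.2⟩
  · obtain ⟨w, h1, hw⟩ := sub _ hR
    obtain ⟨v, hv⟩ := ner_nmp (fun Y hY => (hN.nmp Y hY).2) R w h1
    exact ner_loc Subtype.val_injective v (hv.trans (hw.trans hs.symm)) q hq
  · have h1 : sm (τ : E →+* E) ≫ p = p := trp_map e _ τ.comp_algebraMap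
      ((ner_phi j (τ : E →+* E) (RingHom.ext fun a => τ.commutes (i a)) hE (fun l => hE (π l))
        hx hy).trans (congrArg CommaMorphism.left (Phi_perm j _ x y hE π)))
    rw [← hs, ← Category.assoc, cancel_mono, sm_comp] at h1
    exact RingHom.congr_fun (spec_inj h1) a

end Pool.Agent.Lib.MP_07b2d0_nt.Fh
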