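import Pool.Agent.Lib.MP_07b2d0_nt.Fh.N1

/-!
The bound for the height in terms of the output of the algebraic part.
-/

set_option autoImplicit false
set_option backward.isDefEq.respectTransparency false

namespace Pool.Agent.Lib.MP_07b2d0_nt.Fh

open CategoryTheory Limits AlgebraicGeometry Polynomial NumberField MeasureTheory
open scoped ENNReal

theorem ner_er {I : Type} [Fintype I] {a : ℝ≥0∞} {b : I → ℝ≥0∞} {d : I → ℝ} (hd : ∀ i, 0 < d i)
    {C K : ℝ} (hC : 0 < C) (ha : a ≤ ENNReal.ofReal (∏ i, d i))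
    (hb : ∀ i, ENNReal.ofReal (d i ^ 2 / C) ≤ b i) (hK : Real.log C ≤ 2 * K) {n : ℕ}
    (hn : Fintype.card I = n) (h0 : 0 < n) :
    (ENNReal.log a - (∑ i, ENNReal.log (b i)) / 2) / n ≤ K := by
  have h1 : ENNReal.log a ≤ (∑ i, Real.log (d i) : ℝ) := (ENNReal.log_le_log ha).trans_eq (by
    rw [ENNReal.log_ofReal_of_pos (Finset.prod_pos fun i _ => hd i),
      Real.log_prod fun i _ => (hd i).ne'])
  have h2 : ((∑ i, (2 * Real.log (d i) - Real.log C) : ℝ) : EReal) ≤ ∑ i, ENNReal.log (b i) := by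
    refine (map_sum (⟨⟨Real.toEReal, rfl⟩, EReal.coe_add⟩ : ℝ →+ EReal) _ _).trans_le
      (Finset.sum_le_sum fun i _ => le_trans (le_of_eq ?_) (ENNReal.log_le_log (hb i)))
    rw [ENNReal.log_ofReal_of_pos (div_pos (pow_pos (hd i) 2) hC),
      Real.log_div (pow_pos (hd i) 2).ne' hC.ne', Real.log_pow]
    rfl
  have h3 := EReal.sub_le_sub h1 (EReal.div_le_div_right_of_nonneg (c := 2) (by norm_num) h2)
  refine (EReal.div_le_div_right_of_nonneg (by positivity) h3).trans ?_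
  rw [show (2 : EReal) = (2 : ℝ) from rfl, ← EReal.coe_div, ← EReal.coe_sub,
    ← EReal.coe_coe_eq_natCast, ← EReal.coe_div, EReal.coe_le_coe_iff,
    div_le_iff₀ (by positivity), Finset.sum_sub_distrib, ← Finset.mul_sum, Finset.sum_const,
    Finset.card_univ, hn, nsmul_eq_mul]
  nlinarith [(Nat.cast_pos.2 h0 : (0 : ℝ) < n)]

theorem ner_log (g H : ℕ) : Real.log (4 ^ g * ((g + 1) * Real.exp H ^ g) ^ (2 * g)) ≤
    2 * (g + g * g + g * g * H : ℕ) := by
  have h1 : Real.log 4 ≤ 2 := by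
    rw [show (4 : ℝ) = 2 ^ 2 by norm_num, Real.log_pow]
    linarith [Real.log_two_lt_d9, (Nat.cast_ofNat : ((2 : ℕ) : ℝ) = 2) ▸ le_refl (2 : ℝ),
      show ((2 : ℕ) : ℝ) * Real.log 2 = 2 * Real.log 2 by norm_num]
  have h2 : Real.log (g + 1) ≤ g := by
    linarith [Real.log_le_sub_one_of_pos (show (0 : ℝ) < g + 1 by positivity)]
  rw [Real.log_mul (by positivity) (by positivity), Real.log_pow, Real.log_pow,
    Real.log_mul (by positivity) (by positivity), Real.log_pow, Real.log_exp]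
  push_cast
  nlinarith [mul_le_mul_of_nonneg_left h1 g.cast_nonneg, mul_le_mul_of_nonneg_left h2 g.cast_nonneg]

theorem ner_lam (g : ℕ) (M : Scheme.{0}) [IsIntegral M] : Lam g M = LamS g (SM M) := by
  have h : ∀ m : M, {α | ∃ (a : M.presheaf.stalk m) (t : Fin g → M.presheaf.stalk m),
      α = algebraMap _ M.functionField a • dw fun i => algebraMap _ M.functionField (t i)} =
      {α | ∃ a ∈ (algebraMap (M.presheaf.stalk m) M.functionField).range,
        ∃ t : Fin g → M.functionField, (∀ i, t i ∈ (algebraMap (M.presheaf.stalk m)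
          M.functionField).range) ∧ α = a • dw t} := fun m => Set.ext fun α =>
    ⟨fun ⟨a, t, e⟩ => ⟨_, ⟨a, rfl⟩, _, fun i => ⟨t i, rfl⟩, e⟩, fun ⟨_, ⟨a, ha⟩, t, ht, e⟩ => by
      choose s hs using ht
      exact ⟨a, s, by rw [e, ha, funext hs]⟩⟩
  refine le_antisymm (le_iInf₂ ?_) (le_iInf fun m => (iInf₂_le _ ⟨m, rfl⟩).trans_eq ?_)
  · rintro _ ⟨m, rfl⟩
    exact (iInf_le _ m).trans_eq (congrArg _ (h m))
  · exact congrArg _ (h m).symm

theorem ner_smul {g : ℕ} {F : Type} [Field F] {S : Set (Subring F)} {c : F} (hc : ∀ T ∈ S, c ∈ T)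
    {α} (h : α ∈ LamS g S) : c • α ∈ LamS g S := by
  simp only [LamS, AddSubgroup.mem_iInf] at h ⊢
  intro T hT
  refine AddSubgroup.closure_induction (p := fun α _ => c • α ∈ AddSubgroup.closure _) ?_ ?_
    (fun x y _ _ hx hy => ?_) (fun x _ hx => ?_) (h T hT)
  · rintro _ ⟨a, ha, t, ht, rfl⟩
    exact AddSubgroup.subset_closure ⟨c * a, mul_mem (hc T hT) ha, t, ht, smul_smul _ _ _⟩
  · rw [smul_zero]
    exact zero_mem _
  · rw [smul_add]
    exact add_mem hx hy
  · rw [smul_neg]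
    exact neg_mem hx

theorem ner_chart (M : Scheme.{0}) [IsIntegral M] {I : Type} [Finite I] (z : I → M.functionField) :
    ∃ (U : M.Opens) (_ : IsAffineOpen U) (_ : Nonempty U) (s : I → Γ(M, U)),
      ∀ i, algebraMap _ M.functionField (s i) = z i := by
  choose V hV s hs using fun i => M.presheaf.exists_germ_eq (z i)
  obtain ⟨_, ⟨U, hU, rfl⟩, hx, hle⟩ := M.isBasis_affineOpens.exists_subset_of_mem_open
    (Set.mem_iInter.2 hV) (isOpen_iInter_of_finite fun i => (V i).isOpen)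
  exact ⟨U, hU, ⟨⟨_, hx⟩⟩, fun i => M.presheaf.map (homOfLE (hle.trans (Set.iInter_subset _ i))).op
    (s i), fun i => (M.presheaf.germ_res_apply _ _ hx _).trans (hs i)⟩

variable {g : ℕ} {L : Type} [Field L] [NumberField L] {M : Over (Spec (.of (𝓞 L)))}
  [IsIntegral M.left]

theorem ner_nsq [LocallyOfFiniteType M.hom] {t : Fin g → M.left.functionField}
    (ht : AlgebraicIndependent ℤ t) (ha : ∀ z : M.left.functionField,
      IsAlgebraic (Algebra.adjoin ℤ (Set.range t)) z) {c : Fin (2 * g) → 𝓞 L} {l : Fin g}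
    {h : M.left.functionField} {lam : 𝓞 L}
    (he : h ^ 2 * Qf (fun i => cst M (c i)) t l = cst M lam ^ 2) (σ : L →+* ℂ) {K : ℝ}
    (hK : 1 ≤ K) (hc : ∀ i, ‖σ (c i)‖ ≤ K) :
    ENNReal.ofReal (‖σ lam‖ ^ 2 / (4 ^ g * ((g + 1) * K ^ g) ^ (2 * g))) ≤ nsq M σ (h • dw t) := by
  obtain ⟨U, hU, _, s, hs⟩ := ner_chart M.left fun o : Option (Fin g) => o.elim h t
  obtain rfl : algebraMap _ _ (s none) = h := hs none
  obtain rfl : (fun i => algebraMap _ _ (s (some i))) = t := funext fun i => hs (some i)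
  let φ := (algebraMap Γ(M.left, U) M.left.functionField).toIntAlgHom
  have hφ : Function.Injective φ := Scheme.germToFunctionField_injective _ U
  let κ := ((Scheme.ΓSpecIso (.of (𝓞 L))).inv ≫ M.hom.appLE ⊤ U le_top).hom
  have hκ : ∀ a, φ (κ a) = cst M a := fun a => M.left.presheaf.germ_res_apply _ _ _ _
  refine (arch κ ((M.hom.finiteType_appLE (isAffineOpen_top _) hU _).comp
    (.of_surjective _ (ConcreteCategory.bijective_of_isIso (Scheme.ΓSpecIso _).inv).2)) (t := fun i => s (some i))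
    (.of_comp φ ht) (fun z => ?_) (c := c) (l := l) (h := s none) (lam := lam) (hφ ?_) σ hK
    hc).trans (le_iSup₂_of_le U hU (le_iSup₂_of_le ‹_› (fun i => s (some i))
      (le_iSup₂_of_le (s none) rfl (lintegral_mono fun z => ?_))))
  · have e : (Algebra.adjoin ℤ (Set.range fun i => s (some i))).map φ =
        Algebra.adjoin ℤ (Set.range fun i => φ (s (some i))) := by
      rw [AlgHom.map_adjoin, ← Set.range_comp]
      rfl
    exact (ha (φ z)).of_ringHom_of_comp_eq ((Subalgebra.equivOfEq _ _ e).toAlgHom.comp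
      (φ.subalgebraMap _)) φ ((Subalgebra.equivOfEq _ _ e).surjective.comp
        (φ.subalgebraMap_surjective _)) hφ rfl
  · simp only [Qf, map_mul, map_pow, map_prod, map_add, map_sum, map_one, map_neg, map_ofNat, hκ]
    exact he
  · exact ENNReal.tsum_comp_le_tsum_of_injective (Subtype.impEmbedding _ _ fun P hP =>
      ⟨fun c a e => by rw [← hP.1, hφ (e.trans (hκ c).symm)], hP.2⟩).injective _

theorem ner_norm {a : 𝓞 L} (h : a ≠ 0) : (ENat.card (𝓞 L ⧸ Ideal.span {a}) : ℝ≥0∞) =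
    ENNReal.ofReal (∏ σ : L →+* ℂ, ‖σ a‖) := by
  have : Finite (𝓞 L ⧸ Ideal.span {a}) := Ideal.finiteQuotientOfFreeOfNeBot _ (by simpa using h)
  have e : Nat.card (𝓞 L ⧸ Ideal.span {a}) = _ := Ideal.absNorm_span_singleton a
  rw [← Fintype.prod_equiv (RingHom.equivRatAlgHom L ℂ).symm (fun φ => ‖φ a‖) _ fun _ => rfl,
    ← norm_prod, ← Algebra.norm_eq_prod_embeddings, ← Algebra.coe_norm_int,
    ENat.card_eq_coe_natCard, e]
  generalize Algebra.norm ℤ a = n
  rw [ENat.toENNReal_coe, ← ENNReal.ofReal_natCast]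
  simp

theorem hF_le (hM : SmoothOfRelativeDimension g M.hom) {c : Fin (2 * g) → 𝓞 L}
    (h : Out g (cst M) (SM M.left) c) {H : ℕ} (hc : ∀ (σ : L →+* ℂ) i, ‖σ (c i)‖ ≤ Real.exp H) :
    ∀ α ∈ Lam g M.left, α ≠ 0 → hF M α ≤ (g + g * g + g * g * H : ℕ) := by
  intro α hα h0
  have := SmoothOfRelativeDimension.smooth g M.hom
  have : Nonempty (⊤ : M.left.Opens) := ⟨⟨genericPoint M.left, trivial⟩⟩
  obtain ⟨lam, t, l, h1, h2, h3, h4, h5⟩ := h
  rw [ner_lam] at hα
  obtain ⟨h, e1, e2⟩ := h5 ⟨α, hα⟩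
  have h6 : lam ⟨α, hα⟩ ≠ 0 := fun e => h0 (congrArg Subtype.val (h1 (e.trans lam.map_zero.symm)))
  rw [hF, ner_lam, ← EReal.coe_coe_eq_natCast (g + _ + _)]
  refine ner_er (d := fun σ => ‖σ (lam ⟨α, hα⟩)‖) (fun σ => by simpa using h6) (by positivity) ?_
    (fun σ => (ner_nsq h3 h4 e2 σ (Real.one_le_exp H.cast_nonneg) (hc σ)).trans_eq
      (congrArg _ e1.symm)) (ner_log g H) (Embeddings.card L ℂ) Module.finrank_pos
  refine (ENat.toENNReal_le.2 (ENat.card_le_card_of_injective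
    (f := fun q => Ideal.Quotient.mk _ (lam q.out)) fun q q' e => ?_)).trans_eq (ner_norm h6)
  obtain ⟨a, ha⟩ := Ideal.mem_span_singleton'.1 (Ideal.Quotient.eq.1 e)
  rw [← q.out_eq, ← q'.out_eq]
  refine QuotientAddGroup.eq_iff_sub_mem.2 (AddSubgroup.subset_closure ⟨a, ?_⟩)
  refine congrArg Subtype.val (h1 (a₁ := q.out - q'.out) (a₂ := ⟨cst M a • α, ner_smul ?_ hα⟩) ?_)
  · rintro _ ⟨m, rfl⟩
    exact ⟨_, M.left.algebraMap_germ_eq_germToFunctionField (U := ⊤) (x := m) trivial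
      (((Scheme.ΓSpecIso (.of (𝓞 L))).inv ≫ M.hom.appTop) a)⟩
  · exact (lam.map_sub _ _).trans (ha.symm.trans (h2 a ⟨α, hα⟩ _ rfl).symm)

end Pool.Agent.Lib.MP_07b2d0_nt.Fh
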