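import Pool.Agent.Lib.MP_07b2d0_nt.Fh.Pt

/-!
Inertia groups act trivially on the torsion points of order prime to the residue characteristic.
-/

set_option autoImplicit false

namespace Pool.Agent.Lib.MP_07b2d0_nt.Fh

open CategoryTheory AlgebraicGeometry
open scoped MonObj

variable {B R R' : Type} [CommRing B] [CommRing R] [CommRing R'] {A : Over (Spec (.of B))}
  {φ : B →+* R} {U : A.left.Opens}

/-- The point given by a homomorphism from the ring of an affine open set. -/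
noncomputable def apt (hU : IsAffineOpen U) (ψ : Γ(A.left, U) →+* R) : Spec (.of R) ⟶ A.left :=
  Spec.map (CommRingCat.ofHom ψ) ≫ hU.fromSpec

variable {hU : IsAffineOpen U}

theorem apt_inj {ψ χ : Γ(A.left, U) →+* R} (h : apt hU ψ = apt hU χ) : ψ = χ :=
  spec_inj ((cancel_mono hU.fromSpec).1 h)

theorem apt_comp (ψ : Γ(A.left, U) →+* R) (χ : R →+* R') :
    Spec.map (CommRingCat.ofHom χ) ≫ apt hU ψ = apt hU (χ.comp ψ) := by
  rw [apt, apt, spec_comp, Category.assoc]

theorem exists_apt (hU : IsAffineOpen U) (p : Spec (.of R) ⟶ A.left) (h : ∀ x, p x ∈ U) :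
    ∃ ψ, p = apt hU ψ := by
  obtain ⟨χ, hχ⟩ := Spec.map_surjective (IsOpenImmersion.lift hU.fromSpec p (by
    rw [hU.range_fromSpec]
    rintro _ ⟨x, rfl⟩
    exact h x))
  exact ⟨χ.hom, by rw [apt, CommRingCat.ofHom_hom, hχ, IsOpenImmersion.lift_fac]⟩

theorem apt_mem (ψ : Γ(A.left, U) →+* R) (x : Spec (.of R)) : apt hU ψ x ∈ U := by
  rw [apt, Scheme.Hom.comp_apply, ← SetLike.mem_coe, ← hU.range_fromSpec]
  exact ⟨_, rfl⟩

theorem exists_base (hU : IsAffineOpen U) : ∃ β : B →+* Γ(A.left, U),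
    hU.fromSpec ≫ A.hom = Spec.map (CommRingCat.ofHom β) := by
  obtain ⟨χ, hχ⟩ := Spec.map_surjective (hU.fromSpec ≫ A.hom)
  exact ⟨χ.hom, hχ.symm⟩

theorem apt_over {β : B →+* Γ(A.left, U)}
    (hβ : hU.fromSpec ≫ A.hom = Spec.map (CommRingCat.ofHom β)) (ψ : Γ(A.left, U) →+* R) :
    apt hU ψ ≫ A.hom = Spec.map (CommRingCat.ofHom (ψ.comp β)) := by
  rw [apt, Category.assoc, hβ, spec_comp]

/-- Triples that are congruent modulo `I`. -/
def tri (I : Ideal R) : Subring (R × R × R) where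
  carrier := {t | t.1 - t.2.2 ∈ I ∧ t.2.1 - t.2.2 ∈ I}
  zero_mem' := by simp
  one_mem' := by simp
  add_mem' := fun {s t} hs ht => ⟨by simpa [add_sub_add_comm] using I.add_mem hs.1 ht.1,
    by simpa [add_sub_add_comm] using I.add_mem hs.2 ht.2⟩
  neg_mem' := fun {s} hs => ⟨by simpa [← neg_sub s.2.2, sub_eq_add_neg, add_comm] using I.neg_mem hs.1,
    by simpa [sub_eq_add_neg, add_comm] using I.neg_mem hs.2⟩
  mul_mem' := fun {s t} hs ht => ⟨Ideal.mul_sub_mul_mem I hs.1 ht.1, Ideal.mul_sub_mul_mem I hs.2 ht.2⟩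

/-- The sum of the first two components minus the third. -/
def triS {I : Ideal R} (hI : I * I = ⊥) : tri I →+* R where
  toFun t := t.1.1 + t.1.2.1 - t.1.2.2
  map_zero' := by simp
  map_one' := by simp
  map_add' s t := by simp only [Subring.coe_add, Prod.fst_add, Prod.snd_add]; ring
  map_mul' s t := by
    have h₁ := Ideal.mem_bot.1 (hI ▸ Ideal.mul_mem_mul s.2.1 t.2.2)
    have h₂ := Ideal.mem_bot.1 (hI ▸ Ideal.mul_mem_mul s.2.2 t.2.1)
    simp only [Subring.coe_mul, Prod.fst_mul, Prod.snd_mul]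
    linear_combination -h₁ - h₂

variable [GrpObj A] [IsCommMonObj A]

theorem sq_mul {I : Ideal R} (hI : I * I = ⊥) {P Q : sp φ ⟶ A} {e p q : Γ(A.left, U) →+* R}
    (he : (1 : sp φ ⟶ A).left = apt hU e) (hp : P.left = apt hU p) (hq : Q.left = apt hU q)
    (hp' : ∀ a, p a - e a ∈ I) (hq' : ∀ a, q a - e a ∈ I) :
    ∃ r, (P * Q).left = apt hU r ∧ ∀ a, r a = p a + q a - e a := by
  obtain ⟨β, hβ⟩ := exists_base hU
  have hb : ∀ {P : sp φ ⟶ A} {p}, P.left = apt hU p → ∀ c, p (β c) = φ c := fun {P p} h c =>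
    DFunLike.congr_fun (spec_inj ((apt_over hβ p).symm.trans (h ▸ pt_w P))) c
  let φT : B →+* tri I := (φ.prod (φ.prod φ)).codRestrict _ fun c => ⟨by simp, by simp⟩
  let π₁ : tri I →+* R := (RingHom.fst _ _).comp (tri I).subtype
  let π₂ : tri I →+* R := ((RingHom.fst _ _).comp (RingHom.snd _ _)).comp (tri I).subtype
  let π₃ : tri I →+* R := ((RingHom.snd _ _).comp (RingHom.snd _ _)).comp (tri I).subtype
  let x : Γ(A.left, U) →+* tri I := (p.prod (e.prod e)).codRestrict _ fun a => ⟨hp' a, by simp⟩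
  let y : Γ(A.left, U) →+* tri I := (e.prod (q.prod e)).codRestrict _ fun a => ⟨by simp, hq' a⟩
  obtain ⟨X, hX⟩ := exists_pt (φ := φT) (apt hU x) (by
    rw [apt_over hβ]
    exact congrArg (fun s => Spec.map (CommRingCat.ofHom s)) (RingHom.ext fun c =>
      Subtype.ext (Prod.ext (hb hp c) (Prod.ext (hb he c) (hb he c)))))
  obtain ⟨Y, hY⟩ := exists_pt (φ := φT) (apt hU y) (by
    rw [apt_over hβ]
    exact congrArg (fun s => Spec.map (CommRingCat.ofHom s)) (RingHom.ext fun c =>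
      Subtype.ext (Prod.ext (hb he c) (Prod.ext (hb hq c) (hb he c)))))
  have key : ∀ (π : tri I →+* R) (hπ : π.comp φT = φ) {P' Q' : sp φ ⟶ A},
      P'.left = apt hU (π.comp x) → Q'.left = apt hU (π.comp y) →
      Spec.map (CommRingCat.ofHom π) ≫ (X * Y).left = (P' * Q').left := fun π hπ P' Q' h h' => by
    rw [← pm_left π hπ, map_mul, pt_ext (P := pm A π hπ X) (Q := P') (by rw [pm_left, hX, apt_comp, h]),
      pt_ext (P := pm A π hπ Y) (Q := Q') (by rw [pm_left, hY, apt_comp, h'])]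
  have k₁ := key π₁ rfl (P' := P) (Q' := 1) hp he
  have k₂ := key π₂ rfl (P' := 1) (Q' := Q) he hq
  have k₃ := key π₃ rfl (P' := 1) (Q' := 1) he he
  rw [mul_one] at k₁ k₃
  rw [one_mul] at k₂
  obtain ⟨t, ht⟩ := exists_apt hU (X * Y).left fun z => by
    have : z ∈ Set.range (PrimeSpectrum.comap π₃) := by
      rw [range_comap_of_surjective _ π₃ fun r => ⟨⟨(r, r, r), by simp, by simp⟩, rfl⟩]
      refine fun a ha => z.2.mem_of_pow_mem 2 ?_
      have h0 : a.1.2.2 = 0 := ha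
      have h₁ := Ideal.mem_bot.1 (hI ▸ Ideal.mul_mem_mul a.2.1 a.2.1)
      have h₂ := Ideal.mem_bot.1 (hI ▸ Ideal.mul_mem_mul a.2.2 a.2.2)
      rw [h0, sub_zero] at h₁ h₂
      rw [pow_two, show a * a = 0 from Subtype.ext (Prod.ext h₁ (Prod.ext h₂
        (show a.1.2.2 * a.1.2.2 = 0 by rw [h0, mul_zero])))]
      exact zero_mem _
    obtain ⟨w, rfl⟩ := this
    have := apt_mem (hU := hU) e w
    rwa [← he, ← k₃, Scheme.Hom.comp_apply] at this
  rw [ht, apt_comp] at k₁ k₂ k₃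
  have e₁ := apt_inj (k₁.trans hp)
  have e₂ := apt_inj (k₂.trans hq)
  have e₃ := apt_inj (k₃.trans he)
  refine ⟨(triS hI).comp t, ?_, fun a => by rw [← e₁, ← e₂, ← e₃]; rfl⟩
  rw [← key (triS hI) (RingHom.ext fun c => add_sub_cancel_right _ _)
    (hp.trans (congrArg _ (RingHom.ext fun a => (add_sub_cancel_right _ _).symm)))
    (hq.trans (congrArg _ (RingHom.ext fun a => (add_sub_cancel_left _ _).symm))), ht, apt_comp]

theorem sq_pow {I : Ideal R} (hI : I * I = ⊥) {P : sp φ ⟶ A} {e p : Γ(A.left, U) →+* R}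
    (he : (1 : sp φ ⟶ A).left = apt hU e) (hp : P.left = apt hU p) (hp' : ∀ a, p a - e a ∈ I)
    (n : ℕ) : ∃ r, (P ^ n).left = apt hU r ∧ ∀ a, r a - e a = n * (p a - e a) := by
  induction n with
  | zero => exact ⟨e, by rw [pow_zero, he], fun a => by simp⟩
  | succ n ih =>
    obtain ⟨r, h₁, h₂⟩ := ih
    obtain ⟨s, h₃, h₄⟩ := sq_mul hI he h₁ hp (fun a => h₂ a ▸ I.mul_mem_left _ (hp' a)) hp'
    exact ⟨s, by rw [pow_succ, h₃], fun a => by rw [h₄]; push_cast; linear_combination h₂ a⟩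

/-- The kernel of reduction has no torsion of invertible order. -/
theorem nos_ker [LocallyOfFiniteType A.hom] [IsLocalRing R] {Q : sp φ ⟶ A} {m : ℕ}
    (hm : IsUnit (m : R)) (hQ : Q ^ m = 1) (h : pm A (IsLocalRing.residue R) rfl Q = 1) : Q = 1 := by
  have h' : Spec.map (CommRingCat.ofHom (IsLocalRing.residue R)) ≫ Q.left =
      Spec.map (CommRingCat.ofHom (IsLocalRing.residue R)) ≫ (1 : sp φ ⟶ A).left := by
    rw [← pm_left _ rfl, ← pm_left _ rfl, h, map_one]
  have hc : Spec.map (CommRingCat.ofHom (IsLocalRing.residue R)) (IsLocalRing.closedPoint _) =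
      IsLocalRing.closedPoint R := IsLocalRing.comap_closedPoint (IsLocalRing.residue R)
  obtain ⟨_, ⟨U, hU, rfl⟩, hx, -⟩ := A.left.isBasis_affineOpens.exists_subset_of_mem_open
    (Set.mem_univ ((1 : sp φ ⟶ A).left (IsLocalRing.closedPoint R))) isOpen_univ
  have hr : ∀ p : Spec (.of R) ⟶ A.left, p (IsLocalRing.closedPoint R) ∈ U → ∀ x, p x ∈ U :=
    fun p hp x => ((IsLocalRing.specializes_closedPoint x).map p.continuous).mem_open U.2 hp
  obtain ⟨e, he⟩ := exists_apt hU (1 : sp φ ⟶ A).left (hr _ hx)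
  obtain ⟨q, hq⟩ := exists_apt hU Q.left (hr _ (by
    rw [← hc, ← Scheme.Hom.comp_apply, h', Scheme.Hom.comp_apply, hc]
    exact hx))
  rw [he, hq, apt_comp, apt_comp] at h'
  obtain ⟨β, hβ⟩ := exists_base hU
  have hb : ∀ {P : sp φ ⟶ A} {p}, P.left = apt hU p → ∀ c, p (β c) = φ c := fun {P p} h c =>
    DFunLike.congr_fun (spec_inj ((apt_over hβ p).symm.trans (h ▸ pt_w P))) c
  have hf : β.FiniteType := (HasRingHomProperty.Spec_iff (P := @LocallyOfFiniteType)
    (φ := CommRingCat.ofHom β)).1 (hβ ▸ inferInstance)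
  let := β.toAlgebra
  obtain ⟨S, hS⟩ := hf.out
  let J : Ideal R := Ideal.span ((fun a => q a - e a) '' S)
  have hJ : ∀ a, q a - e a ∈ J := fun a => by
    induction (hS ▸ Algebra.mem_top : a ∈ Algebra.adjoin B (S : Set Γ(A.left, U)))
      using Algebra.adjoin_induction with
    | mem a ha => exact Ideal.subset_span ⟨a, ha, rfl⟩
    | algebraMap c => exact (sub_eq_zero.2 ((hb hq c).trans (hb he c).symm)) ▸ zero_mem _
    | add a b _ _ ha hb => simpa [add_sub_add_comm] using J.add_mem ha hb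
    | mul a b _ _ ha hb => simpa using Ideal.mul_sub_mul_mem J ha hb
  obtain ⟨r, h₁, h₂⟩ := sq_pow (hU := hU) (I := J.map (Ideal.Quotient.mk (J * J)))
    (by rw [← Ideal.map_mul, Ideal.map_quotient_self]) (P := pm A (Ideal.Quotient.mk (J * J)) rfl Q)
    (e := (Ideal.Quotient.mk (J * J)).comp e) (p := (Ideal.Quotient.mk (J * J)).comp q)
    (by rw [← map_one (pm A (Ideal.Quotient.mk (J * J)) rfl), pm_left, he, apt_comp])
    (by rw [pm_left, hq, apt_comp])
    (fun a => by simpa using Ideal.mem_map_of_mem (Ideal.Quotient.mk (J * J)) (hJ a)) m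
  rw [← map_pow, hQ, pm_left, he, apt_comp] at h₁
  have h0 : J = ⊥ := Submodule.eq_bot_of_le_smul_of_le_jacobson_bot J J
    (Submodule.fg_span (S.finite_toSet.image _)) (Ideal.span_le.2 (by
      rintro _ ⟨a, -, rfl⟩
      have := h₂ a
      rw [← apt_inj h₁, sub_self, eq_comm, ← map_natCast (Ideal.Quotient.mk (J * J)),
        (hm.map _).mul_right_eq_zero] at this
      exact Ideal.Quotient.eq.1 (sub_eq_zero.1 this)))
    ((Ideal.span_le.2 (by
      rintro _ ⟨a, -, rfl⟩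
      exact Ideal.Quotient.eq.1 (DFunLike.congr_fun (apt_inj h') a))).trans
      (IsLocalRing.maximalIdeal_le_jacobson _))
  exact pt_ext (hq.trans ((congrArg _ (RingHom.ext fun a =>
    sub_eq_zero.1 (Ideal.mem_bot.1 (h0 ▸ hJ a)))).trans he.symm))

/-- An endomorphism of a valued field that is trivial on the residue field fixes the torsion
points of invertible order. -/
theorem nos [IsProper A.hom] {F : Type} [Field F] (O : ValuationSubring F) (φ : B →+* O)
    (σ : F →+* F) (τ : O →+* O) (hστ : ∀ a, (τ a : F) = σ a) (hφ : τ.comp φ = φ)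
    (hr : ∀ a, IsLocalRing.residue O (τ a) = IsLocalRing.residue O a) {m : ℕ}
    (hm : IsUnit (m : O)) (hσ : σ.comp (O.subtype.comp φ) = O.subtype.comp φ)
    {P : sp (O.subtype.comp φ) ⟶ A} (hP : P ^ m = 1) : pm A σ hσ P = P := by
  obtain ⟨Q, rfl⟩ := vc_exists O φ P
  change pm A O.subtype rfl Q ^ m = 1 at hP
  change pm A σ hσ (pm A O.subtype rfl Q) = pm A O.subtype rfl Q
  have hQ : Q ^ m = 1 := vc_unique O (by
    rw [← pm_left _ rfl, ← pm_left _ rfl, map_pow, hP, map_one])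
  have h : pm A τ hφ Q / Q = 1 := nos_ker hm (by rw [div_pow, ← map_pow, hQ, map_one, div_one]) (by
    rw [map_div, pm_pm τ hφ _ rfl (by rw [RingHom.comp_assoc, hφ]),
      pm_congr (RingHom.ext hr) _ rfl, div_self'])
  rw [pm_pm _ rfl σ hσ hσ, pm_congr (χ := O.subtype.comp τ) (RingHom.ext fun a => (hστ a).symm) _
    (by rw [RingHom.comp_assoc, hφ]), ← pm_pm τ hφ O.subtype rfl, div_eq_one.1 h]

end Pool.Agent.Lib.MP_07b2d0_nt.Fh
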