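import Pool.Agent.Lib.MP_07b2d0_nt.Fh.Defs

/-!
The group of points: functoriality and the valuative criterion.
-/

set_option autoImplicit false

namespace Pool.Agent.Lib.MP_07b2d0_nt.Fh

open CategoryTheory AlgebraicGeometry Polynomial
open scoped MonObj

variable {B R R' R'' : Type} [CommRing B] [CommRing R] [CommRing R'] [CommRing R'']
  {A : Over (Spec (.of B))} {φ : B →+* R} {φ' : B →+* R'} {φ'' : B →+* R''}

theorem pt_ext {P Q : sp φ ⟶ A} (h : P.left = Q.left) : P = Q := Over.OverMorphism.ext h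

theorem pt_w (P : sp φ ⟶ A) : P.left ≫ A.hom = Spec.map (CommRingCat.ofHom φ) := Over.w P

theorem exists_pt (p : Spec (.of R) ⟶ A.left) (h : p ≫ A.hom = Spec.map (CommRingCat.ofHom φ)) :
    ∃ P : sp φ ⟶ A, P.left = p := ⟨Over.homMk p h, rfl⟩

theorem spm_left (ψ : R →+* R') (h : ψ.comp φ = φ') (P : sp φ ⟶ A) :
    (spm ψ h ≫ P).left = Spec.map (CommRingCat.ofHom ψ) ≫ P.left := rfl

theorem spec_comp (ψ : R →+* R') (χ : R' →+* R'') : Spec.map (CommRingCat.ofHom (χ.comp ψ)) =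
    Spec.map (CommRingCat.ofHom χ) ≫ Spec.map (CommRingCat.ofHom ψ) :=
  Spec.map_comp (CommRingCat.ofHom ψ) (CommRingCat.ofHom χ)

theorem spec_inj {ψ χ : R →+* R'}
    (h : Spec.map (CommRingCat.ofHom ψ) = Spec.map (CommRingCat.ofHom χ)) : ψ = χ :=
  congrArg CommRingCat.Hom.hom (Spec.map_injective h)

/-- A morphism that lies over `B` after an injective extension of rings lies over `B`. -/
theorem over_of_inj (ψ : R →+* R') (hψ : Function.Injective ψ) (q : Spec (.of R) ⟶ A.left)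
    (h : Spec.map (CommRingCat.ofHom ψ) ≫ q ≫ A.hom = Spec.map (CommRingCat.ofHom (ψ.comp φ))) :
    q ≫ A.hom = Spec.map (CommRingCat.ofHom φ) := by
  obtain ⟨χ, hχ⟩ := Spec.map_surjective (q ≫ A.hom)
  rw [← hχ, ← Spec.map_comp] at h
  rw [← hχ]
  congr 1
  ext b
  exact hψ (congrArg (fun s : CommRingCat.of B ⟶ CommRingCat.of R' => s.hom b)
    (Spec.map_injective h))

/-- The valuative criterion for points, existence. -/
theorem vc_exists [IsProper A.hom] {F : Type} [Field F] (O : ValuationSubring F) (φ : B →+* O)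
    (P : sp (O.subtype.comp φ) ⟶ A) : ∃ Q : sp φ ⟶ A, spm O.subtype rfl ≫ Q = P := by
  have h : ValuativeCriterion A.hom := by
    have : IsProper A.hom := inferInstance
    rw [IsProper.eq_valuativeCriterion] at this
    exact this.1.1.1
  obtain ⟨⟨q, h1, h2⟩⟩ := h.existence
    { R := O, K := F, i₁ := P.left, i₂ := Spec.map (CommRingCat.ofHom φ)
      commSq := ⟨(pt_w P).trans (spec_comp _ _)⟩ }
  exact ⟨Over.homMk q h2, pt_ext h1⟩

/-- The valuative criterion for points, uniqueness. -/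
theorem vc_unique [IsSeparated A.hom] {F : Type} [Field F] (O : ValuationSubring F)
    {φ : B →+* O} {P Q : sp φ ⟶ A} (h : Spec.map (CommRingCat.ofHom O.subtype) ≫ P.left =
      Spec.map (CommRingCat.ofHom O.subtype) ≫ Q.left) : P = Q := by
  have h1 := IsSeparated.valuativeCriterion A.hom
    { R := O, K := F, i₁ := Spec.map (CommRingCat.ofHom O.subtype) ≫ P.left
      i₂ := Spec.map (CommRingCat.ofHom φ)
      commSq := ⟨by rw [Category.assoc, pt_w]; rfl⟩ }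
  exact pt_ext (congrArg CommSq.LiftStruct.l
    (h1.elim ⟨P.left, rfl, pt_w P⟩ ⟨Q.left, h.symm, pt_w Q⟩))

variable {k : Type} [Field k] {f : k[X]} {b : B →+* k}

theorem crv_ext {ρ ρ' : Crv f →+* R} (h0 : ∀ c, ρ (algebraMap k _ c) = ρ' (algebraMap k _ c))
    (h1 : ρ (AdjoinRoot.of _ X) = ρ' (AdjoinRoot.of _ X))
    (h2 : ρ (AdjoinRoot.root _) = ρ' (AdjoinRoot.root _)) : ρ = ρ' := by
  refine AdjoinRoot.ringHom_ext (Polynomial.ringHom_ext (fun c => ?_) h1) h2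
  have := h0 c
  rwa [IsScalarTower.algebraMap_apply k k[X] (Crv f), AdjoinRoot.algebraMap_eq] at this

theorem ev_comp (κ : k →+* R) (u w : R) (h : w ^ 2 = f.eval₂ κ u) (ψ : R →+* R') {κ' : k →+* R'}
    (hκ : ψ.comp κ = κ') {u' w' : R'} (hu : ψ u = u') (hw : ψ w = w')
    (h' : w' ^ 2 = f.eval₂ κ' u') : ψ.comp (ev κ u w h) = ev κ' u' w' h' :=
  crv_ext (fun c => by rw [RingHom.comp_apply, ev_c, ev_c, ← hκ]; rfl)
    (by rw [RingHom.comp_apply, ev_x, ev_x, hu]) (by rw [RingHom.comp_apply, ev_y, ev_y, hw])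

theorem jp_left (j : sp ((algebraMap k (Crv f)).comp b) ⟶ A) (κ : k →+* R) (u w : R)
    (h : w ^ 2 = f.eval₂ κ u) :
    (jp j κ u w h).left = Spec.map (CommRingCat.ofHom (ev κ u w h)) ≫ j.left := rfl

variable [GrpObj A] [IsCommMonObj A]

theorem pm_left (ψ : R →+* R') (h : ψ.comp φ = φ') (P : sp φ ⟶ A) :
    (pm A ψ h P).left = Spec.map (CommRingCat.ofHom ψ) ≫ P.left := rfl

theorem pm_pm (ψ : R →+* R') (h : ψ.comp φ = φ') (χ : R' →+* R'') (h' : χ.comp φ' = φ'')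
    (h'' : (χ.comp ψ).comp φ = φ'') (P : sp φ ⟶ A) :
    pm A χ h' (pm A ψ h P) = pm A (χ.comp ψ) h'' P :=
  pt_ext (by rw [pm_left, pm_left, pm_left, spec_comp, Category.assoc])

theorem pm_congr {ψ χ : R →+* R'} (e : ψ = χ) (h : ψ.comp φ = φ') (h' : χ.comp φ = φ')
    (P : sp φ ⟶ A) : pm A ψ h P = pm A χ h' P := by
  subst e
  rfl

theorem pm_id (h : (RingHom.id R).comp φ = φ) (P : sp φ ⟶ A) : pm A (RingHom.id R) h P = P :=
  pt_ext (by rw [pm_left, CommRingCat.ofHom_id, Spec.map_id, Category.id_comp])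

theorem pm_jp (j : sp ((algebraMap k (Crv f)).comp b) ⟶ A) (κ : k →+* R) (u w : R)
    (h : w ^ 2 = f.eval₂ κ u) (ψ : R →+* R') {κ' : k →+* R'} (hκ : ψ.comp κ = κ') {u' w' : R'}
    (hu : ψ u = u') (hw : ψ w = w') (h' : w' ^ 2 = f.eval₂ κ' u')
    (hb : ψ.comp (κ.comp b) = κ'.comp b) : pm A ψ hb (jp j κ u w h) = jp j κ' u' w' h' :=
  pt_ext (by rw [pm_left, jp_left, jp_left, ← Category.assoc, ← spec_comp,
    ev_comp κ u w h ψ hκ hu hw h'])

theorem pm_Phi (j : sp ((algebraMap k (Crv f)).comp b) ⟶ A) (κ : k →+* R) {g : ℕ}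
    (u w : Fin g → R) (h : ∀ i, w i ^ 2 = f.eval₂ κ (u i)) (ψ : R →+* R') {κ' : k →+* R'}
    (hκ : ψ.comp κ = κ') {u' w' : Fin g → R'} (hu : ∀ i, ψ (u i) = u' i)
    (hw : ∀ i, ψ (w i) = w' i) (h' : ∀ i, w' i ^ 2 = f.eval₂ κ' (u' i))
    (hb : ψ.comp (κ.comp b) = κ'.comp b) : pm A ψ hb (Phi j κ u w h) = Phi j κ' u' w' h' := by
  rw [Phi, map_prod]
  exact Finset.prod_congr rfl fun i _ => pm_jp j κ _ _ _ ψ hκ (hu i) (hw i) _ hb

theorem Phi_perm (j : sp ((algebraMap k (Crv f)).comp b) ⟶ A) (κ : k →+* R) {g : ℕ}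
    (u w : Fin g → R) (h : ∀ i, w i ^ 2 = f.eval₂ κ (u i)) (π : Equiv.Perm (Fin g)) :
    Phi j κ (fun i => u (π i)) (fun i => w (π i)) (fun i => h (π i)) = Phi j κ u w h :=
  Equiv.prod_comp π fun i => jp j κ (u i) (w i) (h i)

/-- The sum of `g` points in general position determines their abscissae. -/
def UniqJ (j : sp ((algebraMap k (Crv f)).comp b) ⟶ A) (g : ℕ) : Prop :=
  ∀ (Ω : Type) [Field Ω] [IsAlgClosed Ω] (κ : k →+* Ω) (u w u' w' : Fin g → Ω)
    (h : ∀ i, w i ^ 2 = f.eval₂ κ (u i)) (h' : ∀ i, w' i ^ 2 = f.eval₂ κ (u' i)),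
    Function.Injective u' → (∀ i, w' i ≠ 0) → Phi j κ u w h = Phi j κ u' w' h' →
    ∀ i, ∃ l, u' i = u l

end Pool.Agent.Lib.MP_07b2d0_nt.Fh
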