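import Pool.Agent.Lib.MP_07b2d0_nt.Fh.Defs
import Pool.Agent.Lib.MP_07b2d0_nt.KG4
import Pool.Agent.Lib.MP_07b2d0_nt.KG5
import Pool.Agent.Lib.MP_07b2d0_nt.CR
import Pool.Agent.Lib.MP_07b2d0_nt.KStmt

/-!
A Galois extension on which all inertia groups act trivially is unramified.
-/

set_option autoImplicit false
set_option linter.unusedSectionVars false

namespace Pool.Agent.Lib.MP_07b2d0_nt.Fh

open NumberField

variable {k K : Type} [Field k] [NumberField k] [Field K] [NumberField K] [Algebra k K]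

/-- Let `ν` be a nonarchimedean absolute value on `K` that extends the finite place `v` and has
the same values.  Then `P = {z ∈ 𝓞 K | ν z < 1}` is a prime over the prime of `v` (algebraic
integers have `ν z ≤ 1`; `FinitePlace.norm_lt_one_iff_mem`, `FinitePlace.embedding` or `fp_eq`
in the file `NF1`).  Let `π ∈ 𝓞 k` have `ord v π = 1`; all `z ∈ P` have `ν z ≤ v π`, so all
elements of `P ^ 2` have `ν z ≤ v π ^ 2 < v π` (`Submodule.mul_induction_on`) and
`π ∉ P ^ 2`. -/
theorem exists_prime_unram (v : FinitePlace k) (ν : AbsoluteValue K ℝ) (hna : IsNonarchimedean ν)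
    (hext : ∀ u : k, ν (algebraMap k K u) = v u) (hval : ∀ z : K, ∃ u : k, ν z = v u) :
    ∃ P : Ideal (𝓞 K), P.IsPrime ∧ P.LiesOver v.maximalIdeal.asIdeal ∧
      ¬ v.maximalIdeal.asIdeal.map (algebraMap (𝓞 k) (𝓞 K)) ≤ P ^ 2 := by
  obtain ⟨A, hA, -⟩ := Ks.exists_valuationSubring (K := K) hna
  have hint : ∀ z : 𝓞 K, ν (z : K) ≤ 1 := fun z => by
    have h1 : IsIntegral A (z : K) := IsIntegral.tower_top (R := ℤ) z.isIntegral_coe
    obtain ⟨y, hy⟩ := IsIntegrallyClosed.isIntegral_iff.mp h1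
    rw [← hA, ← hy]
    exact y.2
  let P : Ideal (𝓞 K) :=
    { carrier := {z | ν (z : K) < 1}
      add_mem' := fun {a b} ha hb => by
        change ν ((a : K) + b) < 1
        exact (hna _ _).trans_lt (max_lt ha hb)
      zero_mem' := by
        change ν ((0 : 𝓞 K) : K) < 1
        simp
      smul_mem' := fun c a ha => by
        change ν ((c : K) * a) < 1
        rw [map_mul]
        exact mul_lt_one_of_nonneg_of_lt_one_right (hint c) (ν.nonneg _) ha }
  have hP : ∀ z : 𝓞 K, z ∈ P ↔ ν (z : K) < 1 := fun z => Iff.rfl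
  have hmap : ∀ u : 𝓞 k, ν ((algebraMap (𝓞 k) (𝓞 K) u : 𝓞 K) : K) = v (u : k) := fun u => by
    rw [← hext]
    rfl
  obtain ⟨π, hπ⟩ := v.maximalIdeal.intValuation_exists_uniformizer
  have hπv : v.maximalIdeal.valuation k (π : k) = WithZero.exp (-1 : ℤ) := by
    rw [← hπ]
    exact v.maximalIdeal.valuation_of_algebraMap (K := k) π
  have hπ0 : (π : k) ≠ 0 := fun h => by
    rw [h, map_zero] at hπv
    exact WithZero.exp_ne_zero hπv.symm
  have hπo : ord v (π : k) = 1 := by simp [ord, hπv]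
  have hq := two_le_qv' v
  have hπ1 : v (π : k) < 1 := (fp_lt_one_iff v hπ0).mpr (by omega)
  have hπp : 0 < v (π : k) := by
    rw [fp_eq v hπ0]
    positivity
  have hle : ∀ z ∈ P, ν (z : K) ≤ v (π : k) := fun z hz => by
    obtain ⟨u, hu⟩ := hval z
    rw [hP, hu] at hz
    rw [hu]
    rcases eq_or_ne u 0 with rfl | hu0
    · rw [map_zero]
      exact hπp.le
    · rw [fp_lt_one_iff v hu0] at hz
      rw [fp_eq v hu0, fp_eq v hπ0, hπo]
      exact zpow_le_zpow_right₀ (by linarith) (by omega)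
  refine ⟨P, ⟨fun h => ?_, fun {a b} h => ?_⟩, ⟨?_⟩, fun h => ?_⟩
  · have : (1 : 𝓞 K) ∈ P := h ▸ Submodule.mem_top
    rw [hP] at this
    simp at this
  · by_contra hab
    rw [not_or, hP, hP, not_lt, not_lt] at hab
    rw [hP] at h
    change ν ((a : K) * b) < 1 at h
    rw [map_mul] at h
    exact absurd h (not_lt.mpr (one_le_mul_of_one_le_of_one_le hab.1 hab.2))
  · ext u
    rw [Ideal.under, Ideal.mem_comap, hP, hmap, fp_lt_one_iff_mem]
  · have h1 : algebraMap (𝓞 k) (𝓞 K) π ∈ P * P := by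
      rw [← pow_two]
      exact h (Ideal.mem_map_of_mem _ ((fp_lt_one_iff_mem v π).mp hπ1))
    have h2 : ∀ z ∈ P * P, ν (z : K) ≤ v (π : k) * v (π : k) := fun z hz => by
      refine Submodule.mul_induction_on hz (fun a ha b hb => ?_) (fun a b ha hb => ?_)
      · change ν ((a : K) * b) ≤ _
        rw [map_mul]
        exact mul_le_mul (hle a ha) (hle b hb) (ν.nonneg _) hπp.le
      · change ν ((a : K) + b) ≤ _
        exact (hna _ _).trans (max_le ha hb)
    have h3 := h2 _ h1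
    rw [hmap] at h3
    nlinarith

/-- Suppose `p ∤ N`.  By `not_dvd_discr_iff_forall_mem` it suffices to show that each prime `P`
of `𝓞 K` containing `p` is unramified over `ℤ`; use `Algebra.IsUnramifiedAt.comp` with the prime
`𝔭 = P.under (𝓞 k)`, which is unramified since `p ∤ discr k`.  Let `v = FinitePlace.mk 𝔭`; then
`v N = 1` (`N` and `p` are coprime).  `Ks.exists_loc k v` and `Ks.exists_valuationSubring` show
that the elements of `Γ` are inertial, so `ν.comp e` has the values of `v`;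
`exists_prime_unram` gives a prime `P'` over `𝔭` of ramification index one, and
`Ideal.ramificationIdx_eq_of_isGaloisGroup`, `Algebra.isUnramifiedAt_iff_of_isDedekindDomain`
finish. -/
theorem unram_of_inertia [IsGalois k K] (e : K →ₐ[k] AlgebraicClosure k) {N : ℕ}
    (hd : ∀ p : ℕ, p.Prime → (p : ℤ) ∣ discr k → p ∣ N)
    (h : ∀ σ, Ks.Inertial k (AlgebraicClosure k) N σ → ∀ z, σ (e z) = e z) (p : ℕ) (hp : p.Prime)
    (hK : (p : ℤ) ∣ discr K) : p ∣ N := by
  by_contra hN
  have hp' : Prime (p : ℤ) := Nat.prime_iff_prime_int.mp hp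
  refine (not_dvd_discr_iff_forall_mem K (𝓞 K) hp').mpr (fun P hP hpP => ?_) hK
  have hpP' : (p : 𝓞 K) ∈ P := by simpa using hpP
  have hpq : (p : 𝓞 k) ∈ P.under (𝓞 k) := by
    rw [Ideal.under, Ideal.mem_comap, map_natCast]
    exact hpP'
  have hq0 : P.under (𝓞 k) ≠ ⊥ := fun h0 => by
    rw [h0, Ideal.mem_bot] at hpq
    exact hp.ne_zero (Nat.cast_eq_zero.mp hpq)
  have h1 : Algebra.IsUnramifiedAt ℤ (P.under (𝓞 k)) :=
    (not_dvd_discr_iff_forall_mem k (𝓞 k) hp').mp (fun hk => hN (hd p hp hk)) _ inferInstance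
      (by simpa using hpq)
  let q : IsDedekindDomain.HeightOneSpectrum (𝓞 k) := ⟨P.under (𝓞 k), inferInstance, hq0⟩
  let v : FinitePlace k := FinitePlace.mk q
  have hv : v.maximalIdeal.asIdeal = P.under (𝓞 k) := by rw [FinitePlace.maximalIdeal_mk]
  have hvN : v (N : k) = 1 := by
    refine le_antisymm (fp_nat_le_one v N) (not_lt.mp fun hlt => ?_)
    rw [fp_nat_lt_one_iff, hv] at hlt
    have hc : IsCoprime (p : 𝓞 k) (N : 𝓞 k) :=
      Nat.Coprime.cast ((Nat.Prime.coprime_iff_not_dvd hp).mpr hN)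
    obtain ⟨a, b, hab⟩ := hc
    exact (Ideal.ne_top_iff_one _).mp (Ideal.IsPrime.ne_top inferInstance)
      (hab ▸ add_mem (Ideal.mul_mem_left _ a hpq) (Ideal.mul_mem_left _ b hlt))
  obtain ⟨ν, Γ, hna, hext, hiso, hres, hfix⟩ := Ks.exists_loc k v
  obtain ⟨A, hA, hAσ⟩ := Ks.exists_valuationSubring (K := k) hna
  have hin : ∀ σ ∈ Γ, Ks.Inertial k (AlgebraicClosure k) N σ := fun σ hσ => by
    obtain ⟨τ, hτ, he⟩ := hAσ σ (hiso σ hσ) (hres σ hσ)
    refine ⟨A, (hA _).mpr ?_, τ, hτ, he⟩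
    rw [map_inv₀, ← map_natCast (algebraMap k (AlgebraicClosure k)), hext, hvN, inv_one]
  obtain ⟨Q, hQ, hQv, hQ2⟩ := exists_prime_unram (K := K) v
    (ν.comp (f := e.toRingHom) e.toRingHom.injective)
    (fun a b => by
      change ν (e (a + b)) ≤ max (ν (e a)) (ν (e b))
      rw [map_add]
      exact hna _ _)
    (fun u => by
      change ν (e (algebraMap k K u)) = v u
      rw [AlgHom.commutes, hext])
    (fun z => hfix (e z) fun σ hσ => h σ (hin σ hσ) z)
  rw [hv] at hQv hQ2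
  have h2 : Q.ramificationIdx (𝓞 k) = 1 := by
    rw [← Ideal.ramificationIdx'_eq_ramificationIdx (P.under (𝓞 k)) Q hq0]
    by_contra hne
    exact hQ2 ((Ideal.ramificationIdx'_ne_one_iff
      (Ideal.map_le_of_le_comap (Q.over_def (P.under (𝓞 k))).le)).mp hne)
  have h3 : P.ramificationIdx (𝓞 k) = 1 := by
    rw [← h2]
    exact Ideal.ramificationIdx_eq_of_isGaloisGroup (P.under (𝓞 k)) P Q Gal(K/k)
  have h4 : Algebra.IsUnramifiedAt (𝓞 k) P := Ideal.ramificationIdx_eq_one_iff.mp h3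
  exact Algebra.IsUnramifiedAt.comp (P.under (𝓞 k)) P

end Pool.Agent.Lib.MP_07b2d0_nt.Fh
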