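import Pool.Agent.Lib.MP_07b2d0_nt.Fh.Uniq
import Pool.Agent.Lib.MP_07b2d0_nt.Fh.Unr

/-!
The splitting field of `f` is unramified outside `2 N`.
-/

set_option autoImplicit false

namespace Pool.Agent.Lib.MP_07b2d0_nt.Fh

open CategoryTheory AlgebraicGeometry Polynomial WithZero NumberField
open scoped IntermediateField

section field

variable {Ω F : Type} [Field Ω] [IsAlgClosed Ω] [CharZero Ω] [Field F] [Algebra Ω F]
  {f : Polynomial Ω} {x y : F}

theorem Hyp.divBy (h : Hyp f x y) {a b : Ω} (ha : f.IsRoot a) (hb : f.IsRoot b) :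
    Ks.DivBy Ω 2 ((x - algebraMap Ω F a) * (x - algebraMap Ω F b)) := fun v hv => by
  have n : ∀ a, v (x - algebraMap Ω F a) ≠ 0 := fun a => (map_ne_zero v).2 (h.sub_ne a)
  rw [map_mul, log_mul (n a) (n b)]
  rcases lt_or_ge 1 (v x) with h1 | h1
  · rw [v.map_sub_eq_of_lt_left ((hv a).trans_lt h1), v.map_sub_eq_of_lt_left ((hv b).trans_lt h1)]
    exact ⟨_, (two_mul _).symm⟩
  · have key : ∀ a, f.IsRoot a → ((2 : ℕ) : ℤ) ∣ log (v (x - algebraMap Ω F a)) := fun a ha => by
      rcases (v.map_sub_le h1 (hv a)).lt_or_eq with h2 | h2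
      · have h3 := Ks.Triv.aeval_eq_pow hv h2 h.sep.ne_zero
        rw [le_antisymm (rootMultiplicity_le_one_of_separable h.sep a)
          ((rootMultiplicity_pos h.sep.ne_zero).2 ha), pow_one, ← h.eq, map_pow] at h3
        exact ⟨_, by rw [← h3, log_pow, nsmul_eq_mul]⟩
      · rw [h2, log_one]
        exact dvd_zero _
    exact dvd_add (key a ha) (key b hb)

theorem Hyp.even_mult {g : ℕ} (h : Hyp f x y) (hg : 2 ≤ g) (hd : f.natDegree = 2 * g + 2)
    {P : Polynomial Ω} (hP : P ≠ 0) (h4 : P.natDegree ≤ 4) {θ : F} (he : aeval x P = θ ^ 2)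
    (a : Ω) : Even (P.rootMultiplicity a) := by
  obtain ⟨s, s₁, s₂, s₃⟩ := h.conj
  have h1 := h.rr hd s s₁ s₂ s₃ (ψ := θ) fun v => by
    rw [← pow_le_pow_iff_left₀ zero_le zero_le two_ne_zero, ← map_pow, ← he, ← pow_mul]
    rcases lt_or_ge 1 (v.1 x) with h1 | h1
    · rw [Ks.Triv.aeval_inf v.2.2 h1 hP, max_eq_right h1.le]
      exact pow_le_pow_right₀ h1.le (by omega)
    · rw [max_eq_left h1, one_pow]
      exact Ks.Triv.aeval_le_one v.2.2 h1 P
  have hs : ∀ a ∈ Ω⟮x⟯, s a = a := fun a ha => by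
    obtain ⟨A, B, rfl⟩ := (IntermediateField.mem_adjoin_simple_iff Ω a).1 ha
    have := fun A => aeval_algHom_apply (AlgEquiv.ofRingEquiv s₁) x A
    simp only [AlgEquiv.ofRingEquiv_apply, s₂] at this
    rw [map_div₀, ← this, ← this]
  obtain ⟨α, hα, β, hβ, rfl⟩ := h.dec θ
  have : CharZero F := charZero_of_injective_algebraMap (algebraMap Ω F).injective
  rw [map_add, map_mul, hs α hα, hs β hβ, s₃, add_right_inj, mul_neg, neg_eq_self] at h1
  obtain ⟨A, B, rfl⟩ := (IntermediateField.mem_adjoin_simple_iff Ω α).1 hα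
  have hB : B ≠ 0 := by
    rintro rfl
    exact h.aeval_ne hP (by simp [he, h1])
  have h2 : P * (B * B) = A * A := transcendental_iff_injective.1 h.trans (by
    have := h.aeval_ne hB
    rw [map_mul, map_mul, map_mul, he, h1]
    field_simp
    simp)
  have h3 := mul_ne_zero hP (mul_ne_zero hB hB)
  have h5 := congrArg (rootMultiplicity a) h2
  rw [rootMultiplicity_mul h3, rootMultiplicity_mul (mul_ne_zero hB hB),
    rootMultiplicity_mul (h2 ▸ h3)] at h5
  exact ⟨A.rootMultiplicity a - B.rootMultiplicity a, by omega⟩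

theorem Hyp.root_fix {g : ℕ} (h : Hyp f x y) (hg : 2 ≤ g) (hd : f.natDegree = 2 * g + 2)
    (σ : Ω ≃+* Ω) (s : F →+* F) (hs : ∀ z, s (algebraMap Ω F z) = algebraMap Ω F (σ z))
    (hx : s x = x) (H : ∀ φ : F, φ ≠ 0 → Ks.DivBy Ω 2 φ → ∃ ψ : F, s φ = φ * ψ ^ 2) {a : Ω}
    (ha : f.IsRoot a) : σ a = a := by
  classical
  by_contra h0
  obtain ⟨b, hb, hb'⟩ := Finset.exists_mem_notMem_of_card_lt_card (s := {a, σ.symm a})
    (t := f.roots.toFinset) (by
      rw [Multiset.toFinset_card_of_nodup (nodup_roots h.sep), IsAlgClosed.card_roots_eq_natDegree]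
      exact Finset.card_le_two.trans_lt (by omega))
  rw [Finset.mem_insert, Finset.mem_singleton, not_or, σ.eq_symm_apply] at hb'
  obtain ⟨ψ, hψ⟩ := H _ (mul_ne_zero (h.sub_ne a) (h.sub_ne b))
    (h.divBy ha (isRoot_of_mem_roots (Multiset.mem_toFinset.1 hb)))
  rw [map_mul, map_sub, map_sub, hx, hs, hs] at hψ
  have n := fun c : Ω => X_sub_C_ne_zero c
  have h1 := mul_ne_zero (n a) (mul_ne_zero (n b) (mul_ne_zero (n (σ a)) (n (σ b))))
  have h2 := h.even_mult hg hd h1 (by compute_degree)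
    (θ := (x - algebraMap Ω F a) * (x - algebraMap Ω F b) * ψ)
    (by simp only [map_mul, map_sub, aeval_X, aeval_C, hψ]; ring) a
  rw [rootMultiplicity_mul h1, rootMultiplicity_X_sub_C_self, rootMultiplicity_eq_zero (by
    simp [sub_eq_zero, Ne.symm h0, Ne.symm hb'.1, Ne.symm hb'.2])] at h2
  exact Nat.not_even_one h2

end field

theorem finrank_le_factorial {k K : Type} [Field k] [Field K] [Algebra k K] {f : k[X]}
    [f.IsSplittingField k K] (hs : f.Separable) :
    Module.finrank k K ≤ f.natDegree.factorial := by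
  have : Fact (f.map (algebraMap k K)).Splits := ⟨IsSplittingField.splits K f⟩
  rw [(IsSplittingField.algEquiv K f).toLinearEquiv.finrank_eq, ← Gal.card_of_separable hs,
    ← card_rootSet_eq_natDegree hs this.out, ← Nat.card_eq_fintype_card, ← Nat.card_perm]
  exact Nat.card_le_card_of_injective _ (Gal.galActionHom_injective f K)

variable {k : Type} [Field k] [NumberField k] {N g : ℕ} {f : k[X]}
  {A : Over (Spec (.of (ON k N)))} [GrpObj A] [IsCommMonObj A] [IsProper A.hom]
  {j : sp ((algebraMap k (Crv f)).comp (algebraMap (ON k N) k)) ⟶ A}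

theorem IsJac.exists_field (hJ : IsJac (algebraMap (ON k N) k) f A j) (hN : 0 < N) (hg : 2 ≤ g)
    (hk : ∀ p : ℕ, p.Prime → (p : ℤ) ∣ discr k → p ∣ N) (hs : f.Separable)
    (hd : f.natDegree = 2 * g + 2) :
    ∃ (K : Type) (_ : Field K) (_ : NumberField K) (_ : Algebra k K),
      Module.finrank ℚ K ≤ (2 * g + 2).factorial * Module.finrank ℚ k ∧
      (∀ p : ℕ, p.Prime → (p : ℤ) ∣ discr K → p ∣ 2 * N) ∧ (f.map (algebraMap k K)).Splits := by
  obtain ⟨K, _, _, hK⟩ : ∃ (K : Type) (_ : Field K) (_ : Algebra k K), f.IsSplittingField k K :=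
    ⟨f.SplittingField, _, _, inferInstance⟩
  have := IsSplittingField.finiteDimensional K f
  have := NumberField.of_module_finite k K
  have := IsGalois.of_separable_splitting_field (E := K) hs
  refine ⟨K, _, inferInstance, _, ?_, unram_of_inertia IsAlgClosed.lift
    (fun p hp h => (hk p hp h).mul_left 2) fun σ hσ => ?_, hK.splits⟩
  · rw [← Module.finrank_mul_finrank ℚ k K, mul_comm, ← hd]
    exact Nat.mul_le_mul_right _ (finrank_le_factorial hs)
  have hd' := (natDegree_map (algebraMap k (AlgebraicClosure k))).trans hd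
  obtain ⟨F, _, _, x, y, h⟩ := exists_hyp (hs.map (f := algebraMap k (AlgebraicClosure k)))
    (by omega)
  obtain ⟨_, hC, hy⟩ := h.exists_act k
  have ht := tate hJ h.rho h.rho_c h.rho_top (h.rho_x.symm ▸ hC) (h.rho_y.symm ▸ hy)
    (dvd_mul_left N 2) (dvd_mul_right 2 N) (by omega) σ hσ 1
  refine DFunLike.congr_fun (AlgHom.ext_of_adjoin_eq_top hK.adjoin_rootSet
    (φ₁ := σ.toAlgHom.comp IsAlgClosed.lift) (φ₂ := IsAlgClosed.lift) fun r hr => ?_)
  refine h.root_fix hg hd' σ.toRingEquiv (MulSemiringAction.toRingHom _ F σ) (hC.1 σ) (hC.2.1 σ)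
    ht ?_
  exact (eval_map_algebraMap f _).trans ((aeval_algHom_apply IsAlgClosed.lift r f).trans
    (by rw [(mem_rootSet.1 hr).2, map_zero]))

end Pool.Agent.Lib.MP_07b2d0_nt.Fh
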