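import Mathlib

/-!
Abelian schemes, Jacobians of hyperelliptic curves, Néron models and the Faltings height.
-/

set_option autoImplicit false

namespace Pool.Agent.Lib.MP_07b2d0_nt.St

open CategoryTheory AlgebraicGeometry Polynomial NumberField WithZero MeasureTheory
open CartesianMonoidalCategory MonoidalCategory
open scoped MonObj ENNReal

noncomputable section

/-- The ring `𝓞_k[1/N]`. -/
def ON (k : Type) [Field k] (N : ℕ) : Subring k :=
  (Algebra.adjoin (𝓞 k) {(N : k)⁻¹}).toSubring

/-- `Spec R` as a scheme over `Spec B`. -/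
def sp {B R : Type} [CommRing B] [CommRing R] (φ : B →+* R) : Over (Spec (.of B)) :=
  Over.mk (Spec.map (CommRingCat.ofHom φ))

/-- The places of the function field `F / Ω`. -/
def Plc (Ω F : Type) [Field Ω] [Field F] [Algebra Ω F] : Type :=
  {v : Valuation F ℤᵐ⁰ // Function.Surjective v ∧ ∀ c : Ω, v (algebraMap Ω F c) ≤ 1}

/-- The point `p` extends to the valuation ring `V` and takes the value `P` there. -/
def IsVal {Ω F : Type} [Field Ω] [Field F] [Algebra Ω F] {Y : Scheme} (p : Spec (.of F) ⟶ Y)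
    (V : ValuationSubring F) (P : Spec (.of Ω) ⟶ Y) : Prop :=
  ∃ (q : Spec (.of V) ⟶ Y) (r : V →+* Ω), (∀ c h, r ⟨algebraMap Ω F c, h⟩ = c) ∧
    Spec.map (CommRingCat.ofHom V.subtype) ≫ q = p ∧ Spec.map (CommRingCat.ofHom r) ≫ q = P

/-- The map `val` sends the divisors of degree zero onto `G`, with kernel the principal ones. -/
def IsPic {Ω F G : Type} [Field Ω] [Field F] [Algebra Ω F] [CommGroup G] (val : Plc Ω F → G) :
    Prop :=
  (∀ P, ∃ D : Plc Ω F →₀ ℤ, (D.sum fun _ n => n) = 0 ∧ (D.prod fun v n => val v ^ n) = P) ∧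
    ∀ d : Plc Ω F → ℤ, (∃ φ : F, φ ≠ 0 ∧ ∀ v, d v = log (v.1 φ)) ↔
      ∃ D : Plc Ω F →₀ ℤ, ⇑D = d ∧ (D.sum fun _ n => n) = 0 ∧ (D.prod fun v n => val v ^ n) = 1

/-- The morphism `j` from the affine curve `Spec R` with coordinate `x` identifies `A(Ω)` with the
group of divisor classes of degree zero, for every algebraically closed field `Ω` over `k`. -/
def IsJac {B k R : Type} [CommRing B] [Field k] [CommRing R] [Algebra k R] (b : B →+* k) (x : R)
    (A : Over (Spec (.of B))) [GrpObj A] [IsCommMonObj A]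
    (j : sp ((algebraMap k R).comp b) ⟶ A) : Prop :=
  ∀ (Ω F : Type) [Field Ω] [IsAlgClosed Ω] [Algebra k Ω] [Field F] [Algebra Ω F]
    (ρ : R →+* F), (∀ c, ρ (algebraMap k R c) = algebraMap Ω F (algebraMap k Ω c)) →
    Transcendental Ω (ρ x) → IntermediateField.adjoin Ω (Set.range ρ) = ⊤ →
    ∃ val : Plc Ω F → (sp ((algebraMap k Ω).comp b) ⟶ A), IsPic val ∧
      ∀ v, IsVal (Spec.map (CommRingCat.ofHom ρ) ≫ j.left) v.1.valuationSubring (val v).left

/-- `A` is an abelian scheme of relative dimension `g` over `B` whose fibre over `k` is the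
Jacobian of the curve `y ^ 2 = f(x)`. -/
structure AbJac (g : ℕ) {B k : Type} [CommRing B] [Field k] (b : B →+* k) (f : k[X])
    (A : Over (Spec (.of B))) : Prop where
  proper : IsProper A.hom
  smooth : SmoothOfRelativeDimension g A.hom
  jac : ∃ (_ : GrpObj A) (_ : IsCommMonObj A) (j : _),
    IsJac b (AdjoinRoot.of (X ^ 2 - C f) X) A j

/-- `M` is a Néron model over `𝓞 L` of the base change of `A` to `L`. -/
structure Neron (g : ℕ) {B L : Type} [CommRing B] [Field L] (c : B →+* L)
    (A : Over (Spec (.of B))) (M : Over (Spec (.of (𝓞 L)))) : Prop where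
  smooth : SmoothOfRelativeDimension g M.hom
  sep : IsSeparated M.hom
  qc : QuasiCompact M.hom
  gen : Nonempty ((Over.pullback (Spec.map (CommRingCat.ofHom (algebraMap (𝓞 L) L)))).obj M ≅
    (Over.pullback (Spec.map (CommRingCat.ofHom c))).obj A)
  nmp : ∀ Y : Over (Spec (.of (𝓞 L))), Smooth Y.hom →
    Function.Bijective fun v : Y ⟶ M => fst Y (sp (algebraMap (𝓞 L) L)) ≫ v

section

variable {g : ℕ} {O R F V : Type} [CommRing O] [CommRing R] [CommRing F] [AddCommGroup V]
  [Module F V] (w : (Fin g → F) → V) (φ : R →+* F)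

/-- The sums of forms `a d t₁ ∧ ⋯ ∧ d t_g` with `a` and `t` in `R`, where `w t` stands for
`d t₁ ∧ ⋯ ∧ d t_g`. -/
def Reg : AddSubgroup V :=
  .closure {α | ∃ (a : R) (t : Fin g → R), α = φ a • w fun i => φ (t i)}

/-- The integral of `|α ∧ conj α| / 2 ^ g` over the complex points of `R` above `σ`, computed
with coordinates `t` in which `α = h d t₁ ∧ ⋯ ∧ d t_g`. -/
def vol (κ : O →+* F) (σ : O →+* ℂ) (α : V) : ℝ≥0∞ :=
  ⨆ (t : Fin g → R) (h : R) (_ : α = φ h • w fun i => φ (t i)), ∫⁻ z : Fin g → ℂ,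
    ∑' P : {P : R →+* ℂ // (∀ c a, φ a = κ c → P a = σ c) ∧ ∀ i, P (t i) = z i}, ‖P.1 h‖ₑ ^ 2

end

variable {g : ℕ} {L : Type} [Field L] [NumberField L] (M : Over (Spec (.of (𝓞 L))))
  [IsIntegral M.left] {V : Type} [AddCommGroup V] [Module M.left.functionField V]
  (w : (Fin g → M.left.functionField) → V)

/-- The constant functions. -/
def cst : 𝓞 L →+* M.left.functionField :=
  ((Scheme.ΓSpecIso (.of (𝓞 L))).inv ≫ M.hom.appTop ≫
    M.left.presheaf.germ ⊤ (genericPoint M.left) trivial).hom

/-- The forms on the function field that are regular at every point. -/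
def Lam : AddSubgroup V :=
  ⨅ x : M.left, Reg w (algebraMap (M.left.presheaf.stalk x) M.left.functionField)

/-- The squared norm of `α` at `σ`, computed in affine charts. -/
def nsq (σ : L →+* ℂ) (α : V) : ℝ≥0∞ :=
  ⨆ (U : M.left.Opens) (_ : IsAffineOpen U) (_ : Nonempty U),
    vol w (algebraMap Γ(M.left, U) M.left.functionField) (cst M)
      (σ.comp (algebraMap (𝓞 L) L)) α

/-- The arithmetic degree of the lattice of regular forms, divided by `[L : ℚ]`, computed with
any nonzero regular form, is at most `H`. -/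
def DegLe (H : ℕ) : Prop :=
  ∀ α ∈ Lam M w, α ≠ 0 → (ENNReal.log (ENat.card (Lam M w ⧸
      (AddSubgroup.closure {β | ∃ c, β = cst M c • α}).addSubgroupOf (Lam M w))) -
    (∑ σ : L →+* ℂ, ENNReal.log (nsq M w σ α)) / 2) / Module.finrank ℚ L ≤ H

/-- The Faltings height of `A` over all sufficiently large number fields is at most `H`. -/
structure HLe (g : ℕ) {B k : Type} [CommRing B] [Field k] (b : B →+* k)
    (A : Over (Spec (.of B))) (H : ℕ) : Prop where
  le : ∃ (K : Type) (_ : Field K) (_ : NumberField K) (i : k →+* K),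
    ∀ (L : Type) [Field L] [NumberField L] (e : K →+* L) (M : Over (Spec (.of (𝓞 L))))
      [IsIntegral M.left], Neron g (e.comp (i.comp b)) A M →
      DegLe M (fun t : Fin g → M.left.functionField => exteriorPower.ιMulti
        M.left.functionField g fun n => KaehlerDifferential.D ℤ _ (t n)) H

end

end Pool.Agent.Lib.MP_07b2d0_nt.St
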