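import Mathlib

/-!
Abelian schemes, Jacobians of hyperelliptic curves, Néron models and the Faltings height.
-/

set_option autoImplicit false

namespace Pool.Agent.Lib.MP_07b2d0_nt.Fh

open CategoryTheory AlgebraicGeometry Polynomial NumberField WithZero MeasureTheory
open CartesianMonoidalCategory MonoidalCategory
open scoped MonObj ENNReal

noncomputable section

/-- The ring `𝓞_k[1/N]`. -/
abbrev ON (k : Type) [Field k] (N : ℕ) : Type := Algebra.adjoin (𝓞 k) {(N : k)⁻¹}

/-- `Spec R` as a scheme over `Spec B`. -/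
abbrev sp {B R : Type} [CommRing B] [CommRing R] (φ : B →+* R) : Over (Spec (.of B)) :=
  Over.mk (Spec.map (CommRingCat.ofHom φ))

/-- The coordinate ring `k[x, y] / (y ^ 2 - f(x))`. -/
abbrev Crv {k : Type} [Field k] (f : k[X]) : Type := AdjoinRoot (X ^ 2 - C f)

/-- The places of the function field `F / Ω`. -/
abbrev Plc (Ω F : Type) [Field Ω] [Field F] [Algebra Ω F] : Type :=
  {v : Valuation F ℤᵐ⁰ // Function.Surjective v ∧ ∀ c : Ω, v (algebraMap Ω F c) ≤ 1}

/-- The point `p` extends to the valuation ring of `v` and takes the value `P` at `v`. -/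
def IsVal {Ω F : Type} [Field Ω] [Field F] [Algebra Ω F] {Y : Scheme} (p : Spec (.of F) ⟶ Y)
    (v : Valuation F ℤᵐ⁰) (P : Spec (.of Ω) ⟶ Y) : Prop :=
  ∃ (q : Spec (.of v.valuationSubring) ⟶ Y) (r : v.valuationSubring →+* Ω),
    (∀ c h, r ⟨algebraMap Ω F c, h⟩ = c) ∧
    Spec.map (CommRingCat.ofHom v.valuationSubring.subtype) ≫ q = p ∧
    Spec.map (CommRingCat.ofHom r) ≫ q = P

/-- The morphism `j` from the curve `y ^ 2 = f(x)` identifies `A(Ω)` with the group of divisor
classes of degree zero, for every algebraically closed field `Ω` over `k`. -/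
def IsJac {B k : Type} [CommRing B] [Field k] (b : B →+* k) (f : k[X])
    (A : Over (Spec (.of B))) [GrpObj A] [IsCommMonObj A]
    (j : sp ((algebraMap k (Crv f)).comp b) ⟶ A) : Prop :=
  ∀ (Ω F : Type) [Field Ω] [IsAlgClosed Ω] [Algebra k Ω] [Field F] [Algebra Ω F]
    (ρ : Crv f →+* F), (∀ c, ρ (algebraMap k _ c) = algebraMap Ω F (algebraMap k Ω c)) →
    Transcendental Ω (ρ (AdjoinRoot.of _ X)) → IntermediateField.adjoin Ω (Set.range ρ) = ⊤ →
    ∃ val : Plc Ω F → (sp ((algebraMap k Ω).comp b) ⟶ A),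
      (∀ v, IsVal (Spec.map (CommRingCat.ofHom ρ) ≫ j.left) v.1 (val v).left) ∧
      (∀ P, ∃ D : Plc Ω F →₀ ℤ, (D.sum fun _ n => n) = 0 ∧ (D.prod fun v n => val v ^ n) = P) ∧
      ∀ d : Plc Ω F → ℤ, (∃ φ : F, φ ≠ 0 ∧ ∀ v, d v = log (v.1 φ)) ↔
        ∃ D : Plc Ω F →₀ ℤ, ⇑D = d ∧ (D.sum fun _ n => n) = 0 ∧
          (D.prod fun v n => val v ^ n) = 1

/-- `M` is a Néron model over `𝓞 L` of the base change of `A` to `L`. -/
structure Neron (g : ℕ) {B L : Type} [CommRing B] [Field L] (c : B →+* L)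
    (A : Over (Spec (.of B))) (M : Over (Spec (.of (𝓞 L)))) : Prop where
  smooth : SmoothOfRelativeDimension g M.hom
  sep : IsSeparated M.hom
  qc : QuasiCompact M.hom
  gen : Nonempty ((Over.pullback (Spec.map (CommRingCat.ofHom (algebraMap (𝓞 L) L)))).obj M ≅
    (Over.pullback (Spec.map (CommRingCat.ofHom c))).obj A)
  nmp : ∀ Y : Over (Spec (.of (𝓞 L))), Smooth Y.hom →
    Function.Bijective fun v : Y ⟶ M => fst Y (sp (algebraMap (𝓞 L) L)) ≫ v

/-- The differential form `d t₁ ∧ ⋯ ∧ d t_g`. -/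
def dw {g : ℕ} {F : Type} [CommRing F] (t : Fin g → F) : ⋀[F]^g Ω[F⁄ℤ] :=
  exteriorPower.ιMulti F g fun i => KaehlerDifferential.D ℤ F (t i)

/-- The forms of degree `g` on the function field that are regular at every point. -/
def Lam (g : ℕ) (M : Scheme.{0}) [IsIntegral M] :
    AddSubgroup (⋀[M.functionField]^g Ω[M.functionField⁄ℤ]) :=
  ⨅ x : M, AddSubgroup.closure {α | ∃ (a : M.presheaf.stalk x) (t : Fin g → M.presheaf.stalk x),
    α = algebraMap _ M.functionField a • dw fun i => algebraMap _ M.functionField (t i)}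

variable {g : ℕ} {L : Type} [Field L] [NumberField L] (M : Over (Spec (.of (𝓞 L))))
  [IsIntegral M.left]

/-- The constant functions. -/
def cst : 𝓞 L →+* M.left.functionField :=
  ((Scheme.ΓSpecIso (.of (𝓞 L))).inv ≫ M.hom.appTop ≫
    M.left.presheaf.germ ⊤ (genericPoint M.left) trivial).hom

/-- The integral of `|α ∧ conj α| / 2 ^ g` over the complex points above `σ`, computed in affine
charts `U` with coordinates `t` in which `α = h d t₁ ∧ ⋯ ∧ d t_g`. -/
def nsq (σ : L →+* ℂ) (α : ⋀[M.left.functionField]^g Ω[M.left.functionField⁄ℤ]) : ℝ≥0∞ :=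
  ⨆ (U : M.left.Opens) (_ : IsAffineOpen U) (_ : Nonempty U) (t : Fin g → Γ(M.left, U))
    (h : Γ(M.left, U)) (_ : α = algebraMap _ M.left.functionField h •
      dw fun i => algebraMap _ M.left.functionField (t i)),
    ∫⁻ z : Fin g → ℂ, ∑' P : {P : Γ(M.left, U) →+* ℂ //
      (∀ c a, algebraMap _ M.left.functionField a = cst M c → P a = σ c) ∧ ∀ i, P (t i) = z i},
      ‖P.1 h‖ₑ ^ 2

/-- The arithmetic degree of the lattice of regular forms, divided by `[L : ℚ]`, computed with
the form `α`. -/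
def hF (α : ⋀[M.left.functionField]^g Ω[M.left.functionField⁄ℤ]) : EReal :=
  (ENNReal.log (ENat.card (Lam g M.left ⧸
      (AddSubgroup.closure {β | ∃ c, β = cst M c • α}).addSubgroupOf (Lam g M.left))) -
    (∑ σ : L →+* ℂ, ENNReal.log (nsq M σ α)) / 2) / Module.finrank ℚ L

/-- The Faltings height of `A` over all sufficiently large number fields is at most `H`. -/
def HLe (g : ℕ) {B k : Type} [CommRing B] [Field k] (b : B →+* k) (A : Over (Spec (.of B)))
    (H : ℕ) : Prop :=
  ∃ (K : Type) (_ : Field K) (_ : NumberField K) (i : k →+* K),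
    ∀ (L : Type) [Field L] [NumberField L] (e : K →+* L) (M : Over (Spec (.of (𝓞 L))))
      [IsIntegral M.left], Neron g (e.comp (i.comp b)) A M →
      ∀ α ∈ Lam g M.left, α ≠ 0 → hF M α ≤ H

end

end Pool.Agent.Lib.MP_07b2d0_nt.Fh
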