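import Pool.Agent.Lib.MP_07b2d0_nt.Fh.St
import Pool.Agent.Lib.MP_07b2d0_nt.Fh.Stmt

/-!
Comparison of the two forms of the definitions.
-/

set_option autoImplicit false

namespace Pool.Agent.Lib.MP_07b2d0_nt.Fh

open CategoryTheory AlgebraicGeometry Polynomial NumberField

variable {g H : ℕ} {B k : Type} [CommRing B] [Field k] {b : B →+* k} {f : k[X]}
  {A : Over (Spec (.of B))}

theorem of_abJac (h : St.AbJac g b f A) : ∃ (_ : GrpObj A) (_ : IsCommMonObj A)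
    (_ : IsProper A.hom) (j : sp ((algebraMap k (Crv f)).comp b) ⟶ A), IsJac b f A j := by
  obtain ⟨h1, -, i1, i2, j, h⟩ := h
  refine ⟨i1, i2, h1, j, fun Ω F _ _ _ _ _ ρ h2 h3 h4 => ?_⟩
  obtain ⟨val, ⟨h5, h6⟩, h7⟩ := h Ω F ρ h2 h3 h4
  exact ⟨val, h7, h5, h6⟩

theorem HLe.st (h : HLe g b A H) : St.HLe g b A H := by
  obtain ⟨K, _, _, i, h⟩ := h
  exact ⟨K, _, inferInstance, i, fun L _ _ e M _ hM =>
    h L e M ⟨hM.smooth, hM.sep, hM.qc, hM.gen, hM.nmp⟩⟩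

end Pool.Agent.Lib.MP_07b2d0_nt.Fh
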