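import Pool.Agent.Lib.MP_07b2d0_nt.Fh.Kl
import Pool.Agent.Lib.MP_07b2d0_nt.Fh.StB

/-!
The three effective bounds for the Faltings height.
-/

set_option autoImplicit false

namespace Pool.Agent.Lib.MP_07b2d0_nt.Fh

open CategoryTheory AlgebraicGeometry Polynomial NumberField

theorem pell_main : ∃ c : ℕ × ℕ × ℕ → ℕ, Computable c ∧
    ∀ (N g : ℕ) (k : Type) [Field k] [NumberField k] (A : Over (Spec (.of (ON k N))))
      [GrpObj A] [IsCommMonObj A] [IsProper A.hom]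
      (f : k[X]) (u w : (AlgebraicClosure k)[X])
      (j : sp ((algebraMap k (Crv f)).comp (algebraMap (ON k N) k)) ⟶ A),
      0 < N → 2 ≤ g → (∀ p : ℕ, p.Prime → (p : ℤ) ∣ discr k → p ∣ N) →
      f.Monic → f.Separable → f.natDegree = 2 * g + 2 → w ≠ 0 →
      u ^ 2 - f.map (algebraMap k (AlgebraicClosure k)) * w ^ 2 = 1 →
      IsJac (algebraMap (ON k N) k) f A j →
      HLe g (algebraMap (ON k N) k) A (c (N, g, Module.finrank ℚ k)) := by
  obtain ⟨c, hc, H⟩ := pell_bound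
  refine ⟨fin3 c, (pr_fin3 hc).to_comp, ?_⟩
  intro N g k _ _ A _ _ _ f u w j hN hg hk hm hs hd hw hP hJ
  obtain ⟨K, _, _, _, hD, hK, hsp⟩ := hJ.exists_field hN hg hk hs hd
  obtain ⟨a, ha, hf⟩ := exists_enum hs.map hsp ((natDegree_map _).trans hd)
  rw [(hm.map _).leadingCoeff] at hf
  obtain ⟨F, _, _, _, x, y, h1, h2, h3, h4⟩ := hJ.exists_tate hN hs (by omega) K hf
  let ψ : AlgebraicClosure k →ₐ[k] AlgebraicClosure K := IsAlgClosed.lift
  refine hJ.hLe (by omega) hs hd (algebraMap k K) ha hf fun p q s t _ =>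
    H (2 * N) _ _ K F x y a (u.map ψ) (w.map ψ) (dvd_mul_right _ _) (by omega) hK hD ha h1 h2
      (by simpa using h3) (by simpa using hw) ?_ h4 p q s t
  have h5 := congrArg (Polynomial.map (ψ : AlgebraicClosure k →+* AlgebraicClosure K)) hP
  rw [Polynomial.map_sub, Polynomial.map_mul, Polynomial.map_map, ψ.comp_algebraMap,
    IsScalarTower.algebraMap_eq k K (AlgebraicClosure K), ← Polynomial.map_map, hf] at h5
  simpa [Polynomial.map_prod] using h5

theorem g2_main : ∃ c : ℕ → ℕ → ℕ, Computable₂ c ∧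
    ∀ (N : ℕ) (k : Type) [Field k] [NumberField k] (A : Over (Spec (.of (ON k N))))
      [GrpObj A] [IsCommMonObj A] [IsProper A.hom]
      (f : k[X]) (c₀ : AlgebraicClosure k) (a : Fin 6 → AlgebraicClosure k)
      (j : sp ((algebraMap k (Crv f)).comp (algebraMap (ON k N) k)) ⟶ A)
      (O : Finset (Finset (Fin 6))),
      0 < N → (∀ p : ℕ, p.Prime → (p : ℤ) ∣ discr k → p ∣ N) → f.Separable →
      f.map (algebraMap k (AlgebraicClosure k)) = C c₀ * ∏ i, (X - C (a i)) →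
      IsJac (algebraMap (ON k N) k) f A j →
      O.card = 4 → (∀ T ∈ O, T.card = 3 ∧ 0 ∈ T) →
      (∀ i l, i ≠ l → ∃ T ∈ O, ¬(i ∈ T ↔ l ∈ T)) →
      (∀ V : ValuationSubring (AlgebraicClosure k), (N : AlgebraicClosure k)⁻¹ ∈ V →
        ∀ T ∈ O, ∃ i ∈ T, ∃ i' ∈ T, ∃ l ∉ T, ∃ l' ∉ T,
          V.valuation (a i - a l) * V.valuation (a i' - a l') ≤
            V.valuation (a i - a i') * V.valuation (a l - a l')) →
      HLe 2 (algebraMap (ON k N) k) A (c N (Module.finrank ℚ k)) := by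
  obtain ⟨c, hc, H⟩ := g2_bound
  refine ⟨fun N D => fin3 c (N, 2, D),
    ((pr_fin3 hc).comp (.pair .fst (.pair (.const _) .snd))).to_comp, ?_⟩
  intro N k _ _ A _ _ _ f c₀ a j O hN hk hs hf hJ hO hO' hp hV
  have h0 : c₀ ≠ 0 := fun h => (hs.map (f := algebraMap k (AlgebraicClosure k))).ne_zero
    (by rw [hf, h, C_0, zero_mul])
  have hd : f.natDegree = 2 * 2 + 2 := by
    rw [← natDegree_map (algebraMap k (AlgebraicClosure k)), hf, natDegree_prod_X_sub h0]
  obtain ⟨K, _, _, _, hD, hK, hsp⟩ := hJ.exists_field hN le_rfl hk hs hd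
  let ψ : AlgebraicClosure k →ₐ[k] AlgebraicClosure K := IsAlgClosed.lift
  obtain ⟨b, hb, hab, hf'⟩ := exists_pull (algebraMap K (AlgebraicClosure K)) hs.map hsp
    (c := ψ c₀) (a := fun i => ψ (a i)) (by
      rw [Polynomial.map_map, ← IsScalarTower.algebraMap_eq, ← ψ.comp_algebraMap,
        ← Polynomial.map_map, hf]
      simp [Polynomial.map_prod])
  obtain ⟨F, _, _, _, x, y, h1, h2, h3, h4⟩ := hJ.exists_tate hN hs (by omega) K hf'
  refine hJ.hLe (g := 2) (by omega) hs hd (algebraMap k K) hb hf'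
    (H (2 * N) _ K F x y _ b O (dvd_mul_right _ _) (by omega) hK hD hb
      (leadingCoeff_ne_zero.2 (hs.map (f := algebraMap k K)).ne_zero) h1 h2 h3 h4 hO hO' hp
      fun v hv T hT => ?_)
  obtain ⟨V, hv'⟩ := exists_val_of_place v
  obtain ⟨i, hi, i', hi', l, hl, l', hl', h5⟩ := hV (V.comap (ψ : _ →+* _)) (by
    have h6 := (hv' (N : K)⁻¹ 1).2 (by
      rw [map_inv₀, fp_eq_one_of_dvd (dvd_mul_left N 2) hv, inv_one, map_one])
    rw [map_one, map_one, V.valuation_le_one_iff] at h6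
    simpa using h6) T hT
  refine ⟨i, hi, i', hi', l, hl, l', hl', ?_⟩
  rw [← map_mul, ← map_mul, ValuationSubring.valuation_le_iff] at h5
  obtain ⟨z, hz⟩ := h5
  rw [← map_mul, ← map_mul, ← hv', ValuationSubring.valuation_le_iff]
  exact ⟨⟨ψ z, z.2⟩, by simpa [hab] using congrArg ψ hz⟩

theorem klein_main : ∃ c : ℕ × ℕ × ℕ → ℕ, Computable c ∧
    ∀ (N : ℕ) (g : Fin 3 → ℕ) (k : Type) [Field k] [NumberField k]
      (A : Fin 3 → Over (Spec (.of (ON k N)))) [∀ i, GrpObj (A i)] [∀ i, IsCommMonObj (A i)]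
      [∀ i, IsProper (A i).hom]
      (f : Fin 3 → k[X]) (j : ∀ i,
        sp ((algebraMap k (Crv (f (i + 1) * f (i + 2)))).comp (algebraMap (ON k N) k)) ⟶ A i),
      0 < N → (∀ p : ℕ, p.Prime → (p : ℤ) ∣ discr k → p ∣ N) → (∏ i, f i).Separable →
      (∀ i, (f (i + 1) * f (i + 2)).natDegree = 2 * g i + 2) → (∃ i, 2 ≤ g i) →
      (∀ i, (f i).natDegree = 1 → (f (i + 1)).natDegree ≠ 1) →
      (∀ i, IsJac (algebraMap (ON k N) k) (f (i + 1) * f (i + 2)) (A i) (j i)) →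
      ∀ i, 0 < g i →
        HLe (g i) (algebraMap (ON k N) k) (A i) (c (N, ∑ n, g n, Module.finrank ℚ k)) := by
  obtain ⟨c, hc, H⟩ := klein_bound
  refine ⟨fin4 c, (pr_fin4 hc).to_comp, ?_⟩
  intro N g k _ _ A _ _ _ f j hN hk hs hd hm h1 hJ i hi
  have hs' := fun i => hs.of_dvd (pair_dvd f i)
  have h0 := fun i => (hs.of_dvd (Finset.dvd_prod_of_mem f (Finset.mem_univ i))).ne_zero
  obtain ⟨hG, h2, h3⟩ := deg_facts (d := fun i => (f i).natDegree)
    (fun i => (natDegree_mul (h0 _) (h0 _)).symm.trans (hd i)) hm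
  obtain ⟨K, _, _, _, hD, hK, hsp⟩ := exists_field_of_fix (M := 2 * N)
    (fun p hp h => (hk p hp h).mul_left 2) hs fun σ hσ r hr => by
      rw [map_prod, Finset.prod_eq_zero_iff] at hr
      obtain ⟨n, -, hr⟩ := hr
      rcases h2 n with h2 | h2 | h2
      · exact fix_of_natDegree_le (h0 n) h2 σ hr
      · exact (hJ _).root_fix hN h2 (hs' _) (hd _) hσ (by
          rw [map_mul, (by decide : ∀ n : Fin 3, n + 1 + 2 = n) n, hr, mul_zero])
      · exact (hJ _).root_fix hN h2 (hs' _) (hd _) hσ (by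
          rw [map_mul, (by decide : ∀ n : Fin 3, n + 2 + 1 = n) n, hr, zero_mul])
  rw [natDegree_prod _ _ fun n _ => h0 n, hG] at hD
  obtain ⟨a, c₀, ha, hf⟩ := exists_enum3 _ hs hsp
  have hL := fun i => (hJ i).locK hN (hs' i) (hd i) ha (hf i)
  have h4 := (hs' i).map (f := algebraMap k K)
  obtain ⟨b, hb, hb'⟩ := exists_enum h4 (hsp.of_dvd (hs.map (f := algebraMap k K)).ne_zero
    (Polynomial.map_dvd _ (pair_dvd f i))) ((natDegree_map _).trans (hd i))
  refine ((hJ i).hLe hi (hs' i) (hd i) (algebraMap k K) hb hb' (cr_sub hb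
    (fun h => h4.ne_zero (by rw [hf, h, C_0, zero_mul])) (hb'.symm.trans (hf i))
    (H (2 * N) _ K _ a Sigma.fst (by omega) hK hD ha (fun i => (hL i).1) (fun i => (hL i).2) h3
      fun p l _ => colours (hG ▸ Nat.le_add_left _ _) h1 p l))).mono ?_
  have := Finset.single_le_sum (fun n _ => Nat.zero_le (g n)) (Finset.mem_univ i)
  unfold fin4
  gcongr

end Pool.Agent.Lib.MP_07b2d0_nt.Fh
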